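import Mathlib

/-!
Definitions used in the statements on pressure functions of Anosov diffeomorphisms of the torus.
-/

open MeasureTheory Filter Topology

namespace Pool.Agent.MP_80da8f_an

/-- Shannon entropy of the finite partition of `X` into the fibres of `ξ`. -/
noncomputable def shannon {X A : Type} [MeasurableSpace X] [Fintype A] (μ : Measure X)
    (ξ : X → A) : ℝ :=
  ∑ a, Real.negMulLog (μ.real (ξ ⁻¹' {a}))

/-- The itinerary of length `n`; its fibres form the join of the partitions `f⁻ⁱ ξ`, `i < n`. -/
def itin {X A : Type} (f : X → X) (ξ : X → A) (n : ℕ) (x : X) : Fin n → A :=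
  fun i => ξ (f^[i] x)

/-- Entropy of `f` with respect to a finite partition: the limit of `H(ξ ∨ … ∨ f^{-(n-1)} ξ) / n`
(written as an upper limit). -/
noncomputable def partEntropy {X A : Type} [MeasurableSpace X] [Fintype A] [DecidableEq A]
    (μ : Measure X) (f : X → X) (ξ : X → A) : EReal :=
  limsup (fun n : ℕ => ((shannon μ (itin f ξ n) / n : ℝ) : EReal)) atTop

/-- Kolmogorov-Sinai entropy: supremum over all finite measurable partitions. -/
noncomputable def ksEntropy {X : Type} [MeasurableSpace X] (μ : Measure X) (f : X → X) : EReal :=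
  ⨆ (k : ℕ) (ξ : X → Fin k) (_ : Measurable ξ), partEntropy μ f ξ

/-- Pressure of a potential: supremum of entropy plus integral over all invariant probability
measures. -/
noncomputable def pressure {X : Type} [MeasurableSpace X] (f : X → X) (φ : X → ℝ) : EReal :=
  ⨆ (μ : Measure X) (_ : IsProbabilityMeasure μ) (_ : MeasurePreserving f μ μ),
    ksEntropy μ f + ((∫ x, φ x ∂μ : ℝ) : EReal)

/-- The Euclidean plane. -/
abbrev E2 : Type := EuclideanSpace ℝ (Fin 2)

/-- The torus `ℝ² / ℤ²`. -/
abbrev T2 : Type := Fin 2 → UnitAddCircle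

/-- The covering map from the plane to the torus. -/
def proj (x : E2) : T2 := fun i => ((x i : ℝ) : UnitAddCircle)

/-- A point of the plane above a given point of the torus. -/
noncomputable def sec (p : T2) : E2 := WithLp.toLp 2 (fun i => (Quotient.out (p i) : ℝ))

/-- The derivative of a map of the plane, as a linear map. -/
noncomputable def der (F : E2 → E2) (x : E2) : E2 →ₗ[ℝ] E2 := (fderiv ℝ F x).toLinearMap

/-- The map is of class `C²`. -/
def IsC2 (F : E2 → E2) : Prop := ContDiff ℝ 2 F

/-- The field of subspaces `E` on the torus is invariant under the derivative of the lift `F`. -/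
def InvField (F : E2 → E2) (E : T2 → Submodule ℝ E2) : Prop :=
  ∀ x, (E (proj x)).map (der F x) = E (proj (F x))

/-- The derivatives of the iterates of `F` contract the vectors of the field `E` uniformly. -/
def Contracts (F : E2 → E2) (E : T2 → Submodule ℝ E2) (C lam : ℝ) : Prop :=
  ∀ (x : E2) (n : ℕ), ∀ v ∈ E (proj x), ‖der (F^[n]) x v‖ ≤ C * lam ^ n * ‖v‖

/-- The plane is the direct sum of `Es p` and the line `Eu p` at every point `p`. -/
def Splits (Eu Es : T2 → Submodule ℝ E2) : Prop :=
  ∀ p, Module.finrank ℝ (Eu p) = 1 ∧ IsCompl (Es p) (Eu p)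

/-- `f` is an Anosov diffeomorphism of the torus of class `C²`, `F` is a lift of it to the plane,
`Eu` is its unstable line field and `Es` its stable line field. -/
structure IsAnosov (f : T2 → T2) (F : E2 ≃ E2) (Eu Es : T2 → Submodule ℝ E2) : Prop where
  bij : Function.Bijective f
  smooth : IsC2 F
  smooth_inv : IsC2 F.symm
  lift : ∀ x, proj (F x) = f (proj x)
  splits : Splits Eu Es
  inv_u : InvField F Eu
  inv_s : InvField F Es
  hyp : ∃ C lam : ℝ, 0 < C ∧ 0 < lam ∧ lam < 1 ∧ Contracts F Es C lam ∧ Contracts F.symm Eu C lam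

/-- The operator norm of the restriction of a continuous linear map to a subspace. -/
noncomputable def normOn (A : E2 →L[ℝ] E2) (V : Submodule ℝ E2) : ℝ := ‖A.comp V.subtypeL‖

/-- The potential `- log |Df restricted to Eu|`; the geometric potential is `t` times it. -/
noncomputable def geomPot (F : E2 → E2) (Eu : T2 → Submodule ℝ E2) (p : T2) : ℝ :=
  -Real.log (normOn (fderiv ℝ F (sec p)) (Eu p))

end Pool.Agent.MP_80da8f_an
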