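import Pool.Agent.MP_80da8f_an.Stm

open MeasureTheory Filter Topology

namespace Pool.Agent.MP_80da8f_an

section sTG

theorem tg_succ {X : Type} [MetricSpace X] (f : X → X) (ψ : X → ℝ) (K : ℝ) (c : ℕ → X) (n : ℕ) :
    cost f ψ K c (n + 1) = cost f ψ K c n + (ψ (c n) + K * dist (f (c n)) (c (n + 1))) :=
  Finset.sum_range_succ _ _

theorem tg_app {X : Type} [MetricSpace X] (f : X → X) (ψ : X → ℝ) (K : ℝ) (c : ℕ → X) (n : ℕ)
    (y : X) : ∃ c' : ℕ → X, c' 0 = c 0 ∧ c' (n + 1) = y ∧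
      cost f ψ K c' (n + 1) = cost f ψ K c n + (ψ (c n) + K * dist (f (c n)) y) := by
  have h : (fun j => if j = 0 then c n else y) 0 = c n := rfl
  refine ⟨cat c n fun j => if j = 0 then c n else y, cat_left h n.zero_le, cat_right _ _ _ 1, ?_⟩
  rw [cost_cat f ψ K (c' := fun j => if j = 0 then c n else y) h]
  simp [cost]

theorem sMane : SMane := by
  intro X _ _ _ _ _ f e η C2 hT hη hC hH ψ K hK hψ h0
  obtain ⟨B, hB⟩ := isCompact_univ.exists_bound_of_continuousOn (hψ.continuous hK).continuousOn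
  replace hB : ∀ x, |ψ x| ≤ B := fun x => hB x trivial
  obtain ⟨z⟩ := ‹Nonempty X›
  have hB0 : 0 ≤ B := (abs_nonneg _).trans (hB z)
  obtain ⟨M, hM⟩ := hT η hη
  have hK0 : 0 ≤ K * C2 := mul_nonneg hK hC
  obtain ⟨A, hA0, hA⟩ : ∃ A : ℝ, 0 ≤ A ∧ A * η = (M + 1) * B + M * (K * C2 * η) :=
    ⟨_, by positivity, div_mul_cancel₀ _ hη.ne'⟩
  have hK' : 0 ≤ K * C2 + A := by positivity
  have step : ∀ x y, ∃ n, 1 ≤ n ∧ ∃ c : ℕ → X, c 0 = x ∧ c n = y ∧ IsChain f η c n ∧
      cost f ψ (K * C2) c n ≤ ψ x + (K * C2 + A) * dist (f x) y := by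
    intro x y
    have hd : 0 ≤ dist (f x) y := dist_nonneg
    by_cases h : dist (f x) y ≤ η
    · refine ⟨1, le_rfl, fun j => if j = 0 then x else y, rfl, rfl, fun j hj => ?_, ?_⟩
      · obtain rfl : j = 0 := by omega
        exact h
      · have : cost f ψ (K * C2) (fun j => if j = 0 then x else y) 1 =
            ψ x + K * C2 * dist (f x) y := by simp [cost]
        linarith only [mul_nonneg hA0 hd, this]
    · obtain ⟨n, h1, h2, c, h3, h4, h5⟩ := hM x y
      refine ⟨n, h1, c, h3, h4, h5, ?_⟩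
      have h6 : cost f ψ (K * C2) c n ≤ n * (B + K * C2 * η) := by
        have := Finset.sum_le_card_nsmul (Finset.range n)
          (fun j => ψ (c j) + K * C2 * dist (f (c j)) (c (j + 1))) (B + K * C2 * η) fun j hj =>
            add_le_add (le_of_abs_le (hB _))
              (mul_le_mul_of_nonneg_left (h5 j (Finset.mem_range.1 hj)) hK0)
        rwa [Finset.card_range, nsmul_eq_mul] at this
      have h7 : (n : ℝ) * (B + K * C2 * η) ≤ M * (B + K * C2 * η) :=
        mul_le_mul_of_nonneg_right (Nat.cast_le.2 h2) (by positivity)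
      linarith only [mul_le_mul_of_nonneg_left (not_le.1 h).le hA0, mul_nonneg hK0 hd, neg_le_of_abs_le (hB x), hA, h6, h7]
  have rep : ∀ (c : ℕ → X) (n : ℕ), ∃ n', n ≤ n' ∧ ∃ c' : ℕ → X, c' 0 = c 0 ∧ c' n' = c n ∧
      IsChain f η c' n' ∧ cost f ψ (K * C2) c' n' ≤ cost f ψ (K * C2 + A) c n := by
    intro c n
    induction n with
    | zero => exact ⟨0, le_rfl, c, rfl, rfl, fun j hj => absurd hj j.not_lt_zero, by simp [cost]⟩
    | succ n ih =>
      obtain ⟨n', a1, c', a2, a3, a4, a5⟩ := ih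
      obtain ⟨m, b1, d, b2, b3, b4, b5⟩ := step (c n) (c (n + 1))
      have h := b2.trans a3.symm
      refine ⟨n' + m, by omega, cat c' n' d, (cat_left h n'.zero_le).trans a2,
        (cat_right _ _ _ _).trans b3, a4.cat h b4, ?_⟩
      rw [cost_cat f ψ _ h, tg_succ]
      exact add_le_add a5 b5
  have cl : ∀ (c : ℕ → X) (n : ℕ), c (n + 1) = c 0 → 0 ≤ cost f ψ (K * C2 + A) c (n + 1) := by
    intro c n h
    obtain ⟨m, a1, c', a2, a3, a4, a5⟩ := rep c (n + 1)
    obtain ⟨μ, b1, -, b2⟩ := hH ψ K hK hψ 1 m le_rfl (by omega) (c 0) (fun _ => c') _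
      (fun _ => ⟨a2, a3.trans h, a4, a5⟩) fun i i' hi => absurd (Subsingleton.elim i i') hi
    have hm : (0 : ℝ) < m := Nat.cast_pos.2 (by omega)
    simpa only [ge_iff_le, zero_mul] using (le_div_iff₀ hm).1 ((h0 μ b1).trans b2)
  let S : X → Set ℝ := fun y =>
    {r | ∃ (n : ℕ) (c : ℕ → X), c 0 = z ∧ c (n + 1) = y ∧ cost f ψ (K * C2 + A) c (n + 1) = r}
  have hne : ∀ y, (S y).Nonempty := fun y => by
    obtain ⟨c, a1, a2, -⟩ := tg_app f ψ (K * C2 + A) (fun _ => z) 0 y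
    exact ⟨_, 0, c, a1, a2, rfl⟩
  have hbd : ∀ y, BddBelow (S y) := fun y => ⟨-(ψ y + (K * C2 + A) * dist (f y) z), by
    rintro _ ⟨n, c, a1, rfl, rfl⟩
    obtain ⟨c', b1, b2, b3⟩ := tg_app f ψ (K * C2 + A) c (n + 1) z
    have := cl c' _ (by rw [b2, b1, a1])
    linarith only [b3, this]⟩
  have hl : ∀ x y, sInf (S x) - (K * C2 + A) * dist x y ≤ sInf (S y) := fun x y =>
    le_csInf (hne y) (by
      rintro _ ⟨n, c, a1, rfl, rfl⟩
      obtain ⟨c', b1, b2, b3⟩ := tg_app f ψ (K * C2 + A) c n x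
      have h1 := csInf_le (hbd x) ⟨n, c', b1.trans a1, b2, b3⟩
      have h2 := mul_le_mul_of_nonneg_left (dist_triangle_right (f (c n)) x (c (n + 1))) hK'
      rw [tg_succ]
      linarith)
  refine ⟨fun y => sInf (S y), _, hK', fun x y => abs_le.2 ⟨?_, ?_⟩, fun x => ?_⟩
  · have := hl y x
    rw [dist_comm] at this
    linarith
  · linarith [hl x y]
  · have : sInf (S (f x)) - ψ x ≤ sInf (S x) := le_csInf (hne x) (by
      rintro _ ⟨n, c, a1, rfl, rfl⟩
      obtain ⟨c', b1, b2, b3⟩ := tg_app f ψ (K * C2 + A) c (n + 1) (f (c (n + 1)))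
      have h1 := csInf_le (hbd _) ⟨n + 1, c', b1.trans a1, b2, b3⟩
      rw [dist_self, mul_zero] at h1
      linarith)
    linarith

end sTG

section sTH

section th
variable {X : Type} [MetricSpace X] {f : X → X} {ψ : X → ℝ} {L K ε ε' r : ℝ} {x x' : X}

theorem th_mono (h : x ∈ Om f ψ ε) (he : ε ≤ ε') : x ∈ Om f ψ ε' :=
  let ⟨n, h1, c, h2, h3, h4, h5⟩ := h
  ⟨n, h1, c, h2, h3, h4.mono he, h5.trans he⟩

/-- all points of a closed chain lie on a closed chain of the same cost -/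
theorem th_rot (h : x ∈ Om f ψ ε) : ∃ n, 1 ≤ n ∧ ∃ c : ℕ → X, c 0 = x ∧ c n = x ∧
    IsChain f ε c n ∧ ∀ j, c j ∈ Om f ψ ε := by
  obtain ⟨n, h1, c, h2, h3, h4, h5⟩ := h
  have e : ∀ j ≤ n, c (j % n) = c j := fun j hj => by
    rcases hj.eq_or_lt with rfl | hj
    · rw [Nat.mod_self, h2, h3]
    · rw [Nat.mod_eq_of_lt hj]
  have h6 : ∀ j, dist (f (c (j % n))) (c ((j + 1) % n)) ≤ ε := fun j => by
    have h7 := Nat.mod_lt j h1
    rw [← Nat.mod_add_mod, e _ h7]
    exact h4 _ h7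
  have h7 : ∀ i, ∑ j ∈ Finset.range n, ψ (c ((i + j) % n)) ≤ ε := fun i => by
    induction i with
    | zero =>
      refine le_of_eq_of_le (Finset.sum_congr rfl fun j hj => ?_) h5
      rw [zero_add, e j (Finset.mem_range.1 hj).le]
    | succ i ih =>
      have h8 := Finset.sum_range_succ (fun j => ψ (c ((i + j) % n))) n
      rw [Finset.sum_range_succ', Nat.add_mod_right, add_zero, add_left_inj] at h8
      refine le_of_eq_of_le (Eq.trans (Finset.sum_congr rfl fun j _ => ?_) h8) ih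
      rw [add_assoc, add_comm 1 j]
  refine ⟨n, h1, fun j => c (j % n), by simpa using h2, by simpa using h2, fun j _ => h6 j,
    fun i => ⟨n, h1, fun j => c ((i + j) % n), rfl, by simp, fun j _ => h6 (i + j), h7 i⟩⟩

theorem th_jump (hf : ∀ x y, dist (f x) (f y) ≤ L * dist x y) (hL : 1 ≤ L) {a a' b b' : X}
    (h : dist (f a) b ≤ ε) (ha : dist a a' ≤ r) (hb : dist b b' ≤ r) :
    dist (f a') b' ≤ ε + (L + 1) * r := by
  have h1 := dist_triangle4 (f a') (f a) b b'
  have h2 := hf a' a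
  rw [dist_comm a' a] at h2
  have h3 : L * dist a a' ≤ L * r := mul_le_mul_of_nonneg_left ha (by linarith)
  linarith

theorem th_move (hf : ∀ x y, dist (f x) (f y) ≤ L * dist x y) (hL : 1 ≤ L) (hK : 0 ≤ K)
    (hψ : Lip K ψ) (h : x ∈ Om f ψ ε) (hd : dist x x' ≤ r) :
    x' ∈ Om f ψ (ε + (L + 1 + K) * r) := by
  obtain ⟨n, h1, c, h2, h3, h4, h5⟩ := h
  have hr : 0 ≤ r := dist_nonneg.trans hd
  have h6 : ∀ j, dist (c j) (if j = 0 ∨ j = n then x' else c j) ≤ r := fun j => by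
    split_ifs with hj
    · rcases hj with rfl | rfl
      · rwa [h2]
      · rwa [h3]
    · simpa only [dist_self] using hr
  have h7 : 0 ≤ K * r := mul_nonneg hK hr
  have h8 : 0 ≤ (L + 1) * r := mul_nonneg (by linarith only [hL]) hr
  refine ⟨n, h1, fun j => if j = 0 ∨ j = n then x' else c j, by simp, by simp, fun j hj =>
    (th_jump hf hL (h4 j hj) (h6 j) (h6 (j + 1))).trans (by linarith only [h7]), ?_⟩
  obtain ⟨m, rfl⟩ := Nat.exists_eq_add_of_le' h1
  rw [Finset.sum_range_succ'] at h5 ⊢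
  rw [Finset.sum_congr rfl fun j hj => congrArg ψ (if_neg (by
    have := Finset.mem_range.1 hj
    omega))]
  have h9 := (abs_le.1 (hψ x x')).1
  have h10 : K * dist x x' ≤ K * r := mul_le_mul_of_nonneg_left hd hK
  rw [h2] at h5
  simp only [true_or, if_true]
  linarith only [h8, h5, h9, h10]

theorem th_lim (hf : ∀ x y, dist (f x) (f y) ≤ L * dist x y) (hL : 1 ≤ L) (hK : 0 ≤ K)
    (hψ : Lip K ψ) (h : ∀ δ > (0 : ℝ), ∃ x' ∈ Om f ψ δ, dist x' x ≤ δ) : x ∈ Aub f ψ := by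
  intro ε hε
  have h0 : 0 < L + 2 + K := by linarith
  obtain ⟨x', h1, h2⟩ := h (ε / (L + 2 + K)) (div_pos hε h0)
  refine th_mono (th_move hf hL hK hψ h1 h2) (le_of_eq ?_)
  field_simp
  ring

theorem th_cl [CompactSpace X] (hf : ∀ x y, dist (f x) (f y) ≤ L * dist x y) (hL : 1 ≤ L)
    (hK : 0 ≤ K) (hψ : Lip K ψ) {y : ℕ → X} (h : ∀ k : ℕ, y k ∈ Om f ψ (1 / ((k : ℝ) + 1))) :
    ∃ w ∈ Aub f ψ, ∃ φ : ℕ → ℕ, StrictMono φ ∧ Tendsto (y ∘ φ) atTop (𝓝 w) := by
  obtain ⟨w, φ, h1, h2⟩ := CompactSpace.tendsto_subseq y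
  refine ⟨w, th_lim hf hL hK hψ fun δ hδ => ?_, φ, h1, h2⟩
  have h3 := (tendsto_one_div_add_atTop_nhds_zero_nat (𝕜 := ℝ)).comp h1.tendsto_atTop
  obtain ⟨k, h4, h5⟩ := ((h3.eventually (ge_mem_nhds hδ)).and
    (h2.eventually (Metric.closedBall_mem_nhds w hδ))).exists
  exact ⟨y (φ k), th_mono (h _) h4, h5⟩

theorem th_loop (hf : ∀ x y, dist (f x) (f y) ≤ L * dist x y) (hL : 1 ≤ L) (hN : Near f ψ)
    {η : ℝ} (hη : 0 < η) (hx : x ∈ Aub f ψ) : ∃ n, 1 ≤ n ∧ ∃ c : ℕ → X, (∀ j, c j ∈ Aub f ψ) ∧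
      c 0 = x ∧ c n = x ∧ IsChain f η c n := by
  have h0 : 0 < η / 2 / (L + 1) := div_pos (half_pos hη) (by linarith)
  obtain ⟨ε, hε, h1⟩ := hN _ h0
  obtain ⟨n, h2, c, h3, h4, h5, h6⟩ := th_rot (hx _ (lt_min hε (half_pos hη)))
  choose a a1 a2 using fun j => h1 _ (th_mono (h6 j) (min_le_left _ _))
  have h7 : ∀ j, dist (c j) (if j = 0 ∨ j = n then x else a j) ≤ η / 2 / (L + 1) := fun j => by
    split_ifs with hj
    · rcases hj with rfl | rfl
      · simpa only [h3, dist_self] using h0.le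
      · simpa only [h4, dist_self] using h0.le
    · exact (a2 j).le
  refine ⟨n, h2, fun j => if j = 0 ∨ j = n then x else a j, fun j => ?_, by simp, by simp,
    fun j hj => (th_jump hf hL (h5 j hj) (h7 j) (h7 (j + 1))).trans ?_⟩
  · beta_reduce
    split_ifs
    exacts [hx, a1 j]
  · rw [mul_div_cancel₀ _ (by linarith only [hL])]
    linarith only [min_le_right ε (η / 2)]

theorem th_back (hf : ∀ x y, dist (f x) (f y) ≤ L * dist x y) (hL : 1 ≤ L) (hN : Near f ψ)
    {η : ℝ} (hη : 0 < η) (hx : x ∈ Aub f ψ) (hx' : x' ∈ Aub f ψ) (hd : dist (f x) x' ≤ η) :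
    ∃ n, 1 ≤ n ∧ ∃ c : ℕ → X, (∀ j ≤ n, c j ∈ Aub f ψ) ∧ c 0 = x' ∧ c n = x ∧
      IsChain f ((2 * L + 1) * η) c n := by
  obtain ⟨n, h1, c, h2, h3, h4, h5⟩ := th_loop hf hL hN hη hx
  have h6 := IsChain.cat (h3.trans h4.symm) h5 h5
  have h7 := cat_mem (p := (· ∈ Aub f ψ)) (n := n) (n' := n) (fun j _ => h2 j) fun j _ => h2 j
  have h8 : cat c n c 0 = x := (cat_left (h3.trans h4.symm) (Nat.zero_le n)).trans h3
  have h9 : cat c n c (n + n) = x := (cat_right c n c n).trans h4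
  generalize cat c n c = q at h6 h7 h8 h9
  refine ⟨n + n - 1, by omega, fun j => if j = 0 then x' else q (j + 1), fun j hj => ?_, rfl, ?_,
    fun j hj => ?_⟩
  · beta_reduce
    split_ifs
    exacts [hx', h7 _ (by omega)]
  · beta_reduce
    rw [if_neg (by omega), Nat.sub_add_cancel (by omega), h9]
  · have h10 := h6 (j + 1) (by omega)
    have h11 : 0 ≤ L * η := mul_nonneg (by linarith only [hL]) hη.le
    beta_reduce
    rw [if_neg (Nat.succ_ne_zero j)]
    split_ifs with hj0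
    · subst hj0
      have h12 := h6 0 (by omega)
      rw [h8] at h12
      have h13 := dist_triangle (f x') (f (q (0 + 1))) (q (0 + 1 + 1))
      have h14 := hf x' (q (0 + 1))
      have h15 := dist_triangle_left x' (q (0 + 1)) (f x)
      have h16 : L * dist x' (q (0 + 1)) ≤ L * (η + η) :=
        mul_le_mul_of_nonneg_left (by linarith only [hd, h12, h15]) (by linarith only [hL])
      linarith only [h10, h13, h14, h16]
    · linarith only [h10, h11]

end th

theorem sAub1 : SAub1 := by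
  intro X _ _ f L hL hf ψ K hK hψ h0
  refine ⟨fun x hx => le_antisymm (le_of_forall_pos_le_add fun ε hε => ?_) (h0 x),
    fun x hx => th_lim hf hL hK hψ fun δ hδ => ?_, fun x hx => ?_, fun r hr => ?_⟩
  · obtain ⟨n, h1, c, h2, -, -, h5⟩ := hx ε hε
    rw [zero_add, ← h2]
    exact (Finset.single_le_sum (f := fun j => ψ (c j)) (fun j _ => h0 _)
      (Finset.mem_range.2 h1)).trans h5
  · obtain ⟨n, h1, c, h2, -, h4, h5⟩ := th_rot (hx δ hδ)
    exact ⟨c 1, h5 1, by simpa [h2, dist_comm] using h4 0 h1⟩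
  · have h1 : ∀ k : ℕ, ∃ y ∈ Om f ψ (1 / ((k : ℝ) + 1)), dist (f y) x ≤ 1 / ((k : ℝ) + 1) :=
      fun k => by
        obtain ⟨n, h1, c, -, h3, h4, h5⟩ := th_rot (hx _ (Nat.one_div_pos_of_nat (n := k)))
        have h6 := h4 (n - 1) (by omega)
        rw [Nat.sub_add_cancel h1, h3] at h6
        exact ⟨_, h5 _, h6⟩
    choose y y1 y2 using h1
    obtain ⟨w, w1, φ, h2, h3⟩ := th_cl hf hL hK hψ y1
    refine ⟨w, w1, tendsto_nhds_unique (((continuous_of_lip hL hf).tendsto w).comp h3) ?_⟩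
    exact tendsto_iff_dist_tendsto_zero.2 (squeeze_zero (fun _ => dist_nonneg) (fun k => y2 (φ k))
      ((tendsto_one_div_add_atTop_nhds_zero_nat (𝕜 := ℝ)).comp h2.tendsto_atTop))
  · by_contra hn
    push Not at hn
    choose y y1 y2 using fun k : ℕ => hn _ (Nat.one_div_pos_of_nat (n := k))
    obtain ⟨w, w1, φ, -, h3⟩ := th_cl hf hL hK hψ y1
    obtain ⟨k, hk⟩ := (h3.eventually (Metric.ball_mem_nhds w hr)).exists
    exact (y2 (φ k) w w1).not_gt hk

theorem sAub2 : SAub2 := by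
  intro X _ f L hL hf ψ hN η hη n c hc h
  induction n with
  | zero =>
    obtain ⟨n, h1, c', h2, h3, h4, h5⟩ := th_loop hf hL hN hη (hc 0 le_rfl)
    exact ⟨n, h1, c', fun j _ => h2 j, h3, h4, h5.mono (by nlinarith only [hL, hη])⟩
  | succ n ih =>
    obtain ⟨n₁, a1, c₁, a2, a3, a4, a5⟩ := ih (fun j hj => hc j (by omega))
      fun j hj => h j (by omega)
    obtain ⟨n₂, b1, c₂, b2, b3, b4, b5⟩ := th_back hf hL hN hη (hc n (by omega)) (hc _ le_rfl)
      (h n (by omega))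
    have e := a3.trans b4.symm
    exact ⟨n₂ + n₁, by omega, cat c₂ n₂ c₁, cat_mem (p := (· ∈ Aub f ψ)) b2 a2,
      (cat_left e (Nat.zero_le _)).trans b3, (cat_right _ _ _ _).trans a4, IsChain.cat e b5 a5⟩

end sTH

section sTI

theorem ti_visits {X : Type} (f : X → X) (ψ : X → ℝ) (hψ : ∀ x, 0 ≤ ψ x) (B : Set X) (ε : ℝ)
    (hε : 0 ≤ ε)
    (hB : ∀ x ∈ B, ∀ n, 1 ≤ n → f^[n] x ∈ B → ε ≤ ∑ j ∈ Finset.range n, ψ (f^[j] x))
    (x : X) (n : ℕ) :
    ε * (∑ j ∈ Finset.range n, B.indicator (fun _ => (1 : ℝ)) (f^[j] x) - 1) ≤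
      ∑ j ∈ Finset.range n, ψ (f^[j] x) := by
  have key : ∀ n : ℕ, ∑ j ∈ Finset.range n, B.indicator (fun _ => (1 : ℝ)) (f^[j] x) = 0 ∨
      ∃ j < n, f^[j] x ∈ B ∧
        ε * (∑ j ∈ Finset.range n, B.indicator (fun _ => (1 : ℝ)) (f^[j] x) - 1) ≤
          ∑ i ∈ Finset.range j, ψ (f^[i] x) := by
    intro n
    induction n with
    | zero => left; simp
    | succ n ih =>
      rw [Finset.sum_range_succ]
      by_cases hn : f^[n] x ∈ B
      · right
        refine ⟨n, Nat.lt_succ_self n, hn, ?_⟩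
        rw [Set.indicator_of_mem hn]
        rcases ih with h0 | ⟨j, hj, hjB, hle⟩
        · rw [h0]
          simpa only [zero_add, sub_self, mul_zero] using Finset.sum_nonneg fun i _ => hψ _
        · obtain ⟨k, rfl⟩ : ∃ k, n = j + k := ⟨n - j, by omega⟩
          have h1 : f^[k] (f^[j] x) ∈ B := by
            rw [← Function.iterate_add_apply, add_comm]; exact hn
          have h2 := hB _ hjB k (by omega) h1
          rw [Finset.sum_range_add (fun i => ψ (f^[i] x))]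
          have h3 : ∑ i ∈ Finset.range k, ψ (f^[j + i] x) =
              ∑ i ∈ Finset.range k, ψ (f^[i] (f^[j] x)) :=
            Finset.sum_congr rfl fun i _ => by rw [← Function.iterate_add_apply, add_comm]
          rw [h3]
          linarith only [hle, h2]
      · rw [Set.indicator_of_notMem hn, add_zero]
        rcases ih with h0 | ⟨j, hj, hjB, hle⟩
        · exact Or.inl h0
        · exact Or.inr ⟨j, by omega, hjB, hle⟩
  have hS : 0 ≤ ∑ j ∈ Finset.range n, ψ (f^[j] x) := Finset.sum_nonneg fun i _ => hψ _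
  rcases key n with h0 | ⟨j, hj, -, hle⟩
  · rw [h0]
    linarith
  · exact hle.trans (Finset.sum_le_sum_of_subset_of_nonneg
      (Finset.range_mono hj.le) fun i _ _ => hψ _)

theorem ti_int {X : Type} [MeasurableSpace X] (f : X → X) (μ : Measure X) (hμ : Inv f μ)
    (ψ : X → ℝ) (hψm : Measurable ψ) (hψi : Integrable ψ μ) (B : Set X) (hB : MeasurableSet B)
    (ε : ℝ)
    (h : ∀ x n, ε * (∑ j ∈ Finset.range n, B.indicator (fun _ => (1 : ℝ)) (f^[j] x) - 1) ≤
      ∑ j ∈ Finset.range n, ψ (f^[j] x)) : ε * μ.real B ≤ ∫ x, ψ x ∂μ := by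
  obtain ⟨hp, hf⟩ := hμ
  have hinv : ∀ (g : X → ℝ), Measurable g → Integrable g μ → ∀ j : ℕ,
      Integrable (fun x => g (f^[j] x)) μ ∧ ∫ x, g (f^[j] x) ∂μ = ∫ x, g x ∂μ := by
    intro g hg hi j
    refine ⟨(hf.iterate j).integrable_comp_of_integrable hi, ?_⟩
    rw [← integral_map (hf.iterate j).measurable.aemeasurable hg.aestronglyMeasurable,
      (hf.iterate j).map_eq]
  have hIm : Measurable (B.indicator fun _ => (1 : ℝ)) := measurable_const.indicator hB
  have hIi : Integrable (B.indicator fun _ => (1 : ℝ)) μ := (integrable_const 1).indicator hB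
  have hIv : ∫ x, B.indicator (fun _ => (1 : ℝ)) x ∂μ = μ.real B := by
    rw [integral_indicator hB]; simp
  have hn : ∀ n : ℕ, ε * (n * μ.real B - 1) ≤ n * ∫ x, ψ x ∂μ := by
    intro n
    have hA : Integrable (fun x => ∑ j ∈ Finset.range n,
        B.indicator (fun _ => (1 : ℝ)) (f^[j] x)) μ :=
      integrable_finsetSum _ fun j _ => (hinv _ hIm hIi j).1
    have hC : Integrable (fun x => ∑ j ∈ Finset.range n, ψ (f^[j] x)) μ :=
      integrable_finsetSum _ fun j _ => (hinv _ hψm hψi j).1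
    have h1 := integral_mono ((hA.sub (integrable_const 1)).const_mul ε) hC fun x => h x n
    simp only [Pi.sub_apply] at h1
    rw [integral_const_mul, integral_sub hA (integrable_const 1),
      integral_finsetSum _ fun j _ => (hinv _ hIm hIi j).1,
      integral_finsetSum _ fun j _ => (hinv _ hψm hψi j).1] at h1
    simp only [(hinv _ hIm hIi _).2, (hinv _ hψm hψi _).2, hIv, Finset.sum_const,
      Finset.card_range, nsmul_eq_mul, integral_const, probReal_univ, smul_eq_mul, mul_one] at h1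
    exact h1
  by_contra hlt
  rw [not_le] at hlt
  obtain ⟨n, hn'⟩ := exists_nat_gt (ε / (ε * μ.real B - ∫ x, ψ x ∂μ))
  rw [div_lt_iff₀ (by linarith)] at hn'
  have := hn n
  linarith only [hn', this]

theorem sAub3 : SAub3 := by
  intro X _ _ _ _ f hf hpart ψ hψc hψ hnear r hr
  obtain ⟨ε, hε, hN⟩ := hnear r hr
  obtain ⟨r0, ξ, hr0, hξ, hcell⟩ := hpart ε hε
  have hr0' : (0 : ℝ) < r0 := by exact_mod_cast hr0
  refine ⟨ε / r0, div_pos hε hr0', fun μ hμ => ?_⟩
  have hp := hμ.1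
  set U := Metric.thickening r (Aub f ψ) with hU
  have hUm : MeasurableSet U := Metric.isOpen_thickening.measurableSet
  have hψi : Integrable ψ μ :=
    hψc.integrable_of_hasCompactSupport (HasCompactSupport.of_compactSpace ψ)
  have hB : ∀ i : Fin r0, ε * μ.real (ξ ⁻¹' {i} ∩ Uᶜ) ≤ ∫ x, ψ x ∂μ := by
    intro i
    refine ti_int f μ hμ ψ hψc.measurable hψi _ ((hξ (measurableSet_singleton i)).inter hUm.compl)
      ε (ti_visits f ψ hψ _ ε hε.le ?_)
    intro x hx n hn hnx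
    by_contra hlt
    rw [not_le] at hlt
    have hOm : x ∈ Om f ψ ε := by
      refine ⟨n, hn, fun j => if j < n then f^[j] x else x, by simp, by simp, ?_, ?_⟩
      · intro j hj
        simp only [hj, if_true]
        split_ifs with h1
        · rw [Function.iterate_succ_apply', dist_self]; exact hε.le
        · have h2 : n = j + 1 := by omega
          rw [← Function.iterate_succ_apply' f j x, Nat.succ_eq_add_one, ← h2]
          exact hcell _ _ (by rw [show ξ (f^[n] x) = i from hnx.1, show ξ x = i from hx.1])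
      · refine le_trans (le_of_eq (Finset.sum_congr rfl fun j hj => ?_)) hlt.le
        simp only [Finset.mem_range.1 hj, if_true]
    obtain ⟨w, hw, hd⟩ := hN x hOm
    exact hx.2 (Metric.mem_thickening_iff.2 ⟨w, hw, hd⟩)
  have hcov : μ.real Uᶜ ≤ ∑ i : Fin r0, μ.real (ξ ⁻¹' {i} ∩ Uᶜ) := by
    have h1 : Uᶜ = ⋃ i : Fin r0, ξ ⁻¹' {i} ∩ Uᶜ := by
      ext x
      simp only [Set.mem_compl_iff, Set.mem_iUnion, Set.mem_inter_iff, Set.mem_preimage, Set.mem_singleton_iff, exists_and_right, ↓ existsAndEq, true_and]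
    conv_lhs => rw [h1]
    exact measureReal_iUnion_fintype_le _
  have hsum : ε * ∑ i : Fin r0, μ.real (ξ ⁻¹' {i} ∩ Uᶜ) ≤ r0 * ∫ x, ψ x ∂μ := by
    rw [Finset.mul_sum]
    simpa only [Finset.sum_const, Finset.card_univ, Fintype.card_fin, nsmul_eq_mul] using Finset.sum_le_sum fun i (_ : i ∈ Finset.univ) => hB i
  rw [div_mul_eq_mul_div, div_le_iff₀ hr0']
  linarith only [mul_le_mul_of_nonneg_left hcov hε.le, hsum]

theorem sShort : SShort := by
  intro A R Z n
  induction n using Nat.strong_induction_on with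
  | _ n ih =>
    intro c hZ hR
    by_cases hn : n < Z.card
    · exact ⟨n, hn, c, hZ, hR, rfl, rfl⟩
    · have hex : ∃ i j, i < j ∧ j ≤ n ∧ c i = c j := by
        obtain ⟨i, hi, j, hj, hij, he⟩ := Finset.exists_ne_map_eq_of_card_lt_of_maps_to
          (s := Finset.range (n + 1)) (t := Z) (by simp; omega) (f := c)
          (fun i hi => hZ i (by simpa [Nat.lt_succ_iff] using hi))
        rw [Finset.mem_range] at hi hj
        rcases lt_or_gt_of_ne hij with h | h
        · exact ⟨i, j, h, by omega, he⟩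
        · exact ⟨j, i, h, by omega, he.symm⟩
      obtain ⟨i, j, hij, hjn, he⟩ := hex
      have h0 : (fun l => c (j + l)) 0 = c i := by simp [he]
      obtain ⟨n', hn', c', h1, h2, h3, h4⟩ := ih (i + (n - j)) (by omega)
        (cat c i fun l => c (j + l))
        (cat_mem (p := fun a => a ∈ Z) (fun l hl => hZ l (by omega)) fun l hl => hZ _ (by omega))
        (cat_rel h0 (fun l hl => hR l (by omega)) fun l hl => hR (j + l) (by omega))
      refine ⟨n', hn', c', h1, h2, ?_, ?_⟩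
      · rw [h3, cat_left h0 (Nat.zero_le i)]
      · rw [h4, cat_right]
        congr 1
        omega

end sTI

section sTJ

theorem tj_cost {X : Type} [MetricSpace X] {f : X → X} {ψ : X → ℝ} {K η B : ℝ} {c : ℕ → X}
    {n M : ℕ} (hK : 0 ≤ K) (hη : 0 ≤ η) (hB0 : 0 ≤ B) (hB : ∀ x, ψ x ≤ B)
    (hc : IsChain f η c n) (hn : n ≤ M) : cost f ψ K c n ≤ M * (B + K * η) := by
  have h1 : cost f ψ K c n ≤ ∑ _j ∈ Finset.range n, (B + K * η) := by
    refine Finset.sum_le_sum fun j hj => ?_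
    have h2 := hc j (Finset.mem_range.1 hj)
    have h3 := mul_le_mul_of_nonneg_left h2 hK
    have h4 := hB (c j)
    linarith only [h3, h4]
  rw [Finset.sum_const, Finset.card_range, nsmul_eq_mul] at h1
  have h5 : (n : ℝ) ≤ M := by exact_mod_cast hn
  have h6 : 0 ≤ B + K * η := by positivity
  exact h1.trans (mul_le_mul_of_nonneg_right h5 h6)

theorem tj_fwd {X : Type} {f : X → X} {Ω : Set X} (h : ∀ x ∈ Ω, f x ∈ Ω) (n : ℕ) :
    ∀ x ∈ Ω, f^[n] x ∈ Ω := by
  induction n with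
  | zero => intro x hx; exact hx
  | succ n ih => intro x hx; rw [Function.iterate_succ_apply']; exact h _ (ih x hx)

theorem tj_bwd {X : Type} {f : X → X} {Ω : Set X} (h : ∀ x ∈ Ω, ∃ w ∈ Ω, f w = x) (n : ℕ) :
    ∀ x ∈ Ω, ∃ w ∈ Ω, f^[n] w = x := by
  induction n with
  | zero => intro x hx; exact ⟨x, hx, rfl⟩
  | succ n ih =>
    intro x hx
    obtain ⟨w, hw, rfl⟩ := ih x hx
    obtain ⟨v, hv, rfl⟩ := h w hw
    exact ⟨v, hv, rfl⟩

theorem sDim : SDim := by
  intro X _ _ hne _ _ f N e η0 C2 he hrate htrans hη0 hC2 hhorse ψ K hK hlip hpos Ω hz hf hb hzero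
    β hβ
  classical
  obtain ⟨z0⟩ := hne
  obtain ⟨B, hB0, hB⟩ : ∃ B : ℝ, 0 ≤ B ∧ ∀ x, ψ x ≤ B := by
    obtain ⟨x, -, hx⟩ := isCompact_univ.exists_isMaxOn ⟨z0, Set.mem_univ z0⟩
      (hlip.continuous hK).continuousOn
    exact ⟨ψ x, hpos x, fun y => hx (Set.mem_univ y)⟩
  obtain ⟨M, hM⟩ := htrans η0 hη0
  choose nn hn1 hnM cc hc0 hcn hch using hM
  have hε : 0 < β / (2 * N + 1) := by positivity
  obtain ⟨t, ht, hzt⟩ := hzero _ hε
  set ε : ℝ := β / (2 * N + 1) with hεdef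
  set E0 : ℝ := 2 * (M * (B + K * C2 * η0)) with hE0
  refine ⟨(M : ℝ) ^ 2 * Real.exp (ε * (2 * M + 1) + t * E0), fun k Z hZ hsep => ?_⟩
  have hw : ∀ z, ∃ w, z ∈ Ω → w ∈ Ω ∧ f^[k * N] w = z := by
    intro z
    by_cases h : z ∈ Ω
    · obtain ⟨w, hw, hw'⟩ := tj_bwd hb (k * N) z h
      exact ⟨w, fun _ => ⟨hw, hw'⟩⟩
    · exact ⟨z, fun h' => absurd h' h⟩
  choose w hw using hw
  set l : ℕ := 2 * (k * N) + 1 with hl
  let g : X → ℕ × ℕ := fun z => (nn z0 (w z), nn (f^[l] (w z)) z0)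
  have hmaps : ∀ z ∈ Z, g z ∈ Finset.Icc 1 M ×ˢ Finset.Icc 1 M := by
    intro z _
    simp only [g, Finset.mem_product, Finset.mem_Icc]
    exact ⟨⟨hn1 _ _, hnM _ _⟩, hn1 _ _, hnM _ _⟩
  have hfib : ∀ p ∈ Finset.Icc 1 M ×ˢ Finset.Icc 1 M,
      (((Z.filter fun z => g z = p).card : ℕ) : ℝ) ≤
        Real.exp (ε * (2 * M + 1) + t * E0) * Real.exp (β * k) := by
    rintro ⟨a, b⟩ hp
    simp only [Finset.mem_product, Finset.mem_Icc] at hp
    set Z' := Z.filter fun z => g z = (a, b) with hZ'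
    by_cases hq : Z'.card = 0
    · rw [hq]; push_cast; positivity
    have hq1 : 1 ≤ Z'.card := Nat.one_le_iff_ne_zero.2 hq
    let u : Fin Z'.card → X := fun i => (Z'.equivFin.symm i : X)
    have hu : ∀ i, u i ∈ Z ∧ nn z0 (w (u i)) = a ∧ nn (f^[l] (w (u i))) z0 = b := by
      intro i
      have h1 := Finset.mem_filter.1 (Z'.equivFin.symm i).2
      exact ⟨h1.1, congrArg Prod.fst h1.2, congrArg Prod.snd h1.2⟩
    have hui : ∀ i i', i ≠ i' → u i ≠ u i' := by
      intro i i' h h'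
      exact h (Z'.equivFin.symm.injective (Subtype.ext h'))
    let c1 : Fin Z'.card → ℕ → X := fun i => cc z0 (w (u i))
    let c2 : Fin Z'.card → ℕ → X := fun i j => f^[j] (w (u i))
    let c3 : Fin Z'.card → ℕ → X := fun i => cc (f^[l] (w (u i))) z0
    have h12 : ∀ i, c2 i 0 = c1 i a := by
      intro i
      have := hcn z0 (w (u i))
      rw [(hu i).2.1] at this
      exact this.symm
    have h23 : ∀ i, c3 i 0 = cat (c1 i) a (c2 i) (a + l) := by
      intro i
      rw [cat_right]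
      exact hc0 _ _
    have hch1 : ∀ i, IsChain f η0 (c1 i) a := by
      intro i
      have := hch z0 (w (u i))
      rwa [(hu i).2.1] at this
    have hch3 : ∀ i, IsChain f η0 (c3 i) b := by
      intro i
      have := hch (f^[l] (w (u i))) z0
      rwa [(hu i).2.2] at this
    have hd2 : ∀ i j, dist (f (c2 i j)) (c2 i (j + 1)) = 0 := by
      intro i j
      simp only [c2, Function.iterate_succ_apply', dist_self]
    have hch2 : ∀ i, IsChain f η0 (c2 i) l := fun i j _ => by rw [hd2]; exact hη0.le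
    have hcost2 : ∀ i, cost f ψ (K * C2) (c2 i) l = 0 := by
      intro i
      refine Finset.sum_eq_zero fun j _ => ?_
      rw [hd2, hz _ (tj_fwd hf j _ (hw _ (hZ _ (hu i).1)).1)]
      ring
    have hKC : 0 ≤ K * C2 := mul_nonneg hK hC2
    obtain ⟨μ, hμ, hent, hint⟩ := hhorse ψ K hK hlip Z'.card (a + l + b) hq1 (by omega) z0
      (fun i => cat (cat (c1 i) a (c2 i)) (a + l) (c3 i)) E0
      (by
        intro i
        refine ⟨?_, ?_, ?_, ?_⟩
        · rw [cat_left (h23 i) (Nat.zero_le _), cat_left (h12 i) (Nat.zero_le _)]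
          exact hc0 _ _
        · rw [cat_right]
          have := hcn (f^[l] (w (u i))) z0
          rwa [(hu i).2.2] at this
        · exact IsChain.cat (h23 i) (IsChain.cat (h12 i) (hch1 i) (hch2 i)) (hch3 i)
        · rw [cost_cat f ψ _ (h23 i), cost_cat f ψ _ (h12 i), hcost2]
          have h1 := tj_cost hKC hη0.le hB0 hB (hch1 i) hp.1.2
          have h3 := tj_cost hKC hη0.le hB0 hB (hch3 i) hp.2.2
          linarith only [h1, h3])
      (by
        intro i i' hii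
        by_contra hcon
        push Not at hcon
        have h1 := hrate (e / 2) (by linarith only [he]) k (w (u i)) (w (u i')) (by
          intro j hj
          have h2 := hcon (a + j) (by omega)
          rwa [cat_left (h23 i) (by omega), cat_left (h23 i') (by omega), cat_right,
            cat_right] at h2)
        rw [(hw _ (hZ _ (hu i).1)).2, (hw _ (hZ _ (hu i').1)).2] at h1
        exact absurd (hsep _ (hu i).1 _ (hu i').1 (hui i i' hii)) (not_lt.2 h1))
    have h1 := EReal.coe_le_coe_iff.1 (hent.trans (hzt μ hμ))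
    have hm : (0 : ℝ) < ((a + l + b : ℕ) : ℝ) := by
      have : 0 < a + l + b := by omega
      exact_mod_cast this
    have h2 : Real.log Z'.card ≤ ε * ((a + l + b : ℕ) : ℝ) + t * E0 := by
      have h3 := mul_le_mul_of_nonneg_left hint ht.le
      have h4 : Real.log Z'.card / ((a + l + b : ℕ) : ℝ) ≤
          (ε * ((a + l + b : ℕ) : ℝ) + t * E0) / ((a + l + b : ℕ) : ℝ) := by
        rw [add_div, mul_div_assoc, div_self hm.ne', mul_one, mul_div_assoc]
        linarith only [h1, h3]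
      exact (div_le_div_iff_of_pos_right hm).1 h4
    have h5 : ((a + l + b : ℕ) : ℝ) ≤ 2 * M + 1 + (2 * N + 1) * k := by
      have : a + l + b ≤ 2 * M + 1 + (2 * N + 1) * k := by
        have h6 : (2 * N + 1) * k = 2 * (k * N) + k := by ring
        omega
      exact_mod_cast this
    have h6 : ε * ((2 * N + 1) * k) = β * k := by
      rw [hεdef]; field_simp
    have h7 := mul_le_mul_of_nonneg_left h5 hε.le
    rw [← Real.exp_add]
    have hq0 : (0 : ℝ) < Z'.card := by exact_mod_cast hq1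
    rw [← Real.log_le_iff_le_exp hq0]
    linarith only [h2, h6, h7]
  rw [Finset.card_eq_sum_card_fiberwise hmaps]
  push_cast
  refine (Finset.sum_le_sum hfib).trans (le_of_eq ?_)
  rw [Finset.sum_const, Finset.card_product, Nat.card_Icc, nsmul_eq_mul]
  simp only [Nat.add_sub_cancel]
  push_cast
  ring

end sTJ

section sTK

theorem tk_net {X : Type} [MetricSpace X] (Ω : Set X) (r B : ℝ) (hr : 0 < r)
    (hB : ∀ Z : Finset X, (∀ z ∈ Z, z ∈ Ω) → (∀ z ∈ Z, ∀ z' ∈ Z, z ≠ z' → r < dist z z') →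
      (Z.card : ℝ) ≤ B) :
    ∃ Z : Finset X, (∀ z ∈ Z, z ∈ Ω) ∧ (Z.card : ℝ) ≤ B ∧
      ∃ p : X → X, ∀ x ∈ Ω, p x ∈ Z ∧ dist x (p x) ≤ r := by
  classical
  have key : ∃ Z : Finset X, (∀ z ∈ Z, z ∈ Ω) ∧ (∀ z ∈ Z, ∀ z' ∈ Z, z ≠ z' → r < dist z z') ∧
      ∀ x ∈ Ω, ∃ z ∈ Z, dist x z ≤ r := by
    by_contra hno
    have hall : ∀ n : ℕ, ∃ Z : Finset X, (∀ z ∈ Z, z ∈ Ω) ∧
        (∀ z ∈ Z, ∀ z' ∈ Z, z ≠ z' → r < dist z z') ∧ Z.card = n := by
      intro n
      induction n with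
      | zero => exact ⟨∅, by simp, by simp, rfl⟩
      | succ n ih =>
        obtain ⟨Z, h1, h2, h3⟩ := ih
        have : ¬ ∀ x ∈ Ω, ∃ z ∈ Z, dist x z ≤ r := fun h => hno ⟨Z, h1, h2, h⟩
        push Not at this
        obtain ⟨x, hx, hxz⟩ := this
        have hxZ : x ∉ Z := fun h => by
          have := hxz x h
          rw [dist_self] at this
          linarith only [hr, this]
        refine ⟨insert x Z, ?_, ?_, by rw [Finset.card_insert_of_notMem hxZ, h3]⟩
        · intro z hz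
          rcases Finset.mem_insert.1 hz with rfl | hz
          · exact hx
          · exact h1 z hz
        · intro z hz z' hz' hne
          rcases Finset.mem_insert.1 hz with hz | hz <;>
            rcases Finset.mem_insert.1 hz' with hz' | hz'
          · exact absurd (hz.trans hz'.symm) hne
          · rw [hz]
            exact hxz z' hz'
          · rw [hz', dist_comm]
            exact hxz z hz
          · exact h2 z hz z' hz' hne
    obtain ⟨n, hn⟩ := exists_nat_gt B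
    obtain ⟨Z, h1, h2, h3⟩ := hall n
    have := hB Z h1 h2
    rw [h3] at this
    linarith only [hn, this]
  obtain ⟨Z, h1, h2, h3⟩ := key
  refine ⟨Z, h1, hB Z h1 h2, fun x => if hx : x ∈ Ω then (h3 x hx).choose else x, fun x hx => ?_⟩
  simp only [dif_pos hx]
  exact (h3 x hx).choose_spec

theorem tk_step (h1 : SShort) {X : Type} [MetricSpace X] [MeasurableSpace X]
    (f : X → X) (L e η0 C2 : ℝ) (hL : 1 ≤ L) (hlip : ∀ x y, dist (f x) (f y) ≤ L * dist x y)
    (hC2 : 0 ≤ C2) (hH : Horse f e η0 C2) (ψ : X → ℝ) (K : ℝ) (hK : 0 ≤ K)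
    (hψ : Lip K ψ) (Ω : Set X) (h0 : ∀ x ∈ Ω, ψ x = 0) (r B : ℝ) (hr : 0 < r) (hre : 8 * r ≤ e)
    (hrη : (L + 2) * r ≤ η0)
    (hB : ∀ Z : Finset X, (∀ z ∈ Z, z ∈ Ω) → (∀ z ∈ Z, ∀ z' ∈ Z, z ≠ z' → r < dist z z') →
      (Z.card : ℝ) ≤ B) (hBr : Branch f Ω e r) :
    ∃ μ, Inv f μ ∧ ((Real.log 2 / (2 * B ^ 2) : ℝ) : EReal) ≤ ksEntropy μ f ∧
      ∫ x, ψ x ∂μ ≤ K * C2 * ((L + 2) * r) := by
  classical
  obtain ⟨Z, hZΩ, hZB, p, hp⟩ := tk_net Ω r B hr hB
  obtain ⟨m, c, c', hΩ, hc0, hcm, hcm', hch, hch', j0, hj0, hfar⟩ := hBr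
  have hjump : ∀ x y, x ∈ Ω → y ∈ Ω → dist (f x) y ≤ r → dist (f (p x)) (p y) ≤ (L + 2) * r := by
    intro x y hx hy hxy
    have a1 := dist_triangle4 (f (p x)) (f x) y (p y)
    have a2 := hlip (p x) x
    have a3 := (hp x hx).2
    have a4 := (hp y hy).2
    rw [dist_comm (p x) x] at a2
    have a5 : L * dist x (p x) ≤ L * r := mul_le_mul_of_nonneg_left a3 (by linarith only [hL])
    linarith only [hxy, a1, a2, a4, a5]
  let P : ℕ → X × X := fun j => (p (c j), p (c' j))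
  let R : X × X → X × X → Prop := fun a b =>
    dist (f a.1) b.1 ≤ (L + 2) * r ∧ dist (f a.2) b.2 ≤ (L + 2) * r
  have hPZ : ∀ j ≤ m, P j ∈ Z ×ˢ Z := fun j hj =>
    Finset.mem_product.2 ⟨(hp _ (hΩ j hj).1).1, (hp _ (hΩ j hj).2).1⟩
  have hPR : ∀ j < m, R (P j) (P (j + 1)) := fun j hj =>
    ⟨hjump _ _ (hΩ j hj.le).1 (hΩ (j + 1) hj).1 (hch j hj),
      hjump _ _ (hΩ j hj.le).2 (hΩ (j + 1) hj).2 (hch' j hj)⟩
  have hPfar : e / 2 < dist (P j0).1 (P j0).2 := by
    have a1 := dist_triangle4 (c j0) (p (c j0)) (p (c' j0)) (c' j0)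
    have a3 := (hp _ (hΩ j0 hj0.le).1).2
    have a4 := (hp _ (hΩ j0 hj0.le).2).2
    rw [dist_comm (p (c' j0)) (c' j0)] at a1
    show e / 2 < dist (p (c j0)) (p (c' j0))
    linarith only [hre, hfar, a1, a3, a4]
  have hP0 : P 0 = (p (c 0), p (c 0)) := by simp only [P, hc0]
  have hPm : P m = (p (c 0), p (c 0)) := by simp only [P, hcm, hcm']
  obtain ⟨n1, hn1, d1, hd1Z, hd1R, hd10, hd1n⟩ := h1 (X × X) R (Z ×ˢ Z) j0 P
    (fun j hj => hPZ j (by omega)) (fun j hj => hPR j (by omega))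
  obtain ⟨n2, hn2, d2, hd2Z, hd2R, hd20, hd2n⟩ := h1 (X × X) R (Z ×ˢ Z) (m - j0)
    (fun i => P (j0 + i)) (fun j hj => hPZ _ (by omega)) (fun j hj => hPR _ (by omega))
  have e1 : j0 + (m - j0) = m := by omega
  simp only [add_zero, e1] at hd20 hd2n
  have hn2pos : 1 ≤ n2 := by
    by_contra hlt
    have : n2 = 0 := by omega
    rw [this, hd20, hPm] at hd2n
    rw [hd2n] at hPfar
    simp only [dist_self] at hPfar
    linarith only [hr, hre, hPfar]
  have hjoin : d2 0 = d1 n1 := by rw [hd20, hd1n]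
  let D : ℕ → X × X := cat d1 n1 d2
  have hD0 : D 0 = (p (c 0), p (c 0)) := by
    simp only [D]
    rw [cat_left hjoin (Nat.zero_le _), hd10, hP0]
  have hDm : D (n1 + n2) = (p (c 0), p (c 0)) := by
    simp only [D]
    rw [cat_right, hd2n, hPm]
  have hDn : D n1 = P j0 := by
    simp only [D]
    rw [cat_left hjoin le_rfl, hd1n]
  have hDZ : ∀ j ≤ n1 + n2, D j ∈ Z ×ˢ Z := cat_mem (p := fun a => a ∈ Z ×ˢ Z) hd1Z hd2Z
  have hDR : ∀ j < n1 + n2, R (D j) (D (j + 1)) := cat_rel hjoin hd1R hd2R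
  have hKC : 0 ≤ K * C2 := mul_nonneg hK hC2
  have hloop : ∀ g : ℕ → X, (∀ j ≤ n1 + n2, g j ∈ Z) →
      (∀ j < n1 + n2, dist (f (g j)) (g (j + 1)) ≤ (L + 2) * r) →
      IsChain f η0 g (n1 + n2) ∧ cost f ψ (K * C2) g (n1 + n2) ≤
        ((n1 + n2 : ℕ) : ℝ) * (K * C2 * ((L + 2) * r)) := by
    intro g hg1 hg2
    refine ⟨fun j hj => (hg2 j hj).trans hrη, ?_⟩
    unfold cost
    calc ∑ j ∈ Finset.range (n1 + n2), (ψ (g j) + K * C2 * dist (f (g j)) (g (j + 1)))
        ≤ ∑ _j ∈ Finset.range (n1 + n2), K * C2 * ((L + 2) * r) := by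
          refine Finset.sum_le_sum fun j hj => ?_
          have hj' := Finset.mem_range.1 hj
          rw [h0 _ (hZΩ _ (hg1 j hj'.le)), zero_add]
          exact mul_le_mul_of_nonneg_left (hg2 j hj') hKC
      _ = _ := by rw [Finset.sum_const, Finset.card_range, nsmul_eq_mul]
  have hl1 := hloop (fun j => (D j).1) (fun j hj => (Finset.mem_product.1 (hDZ j hj)).1)
    (fun j hj => (hDR j hj).1)
  have hl2 := hloop (fun j => (D j).2) (fun j hj => (Finset.mem_product.1 (hDZ j hj)).2)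
    (fun j hj => (hDR j hj).2)
  obtain ⟨μ, hμ, hent, hint⟩ := hH ψ K hK hψ 2 (n1 + n2) (by norm_num) (by omega) (p (c 0))
    ![fun j => (D j).1, fun j => (D j).2] (((n1 + n2 : ℕ) : ℝ) * (K * C2 * ((L + 2) * r)))
    (by
      intro i
      fin_cases i
      · exact ⟨by simp [hD0], by simp [hDm], hl1.1, hl1.2⟩
      · exact ⟨by simp [hD0], by simp [hDm], hl2.1, hl2.2⟩)
    (by
      intro i i' hne
      refine ⟨n1, by omega, ?_⟩
      rw [← hDn] at hPfar
      fin_cases i <;> fin_cases i'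
      · exact absurd rfl hne
      · exact hPfar
      · rw [dist_comm] at hPfar
        exact hPfar
      · exact absurd rfl hne)
  have hmpos : (0 : ℝ) < ((n1 + n2 : ℕ) : ℝ) := by
    have : 0 < n1 + n2 := by omega
    exact_mod_cast this
  refine ⟨μ, hμ, le_trans ?_ hent, ?_⟩
  · rw [EReal.coe_le_coe_iff]
    have hle : ((n1 + n2 : ℕ) : ℝ) ≤ 2 * B ^ 2 := by
      rw [Finset.card_product] at hn1 hn2
      have a1 : n1 + n2 ≤ 2 * (Z.card * Z.card) := by omega
      have a2 : ((n1 + n2 : ℕ) : ℝ) ≤ 2 * ((Z.card : ℝ) * Z.card) := by exact_mod_cast a1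
      have a3 : (Z.card : ℝ) * Z.card ≤ B * B :=
        mul_le_mul hZB hZB (Nat.cast_nonneg _) ((Nat.cast_nonneg _).trans hZB)
      linarith only [a2, a3]
    have h2 : (0 : ℝ) ≤ Real.log 2 := Real.log_nonneg (by norm_num)
    simpa only [Nat.cast_ofNat, Nat.cast_add, ge_iff_le] using div_le_div_of_nonneg_left h2 hmpos hle
  · rwa [mul_div_cancel_left₀ _ hmpos.ne'] at hint

theorem tk_num (ε C A : ℝ) (hε : 0 < ε) (hC : 0 < C) (hA : 0 ≤ A) :
    ∀ᶠ t : ℝ in atTop, ∃ k : ℕ, t ^ 2 ≤ 4 ^ k ∧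
      t ^ (-ε) + A / t ≤ Real.log 2 / (2 * (C * Real.exp (min ε 1 / 8 * k)) ^ 2) := by
  set γ := min ε 1 with hγ
  have hγ0 : 0 < γ := lt_min hε one_pos
  have hγε : γ ≤ ε := min_le_left _ _
  have hγ1 : γ ≤ 1 := min_le_right _ _
  have hl2 : 0 < Real.log 2 := Real.log_pos (by norm_num)
  have hten : Tendsto (fun t : ℝ => t ^ (γ / 2)) atTop atTop := tendsto_rpow_atTop (by positivity)
  filter_upwards [eventually_ge_atTop (1 : ℝ),
    hten.eventually_ge_atTop ((1 + A) * (2 * C ^ 2 * Real.exp (γ / 4)) / Real.log 2)] with t ht hu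
  have ht0 : 0 < t := by linarith only [ht]
  have hlog : 0 ≤ Real.log t := Real.log_nonneg ht
  refine ⟨⌈2 * Real.log t⌉₊, ?_, ?_⟩
  · have a1 : 2 * Real.log t ≤ (⌈2 * Real.log t⌉₊ : ℝ) := Nat.le_ceil _
    have a2 : t ^ 2 = Real.exp (2 * Real.log t) := by
      rw [show (2 : ℝ) * Real.log t = Real.log t + Real.log t by ring, Real.exp_add,
        Real.exp_log ht0]
      ring
    have a3 : Real.exp 1 ≤ 4 := by
      have := Real.exp_one_lt_d9
      linarith only [this]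
    calc t ^ 2 = Real.exp (2 * Real.log t) := a2
      _ ≤ Real.exp ((⌈2 * Real.log t⌉₊ : ℝ) * 1) := Real.exp_le_exp.2 (by linarith only [a1])
      _ = Real.exp 1 ^ ⌈2 * Real.log t⌉₊ := Real.exp_nat_mul 1 _
      _ ≤ 4 ^ ⌈2 * Real.log t⌉₊ := pow_le_pow_left₀ (Real.exp_pos 1).le a3 _
  · set u := t ^ (γ / 2) with hudef
    have hu0 : 0 < u := Real.rpow_pos_of_pos ht0 _
    have huu : u * u = t ^ γ := by
      rw [hudef, ← Real.rpow_add ht0]
      congr 1
      ring
    have b1 : t ^ (-ε) ≤ 1 / (u * u) := by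
      rw [huu, Real.rpow_neg ht0.le, one_div]
      exact inv_anti₀ (Real.rpow_pos_of_pos ht0 _) (Real.rpow_le_rpow_of_exponent_le ht hγε)
    have b2 : A / t ≤ A / (u * u) := by
      rw [huu]
      refine div_le_div_of_nonneg_left hA (Real.rpow_pos_of_pos ht0 _) ?_
      have := Real.rpow_le_rpow_of_exponent_le ht hγ1
      rwa [Real.rpow_one] at this
    have a1 : (⌈2 * Real.log t⌉₊ : ℝ) ≤ 2 * Real.log t + 1 :=
      (Nat.ceil_lt_add_one (by positivity)).le
    have b3 : Real.exp (γ / 8 * (⌈2 * Real.log t⌉₊ : ℝ)) ^ 2 ≤ Real.exp (γ / 4) * u := by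
      rw [hudef, Real.rpow_def_of_pos ht0, ← Real.exp_add, sq, ← Real.exp_add]
      refine Real.exp_le_exp.2 ?_
      have := mul_le_mul_of_nonneg_left a1 hγ0.le
      linarith only [this]
    have hW : 0 < 2 * C ^ 2 * Real.exp (γ / 4) := by positivity
    have b4 : 2 * (C * Real.exp (γ / 8 * (⌈2 * Real.log t⌉₊ : ℝ))) ^ 2 ≤
        2 * C ^ 2 * Real.exp (γ / 4) * u := by
      rw [mul_pow]
      have := mul_le_mul_of_nonneg_left b3 (show 0 ≤ 2 * C ^ 2 by positivity)
      linarith only [this]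
    have b5 : (1 + A) / (u * u) ≤ Real.log 2 / (2 * C ^ 2 * Real.exp (γ / 4) * u) := by
      rw [div_le_iff₀ hl2] at hu
      rw [div_le_div_iff₀ (by positivity) (by positivity)]
      have := mul_le_mul_of_nonneg_right hu hu0.le
      linarith only [this]
    have b6 : Real.log 2 / (2 * C ^ 2 * Real.exp (γ / 4) * u) ≤
        Real.log 2 / (2 * (C * Real.exp (γ / 8 * (⌈2 * Real.log t⌉₊ : ℝ))) ^ 2) :=
      div_le_div_of_nonneg_left hl2.le (by positivity) b4
    have b7 : (1 + A) / (u * u) = 1 / (u * u) + A / (u * u) := add_div _ _ _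
    linarith only [b1, b2, b5, b6, b7]

theorem sII (h1 : SShort) : SII := by
  intro X _ _ _ _ f L e η0 C2 hL hlip he hη0 hC2 hH ψ K hK hψ Ω h0 hD hBr ε hε
  obtain ⟨C, hC⟩ := hD (min ε 1 / 8) (by have := lt_min hε one_pos; positivity)
  have hC1 : 0 < max C 1 := lt_of_lt_of_le one_pos (le_max_right _ _)
  have hL0 : 0 < L + 2 := by linarith
  have hA : 0 ≤ K * C2 * ((L + 2) * (e / 2)) := by positivity
  filter_upwards [tk_num ε (max C 1) (K * C2 * ((L + 2) * (e / 2))) hε hC1 hA,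
    eventually_ge_atTop (4 : ℝ), eventually_ge_atTop ((L + 2) * (e / 2) / η0)] with t hk ht4 htη
  obtain ⟨k, hk1, hk2⟩ := hk
  have ht0 : 0 < t := by linarith only [ht4]
  have hr : 0 < e / 2 / 4 ^ k := by positivity
  have hrt : e / 2 / 4 ^ k ≤ e / 2 / t ^ 2 :=
    div_le_div_of_nonneg_left (by positivity) (by positivity) hk1
  have hrt' : e / 2 / t ^ 2 ≤ e / 2 / t :=
    div_le_div_of_nonneg_left (by positivity) ht0 (by nlinarith only [ht4])
  have hre : 8 * (e / 2 / 4 ^ k) ≤ e := by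
    have : e / 2 / t ≤ e / 2 / 4 := div_le_div_of_nonneg_left (by positivity) (by norm_num) ht4
    linarith only [hrt, hrt', this]
  have hrη : (L + 2) * (e / 2 / 4 ^ k) ≤ η0 := by
    have a1 : (L + 2) * (e / 2 / 4 ^ k) ≤ (L + 2) * (e / 2 / t) :=
      mul_le_mul_of_nonneg_left (hrt.trans hrt') hL0.le
    have a2 : (L + 2) * (e / 2 / t) ≤ η0 := by
      rw [← mul_div_assoc, div_le_iff₀ ht0]
      rw [div_le_iff₀ hη0] at htη
      linarith only [htη]
    linarith only [a1, a2]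
  obtain ⟨μ, hμ, hent, hint⟩ := tk_step h1 f L e η0 C2 hL hlip hC2 hH ψ K hK hψ Ω h0
    (e / 2 / 4 ^ k) (max C 1 * Real.exp (min ε 1 / 8 * k)) hr hre hrη
    (fun Z hZ1 hZ2 => (hC k Z hZ1 hZ2).trans
      (mul_le_mul_of_nonneg_right (le_max_left _ _) (Real.exp_pos _).le)) (hBr _ hr)
  refine ⟨μ, hμ, le_trans ?_ hent⟩
  rw [EReal.coe_le_coe_iff]
  have a1 : K * C2 * ((L + 2) * (e / 2 / 4 ^ k)) ≤ K * C2 * ((L + 2) * (e / 2 / t ^ 2)) :=
    mul_le_mul_of_nonneg_left (mul_le_mul_of_nonneg_left hrt hL0.le) (mul_nonneg hK hC2)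
  have a2 : t * ∫ x, ψ x ∂μ ≤ t * (K * C2 * ((L + 2) * (e / 2 / t ^ 2))) :=
    mul_le_mul_of_nonneg_left (hint.trans a1) ht0.le
  have a3 : t * (K * C2 * ((L + 2) * (e / 2 / t ^ 2))) = K * C2 * ((L + 2) * (e / 2)) / t := by
    field_simp
  linarith only [hk2, a2, a3]

end sTK

section sTL

/-- two orbits that start close and stay near `Ω` end close, if `Ω` does not branch -/
theorem tl_key {X : Type} [MetricSpace X] {f : X → X} {L e η r : ℝ} (hL : 1 ≤ L)
    (hf : ∀ x y, dist (f x) (f y) ≤ L * dist x y) {Ω : Set X} (hrev : Rev f L Ω)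
    (hb : ¬ Branch f Ω e η) (hr : 0 < r) (hη : (2 * L + 1) * ((2 * L + 1) * r) ≤ η) (he : 8 * r ≤ e)
    (n : ℕ) (hn : 1 ≤ n) (x y : X) (hxy : dist x y ≤ r)
    (hx : ∀ j ≤ n, f^[j] x ∈ Metric.thickening r Ω)
    (hy : ∀ j ≤ n, f^[j] y ∈ Metric.thickening r Ω) : dist (f^[n] x) (f^[n] y) ≤ e := by
  have hx' : ∀ j, ∃ w, j ≤ n → w ∈ Ω ∧ dist (f^[j] x) w < r := by
    intro j
    by_cases hj : j ≤ n
    · obtain ⟨w, hw, hd⟩ := Metric.mem_thickening_iff.1 (hx j hj)
      exact ⟨w, fun _ => ⟨hw, hd⟩⟩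
    · exact ⟨x, fun h => absurd h hj⟩
  choose a ha using hx'
  have hy' : ∀ j, ∃ w, j ≤ n → w ∈ Ω ∧ dist (f^[j] y) w ≤ 2 * r ∧ (j = 0 → w = a 0) ∧
      (j ≠ 0 → dist (f^[j] y) w ≤ r) := by
    intro j
    by_cases hj0 : j = 0
    · subst hj0
      refine ⟨a 0, fun _ => ⟨(ha 0 (by omega)).1, ?_, fun _ => rfl, fun h => absurd rfl h⟩⟩
      have h1 := (ha 0 (by omega)).2
      simp only [Function.iterate_zero, id] at h1 ⊢
      have h2 := dist_triangle y x (a 0)
      rw [dist_comm y x] at h2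
      linarith only [hxy, h1, h2]
    · by_cases hj : j ≤ n
      · obtain ⟨w, hw, hd⟩ := Metric.mem_thickening_iff.1 (hy j hj)
        exact ⟨w, fun _ => ⟨hw, by linarith only [hr, hd], fun h => absurd h hj0, fun _ => hd.le⟩⟩
      · exact ⟨x, fun h => absurd h hj⟩
  choose b hb' using hy'
  have hL0 : 0 ≤ L := by linarith
  have step : ∀ (z w w' : X), dist z w ≤ 2 * r → dist (f z) w' ≤ r →
      dist (f w) w' ≤ (2 * L + 1) * r := by
    intro z w w' h1 h2
    have h3 := dist_triangle (f w) (f z) w'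
    have h4 := hf w z
    rw [dist_comm w z] at h4
    have h5 : L * dist z w ≤ L * (2 * r) := mul_le_mul_of_nonneg_left h1 hL0
    linarith
  have hca : IsChain f ((2 * L + 1) * r) a n := by
    intro j hj
    refine step (f^[j] x) _ _ (by linarith only [(ha j hj.le).2, hr]) ?_
    rw [← Function.iterate_succ_apply' f j x]
    exact (ha (j + 1) hj).2.le
  have hcb : IsChain f ((2 * L + 1) * r) b n := by
    intro j hj
    refine step (f^[j] y) _ _ (hb' j hj.le).2.1 ?_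
    rw [← Function.iterate_succ_apply' f j y]
    exact (hb' (j + 1) hj).2.2.2 (by omega)
  have hb0 : b 0 = a 0 := (hb' 0 (by omega)).2.2.1 rfl
  have hp : 0 < (2 * L + 1) * r := by positivity
  have hle : (2 * L + 1) * r ≤ η := by nlinarith only [hL, hη, hp]
  obtain ⟨n1, hn1, a', ha'Ω, ha'0, ha'n, ha'c⟩ := hrev _ hp n a (fun j hj => (ha j hj).1) hca
  obtain ⟨n2, hn2, b', hb'Ω, hb'0, hb'n, hb'c⟩ := hrev _ hp n b (fun j hj => (hb' j hj).1) hcb
  set A := cat a n a' with hA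
  set B := cat b n b' with hB
  have hAΩ : ∀ j ≤ n + n1, A j ∈ Ω := cat_mem (p := fun z => z ∈ Ω) (fun j hj => (ha j hj).1) ha'Ω
  have hBΩ : ∀ j ≤ n + n2, B j ∈ Ω := cat_mem (p := fun z => z ∈ Ω) (fun j hj => (hb' j hj).1) hb'Ω
  have hAc : IsChain f η A (n + n1) := IsChain.cat ha'0 (hca.mono hle) (ha'c.mono hη)
  have hBc : IsChain f η B (n + n2) := IsChain.cat hb'0 (hcb.mono hle) (hb'c.mono hη)
  have hA0 : A 0 = a 0 := cat_left ha'0 (Nat.zero_le _)
  have hB0 : B 0 = a 0 := (cat_left hb'0 (Nat.zero_le _)).trans hb0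
  have hAn : A n = a n := cat_left ha'0 le_rfl
  have hBn : B n = b n := cat_left hb'0 le_rfl
  have hAe : A (n + n1) = a 0 := by rw [hA, cat_right, ha'n]
  have hBe : B (n + n2) = a 0 := by rw [hB, cat_right, hb'n, hb0]
  have hAB : B 0 = A (n + n1) := hB0.trans hAe.symm
  have hBA : A 0 = B (n + n2) := hA0.trans hBe.symm
  have hcomm : n + n2 + (n + n1) = n + n1 + (n + n2) := by omega
  have hd : dist (a n) (b n) ≤ 3 * e / 4 := by
    by_contra hlt
    push Not at hlt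
    apply hb
    have e0 : cat A (n + n1) B 0 = a 0 := (cat_left hAB (Nat.zero_le _)).trans hA0
    refine ⟨n + n1 + (n + n2), cat A (n + n1) B, cat B (n + n2) A, fun j hj => ⟨?_, ?_⟩, ?_, ?_, ?_,
      IsChain.cat hAB hAc hBc, hcomm ▸ IsChain.cat hBA hBc hAc, n, by omega, ?_⟩
    · exact cat_mem (p := fun z => z ∈ Ω) hAΩ hBΩ j hj
    · exact cat_mem (p := fun z => z ∈ Ω) hBΩ hAΩ j (by omega)
    · rw [e0]
      exact (cat_left hBA (Nat.zero_le _)).trans hB0
    · rw [e0, cat_right, hBe]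
    · rw [e0, ← hcomm, cat_right, hAe]
    · rw [cat_left hAB (by omega), cat_left hBA (by omega), hAn, hBn]
      exact hlt
  have h1 := (ha n le_rfl).2
  have h2 := (hb' n le_rfl).2.2.2 (by omega)
  have h3 := dist_triangle4 (f^[n] x) (a n) (b n) (f^[n] y)
  rw [dist_comm (b n)] at h3
  linarith only [he, hd, h1, h2, h3]

/-- the last time at which the cells agree -/
theorem tl_last {X A : Type} {f : X → X} {ξ : X → A} {G : Set X} (x y : X) (h0 : ξ x = ξ y) :
    ∀ n : ℕ, (∀ j < n, (f^[j] x ∈ G ↔ f^[j] y ∈ G) ∧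
      (f^[j] x ∉ G → ξ (f^[j + 1] x) = ξ (f^[j + 1] y))) →
    ∃ j0 ≤ n, ξ (f^[j0] x) = ξ (f^[j0] y) ∧ ∀ j, j0 ≤ j → j < n → f^[j] x ∈ G ∧ f^[j] y ∈ G := by
  intro n
  induction n with
  | zero => exact fun _ => ⟨0, le_rfl, h0, fun j _ hj => absurd hj (Nat.not_lt_zero _)⟩
  | succ n ih =>
    intro h
    by_cases hG : f^[n] x ∈ G
    · obtain ⟨j0, hj0, h1, h2⟩ := ih fun j hj => h j (by omega)
      refine ⟨j0, by omega, h1, fun j hj hj' => ?_⟩
      by_cases hjn : j = n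
      · subst hjn
        exact ⟨hG, (h j hj').1.1 hG⟩
      · exact h2 j hj (by omega)
    · exact ⟨n + 1, le_rfl, (h n (by omega)).2 hG, fun j hj hj' => by omega⟩

theorem tl_log {s : ℝ} (h0 : 0 < s) (h1 : s ≤ 1 / 2) : -Real.log (1 - s) ≤ 2 * s := by
  have h2 : 0 < 1 - s := by linarith
  have h3 := Real.log_le_sub_one_of_pos (inv_pos.2 h2)
  rw [Real.log_inv] at h3
  have h4 : (1 - s)⁻¹ ≤ 1 + 2 * s := by
    rw [inv_le_iff_one_le_mul₀ h2]
    nlinarith only [h0, h1]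
  linarith

theorem sI : SI := by
  intro X _ _ _ _ f L e hL hf he hpart hub ψ Ω hrev hpay hpos η hη hb
  have hL2 : 0 < 2 * L + 1 := by linarith
  obtain ⟨r, hr, hrη, hre⟩ : ∃ r : ℝ, 0 < r ∧ (2 * L + 1) * ((2 * L + 1) * r) ≤ η ∧ 8 * r ≤ e := by
    refine ⟨min (η / ((2 * L + 1) * (2 * L + 1))) (e / 8), by positivity, ?_, ?_⟩
    · have h1 := min_le_left (η / ((2 * L + 1) * (2 * L + 1))) (e / 8)
      rw [le_div_iff₀ (by positivity)] at h1
      linarith
    · have h1 := min_le_right (η / ((2 * L + 1) * (2 * L + 1))) (e / 8)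
      linarith
  obtain ⟨r0, ξ, hr0, hξ, hcell⟩ := hpart r hr
  obtain ⟨c, hc, hcp⟩ := hpay r hr
  have hfc : Continuous f := continuous_of_lip hL hf
  set U := Metric.thickening r Ω with hU
  have hUm : MeasurableSet U := Metric.isOpen_thickening.measurableSet
  have hGm : MeasurableSet (U ∩ f ⁻¹' U) := hUm.inter (hfc.measurable hUm)
  have hcode : ∀ (n : ℕ) (x y : X), ξ x = ξ y →
      (∀ j < n, (f^[j] x ∈ U ∩ f ⁻¹' U ↔ f^[j] y ∈ U ∩ f ⁻¹' U) ∧
        (f^[j] x ∉ U ∩ f ⁻¹' U → ξ (f^[j + 1] x) = ξ (f^[j + 1] y))) →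
      dist (f^[n] x) (f^[n] y) ≤ e := by
    intro n x y h0 h
    obtain ⟨j0, hj0, h1, h2⟩ := tl_last x y h0 n h
    obtain ⟨k, rfl⟩ : ∃ k, n = k + j0 := ⟨n - j0, by omega⟩
    rcases Nat.eq_zero_or_pos k with hk | hk
    · subst hk
      rw [zero_add]
      have := hcell _ _ h1
      linarith only [hr, hre, this]
    · have aux : ∀ z : X, (∀ j, j0 ≤ j → j < k + j0 → f^[j] z ∈ U ∩ f ⁻¹' U) →
          ∀ j ≤ k, f^[j] (f^[j0] z) ∈ U := by
        intro z hz j hj
        rw [← Function.iterate_add_apply]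
        by_cases hjk : j < k
        · exact (hz _ (by omega) (by omega)).1
        · obtain ⟨i, hi⟩ : ∃ i, j + j0 = i + 1 := ⟨j + j0 - 1, by omega⟩
          rw [hi, Function.iterate_succ_apply']
          exact (hz i (by omega) (by omega)).2
      rw [Function.iterate_add_apply, Function.iterate_add_apply]
      exact tl_key hL hf hrev hb hr hrη hre k hk _ _ (hcell _ _ h1)
        (aux x fun j h3 h4 => (h2 j h3 h4).1) (aux y fun j h3 h4 => (h2 j h3 h4).2)
  have hr0' : (1 : ℝ) ≤ r0 := by exact_mod_cast hr0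
  refine ⟨c / 4, by positivity, ?_⟩
  filter_upwards [eventually_ge_atTop (8 * (r0 : ℝ) / c)] with t ht μ hμ
  have hct : 2 * (r0 : ℝ) ≤ c / 4 * t := by
    rw [div_le_iff₀ hc] at ht
    linarith only [ht]
  have ht0 : 0 < t := by
    by_contra h
    push Not at h
    nlinarith only [hc, hr0', hct, h]
  have hE : 0 < Real.exp (-(c / 4) * t) := Real.exp_pos _
  have hE1 : Real.exp (-(c / 4) * t) ≤ 1 := Real.exp_le_one_iff.2 (by linarith only [hct])
  have hE2 : 2 * (r0 : ℝ) * Real.exp (-(c / 4) * t) ≤ 1 := by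
    have h1 : 2 * (r0 : ℝ) ≤ Real.exp (c / 4 * t) := by
      linarith only [Real.add_one_le_exp (c / 4 * t), hct]
    have h2 : Real.exp (c / 4 * t) * Real.exp (-(c / 4) * t) = 1 := by
      rw [← Real.exp_add]
      simp
    nlinarith only [hE, h1, h2]
  set E := Real.exp (-(c / 4) * t) with hEdef
  have hs0 : 0 < (r0 : ℝ) * E * E := by positivity
  have hs1 : 2 * ((r0 : ℝ) * E * E) ≤ E := by nlinarith only [hE, hE2]
  have hmain := hub μ hμ r0 ξ (U ∩ f ⁻¹' U) hr0 hξ hGm hcode ((r0 : ℝ) * E * E) hs0 (by linarith only [hE1, hs0, hs1])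
  refine hmain.trans (EReal.coe_le_coe_iff.2 ?_)
  have hlog : Real.log ((r0 : ℝ) / ((r0 : ℝ) * E * E)) = c / 2 * t := by
    have h1 : (r0 : ℝ) / ((r0 : ℝ) * E * E) = Real.exp (c / 2 * t) := by
      rw [div_eq_iff hs0.ne', hEdef]
      have h2 : Real.exp (c / 2 * t) * (Real.exp (-(c / 4) * t) * Real.exp (-(c / 4) * t)) = 1 := by
        rw [← Real.exp_add, ← Real.exp_add, ← Real.exp_zero]
        congr 1
        ring
      linear_combination (-(r0 : ℝ)) * h2
    rw [h1, Real.log_exp]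
  have := hμ.1
  have hmeas : μ.real (U ∩ f ⁻¹' U)ᶜ ≤ 2 * μ.real Uᶜ := by
    rw [Set.compl_inter]
    have h1 := measureReal_union_le (μ := μ) Uᶜ (f ⁻¹' U)ᶜ
    have h2 : μ.real (f ⁻¹' U)ᶜ = μ.real Uᶜ := by
      rw [← Set.preimage_compl]
      exact hμ.2.measureReal_preimage hUm.compl.nullMeasurableSet
    linarith only [h1, h2]
  have h3 := hcp μ hμ
  have h4 := tl_log hs0 (by linarith only [hE1, hs1])
  rw [hlog]
  have h5 : μ.real (U ∩ f ⁻¹' U)ᶜ * (c / 2 * t) ≤ 2 * μ.real Uᶜ * (c / 2 * t) :=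
    mul_le_mul_of_nonneg_right hmeas (by positivity)
  have h6 : t * (c * μ.real Uᶜ) ≤ t * ∫ x, ψ x ∂μ := mul_le_mul_of_nonneg_left h3 ht0.le
  linarith only [hs1, h4, h5, h6]

end sTL

section sTM

theorem tm_le_pressure {X : Type} [MeasurableSpace X] {f : X → X} (φ : X → ℝ) {μ : Measure X}
    (h : Inv f μ) : ksEntropy μ f + ((∫ x, φ x ∂μ : ℝ) : EReal) ≤ pressure f φ := by
  unfold pressure
  exact le_iSup_of_le μ (le_iSup_of_le h.1 (le_iSup_of_le h.2 le_rfl))

theorem tm_pressure_le {X : Type} [MeasurableSpace X] {f : X → X} (φ : X → ℝ) {b : EReal}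
    (h : ∀ μ, Inv f μ → ksEntropy μ f + ((∫ x, φ x ∂μ : ℝ) : EReal) ≤ b) : pressure f φ ≤ b := by
  unfold pressure
  exact iSup_le fun μ => iSup_le fun h1 => iSup_le fun h2 => h μ ⟨h1, h2⟩

theorem tm_add_le_iff {h : EReal} {a b : ℝ} : h + (a : EReal) ≤ (b : EReal) ↔ h ≤ ((b - a : ℝ) : EReal) := by
  induction h using EReal.rec with
  | bot => simp
  | top =>
    rw [EReal.top_add_coe]
    exact iff_of_false (not_le.2 (EReal.coe_lt_top _)) (not_le.2 (EReal.coe_lt_top _))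
  | coe x =>
    rw [← EReal.coe_add, EReal.coe_le_coe_iff, EReal.coe_le_coe_iff]
    constructor <;> intro h <;> linarith

theorem tm_integrable {X : Type} [MetricSpace X] [CompactSpace X] [MeasurableSpace X] [BorelSpace X]
    {ψ : X → ℝ} (h : Continuous ψ) (μ : Measure X) [IsFiniteMeasure μ] : Integrable ψ μ :=
  h.integrable_of_hasCompactSupport (HasCompactSupport.of_compactSpace ψ)

theorem sGapA (h1 : SRate) (h2 : SPart) (h3 : SEntNonneg) (h4 : SHorse) (h5 : SUB) (h6 : SMane)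
    (h7 : SAub1) (h8 : SAub2) (h9 : SAub3) (h10 : SDim) (h11 : SII) (h12 : SI) : SGapA := by
  intro X _ _ _ _ _ f L N e hS φ K hK hφ P a hP ha
  have hfc : Continuous f := continuous_of_lip hS.one_le hS.lip
  have hφc : Continuous φ := hφ.continuous hK
  have hrate := h1 X f L N e hS
  have hpart := h2 X
  obtain ⟨η0, hη0, C2, hC2, hH⟩ := h4 X f L N e hS
  have hub := h5 X f N e hfc.measurable hS.epos hrate
  -- basic inequality
  have hbasic : ∀ μ, Inv f μ → ∀ t > (0 : ℝ),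
      ksEntropy μ f ≤ ((P t - t * ∫ x, φ x ∂μ : ℝ) : EReal) := by
    intro μ hμ t ht
    have := tm_le_pressure (fun x => t * φ x) hμ
    rw [hP t ht, integral_const_mul] at this
    exact tm_add_le_iff.1 this
  have hle : ∀ μ, Inv f μ → ∫ x, φ x ∂μ ≤ a := by
    intro μ hμ
    by_contra hcon
    push Not at hcon
    set d := ∫ x, φ x ∂μ - a with hd
    have hd0 : 0 < d := by linarith
    have e1 : ∀ᶠ t : ℝ in atTop, P t - a * t < d := ha.eventually (gt_mem_nhds hd0)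
    obtain ⟨t, ht1, ht2⟩ := (e1.and (eventually_ge_atTop (1 : ℝ))).exists
    have e2 := (h3 X f μ hμ.1).trans (hbasic μ hμ t (by linarith))
    have e3 : (0 : ℝ) ≤ P t - t * ∫ x, φ x ∂μ := by exact_mod_cast e2
    nlinarith only [hcon, ht1, ht2, e3]
  set ψ0 : X → ℝ := fun x => a - φ x with hψ0
  have hψ0L : Lip K ψ0 := by
    intro x y
    have := hφ x y
    simp only [hψ0]
    rw [show a - φ x - (a - φ y) = -(φ x - φ y) by ring, abs_neg]
    exact this
  have hint0 : ∀ μ, Inv f μ → ∫ x, ψ0 x ∂μ = a - ∫ x, φ x ∂μ := by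
    intro μ hμ
    have := hμ.1
    simp only [hψ0]
    rw [integral_sub (integrable_const a) (tm_integrable hφc μ)]
    simp
  obtain ⟨u, K', hK', hu, hpos⟩ := h6 X f e η0 C2 hS.trans hη0 hC2 hH ψ0 K hK hψ0L
    (fun μ hμ => by rw [hint0 μ hμ]; linarith [hle μ hμ])
  set ψ : X → ℝ := fun x => ψ0 x + u x - u (f x) with hψ
  have hL0 : 0 ≤ L := by linarith [hS.one_le]
  have hKψ : 0 ≤ K + K' + K' * L := by positivity
  have hψL : Lip (K + K' + K' * L) ψ := by
    intro x y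
    have e1 := hψ0L x y
    have e2 := hu x y
    have e3 := hu (f x) (f y)
    have e4 := mul_le_mul_of_nonneg_left (hS.lip x y) hK'
    simp only [hψ]
    rw [abs_le] at e1 e2 e3 ⊢
    constructor <;> linarith only [e1.1, e1.2, e2.1, e2.2, e3.1, e3.2, e4]
  have huc : Continuous u := hu.continuous hK'
  have hψc : Continuous ψ := hψL.continuous hKψ
  have hint : ∀ μ, Inv f μ → ∫ x, ψ x ∂μ = a - ∫ x, φ x ∂μ := by
    intro μ hμ
    have := hμ.1
    have e1 : ∫ x, u (f x) ∂μ = ∫ x, u x ∂μ := by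
      have := integral_map (μ := μ) (φ := f) hfc.measurable.aemeasurable (f := u)
        huc.aestronglyMeasurable
      rw [hμ.2.map_eq] at this
      exact this.symm
    have i1 : Integrable ψ0 μ := tm_integrable (hψ0L.continuous hK) μ
    have i2 : Integrable u μ := tm_integrable huc μ
    have i3 : Integrable (fun x => u (f x)) μ := tm_integrable (huc.comp hfc) μ
    have i4 : Integrable (fun x => ψ0 x + u x) μ := i1.add i2
    simp only [hψ]
    rw [integral_sub i4 i3, integral_add i1 i2, e1, hint0 μ hμ]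
    ring
  have hψ0' : ∀ x, 0 ≤ ψ x := hpos
  obtain ⟨hz, hfw, hbw, hnear⟩ := h7 X f L hS.one_le hS.lip ψ _ hKψ hψL hψ0'
  have hrev := h8 X f L hS.one_le hS.lip ψ hnear
  have hpay := h9 X f hfc hpart ψ hψc hψ0' hnear
  have hzero : Zero f ψ := by
    intro ε hε
    have e1 : ∀ᶠ t : ℝ in atTop, P t - a * t < ε := ha.eventually (gt_mem_nhds hε)
    obtain ⟨t, ht1, ht2⟩ := (e1.and (eventually_ge_atTop (1 : ℝ))).exists
    refine ⟨t, by linarith, fun μ hμ => (hbasic μ hμ t (by linarith)).trans ?_⟩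
    rw [EReal.coe_le_coe_iff, hint μ hμ]
    linarith
  have hdim := h10 X f N e η0 C2 hS.epos hrate hS.trans hη0 hC2 hH ψ _ hKψ hψL hψ0' _ hz hfw hbw hzero
  by_cases hb : ∀ η > (0 : ℝ), Branch f (Aub f ψ) e η
  · right
    have hII := h11 X f L e η0 C2 hS.one_le hS.lip hS.epos hη0 hC2 hH ψ _ hKψ hψL _ hz hdim hb
    intro ε hε
    filter_upwards [hII ε hε, eventually_gt_atTop (0 : ℝ)] with t ht ht0
    obtain ⟨μ, hμ, hh⟩ := ht
    have e1 := hh.trans (hbasic μ hμ t ht0)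
    rw [EReal.coe_le_coe_iff, hint μ hμ] at e1
    linarith only [e1]
  · left
    push Not at hb
    obtain ⟨η, hη, hnb⟩ := hb
    obtain ⟨δ, hδ, hI⟩ := h12 X f L e hS.one_le hS.lip hS.epos hpart hub ψ _ hrev hpay
      (fun μ _ => integral_nonneg hψ0') η hη hnb
    refine ⟨δ, hδ, ?_⟩
    filter_upwards [hI, eventually_gt_atTop (0 : ℝ)] with t ht ht0
    have e1 : pressure f (fun x => t * φ x) ≤ ((Real.exp (-δ * t) + a * t : ℝ) : EReal) := by
      refine tm_pressure_le _ fun μ hμ => tm_add_le_iff.2 ((ht μ hμ).trans ?_)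
      rw [EReal.coe_le_coe_iff, hint μ hμ, integral_const_mul]
      linarith
    rw [hP t ht0, EReal.coe_le_coe_iff] at e1
    linarith

theorem tm_rpow_le {α : ℝ} (hα : 0 < α) {a b : ℝ} (ha : 0 ≤ a) (hb : 0 ≤ b) :
    a ^ α ≤ b ^ α ↔ a ≤ b := Real.rpow_le_rpow_iff ha hb hα

theorem tm_root {α : ℝ} (hα : 0 < α) {a : ℝ} (ha : 0 ≤ a) : (a ^ α⁻¹) ^ α = a :=
  Real.rpow_inv_rpow ha hα.ne'

/-- the snowflake metric -/
@[reducible] noncomputable def tm_snow (X : Type) [MetricSpace X] {α : ℝ} (h0 : 0 < α) (h1 : α ≤ 1) :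
    MetricSpace X :=
  MetricSpace.ofDistTopology (fun x y => dist x y ^ α)
    (fun x => by simp [h0.ne'])
    (fun x y => by rw [dist_comm])
    (fun x y z => (Real.rpow_le_rpow dist_nonneg (dist_triangle x y z) h0.le).trans
      (Real.rpow_add_le_add_rpow dist_nonneg dist_nonneg h0.le h1))
    (fun s => by
      rw [Metric.isOpen_iff]
      constructor
      · intro h x hx
        obtain ⟨ε, hε, hb⟩ := h x hx
        refine ⟨ε ^ α, Real.rpow_pos_of_pos hε _, fun y hy => hb ?_⟩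
        rw [Metric.mem_ball, dist_comm]
        exact (Real.rpow_lt_rpow_iff dist_nonneg hε.le h0).1 hy
      · intro h x hx
        obtain ⟨ε, hε, hb⟩ := h x hx
        refine ⟨ε ^ α⁻¹, Real.rpow_pos_of_pos hε _, fun y hy => hb y ?_⟩
        rw [Metric.mem_ball, dist_comm] at hy
        have := Real.rpow_lt_rpow dist_nonneg hy h0
        rwa [tm_root h0 hε.le] at this)
    (fun x y h => by
      have := (Real.rpow_eq_zero dist_nonneg h0.ne').1 h
      exact dist_eq_zero.1 this)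

theorem sGapH (h1 : SGapA) : SGapH := by
  intro X mX cX nX msX bX f hS φ K α hK h0 hα hφ
  obtain ⟨L, hL, hlip⟩ := hS.lip
  obtain ⟨N, e, hN, he, hexp⟩ := hS.expa ((1 / 4 : ℝ) ^ α⁻¹) (by positivity)
  refine @h1 X (tm_snow X h0 hα) cX nX msX bX f (L ^ α) N (e ^ α) ?_ φ K hK hφ
  refine @Sys.mk X (tm_snow X h0 hα) f (L ^ α) N (e ^ α) (Real.one_le_rpow hL h0.le) ?_ hN
    (Real.rpow_pos_of_pos he _) ?_ ?_ ?_
  · intro x y
    change dist (f x) (f y) ^ α ≤ L ^ α * dist x y ^ α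
    rw [← Real.mul_rpow (by linarith only [hL]) dist_nonneg]
    exact Real.rpow_le_rpow dist_nonneg (hlip x y) h0.le
  · intro x y hxy
    change dist (f^[N] x) (f^[N] y) ^ α ≤ e ^ α at hxy
    change dist (f^[N] x) (f^[N] y) ^ α ≤
      1 / 4 * max (dist x y ^ α) (dist (f^[2 * N] x) (f^[2 * N] y) ^ α)
    have e1 := hexp x y ((tm_rpow_le h0 dist_nonneg he.le).1 hxy)
    have e2 := Real.rpow_le_rpow dist_nonneg e1 h0.le
    rw [Real.mul_rpow (by positivity) (le_max_of_le_left dist_nonneg), tm_root h0 (by norm_num),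
      Real.rpow_max dist_nonneg dist_nonneg h0.le] at e2
    exact e2
  · intro ε hε
    obtain ⟨η, hη, hsh⟩ := hS.shad (ε ^ α⁻¹) (Real.rpow_pos_of_pos hε _)
    refine ⟨η ^ α, Real.rpow_pos_of_pos hη _, fun x hx => ?_⟩
    obtain ⟨y, hy1, hy2⟩ := hsh x fun i => (tm_rpow_le h0 dist_nonneg hη.le).1 (hx i)
    refine ⟨y, hy1, fun i => ?_⟩
    change dist (x i) (y i) ^ α ≤ ε
    have := Real.rpow_le_rpow dist_nonneg (hy2 i) h0.le
    rwa [tm_root h0 hε.le] at this
  · intro η hη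
    obtain ⟨M, hM⟩ := hS.trans (η ^ α⁻¹) (Real.rpow_pos_of_pos hη _)
    refine ⟨M, fun x y => ?_⟩
    obtain ⟨n, hn1, hn2, c, hc0, hcn, hc⟩ := hM x y
    refine ⟨n, hn1, hn2, c, hc0, hcn, fun j hj => ?_⟩
    change dist (f (c j)) (c (j + 1)) ^ α ≤ η
    have := Real.rpow_le_rpow dist_nonneg (hc j hj) h0.le
    rwa [tm_root h0 hη.le] at this

end sTM

end Pool.Agent.MP_80da8f_an
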