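import Pool.Agent.MP_80da8f_an.Stm

attribute [-instance] ProperSMul.toContinuousSMul TotallySeparatedSpace.t2Space
  NonarchimedeanAddGroup.toIsTopologicalAddGroup IdemSemiring.toCanonicallyOrderedAdd
  AddQuantale.instAddLeftMono RKHS.instFunLike IsAddCyclic.isAddCommutative NumberField.to_charZero
  covariant_swap_mul_of_covariant_mul NonUnitalNonAssocSemiring.toAddCommMonoid
  IsScalarTower.complexToReal littleWedderburn AddQuantale.instAddRightMono
  CoalgHomClass.toSemilinearMapClass CommRing.toRing DivisionRing.toRing NormedRing.toRing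
  IsTopologicalTorsor.toContinuousSMul NonUnitalRing.toNonUnitalNonAssocRing
  IsTopologicalSemiring.toContinuousAdd Quantale.instMulRightMono
  LinearOrderedCommMonoidWithZero.toPosMulStrictMono IsOrderedMonoid.toMulLeftMono
  Valued.toUniformSpace IsValuativeTopology.instIsTopologicalAddGroup
  Group.IsPerfect.subsingleton_of_isMulCommutative NonUnitalNonAssocSemiring.toMulZeroClass
  NonUnitalSeminormedRing.toPseudoMetricSpace RingHomClass.toLinearMapClassNNRat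
  SeminormedRing.toRing NormedAlgebra.toAlgebra AddCommGroupWithOne.toAddGroupWithOne
  SemilinearIsometryClass.toSemilinearMapClass Quantale.instMulLeftMono IdemSemiring.toSemiring
  LeftPreLieAlgebra.toIsScalarTower continuousSub_of_discreteTopology
  NonAssocSemiring.toNonUnitalNonAssocSemiring RightPreLieAlgebra.toIsScalarTower NeZero.of_gt'
  IdemSemiring.toMulLeftMono NormedCommRing.toCommRing AddCommMonoidWithOne.toAddCommMonoid
  MulZeroOneClass.toMulZeroClass NonUnitalSemiring.toNonUnitalNonAssocSemiring instCoeTOfCoeDep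
  CStarAlgebra.instOrderClosedTopology RingHomClass.toLinearMapClassRat
  LieAdmissibleRing.toNonUnitalNonAssocRing NonUnitalNonAssocCommSemiring.toNonUnitalNonAssocSemiring
  IdemSemiring.toSemilatticeSup instCoeTCOfCoe LieAdmissibleAlgebra.toIsScalarTower

open MeasureTheory Filter Topology

namespace Pool.Agent.MP_80da8f_an

section sTN

theorem tn_dist (a b : ℝ) :
    dist (a : UnitAddCircle) (b : UnitAddCircle) = |a - b - round (a - b)| := by
  rw [dist_eq_norm, ← AddCircle.coe_sub, UnitAddCircle.norm_eq]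

theorem tn_norm (v : E2) (r : ℝ) (h : ∀ i, |v i| ≤ r) : ‖v‖ ≤ 2 * r := by
  have h0 := h 0
  have h1 := h 1
  have hr : 0 ≤ r := (abs_nonneg _).trans h0
  rw [EuclideanSpace.norm_eq, Fin.sum_univ_two, Real.norm_eq_abs, Real.norm_eq_abs]
  refine Real.sqrt_le_iff.2 ⟨by linarith, ?_⟩
  nlinarith only [abs_nonneg (v 0), abs_nonneg (v 1), h0, h1]

theorem tn_coord (v : E2) (i : Fin 2) : |v i| ≤ ‖v‖ := by
  simpa using PiLp.norm_apply_le v i

theorem tn_sec (p : T2) : proj (sec p) = p := funext fun i => Quotient.out_eq (p i)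

theorem tn_int (a : ℝ) (k : ℤ) : ((a + k : ℝ) : UnitAddCircle) = a := by
  rw [AddCircle.coe_add, add_eq_left, AddCircle.coe_eq_zero_iff]
  exact ⟨k, by simp⟩

theorem tn_lift (x : E2) (q : T2) : ∃ y, proj y = q ∧ ‖x - y‖ ≤ 2 * dist (proj x) q := by
  refine ⟨WithLp.toLp 2 fun i => sec q i + (round (x i - sec q i) : ℤ), ?_, tn_norm _ _ fun i => ?_⟩
  · funext i
    exact (tn_int _ _).trans (congrFun (tn_sec q) i)
  · refine le_trans (le_of_eq ?_) (dist_le_pi_dist (proj x) q i)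
    rw [← congrFun (tn_sec q) i]
    simp only [proj, tn_dist, PiLp.sub_apply, sub_add_eq_sub_sub]

theorem tn_diam (p q : T2) : dist p q ≤ 1 / 2 := by
  refine (dist_pi_le_iff (by norm_num)).2 fun i => ?_
  rw [← congrFun (tn_sec p) i, ← congrFun (tn_sec q) i]
  simp only [proj, tn_dist]
  exact abs_sub_round _

theorem sTor : STor := by
  refine ⟨fun x y => funext fun i => ?_, fun x y => funext fun i => ?_, tn_sec, fun x y => ?_,
    tn_lift, fun x y h => tn_norm _ _ fun i => ?_, tn_diam, fun H hH h0 x y => ?_, fun x => ?_⟩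
  · simp [proj]
  · simp [proj]
  · refine (dist_pi_le_iff (norm_nonneg _)).2 fun i => le_trans ?_ (tn_coord (x - y) i)
    simp only [proj, tn_dist, PiLp.sub_apply]
    simpa only [Int.cast_zero, sub_zero] using round_le (x i - y i) 0
  · refine le_trans (le_of_eq ?_) (dist_le_pi_dist (proj x) (proj y) i)
    have h1 := (tn_coord (x - y) i).trans h
    simp only [proj, PiLp.sub_apply] at h1 ⊢
    rw [dist_eq_norm, ← AddCircle.coe_sub]
    exact ((AddCircle.norm_coe_eq_abs_iff (1 : ℝ) one_ne_zero).2 (by simpa only [abs_one, one_div] using h1)).symm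
  · ext i
    have hc : Continuous fun z => H z i := by fun_prop
    have hz : ∀ z, ∃ k : ℤ, (k : ℝ) = H z i := fun z => by
      have := (AddCircle.coe_eq_zero_iff (1 : ℝ)).1 (congrFun (h0 z) i)
      simpa only [zsmul_eq_mul, mul_one] using this
    have key : ∀ a b, ¬ H a i < H b i := fun a b hlt => by
      obtain ⟨k, hk⟩ := hz a
      obtain ⟨l, hl⟩ := hz b
      have hkl : (k : ℝ) + 1 ≤ l := by
        have : k < l := by exact_mod_cast (hk.trans_lt hlt).trans_eq hl.symm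
        exact_mod_cast this
      obtain ⟨z, hz'⟩ := intermediate_value_univ a b hc
        (show (k : ℝ) + 1 / 2 ∈ Set.Icc (H a i) (H b i) from ⟨by linarith only [hk], by linarith only [hlt, hk, hl, hkl]⟩)
      obtain ⟨m, hm⟩ := hz z
      have h2 : (2 * m : ℝ) = 2 * k + 1 := by simp only at hz'; linarith
      have h3 : 2 * m = 2 * k + 1 := by exact_mod_cast h2
      omega
    exact le_antisymm (not_lt.1 (key y x)) (not_lt.1 (key x y))
  · obtain ⟨y, h1, h2⟩ := tn_lift 0 (proj x)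
    refine ⟨y, h1, ?_⟩
    have := tn_diam (proj 0) (proj x)
    rw [zero_sub, norm_neg] at h2
    linarith only [h2, this]

end sTN

section sTO

theorem to_per (T : TorF) {H : E2 → E2} (hc : Continuous H)
    (hp : ∀ x y, proj x = proj y → proj (H x) = proj (H y)) {x y : E2} (h : proj x = proj y)
    (z : E2) : fderiv ℝ H (z + (y - x)) = fderiv ℝ H z := by
  have hk : ∀ w, proj (w + (y - x)) = proj w := fun w => by
    rw [T.add, T.sub, h, sub_self, add_zero]
  have h1 : ∀ w, H (w + (y - x)) = H w + (H (0 + (y - x)) - H 0) := fun w => by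
    have := T.const (fun w => H (w + (y - x)) - H w) (by fun_prop)
      (fun w => by rw [T.sub, hp _ _ (hk w), sub_self]) w 0
    rw [← this]; abel
  rw [← fderiv_comp_add_right, funext h1, fderiv_add_const]

theorem to_bdd (T : TorF) {V : Type} [NormedAddCommGroup V] {D : E2 → V} (hc : Continuous D)
    (hp : ∀ x y, proj x = proj y → D x = D y) : ∃ M, ∀ x, ‖D x‖ ≤ M := by
  obtain ⟨M, hM⟩ := (isCompact_closedBall (0 : E2) 1).exists_bound_of_continuousOn hc.continuousOn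
  refine ⟨M, fun x => ?_⟩
  obtain ⟨y, hy, h1⟩ := T.bdd x
  rw [← hp y x hy]
  exact hM y (mem_closedBall_zero_iff.2 h1)

theorem to_main (T : TorF) {H : E2 → E2} (hs : ContDiff ℝ 2 H)
    (hp : ∀ x y, proj x = proj y → proj (H x) = proj (H y)) :
    (∀ x y, proj x = proj y → fderiv ℝ H x = fderiv ℝ H y) ∧ ∃ M, 1 ≤ M ∧
      (∀ x, ‖fderiv ℝ H x‖ ≤ M) ∧ ∀ x y, ‖fderiv ℝ H x - fderiv ℝ H y‖ ≤ M * ‖x - y‖ := by
  have h1 : ∀ x y, proj x = proj y → fderiv ℝ H x = fderiv ℝ H y := fun x y h => by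
    rw [← to_per T hs.continuous hp h x, add_sub_cancel]
  have hd : ContDiff ℝ 1 (fderiv ℝ H) := hs.fderiv_right (m := 1) (by norm_num)
  have h2 : ∀ x y, proj x = proj y → fderiv ℝ (fderiv ℝ H) x = fderiv ℝ (fderiv ℝ H) y :=
    fun x y h => by
      have e : (fun z => fderiv ℝ H (z + (y - x))) = fderiv ℝ H :=
        funext (to_per T hs.continuous hp h)
      have := fderiv_comp_add_right (𝕜 := ℝ) (f := fderiv ℝ H) (x := x) (y - x)
      rw [e, add_sub_cancel] at this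
      exact this
  obtain ⟨M1, hM1⟩ := to_bdd T hd.continuous h1
  obtain ⟨M2, hM2⟩ := to_bdd T (hd.continuous_fderiv (by norm_num)) h2
  refine ⟨h1, max 1 (max M1 M2), le_max_left _ _,
    fun x => (hM1 x).trans ((le_max_left _ _).trans (le_max_right _ _)), fun x y => ?_⟩
  exact convex_univ.norm_image_sub_le_of_norm_fderiv_le
    (fun z _ => hd.differentiable (by norm_num) z)
    (fun z _ => (hM2 z).trans ((le_max_right _ _).trans (le_max_right _ _))) trivial trivial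

theorem to_back {F : E2 ≃ E2} (dF : Differentiable ℝ F) (dG : Differentiable ℝ F.symm)
    {W : T2 → Submodule ℝ E2}
    (h : ∀ x, (W (proj x)).map (fderiv ℝ F x).toLinearMap = W (proj (F x))) (x : E2) :
    ∀ v ∈ W (proj x), fderiv ℝ F.symm x v ∈ W (proj (F.symm x)) := by
  intro v hv
  have h1 := h (F.symm x)
  rw [F.apply_symm_apply] at h1
  rw [← h1] at hv
  obtain ⟨w, hw, rfl⟩ := hv
  have h2 : fderiv ℝ (F.symm ∘ F) (F.symm x) =
      (fderiv ℝ F.symm (F (F.symm x))).comp (fderiv ℝ F (F.symm x)) :=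
    fderiv_comp _ (dG _) (dF _)
  rw [F.symm_comp_self, fderiv_id, F.apply_symm_apply] at h2
  have h3 := congrArg (fun A : E2 →L[ℝ] E2 => A w) h2
  simp only [ContinuousLinearMap.id_apply, ContinuousLinearMap.comp_apply] at h3
  change fderiv ℝ F.symm x (fderiv ℝ F (F.symm x) w) ∈ _
  rw [← h3]
  exact hw

theorem sHypD : SHypD := by
  intro T f F Eu Es h
  obtain ⟨p1, M1, a1, b1, c1⟩ := to_main T h.smooth fun x y e => by rw [h.lift, h.lift, e]
  obtain ⟨-, M2, a2, b2, c2⟩ := to_main T h.smooth_inv fun x y e => h.bij.1 (by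
    rw [← h.lift, ← h.lift, F.apply_symm_apply, F.apply_symm_apply, e])
  obtain ⟨C, lam, hC, hl, hl1, hS, hU⟩ := h.hyp
  have dF : Differentiable ℝ F := ContDiff.differentiable (n := 2) h.smooth (by norm_num)
  have dG : Differentiable ℝ F.symm := ContDiff.differentiable (n := 2) h.smooth_inv (by norm_num)
  refine ⟨⟨C, lam, max M1 M2, F.apply_symm_apply, F.symm_apply_apply, dF, dG,
    a1.trans (le_max_left _ _), fun x => (b1 x).trans (le_max_left _ _),
    fun x => (b2 x).trans (le_max_right _ _),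
    fun x y => (c1 x y).trans (by gcongr; exact le_max_left _ _),
    fun x y => (c2 x y).trans (by gcongr; exact le_max_right _ _),
    fun x => (h.splits _).1, fun x => ?_, fun x => (h.splits _).2, fun x v hv => ?_, fun x v hv => ?_,
    to_back dF dG h.inv_u, to_back dF dG h.inv_s, hC, hl, hl1, hS, hU⟩, p1⟩
  · have := Submodule.finrank_add_eq_of_isCompl (h.splits (proj x)).2
    rw [(h.splits _).1, finrank_euclideanSpace_fin] at this
    omega
  · rw [← h.inv_u x]; exact ⟨v, hv, rfl⟩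
  · rw [← h.inv_s x]; exact ⟨v, hv, rfl⟩

end sTO

section sTP

theorem sIter : SIter := by
  intro F G U S C lam M h
  have hM : 0 ≤ M := zero_le_one.trans h.M1
  have hd : ∀ n, Differentiable ℝ (F^[n]) := h.dF.iterate
  have hc : ∀ n x, fderiv ℝ (F^[n + 1]) x = (fderiv ℝ F (F^[n] x)).comp (fderiv ℝ (F^[n]) x) :=
    fun n x => by
      rw [Function.iterate_succ']
      exact fderiv_comp x (h.dF _) (hd n x)
  have h0 : ∀ x, fderiv ℝ (F^[0]) x = ContinuousLinearMap.id ℝ E2 := fun x => fderiv_id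
  have hb : ∀ n x, ‖fderiv ℝ (F^[n]) x‖ ≤ M ^ n := fun n x => by
    induction n with
    | zero => rw [h0, pow_zero]; exact ContinuousLinearMap.norm_id_le
    | succ n ih =>
      rw [hc, pow_succ']
      exact (ContinuousLinearMap.opNorm_comp_le _ _).trans
        (mul_le_mul (h.bF _) ih (norm_nonneg _) hM)
  have hl : ∀ n x y, ‖F^[n] x - F^[n] y‖ ≤ M ^ n * ‖x - y‖ := fun n x y =>
    convex_univ.norm_image_sub_le_of_norm_fderiv_le (fun z _ => hd n z) (fun z _ => hb n z)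
      trivial trivial
  have hD : ∀ n x y, ‖fderiv ℝ (F^[n]) x - fderiv ℝ (F^[n]) y‖ ≤ (2 * M ^ 2) ^ n * ‖x - y‖ := by
    intro n x y
    induction n with
    | zero => simp
    | succ n ih =>
      have e : fderiv ℝ (F^[n + 1]) x - fderiv ℝ (F^[n + 1]) y =
          (fderiv ℝ F (F^[n] x) - fderiv ℝ F (F^[n] y)).comp (fderiv ℝ (F^[n]) x) +
            (fderiv ℝ F (F^[n] y)).comp (fderiv ℝ (F^[n]) x - fderiv ℝ (F^[n]) y) := by
        rw [hc, hc, ContinuousLinearMap.sub_comp, ContinuousLinearMap.comp_sub]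
        abel
      have h1 := (ContinuousLinearMap.opNorm_comp_le _ _).trans (mul_le_mul
        ((h.lF (F^[n] x) (F^[n] y)).trans (mul_le_mul_of_nonneg_left (hl n x y) hM)) (hb n x)
        (norm_nonneg _) (by positivity))
      have h2 := (ContinuousLinearMap.opNorm_comp_le _ _).trans
        (mul_le_mul (h.bF (F^[n] y)) ih (norm_nonneg _) hM)
      have h3 : M ^ n * M ^ n ≤ (2 * M ^ 2) ^ n := by
        rw [← mul_pow]
        exact pow_le_pow_left₀ (by positivity) (by nlinarith only []) n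
      have h4 := mul_le_mul_of_nonneg_left h3 (mul_nonneg hM (norm_nonneg (x - y)))
      have h5 := mul_le_mul_of_nonneg_left h.M1
        (show 0 ≤ M * ((2 * M ^ 2) ^ n * ‖x - y‖) by positivity)
      rw [e, pow_succ]
      refine (norm_add_le _ _).trans ?_
      linarith only [h1, h2, h4, h5]
  have hm : ∀ V : E2 → Submodule ℝ E2, (∀ x, ∀ v ∈ V x, fderiv ℝ F x v ∈ V (F x)) →
      ∀ n x, ∀ v ∈ V x, fderiv ℝ (F^[n]) x v ∈ V (F^[n] x) := fun V hV n x v hv => by
    induction n with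
    | zero => rw [h0]; exact hv
    | succ n ih =>
      rw [hc, Function.iterate_succ_apply']
      exact hV _ _ ih
  refine ⟨hd, hb, hD, hl, fun n x y => ?_, hm U h.UF, hm S h.SF, fun n x v hv => ?_,
    fun n x => h.cS x n⟩
  · rw [sq ‖y - x‖, ← mul_assoc]
    refine (convex_closedBall x ‖y - x‖).norm_image_sub_le_of_norm_fderiv_le' (fun z _ => hd n z)
      (fun z hz => (hD n z x).trans (mul_le_mul_of_nonneg_left (mem_closedBall_iff_norm.1 hz)
        (by positivity))) (Metric.mem_closedBall_self (norm_nonneg _))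
      (mem_closedBall_iff_norm.2 le_rfl)
  · have h1 := h.cU _ n _ (hm U h.UF n x v hv)
    have h2 := fderiv_comp x (h.dG.iterate n (F^[n] x)) (hd n x)
    rw [(Function.LeftInverse.iterate h.GF n).comp_eq_id, fderiv_id] at h2
    rwa [← ContinuousLinearMap.comp_apply, ← h2] at h1

theorem sAngle : SAngle := by
  intro F G U S C lam M h hI
  obtain ⟨n, hn⟩ := exists_pow_lt_of_lt_one (show 0 < 1 / 2 / C by have := h.Cpos; positivity) h.l1
  have h1 : C * lam ^ n ≤ 1 / 2 := by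
    rw [mul_comm]
    exact (lt_div_iff₀ h.Cpos).1 hn |>.le
  have h2 : 0 ≤ M ^ n := pow_nonneg (zero_le_one.trans h.M1) n
  refine ⟨2 + M ^ n, by linarith only [h2], fun x u hu s hs => ?_⟩
  have h3 := (hI.expU n x u hu).trans (mul_le_mul_of_nonneg_right h1 (norm_nonneg _))
  have h4 := (hI.conS n x s hs).trans (mul_le_mul_of_nonneg_right h1 (norm_nonneg _))
  have h5 := ((fderiv ℝ (F^[n]) x).le_opNorm (u + s)).trans
    (mul_le_mul_of_nonneg_right (hI.bnd n x) (norm_nonneg _))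
  have h6 := norm_sub_le (fderiv ℝ (F^[n]) x (u + s)) (fderiv ℝ (F^[n]) x s)
  have h7 := norm_sub_le (u + s) u
  rw [← map_sub, add_sub_cancel_right] at h6
  rw [add_sub_cancel_left] at h7
  have h8 := norm_nonneg (u + s)
  have h9 := mul_nonneg h2 h8
  constructor <;> linarith only [h3, h4, h5, h6, h7, h8, h9]

end sTP

section sTQ

theorem tq_alpha {lam R : ℝ} (h0 : 0 < lam) (h1 : lam < 1) (hR : 1 < R) :
    ∃ α : ℝ, 0 < α ∧ α ≤ 1 ∧ ∀ (n : ℕ) (d : ℝ), 0 < d → 1 / d < R ^ n → lam ^ n ≤ d ^ α := by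
  have hlR : 0 < Real.log R := Real.log_pos hR
  have hll : Real.log lam < 0 := Real.log_neg h0 h1
  refine ⟨min 1 (-Real.log lam / Real.log R), lt_min one_pos (div_pos (by linarith) hlR),
    min_le_left _ _, fun n d hd hn => ?_⟩
  set α := min 1 (-Real.log lam / Real.log R) with hα
  have hα0 : 0 < α := lt_min one_pos (div_pos (by linarith only [hll]) hlR)
  have hα1 : α * Real.log R ≤ -Real.log lam := by
    have : α ≤ -Real.log lam / Real.log R := min_le_right _ _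
    rwa [le_div_iff₀ hlR] at this
  have h2 : -Real.log d ≤ n * Real.log R := by
    have := Real.log_le_log (by positivity) hn.le
    rwa [Real.log_pow, one_div, Real.log_inv] at this
  rw [← Real.log_le_log_iff (by positivity) (by positivity), Real.log_pow, Real.log_rpow hd]
  have hn0 : (0 : ℝ) ≤ n := Nat.cast_nonneg n
  linarith only [mul_le_mul_of_nonneg_left hα1 hn0, mul_le_mul_of_nonneg_left h2 hα0.le]

theorem sHol : SHol := by
  intro F G U S C lam M Γ h hG hΓ hA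
  have hM := h.M1
  have hC := h.Cpos
  have hl := h.lpos
  have hR : (1 : ℝ) < 2 * M ^ 2 := by nlinarith only [hM]
  obtain ⟨α, hα0, hα1, hα⟩ := tq_alpha hl h.l1 hR
  refine ⟨C / lam * (C * (1 + Γ) + 1), α, by positivity, hα0, hα1, fun x y hxy u hu s hs hv => ?_⟩
  rcases (norm_nonneg (x - y)).eq_or_lt with hd | hd
  · have hxy' : x = y := sub_eq_zero.1 (norm_eq_zero.1 hd.symm)
    subst hxy'
    have hsU : s ∈ U x := by
      have := (U x).sub_mem hv hu
      simpa using this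
    have hs0 : s = 0 := (Submodule.disjoint_def.1 (h.compl x).disjoint) s hs hsU
    subst hs0
    rw [norm_zero]
    positivity
  · set d := ‖x - y‖ with hdd
    obtain ⟨n, hn1, hn2⟩ := exists_nat_pow_near (x := 1 / d) (y := 2 * M ^ 2)
      (by rw [le_div_iff₀ hd]; linarith) hR
    have h1 := hα (n + 1) d hd hn2
    have hRd : (2 * M ^ 2) ^ n * d ≤ 1 := by rwa [le_div_iff₀ hd] at hn1
    have hln : lam ^ n ≤ 1 := pow_le_one₀ hl.le h.l1.le
    have hlp : 0 < lam ^ n := by positivity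
    have e1 := hG.expU n y s hs
    have e2 := hG.conS n x (u + s) hv
    have e3 := hG.conS n y u hu
    have e4 := (hA y u hu s hs).1
    have e5 : ‖(fderiv ℝ (G^[n]) x - fderiv ℝ (G^[n]) y) (u + s)‖ ≤ ‖u + s‖ := by
      refine ((fderiv ℝ (G^[n]) x - fderiv ℝ (G^[n]) y).le_opNorm _).trans ?_
      exact mul_le_of_le_one_left (norm_nonneg _) ((hG.lipD n x y).trans hRd)
    have e6 : fderiv ℝ (G^[n]) y s = fderiv ℝ (G^[n]) x (u + s)
        - (fderiv ℝ (G^[n]) x - fderiv ℝ (G^[n]) y) (u + s) - fderiv ℝ (G^[n]) y u := by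
      simp only [sub_apply, map_add]
      abel
    have hw := norm_nonneg (u + s)
    have e7 : ‖fderiv ℝ (G^[n]) y s‖ ≤ (C * (1 + Γ) + 1) * ‖u + s‖ := by
      rw [e6]
      refine (norm_sub_le _ _).trans ?_
      refine (add_le_add_left (norm_sub_le _ _) _).trans ?_
      have a1 : C * lam ^ n * ‖u + s‖ ≤ C * ‖u + s‖ := by
        have : C * lam ^ n ≤ C := mul_le_of_le_one_right hC.le hln
        gcongr
      have a2 : C * lam ^ n * ‖u‖ ≤ C * (Γ * ‖u + s‖) := by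
        have : C * lam ^ n ≤ C := mul_le_of_le_one_right hC.le hln
        gcongr
      linarith only [e2, e3, e5, a1, a2]
    have e8 : C * lam ^ n ≤ C / lam * d ^ α := by
      rw [div_mul_eq_mul_div, le_div_iff₀ hl, mul_assoc, ← pow_succ]
      gcongr
    calc ‖s‖ ≤ C * lam ^ n * ‖fderiv ℝ (G^[n]) y s‖ := e1
      _ ≤ (C / lam * d ^ α) * ((C * (1 + Γ) + 1) * ‖u + s‖) := by gcongr
      _ = _ := by ring

theorem sExpE : SExpE := by
  intro F G U S C lam M h hF hG κ hκ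
  have hM := h.M1
  have hC := h.Cpos
  have hl := h.lpos
  obtain ⟨n, hn⟩ := exists_pow_lt_of_lt_one (x := min (1 / 2) (κ / 8) / C)
    (div_pos (lt_min (by norm_num) (by positivity)) hC) h.l1
  have hth : C * lam ^ (n + 1) ≤ min (1 / 2) (κ / 8) := by
    rw [lt_div_iff₀ hC] at hn
    have : lam ^ (n + 1) ≤ lam ^ n := pow_le_pow_of_le_one hl.le h.l1.le (Nat.le_succ n)
    nlinarith only [hC, hn, this]
  set N := n + 1 with hN
  have hR : 0 < (2 * M ^ 2) ^ N := by positivity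
  refine ⟨N, 1 / (8 * (2 * M ^ 2) ^ N), Nat.le_add_left 1 n, by positivity, fun x y hxy => ?_⟩
  set th := C * lam ^ N with hth'
  have ht0 : 0 < th := by positivity
  have ht1 : th ≤ 1 / 2 := hth.trans (min_le_left _ _)
  have ht2 : th ≤ κ / 8 := hth.trans (min_le_right _ _)
  obtain ⟨s, hs, u, hu, hv⟩ := Submodule.mem_sup.1
    ((h.compl x).sup_eq_top ▸ Submodule.mem_top : y - x ∈ S x ⊔ U x)
  set m := max ‖G^[N] x - G^[N] y‖ ‖F^[N] x - F^[N] y‖ with hm
  have hm0 : 0 ≤ m := (norm_nonneg _).trans (le_max_left _ _)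
  rw [norm_sub_rev] at hxy ⊢
  set w := ‖y - x‖ with hw
  have hw0 : 0 ≤ w := norm_nonneg _
  have hT : (2 * M ^ 2) ^ N * w ^ 2 ≤ w / 8 := by
    rw [le_div_iff₀ (by positivity)] at hxy
    linarith only [mul_le_mul_of_nonneg_left hxy hw0]
  have key : ∀ H : E2 → E2, ‖H y - H x - fderiv ℝ H x (y - x)‖ ≤ (2 * M ^ 2) ^ N * w ^ 2 →
      ‖H x - H y‖ ≤ m → ‖fderiv ℝ H x (y - x)‖ ≤ m + w / 8 := by
    intro H h1 h2
    have : fderiv ℝ H x (y - x) = -(H x - H y) - (H y - H x - fderiv ℝ H x (y - x)) := by abel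
    rw [this]
    refine (norm_sub_le _ _).trans ?_
    rw [norm_neg]
    linarith only [hT, h1, h2]
  have hA := key _ (hF.taylor N x y) (le_max_right _ _)
  have hB := key _ (hG.taylor N x y) (le_max_left _ _)
  have hu1 : ‖u‖ ≤ th * (m + w / 8 + th * ‖s‖) := by
    refine (hF.expU N x u hu).trans (mul_le_mul_of_nonneg_left ?_ ht0.le)
    have : fderiv ℝ (F^[N]) x u = fderiv ℝ (F^[N]) x (y - x) - fderiv ℝ (F^[N]) x s := by
      rw [← hv, map_add]; abel
    rw [this]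
    exact (norm_sub_le _ _).trans (add_le_add hA (hF.conS N x s hs))
  have hs1 : ‖s‖ ≤ th * (m + w / 8 + th * ‖u‖) := by
    refine (hG.expU N x s hs).trans (mul_le_mul_of_nonneg_left ?_ ht0.le)
    have : fderiv ℝ (G^[N]) x s = fderiv ℝ (G^[N]) x (y - x) - fderiv ℝ (G^[N]) x u := by
      rw [← hv, map_add]; abel
    rw [this]
    exact (norm_sub_le _ _).trans (add_le_add hB (hG.conS N x u hu))
  have hws : w ≤ ‖s‖ + ‖u‖ := by
    rw [hw, ← hv]; exact norm_add_le _ _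
  have htt : th * th ≤ 1 / 4 := by nlinarith only [ht0, ht1]
  have b1 : th * th * (‖s‖ + ‖u‖) ≤ 1 / 4 * (‖s‖ + ‖u‖) := by gcongr
  have b2 : th * w ≤ 1 / 2 * w := by gcongr
  have b3 : th * m ≤ κ / 8 * m := by gcongr
  have b4 : 0 ≤ κ * m := by positivity
  linarith only [hw0, hu1, hs1, hws, b1, b2, b3]

end sTQ

section sTR

theorem tr_sub (g : ℝ → ℝ) (hg : Continuous g) (ε a b : ℝ) (hε : 0 < ε) (hab : a ≤ b)
    (ha : g a ≤ -ε) (hb : ε ≤ g b) :
    ∃ a' b', a ≤ a' ∧ a' ≤ b' ∧ b' ≤ b ∧ g a' = -ε ∧ g b' = ε ∧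
      ∀ t, a' ≤ t → t ≤ b' → |g t| ≤ ε := by
  have c1 : IsCompact (Set.Icc a b ∩ {t | g t ≤ -ε}) :=
    isCompact_Icc.inter_right (isClosed_le hg continuous_const)
  obtain ⟨a', ⟨⟨h1, h2⟩, h3⟩, h4⟩ := c1.exists_isGreatest ⟨a, ⟨le_rfl, hab⟩, ha⟩
  have c2 : IsCompact (Set.Icc a' b ∩ {t | ε ≤ g t}) :=
    isCompact_Icc.inter_right (isClosed_le continuous_const hg)
  obtain ⟨b', ⟨⟨k1, k2⟩, k3⟩, k4⟩ := c2.exists_isLeast ⟨b, ⟨h2, le_rfl⟩, hb⟩
  have h3' : g a' ≤ -ε := h3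
  have k3' : ε ≤ g b' := k3
  have iv := intermediate_value_Icc k1 hg.continuousOn
  have ea : g a' = -ε := by
    obtain ⟨t, ⟨t1, t2⟩, t3⟩ := iv (show -ε ∈ Set.Icc (g a') (g b') from ⟨h3', by linarith⟩)
    have : t ≤ a' := h4 ⟨⟨h1.trans t1, t2.trans k2⟩, t3.le⟩
    have e : t = a' := le_antisymm this t1
    rw [← e]; exact t3
  have eb : g b' = ε := by
    obtain ⟨t, ⟨t1, t2⟩, t3⟩ := iv (show ε ∈ Set.Icc (g a') (g b') from ⟨by linarith only [hε, h3'], k3'⟩)
    have : b' ≤ t := k4 ⟨⟨t1, t2.trans k2⟩, t3.ge⟩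
    have e : t = b' := le_antisymm t2 this
    rw [← e]; exact t3
  refine ⟨a', b', h1, k1, k2, ea, eb, fun t t1 t2 => abs_le.2 ⟨?_, ?_⟩⟩
  · by_contra hc
    have hc' : g t ≤ -ε := (not_le.1 hc).le
    have : t ≤ a' := h4 ⟨⟨h1.trans t1, t2.trans k2⟩, hc'⟩
    have e : t = a' := le_antisymm this t1
    rw [e, ea] at hc
    exact hc le_rfl
  · by_contra hc
    have hc' : ε ≤ g t := (not_le.1 hc).le
    have : b' ≤ t := k4 ⟨⟨t1, t2.trans k2⟩, hc'⟩
    have e : t = b' := le_antisymm t2 this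
    rw [e, eb] at hc
    exact hc le_rfl

def tr_orb (T : ℤ → ℝ × ℝ → ℝ × ℝ) (s : ℤ) : ℕ → ℝ → ℝ × ℝ
  | 0, t => (t, 0)
  | n + 1, t => T (s + n) (tr_orb T s n t)

theorem tr_orb_cont (T : ℤ → ℝ × ℝ → ℝ × ℝ) (hT : ∀ i, Continuous (T i)) (s : ℤ) (n : ℕ) :
    Continuous (tr_orb T s n) := by
  induction n with
  | zero => exact continuous_id.prodMk continuous_const
  | succ n ih => exact (hT _).comp ih

theorem tr_fin (T : ℤ → ℝ × ℝ → ℝ × ℝ) (σ : ℤ → ℝ) (ε : ℝ) (hε : 0 < ε)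
    (hT : ∀ i, Continuous (T i)) (hσ : ∀ i, σ i = 1 ∨ σ i = -1)
    (hb : ∀ i v, |v.1| ≤ ε → |v.2| ≤ ε → |(T i v).2| ≤ ε ∧ (v.1 = ε → ε ≤ σ i * (T i v).1) ∧
      (v.1 = -ε → σ i * (T i v).1 ≤ -ε)) (s : ℤ) (n : ℕ) :
    ∃ a b τ : ℝ, a ≤ b ∧ (τ = 1 ∨ τ = -1) ∧ τ * (tr_orb T s n a).1 = -ε ∧
      τ * (tr_orb T s n b).1 = ε ∧
      ∀ t, a ≤ t → t ≤ b → ∀ j ≤ n, |(tr_orb T s j t).1| ≤ ε ∧ |(tr_orb T s j t).2| ≤ ε := by
  induction n with
  | zero =>
    refine ⟨-ε, ε, 1, by linarith, Or.inl rfl, by simp [tr_orb], by simp [tr_orb], ?_⟩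
    intro t t1 t2 j hj
    obtain rfl : j = 0 := by omega
    exact ⟨abs_le.2 ⟨t1, t2⟩, by simpa only [tr_orb, abs_zero] using hε.le⟩
  | succ n ih =>
    obtain ⟨a, b, τ, hab, hτ, ha, hb', hbox⟩ := ih
    have ba := hbox a le_rfl hab n le_rfl
    have bb := hbox b hab le_rfl n le_rfl
    have Ha := hb (s + n) _ ba.1 ba.2
    have Hb := hb (s + n) _ bb.1 bb.2
    have hg : Continuous fun t => τ * σ (s + n) * (tr_orb T s (n + 1) t).1 :=
      continuous_const.mul (tr_orb_cont T hT s (n + 1)).fst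
    have ga : τ * σ (s + n) * (tr_orb T s (n + 1) a).1 ≤ -ε := by
      show τ * σ (s + n) * (T (s + n) (tr_orb T s n a)).1 ≤ -ε
      rcases hτ with rfl | rfl
      · have := Ha.2.2 (by linarith only [ha])
        linarith
      · have := Ha.2.1 (by linarith only [ha])
        linarith
    have gb : ε ≤ τ * σ (s + n) * (tr_orb T s (n + 1) b).1 := by
      show ε ≤ τ * σ (s + n) * (T (s + n) (tr_orb T s n b)).1
      rcases hτ with rfl | rfl
      · have := Hb.2.1 (by linarith only [hb'])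
        linarith
      · have := Hb.2.2 (by linarith only [hb'])
        linarith
    obtain ⟨a', b', h1, h2, h3, h4, h5, h6⟩ := tr_sub _ hg ε a b hε hab ga gb
    have hτ' : τ * σ (s + n) = 1 ∨ τ * σ (s + n) = -1 := by
      rcases hτ with rfl | rfl <;> rcases hσ (s + n) with h | h <;> simp [h]
    refine ⟨a', b', τ * σ (s + n), h2, hτ', h4, h5, fun t t1 t2 j hj => ?_⟩
    by_cases hjn : j ≤ n
    · exact hbox t (h1.trans t1) (t2.trans h3) j hjn
    · obtain rfl : j = n + 1 := by omega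
      have bt := hbox t (h1.trans t1) (t2.trans h3) n le_rfl
      refine ⟨?_, (hb (s + n) _ bt.1 bt.2).1⟩
      have := h6 t t1 t2
      rcases hτ' with h | h <;> simpa [h] using this

theorem sCross : SCross := by
  intro T σ ε hε hT hσ hb
  let K : ℕ → Set (ℤ → ℝ × ℝ) := fun k =>
    {v | ∀ i, |(v i).1| ≤ ε ∧ |(v i).2| ≤ ε} ∩
      {v | ∀ i : ℤ, -(k : ℤ) ≤ i → i < k → v (i + 1) = T i (v i)}
  have cl0 : IsClosed {v : ℤ → ℝ × ℝ | ∀ i, |(v i).1| ≤ ε ∧ |(v i).2| ≤ ε} := by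
    rw [Set.ofPred_forall]
    refine isClosed_iInter fun i => IsClosed.inter ?_ ?_
    · exact isClosed_le (f := fun v : ℤ → ℝ × ℝ => |(v i).1|) (by fun_prop) continuous_const
    · exact isClosed_le (f := fun v : ℤ → ℝ × ℝ => |(v i).2|) (by fun_prop) continuous_const
  have hcl : ∀ k, IsClosed (K k) := by
    intro k
    refine cl0.inter ?_
    rw [Set.ofPred_forall]
    refine isClosed_iInter fun i => ?_
    by_cases h : -(k : ℤ) ≤ i ∧ i < k
    · simp only [h.1, h.2, forall_const]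
      exact isClosed_eq (continuous_apply _) ((hT i).comp (continuous_apply i))
    · have : {v : ℤ → ℝ × ℝ | -(k : ℤ) ≤ i → i < k → v (i + 1) = T i (v i)} = Set.univ :=
        Set.eq_univ_of_forall fun v h1 h2 => (h ⟨h1, h2⟩).elim
      rw [this]
      exact isClosed_univ
  have hc0 : IsCompact (K 0) := by
    refine (isCompact_univ_pi fun _ : ℤ =>
      (isCompact_Icc : IsCompact (Set.Icc ((-ε, -ε) : ℝ × ℝ) (ε, ε)))).of_isClosed_subset (hcl 0) ?_
    intro v hv i _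
    obtain ⟨h1, h2⟩ := hv.1 i
    exact ⟨⟨(abs_le.1 h1).1, (abs_le.1 h2).1⟩, ⟨(abs_le.1 h1).2, (abs_le.1 h2).2⟩⟩
  have hd : ∀ k, K (k + 1) ⊆ K k := by
    intro k v hv
    refine ⟨hv.1, fun i h1 h2 => hv.2 i ?_ ?_⟩ <;> push_cast <;> omega
  have hn : ∀ k, (K k).Nonempty := by
    intro k
    obtain ⟨a, b, τ, hab, -, -, -, hbox⟩ := tr_fin T σ ε hε hT hσ hb (-(k : ℤ)) (2 * k)
    refine ⟨fun i => tr_orb T (-(k : ℤ)) (min (i + k).toNat (2 * k)) a,
      fun i => hbox a le_rfl hab _ (min_le_right _ _), fun i h1 h2 => ?_⟩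
    obtain ⟨j, hj⟩ : ∃ j : ℕ, i = -(k : ℤ) + j := ⟨(i + k).toNat, by omega⟩
    have e1 : min (i + 1 + k).toNat (2 * k) = j + 1 := by omega
    have e2 : min (i + k).toNat (2 * k) = j := by omega
    show tr_orb T (-(k : ℤ)) (min (i + 1 + k).toNat (2 * k)) a =
      T i (tr_orb T (-(k : ℤ)) (min (i + k).toNat (2 * k)) a)
    rw [e1, e2, hj]
    rfl
  obtain ⟨v, hv⟩ := IsCompact.nonempty_iInter_of_sequence_nonempty_isCompact_isClosed K hd hn hc0 hcl
  rw [Set.mem_iInter] at hv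
  refine ⟨v, fun i => ⟨((hv 0).1 i).1, ((hv 0).1 i).2, (hv (i.natAbs + 1)).2 i ?_ ?_⟩⟩ <;>
    omega

end sTR

section sTS

theorem ts_unit (W : Submodule ℝ E2) (h : Module.finrank ℝ W = 1) :
    ∃ u ∈ W, ‖u‖ = 1 ∧ ∀ v ∈ W, ∃ a : ℝ, v = a • u := by
  obtain ⟨u, h0, hu⟩ := finrank_eq_one_iff'.1 h
  have h1 : ‖(u : E2)‖ ≠ 0 := by simpa using h0
  refine ⟨‖(u : E2)‖⁻¹ • u, W.smul_mem _ u.2, by rw [norm_smul, norm_inv, norm_norm]; field_simp,
    fun v hv => ?_⟩
  obtain ⟨c, hc⟩ := hu ⟨v, hv⟩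
  refine ⟨c * ‖(u : E2)‖, ?_⟩
  rw [smul_smul, mul_assoc, mul_inv_cancel₀ h1, mul_one]
  exact (congrArg Subtype.val hc).symm

theorem ts_coord {U S : E2 → Submodule ℝ E2} {Γ : ℝ} (hA : Angle U S Γ) (x : E2)
    (hU : Module.finrank ℝ (U x) = 1) (hS : Module.finrank ℝ (S x) = 1)
    (hc : IsCompl (S x) (U x)) :
    ∃ (u s : E2) (co : E2 → ℝ × ℝ), u ∈ U x ∧ s ∈ S x ∧ ‖u‖ = 1 ∧ ‖s‖ = 1 ∧
      (∀ v, v = (co v).1 • u + (co v).2 • s) ∧ Continuous co ∧
      ∀ w (p q : ℝ), |(co w).1 - p| ≤ Γ * ‖w - (p • u + q • s)‖ ∧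
        |(co w).2 - q| ≤ Γ * ‖w - (p • u + q • s)‖ := by
  obtain ⟨u, hu, hu1, hu2⟩ := ts_unit _ hU
  obtain ⟨s, hs, hs1, hs2⟩ := ts_unit _ hS
  have h1 : ∀ v : E2, ∃ c : ℝ × ℝ, v = c.1 • u + c.2 • s := by
    intro v
    have : v ∈ S x ⊔ U x := by rw [hc.sup_eq_top]; trivial
    obtain ⟨a, ha, b, hb, rfl⟩ := Submodule.mem_sup.1 this
    obtain ⟨p, rfl⟩ := hu2 b hb
    obtain ⟨q, rfl⟩ := hs2 a ha
    exact ⟨(p, q), add_comm _ _⟩
  choose co hco using h1
  have key : ∀ w (p q : ℝ), |(co w).1 - p| ≤ Γ * ‖w - (p • u + q • s)‖ ∧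
      |(co w).2 - q| ≤ Γ * ‖w - (p • u + q • s)‖ := by
    intro w p q
    have e : w - (p • u + q • s) = ((co w).1 - p) • u + ((co w).2 - q) • s := by
      conv_lhs => rw [hco w]
      module
    have := hA x _ ((U x).smul_mem ((co w).1 - p) hu) _ ((S x).smul_mem ((co w).2 - q) hs)
    rw [← e, norm_smul, norm_smul, hu1, hs1, mul_one, mul_one] at this
    exact this
  refine ⟨u, s, co, hu, hs, hu1, hs1, hco, ?_, key⟩
  refine (LipschitzWith.of_dist_le_mul (K := ⟨max Γ 0, le_max_right _ _⟩) fun v w => ?_).continuous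
  have := key v (co w).1 (co w).2
  rw [← hco w] at this
  have h2 : Γ * ‖v - w‖ ≤ max Γ 0 * dist v w := by
    rw [dist_eq_norm]
    exact mul_le_mul_of_nonneg_right (le_max_left _ _) (norm_nonneg _)
  rw [Prod.dist_eq]
  exact max_le (this.1.trans h2) (this.2.trans h2)

theorem ts_sign {e p t : ℝ} (he : 0 < e) (hp : 3 ≤ |p|) :
    (-(3 * e / 4) ≤ t - e * p ∧ t - e * p ≤ 3 * e / 4 → e ≤ (if 0 ≤ p then 1 else -1) * t) ∧
    (-(3 * e / 4) ≤ t - -e * p ∧ t - -e * p ≤ 3 * e / 4 → (if 0 ≤ p then 1 else -1) * t ≤ -e) := by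
  have := mul_le_mul_of_nonneg_left hp he.le
  split_ifs with h
  · rw [abs_of_nonneg h] at this
    exact ⟨fun a => by linarith only [a.1, he, this], fun a => by linarith only [a.2, he, this]⟩
  · rw [abs_of_neg (not_le.1 h)] at this
    exact ⟨fun a => by linarith only [a.2, he, this], fun a => by linarith only [a.1, he, this]⟩

theorem ts_err {Γ Q e η θ : ℝ} (he : 0 < e) (h1 : 16 * Γ * Q * e ≤ 1) (h2 : 4 * Γ * η ≤ e)
    (h3 : Γ * θ ≤ 1 / 4) : Γ * (Q * (2 * e) ^ 2 + η + e * θ) ≤ 3 * e / 4 := by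
  linarith only [mul_le_mul_of_nonneg_left h1 he.le, mul_le_mul_of_nonneg_left h3 he.le, h2]

theorem ts_four {Γ θ μ : ℝ} (h0 : 0 < θ) (h1 : 1 ≤ Γ) (h3 : Γ * θ ≤ 1 / 4) (h : 1 ≤ θ * μ) :
    4 ≤ μ := by
  have h4 : θ ≤ 1 / 4 := by nlinarith
  by_contra h5
  nlinarith only [h0, h, h4, h5]

theorem sShadE (h1 : SCross) : SShadE := by
  intro F G U S C lam M Γ C1 α1 hD hI hΓ hA hC1 hα hH
  have hΓ0 : 0 < Γ := by linarith
  have hM0 : 0 < M := by linarith [hD.M1]
  obtain ⟨n, hn⟩ := exists_pow_lt_of_lt_one (x := 1 / (4 * Γ * C))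
    (by have := hD.Cpos; positivity) hD.l1
  have hθ : Γ * (C * lam ^ (n + 1)) ≤ 1 / 4 := by
    have h2 : lam ^ (n + 1) ≤ lam ^ n := pow_le_pow_of_le_one hD.lpos.le hD.l1.le (Nat.le_succ n)
    have h3 := hD.Cpos
    rw [lt_div_iff₀ (by positivity)] at hn
    linarith only [mul_le_mul_of_nonneg_left h2 (show 0 ≤ Γ * C by positivity), hn]
  refine ⟨n + 1, by omega, fun ε hε => ?_⟩
  generalize n + 1 = N at hθ
  set θ := C * lam ^ N with hθdef
  have hθ0 : 0 < θ := by have := hD.Cpos; have := hD.lpos; positivity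
  set Q := (2 * M ^ 2) ^ N with hQ
  have hQ0 : 0 < Q := by positivity
  set B := M ^ N with hB
  have hB0 : 0 < B := by positivity
  obtain ⟨e, he0, he1, he2⟩ : ∃ e : ℝ, 0 < e ∧ 2 * e ≤ ε ∧ 16 * Γ * Q * e ≤ 1 := by
    refine ⟨min (ε / 2) (1 / (16 * Γ * Q)), by positivity, ?_, ?_⟩
    · linarith only [min_le_left (ε / 2) (1 / (16 * Γ * Q))]
    · have := min_le_right (ε / 2) (1 / (16 * Γ * Q))
      rw [le_div_iff₀ (by positivity)] at this
      linarith only [this]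
  obtain ⟨η, hη0, hη1, hη2, hη3⟩ : ∃ η : ℝ, 0 < η ∧ η ≤ 1 ∧ 4 * Γ * η ≤ e ∧
      ∀ t, 0 ≤ t → t ≤ η → C1 * t ^ α1 * B ≤ 1 / 4 := by
    have hc : 0 < 1 / (4 * (C1 * B + 1)) := by positivity
    refine ⟨min (min 1 (e / (4 * Γ))) ((1 / (4 * (C1 * B + 1))) ^ α1⁻¹), by positivity,
      (min_le_left _ _).trans (min_le_left _ _), ?_, fun t h0 ht => ?_⟩
    · have := (min_le_left _ ((1 / (4 * (C1 * B + 1))) ^ α1⁻¹)).trans (min_le_right 1 (e / (4 * Γ)))
      rw [le_div_iff₀ (by positivity)] at this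
      linarith only [this]
    · have h2 := Real.rpow_le_rpow h0 (ht.trans (min_le_right _ _)) hα.le
      rw [Real.rpow_inv_rpow hc.le hα.ne', le_div_iff₀ (by positivity)] at h2
      have h3 : 0 ≤ t ^ α1 := Real.rpow_nonneg h0 _
      linarith only [h2, h3]
  refine ⟨η, hη0, fun x k hk hx => ?_⟩
  choose u s co hu hs hu1 hs1 hco hcont key using
    fun i : ℤ => ts_coord hA (x i) (hD.rU _) (hD.rS _) (hD.compl _)
  let T : ℤ → ℝ × ℝ → ℝ × ℝ := fun i v =>
    co (i + 1) (F^[N] (x i + (v.1 • u i + v.2 • s i)) - k i - x (i + 1))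
  let p : ℤ → ℝ := fun i => (co (i + 1) (fderiv ℝ (F^[N]) (x i) (u i))).1
  have hnv : ∀ i (v : ℝ × ℝ), |v.1| ≤ e → |v.2| ≤ e → ‖v.1 • u i + v.2 • s i‖ ≤ 2 * e := by
    intro i v a b
    refine (norm_add_le _ _).trans ?_
    rw [norm_smul, norm_smul, hu1, hs1, Real.norm_eq_abs, Real.norm_eq_abs]
    linarith only [a, b]
  obtain ⟨v, hv⟩ := h1 T (fun i => if 0 ≤ p i then 1 else -1) e he0 (fun i => by
      have := (hI.diff N).continuous
      exact (hcont (i + 1)).comp (by fun_prop)) (fun i => by split_ifs <;> simp) fun i v a b => by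
    set D := fderiv ℝ (F^[N]) (x i) with hDdef
    set q := (co (i + 1) (D (u i))).2 with hq
    have e1 : D (u i) = p i • u (i + 1) + q • s (i + 1) := hco (i + 1) _
    have m1 : ‖D (u i)‖ ≤ B := by
      have := D.le_opNorm (u i)
      rw [hu1, mul_one] at this
      exact this.trans (hI.bnd N _)
    have m2 : 4 ≤ ‖D (u i)‖ := by
      have := hI.expU N (x i) (u i) (hu i)
      rw [hu1] at this
      exact ts_four hθ0 hΓ hθ this
    have m3 : |q| ≤ 1 / 4 := by
      have h5 := hH (F^[N] (x i) - k i) (x (i + 1)) ((hx i).trans hη1) _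
        ((U _).smul_mem (p i) (hu (i + 1))) _ ((S _).smul_mem q (hs (i + 1)))
        (by rw [← e1, (hk i _).1]; exact hI.memU N _ _ (hu i))
      rw [← e1, norm_smul, hs1, mul_one, Real.norm_eq_abs] at h5
      refine h5.trans (le_trans ?_ (hη3 _ (norm_nonneg _) (hx i)))
      exact mul_le_mul_of_nonneg_left m1 (by positivity)
    have m4 : 3 ≤ |p i| := by
      have := norm_add_le (p i • u (i + 1)) (q • s (i + 1))
      rw [← e1, norm_smul, norm_smul, hu1, hs1, Real.norm_eq_abs, Real.norm_eq_abs] at this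
      linarith only [m2, m3, this]
    set w := v.1 • u i + v.2 • s i with hw
    have m5 : Γ * ‖F^[N] (x i + w) - k i - x (i + 1) -
        ((v.1 * p i) • u (i + 1) + (v.1 * q) • s (i + 1))‖ ≤ 3 * e / 4 := by
      have e2 : F^[N] (x i + w) - k i - x (i + 1) -
          ((v.1 * p i) • u (i + 1) + (v.1 * q) • s (i + 1)) =
          (F^[N] (x i + w) - F^[N] (x i) - D w) + (F^[N] (x i) - k i - x (i + 1)) +
            v.2 • D (s i) := by
        rw [hw, map_add, map_smul, map_smul, e1]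
        module
      have t1 := hI.taylor N (x i) (x i + w)
      rw [add_sub_cancel_left] at t1
      have t2 : ‖w‖ ^ 2 ≤ (2 * e) ^ 2 := pow_le_pow_left₀ (norm_nonneg _) (hnv i v a b) 2
      have t3 : ‖v.2 • D (s i)‖ ≤ e * θ := by
        have := hI.conS N (x i) (s i) (hs i)
        rw [hs1, mul_one] at this
        rw [norm_smul, Real.norm_eq_abs]
        exact mul_le_mul b this (norm_nonneg _) he0.le
      have t4 := (norm_add₃_le (a := F^[N] (x i + w) - F^[N] (x i) - D w)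
        (b := F^[N] (x i) - k i - x (i + 1)) (c := v.2 • D (s i))).trans
        (add_le_add (add_le_add (t1.trans (mul_le_mul_of_nonneg_left t2 hQ0.le)) (hx i)) t3)
      rw [e2]
      exact (mul_le_mul_of_nonneg_left t4 hΓ0.le).trans (ts_err he0 he2 hη2 hθ)
    obtain ⟨k1, k2⟩ := key (i + 1) (F^[N] (x i + w) - k i - x (i + 1)) (v.1 * p i) (v.1 * q)
    have k3 := abs_le.1 (k1.trans m5)
    have k4 := abs_le.1 (k2.trans m5)
    have k5 : |v.1 * q| ≤ e * (1 / 4) := by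
      rw [abs_mul]
      exact mul_le_mul a m3 (abs_nonneg _) he0.le
    have k6 := abs_le.1 k5
    change _ ≤ (T i v).1 - _ ∧ (T i v).1 - _ ≤ _ at k3
    change _ ≤ (T i v).2 - _ ∧ (T i v).2 - _ ≤ _ at k4
    refine ⟨abs_le.2 ⟨by linarith only [k4.1, k6.1], by linarith only [k4.2, k6.2]⟩,
      fun h => (ts_sign he0 m4).1 (h ▸ k3), fun h => (ts_sign he0 m4).2 (h ▸ k3)⟩
  refine ⟨fun i => x i + ((v i).1 • u i + (v i).2 • s i), fun i => ⟨?_, ?_⟩⟩
  · have := hco (i + 1) (F^[N] (x i + ((v i).1 • u i + (v i).2 • s i)) - k i - x (i + 1))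
    simp only [(hv i).2.2, T]
    rw [← this]
    abel
  · rw [add_sub_cancel_left]
    exact (hnv i (v i) (hv i).1 (hv i).2.1).trans he1

end sTS

section sTT

/-- points reached from `p` by a chain of length between `1` and `n + 1` with jumps below `δ` -/
def tt_R {X : Type} [MetricSpace X] (f : X → X) (δ : ℝ) (p : X) : ℕ → Set X
  | 0 => Metric.ball (f p) δ
  | n + 1 => tt_R f δ p n ∪ ⋃ x ∈ tt_R f δ p n, Metric.ball (f x) δ

theorem tt_open {X : Type} [MetricSpace X] (f : X → X) (δ : ℝ) (p : X) (n : ℕ) :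
    IsOpen (tt_R f δ p n) := by
  induction n with
  | zero => exact Metric.isOpen_ball
  | succ n ih => exact ih.union (isOpen_biUnion fun _ _ => Metric.isOpen_ball)

theorem tt_mono {X : Type} [MetricSpace X] (f : X → X) (δ : ℝ) (p : X) :
    Monotone (tt_R f δ p) :=
  monotone_nat_of_le_succ fun _ => Set.subset_union_left

theorem tt_chain {X : Type} [MetricSpace X] (f : X → X) {δ : ℝ} (hδ : 0 < δ) (p p' : X)
    (hp : dist (f p') (f p) < δ) (n : ℕ) : ∀ y ∈ tt_R f δ p n, ∃ m, 1 ≤ m ∧ m ≤ n + 1 ∧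
      ∃ c : ℕ → X, c 0 = p' ∧ c m = y ∧ IsChain f (2 * δ) c m := by
  have one : ∀ a b : X, dist (f a) b ≤ 2 * δ →
      IsChain f (2 * δ) (fun j => if j = 0 then a else b) 1 := by
    intro a b h j hj
    obtain rfl : j = 0 := by omega
    simpa only [↓ reduceIte, zero_add, one_ne_zero] using h
  induction n with
  | zero =>
    intro y hy
    refine ⟨1, le_rfl, le_rfl, fun j => if j = 0 then p' else y, by simp, by simp, one _ _ ?_⟩
    have h1 : dist (f p) y < δ := Metric.mem_ball'.1 hy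
    linarith [dist_triangle (f p') (f p) y]
  | succ n ih =>
    rintro y (hy | hy)
    · obtain ⟨m, h1, h2, h3⟩ := ih y hy
      exact ⟨m, h1, by omega, h3⟩
    · obtain ⟨x, hx, hxy⟩ := Set.mem_iUnion₂.1 hy
      obtain ⟨m, h1, h2, c, c0, cm, hc⟩ := ih x hx
      have h3 : dist (f x) y < δ := Metric.mem_ball'.1 hxy
      have e : (fun j : ℕ => if j = 0 then x else y) 0 = c m := by simp [cm]
      refine ⟨m + 1, by omega, by omega, cat c m fun j => if j = 0 then x else y, ?_, ?_,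
        IsChain.cat e hc (one _ _ (by linarith only [hδ, h3]))⟩
      · rw [cat_left e (Nat.zero_le _), c0]
      · rw [cat_right]; simp

theorem tt_univ {X : Type} [MetricSpace X] [CompactSpace X] [ConnectedSpace X]
    [MeasurableSpace X] [BorelSpace X] (f : X → X) (μ : Measure X) [IsFiniteMeasure μ]
    [μ.IsOpenPosMeasure] (hc : Continuous f) (hs : Function.Surjective f)
    (hm : MeasurePreserving f μ μ) {δ : ℝ} (hδ : 0 < δ) (p : X) :
    ∃ n, ∀ y, y ∈ tt_R f δ p n := by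
  set R : Set X := ⋃ n, tt_R f δ p n with hR
  have hRo : IsOpen R := isOpen_iUnion fun n => tt_open f δ p n
  have h1 : closure R ⊆ f ⁻¹' R := by
    intro x hx
    obtain ⟨x', h2, h3⟩ := mem_closure_iff.1 hx (f ⁻¹' Metric.ball (f x) δ)
      (Metric.isOpen_ball.preimage hc) (Metric.mem_ball_self hδ)
    obtain ⟨n, hn⟩ := Set.mem_iUnion.1 h3
    exact Set.mem_iUnion.2 ⟨n + 1, Or.inr (Set.mem_biUnion hn (Metric.mem_ball_comm.1 h2))⟩
  have h2 : μ (f ⁻¹' R \ closure R) = 0 := by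
    rw [measure_sdiff h1 isClosed_closure.measurableSet.nullMeasurableSet (measure_ne_top _ _),
      hm.measure_preimage hRo.measurableSet.nullMeasurableSet]
    exact tsub_eq_zero_of_le (measure_mono subset_closure)
  have h3 : f ⁻¹' R = closure R :=
    (Set.sdiff_eq_empty.1
      (((hRo.preimage hc).sdiff isClosed_closure).eq_empty_of_measure_zero h2)).antisymm h1
  have h4 : f ⁻¹' R = Set.univ :=
    IsClopen.eq_univ ⟨h3 ▸ isClosed_closure, hRo.preimage hc⟩
      ⟨p, Set.mem_iUnion.2 ⟨0, Metric.mem_ball_self hδ⟩⟩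
  have h5 : (Set.univ : Set X) ⊆ ⋃ n, tt_R f δ p n := by
    intro y _
    obtain ⟨x, rfl⟩ := hs y
    exact (h4 ▸ Set.mem_univ x : x ∈ f ⁻¹' R)
  obtain ⟨n, hn⟩ := isCompact_univ.elim_directed_cover _ (tt_open f δ p) h5
    (tt_mono f δ p).directed_le
  exact ⟨n, fun y => hn (Set.mem_univ y)⟩

theorem sTrans : STrans := by
  intro X _ _ _ _ _ f μ _ _ hc hs hm η hη
  have hδ : 0 < η / 2 := by positivity
  choose n hn using tt_univ f μ hc hs hm hδ
  obtain ⟨t, ht⟩ := isCompact_univ.elim_finite_subcover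
    (fun p : X => f ⁻¹' Metric.ball (f p) (η / 2)) (fun p => Metric.isOpen_ball.preimage hc)
    fun x _ => Set.mem_iUnion.2 ⟨x, Metric.mem_ball_self hδ⟩
  refine ⟨t.sup n + 1, fun x y => ?_⟩
  obtain ⟨p, hp, hx⟩ := Set.mem_iUnion₂.1 (ht (Set.mem_univ x))
  obtain ⟨m, h1, h2, c, c0, cm, h3⟩ := tt_chain f hδ p x hx (n p) y (hn p y)
  have h4 : n p ≤ t.sup n := Finset.le_sup hp
  exact ⟨m, h1, by omega, c, c0, cm, h3.mono (by linarith only [])⟩

end sTT

section sTU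

theorem tu_unit {V : Submodule ℝ E2} (h : Module.finrank ℝ V = 1) : ∃ u ∈ V, ‖u‖ = 1 := by
  have hne : V ≠ ⊥ := by
    intro hb
    rw [hb] at h
    simp at h
  obtain ⟨v, hv, hv0⟩ := Submodule.exists_mem_ne_zero_of_ne_bot hne
  refine ⟨‖v‖⁻¹ • v, V.smul_mem _ hv, ?_⟩
  rw [norm_smul, norm_inv, norm_norm, inv_mul_cancel₀ (norm_ne_zero_iff.2 hv0)]

theorem tu_span {V : Submodule ℝ E2} (h : Module.finrank ℝ V = 1) {u : E2} (hu : u ∈ V)
    (h1 : ‖u‖ = 1) {v : E2} (hv : v ∈ V) : ∃ c : ℝ, v = c • u := by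
  have hu0 : (⟨u, hu⟩ : V) ≠ 0 := by
    intro h0
    have : u = 0 := congrArg Subtype.val h0
    rw [this] at h1
    simp at h1
  obtain ⟨c, hc⟩ := (finrank_eq_one_iff_of_nonzero' (⟨u, hu⟩ : V) hu0).1 h ⟨v, hv⟩
  exact ⟨c, (congrArg Subtype.val hc).symm⟩

theorem tu_norm {V : Submodule ℝ E2} (h : Module.finrank ℝ V = 1) {u : E2} (hu : u ∈ V)
    (h1 : ‖u‖ = 1) (A : E2 →L[ℝ] E2) : ‖A.comp V.subtypeL‖ = ‖A u‖ := by
  apply le_antisymm
  · refine ContinuousLinearMap.opNorm_le_bound _ (norm_nonneg _) fun v => ?_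
    obtain ⟨c, hc⟩ := tu_span h hu h1 v.2
    have e1 : (A.comp V.subtypeL) v = c • A u := by
      rw [← map_smul, ← hc]; rfl
    have e2 : ‖v‖ = |c| := by
      have : ‖v‖ = ‖(v : E2)‖ := rfl
      rw [this, hc, norm_smul, h1, mul_one, Real.norm_eq_abs]
    rw [e1, e2, norm_smul, Real.norm_eq_abs, mul_comm]
  · have := (A.comp V.subtypeL).le_opNorm ⟨u, hu⟩
    have e2 : ‖(⟨u, hu⟩ : V)‖ = 1 := h1
    rw [e2, mul_one] at this
    exact this

theorem tu_lower {F G : E2 → E2} {U S : E2 → Submodule ℝ E2} {C lam M : ℝ}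
    (h : HypD F G U S C lam M) (x v : E2) : ‖v‖ ≤ M * ‖fderiv ℝ F x v‖ := by
  have hc : fderiv ℝ (G ∘ F) x = (fderiv ℝ G (F x)).comp (fderiv ℝ F x) :=
    fderiv_comp x (h.dG _) (h.dF _)
  have hid : G ∘ F = id := funext h.GF
  rw [hid, fderiv_id] at hc
  have e : v = fderiv ℝ G (F x) (fderiv ℝ F x v) := by
    have := congrArg (fun L : E2 →L[ℝ] E2 => L v) hc
    simpa using this
  calc ‖v‖ = ‖fderiv ℝ G (F x) (fderiv ℝ F x v)‖ := by rw [← e]
    _ ≤ ‖fderiv ℝ G (F x)‖ * ‖fderiv ℝ F x v‖ := ContinuousLinearMap.le_opNorm _ _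
    _ ≤ M * ‖fderiv ℝ F x v‖ := mul_le_mul_of_nonneg_right (h.bG _) (norm_nonneg _)

theorem tu_log1 {M A B : ℝ} (hM : 0 < M) (hA : 1 ≤ M * A) (hB : 1 ≤ M * B) :
    Real.log A - Real.log B ≤ M * |A - B| := by
  have hA0 : 0 < A := by
    by_contra hn
    have : M * A ≤ 0 := mul_nonpos_of_nonneg_of_nonpos hM.le (not_lt.1 hn)
    linarith
  have hB0 : 0 < B := by
    by_contra hn
    have : M * B ≤ 0 := mul_nonpos_of_nonneg_of_nonpos hM.le (not_lt.1 hn)
    linarith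
  rw [← Real.log_div hA0.ne' hB0.ne']
  have h1 := Real.log_le_sub_one_of_pos (div_pos hA0 hB0)
  have h2 : A / B - 1 = (A - B) / B := by field_simp
  have h3 : (A - B) / B ≤ M * |A - B| := by
    rw [div_le_iff₀ hB0]
    have h4 := le_abs_self (A - B)
    have h5 := abs_nonneg (A - B)
    linarith only [mul_le_mul_of_nonneg_left hB h5, h4]
  linarith

theorem tu_log {M A B : ℝ} (hM : 0 < M) (hA : 1 ≤ M * A) (hB : 1 ≤ M * B) :
    |Real.log A - Real.log B| ≤ M * |A - B| := by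
  rw [abs_le]
  have h1 := tu_log1 hM hA hB
  have h2 := tu_log1 hM hB hA
  rw [abs_sub_comm] at h2
  constructor <;> linarith

theorem sPot : SPot := by
  intro hT F G Eu Es C lam M C' α h hper hC' hα hα1 hHol
  have hM : (0 : ℝ) < M := by linarith [h.M1]
  refine ⟨M * (M + 2 * M * C') * 2, by positivity, fun p q => ?_⟩
  obtain ⟨y, hy, hxy⟩ := hT.lift (sec p) q
  have hp : proj (sec p) = p := hT.sec p
  rw [hp] at hxy
  have hd := hT.diam p q
  have hxy1 : ‖sec p - y‖ ≤ 1 := by linarith only [hxy, hd]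
  have rp : Module.finrank ℝ (Eu p) = 1 := by
    have := h.rU (sec p)
    rwa [hp] at this
  have rq : Module.finrank ℝ (Eu q) = 1 := by
    have := h.rU y
    rwa [hy] at this
  obtain ⟨ux, hux, hux1⟩ := tu_unit rp
  obtain ⟨uy, huy, huy1⟩ := tu_unit rq
  have hq : fderiv ℝ F (sec q) = fderiv ℝ F y := hper _ _ (by rw [hT.sec, hy])
  have gp : geomPot F Eu p = -Real.log ‖fderiv ℝ F (sec p) ux‖ := by
    unfold geomPot normOn
    rw [tu_norm rp hux hux1]
  have gq : geomPot F Eu q = -Real.log ‖fderiv ℝ F y uy‖ := by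
    unfold geomPot normOn
    rw [tu_norm rq huy huy1, hq]
  have hcompl : IsCompl (Es q) (Eu q) := by
    have := h.compl y
    rwa [hy] at this
  have hmem : ux ∈ Es q ⊔ Eu q := by
    rw [hcompl.sup_eq_top]; trivial
  obtain ⟨s, hs, u, hu, hsu⟩ := Submodule.mem_sup.1 hmem
  have hus : u + s = ux := by rw [add_comm]; exact hsu
  have hS : ‖s‖ ≤ C' * ‖sec p - y‖ ^ α := by
    have := hHol (sec p) y hxy1 u (by show u ∈ Eu (proj y); rw [hy]; exact hu) s
      (by show s ∈ Es (proj y); rw [hy]; exact hs)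
      (by show u + s ∈ Eu (proj (sec p)); rw [hp, hus]; exact hux)
    rwa [hus, hux1, mul_one] at this
  obtain ⟨a, ha⟩ := tu_span rq huy huy1 hu
  have hua : ‖u‖ = |a| := by rw [ha, norm_smul, huy1, mul_one, Real.norm_eq_abs]
  have ha1 : |(|a| - 1)| ≤ ‖s‖ := by
    have := abs_norm_sub_norm_le u ux
    have e : u - ux = -s := by rw [← hus]; abel
    rwa [hua, hux1, e, norm_neg] at this
  obtain ⟨A, hA⟩ : ∃ A, A = fderiv ℝ F (sec p) := ⟨_, rfl⟩
  obtain ⟨B, hB⟩ : ∃ B, B = fderiv ℝ F y := ⟨_, rfl⟩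
  have hBM : ‖B‖ ≤ M := hB ▸ h.bF y
  have hAB : ‖A - B‖ ≤ M * ‖sec p - y‖ := by rw [hA, hB]; exact h.lF _ _
  have e1 : |‖A ux‖ - ‖B ux‖| ≤ M * ‖sec p - y‖ := by
    refine (abs_norm_sub_norm_le _ _).trans ?_
    have := (A - B).le_opNorm ux
    rw [hux1, mul_one] at this
    exact le_trans (le_of_eq rfl) (this.trans hAB)
  have e2 : |‖B ux‖ - ‖B u‖| ≤ M * ‖s‖ := by
    refine (abs_norm_sub_norm_le _ _).trans ?_
    have e : B ux - B u = B s := by rw [← hus, map_add]; abel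
    rw [e]
    exact (B.le_opNorm s).trans (mul_le_mul_of_nonneg_right hBM (norm_nonneg _))
  have hBy : ‖B uy‖ ≤ M := by
    have := B.le_opNorm uy
    rw [huy1, mul_one] at this
    exact this.trans hBM
  have e3 : |‖B u‖ - ‖B uy‖| ≤ M * ‖s‖ := by
    have e : ‖B u‖ - ‖B uy‖ = (|a| - 1) * ‖B uy‖ := by
      rw [ha, map_smul, norm_smul, Real.norm_eq_abs]; ring
    rw [e, abs_mul, abs_norm, mul_comm]
    exact mul_le_mul hBy ha1 (abs_nonneg _) hM.le
  have e4 : |‖A ux‖ - ‖B uy‖| ≤ M * ‖sec p - y‖ + 2 * M * ‖s‖ := by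
    have := abs_sub_le ‖A ux‖ ‖B ux‖ ‖B uy‖
    have := abs_sub_le ‖B ux‖ ‖B u‖ ‖B uy‖
    linarith
  have l1 : 1 ≤ M * ‖A ux‖ := by
    have := tu_lower h (sec p) ux
    rwa [hux1, ← hA] at this
  have l2 : 1 ≤ M * ‖B uy‖ := by
    have := tu_lower h y uy
    rwa [huy1, ← hB] at this
  have e5 := tu_log hM l1 l2
  have r1 : ‖sec p - y‖ ≤ ‖sec p - y‖ ^ α :=
    Real.self_le_rpow_of_le_one (norm_nonneg _) hxy1 hα1
  have r2 : ‖sec p - y‖ ^ α ≤ 2 * dist p q ^ α := by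
    have h1 : ‖sec p - y‖ ^ α ≤ (2 * dist p q) ^ α := Real.rpow_le_rpow (norm_nonneg _) hxy hα.le
    rw [Real.mul_rpow (by norm_num) dist_nonneg] at h1
    have h2 : (2 : ℝ) ^ α ≤ 2 := by
      simpa using Real.rpow_le_rpow_of_exponent_le (x := 2) (by norm_num) hα1
    exact h1.trans (mul_le_mul_of_nonneg_right h2 (Real.rpow_nonneg dist_nonneg _))
  rw [gp, gq, ← hA, ← hB]
  have e6 : |-Real.log ‖A ux‖ - -Real.log ‖B uy‖| = |Real.log ‖A ux‖ - Real.log ‖B uy‖| := by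
    rw [← abs_neg]; congr 1; ring
  rw [e6]
  obtain ⟨D, hD⟩ : ∃ D, D = ‖sec p - y‖ ^ α := ⟨_, rfl⟩
  rw [← hD] at r1 r2 hS
  have e7 : M * ‖sec p - y‖ + 2 * M * ‖s‖ ≤ (M + 2 * M * C') * D := by
    have := mul_le_mul_of_nonneg_left r1 hM.le
    have := mul_le_mul_of_nonneg_left hS (by positivity : (0 : ℝ) ≤ 2 * M)
    nlinarith
  have e8 : (M + 2 * M * C') * D ≤ (M + 2 * M * C') * (2 * dist p q ^ α) :=
    mul_le_mul_of_nonneg_left r2 (by positivity)
  calc _ ≤ M * |‖A ux‖ - ‖B uy‖| := e5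
    _ ≤ M * ((M + 2 * M * C') * (2 * dist p q ^ α)) :=
        mul_le_mul_of_nonneg_left (e4.trans (e7.trans e8)) hM.le
    _ = _ := by ring

end sTU

section sTV

theorem tv_proj_iter {f : T2 → T2} {F : E2 → E2} (hl : ∀ x, proj (F x) = f (proj x)) (n : ℕ)
    (x : E2) : proj (F^[n] x) = f^[n] (proj x) := by
  induction n with
  | zero => rfl
  | succ n ih => rw [Function.iterate_succ_apply', Function.iterate_succ_apply', hl, ih]

theorem tv_iter_lip {X : Type} [MetricSpace X] {f : X → X} {L : ℝ} (hL : 0 ≤ L)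
    (h : ∀ p q, dist (f p) (f q) ≤ L * dist p q) (n : ℕ) (p q : X) :
    dist (f^[n] p) (f^[n] q) ≤ L ^ n * dist p q := by
  induction n with
  | zero => simp
  | succ n ih =>
    rw [Function.iterate_succ_apply', Function.iterate_succ_apply', pow_succ', mul_assoc]
    exact (h _ _).trans (mul_le_mul_of_nonneg_left ih hL)

theorem tv_drift {X : Type} [MetricSpace X] {f : X → X} {L η : ℝ} (hL : 1 ≤ L) (hη : 0 ≤ η)
    (h : ∀ p q, dist (f p) (f q) ≤ L * dist p q) (x : ℤ → X)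
    (hx : ∀ i, dist (f (x i)) (x (i + 1)) ≤ η) (i : ℤ) (r : ℕ) :
    dist (f^[r] (x i)) (x (i + r)) ≤ r * L ^ r * η := by
  induction r with
  | zero => simp
  | succ r ih =>
    rw [Function.iterate_succ_apply']
    have h1 := h (f^[r] (x i)) (x (i + r))
    have h2 := hx (i + r)
    have h3 := dist_triangle (f (f^[r] (x i))) (f (x (i + r))) (x (i + r + 1))
    have h4 : L * dist (f^[r] (x i)) (x (i + r)) ≤ L * (r * L ^ r * η) :=
      mul_le_mul_of_nonneg_left ih (by linarith)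
    have h5 : (1 : ℝ) ≤ L ^ (r + 1) := one_le_pow₀ hL
    have h6 : η ≤ L ^ (r + 1) * η := by nlinarith only [hη, h5]
    have e1 : i + ((r + 1 : ℕ) : ℤ) = i + r + 1 := by push_cast; ring
    rw [e1]
    have e2 : ((r + 1 : ℕ) : ℝ) * L ^ (r + 1) * η = L * (r * L ^ r * η) + L ^ (r + 1) * η := by
      push_cast; ring
    rw [e2]
    linarith only [h1, h2, h3, h4, h6]

theorem tv_spread {X : Type} {f : X → X} {N : ℕ} (hN : 1 ≤ N) (P : ℤ → X)
    (hP : ∀ i, P (i + 1) = f^[N] (P i)) (l : ℤ) :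
    f^[((l + 1) % N).toNat] (P ((l + 1) / N)) = f (f^[(l % N).toNat] (P (l / N))) := by
  have hN0 : (0 : ℤ) < N := by exact_mod_cast hN
  have h0 : 0 ≤ l % N := Int.emod_nonneg _ hN0.ne'
  have h1 : l % N < N := Int.emod_lt_of_pos _ hN0
  have h2 : l % N + N * (l / N) = l := Int.emod_add_mul_ediv l N
  by_cases hc : l % N + 1 < N
  · have h3 : (l + 1) / N = l / N ∧ (l + 1) % N = l % N + 1 :=
      (Int.ediv_emod_unique hN0).2 ⟨by linarith only [h2], by linarith only [h0], hc⟩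
    rw [h3.1, h3.2]
    have h4 : (l % N + 1).toNat = (l % N).toNat + 1 := by omega
    rw [h4, Function.iterate_succ_apply']
  · have h3 : (l + 1) / N = l / N + 1 ∧ (l + 1) % N = 0 :=
      (Int.ediv_emod_unique hN0).2 ⟨by linarith only [h1, h2, hc], le_rfl, hN0⟩
    rw [h3.1, h3.2, hP]
    have h4 : N = (l % N).toNat + 1 := by omega
    rw [← Function.iterate_succ_apply' f, Nat.succ_eq_add_one, ← h4]
    rfl

theorem tv_lip (hT : TorF) {f : T2 → T2} {F : E2 → E2} {M : ℝ} (hM : 1 ≤ M)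
    (hl : ∀ x, proj (F x) = f (proj x))
    (hF : ∀ n x y, ‖F^[n] x - F^[n] y‖ ≤ M ^ n * ‖x - y‖) (p q : T2) :
    dist (f p) (f q) ≤ (2 * M) * dist p q := by
  obtain ⟨y, hy, hxy⟩ := hT.lift (sec p) q
  have h1 := hT.le (F (sec p)) (F y)
  rw [hl, hl, hT.sec, hy] at h1
  rw [hT.sec] at hxy
  have h2 := hF 1 (sec p) y
  simp only [Function.iterate_one, pow_one] at h2
  have h3 : M * ‖sec p - y‖ ≤ M * (2 * dist p q) := mul_le_mul_of_nonneg_left hxy (by linarith only [hM])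
  linarith only [h1, h2, h3]

theorem tv_expa (hT : TorF) {f : T2 → T2} {F G : E2 → E2} {M : ℝ} (hM : 1 ≤ M)
    (hl : ∀ x, proj (F x) = f (proj x)) (hFG : ∀ x, F (G x) = x)
    (hF : ∀ n x y, ‖F^[n] x - F^[n] y‖ ≤ M ^ n * ‖x - y‖)
    (hG : ∀ n x y, ‖G^[n] x - G^[n] y‖ ≤ M ^ n * ‖x - y‖) (hinj : Function.Injective f)
    (hE : ∀ κ > (0 : ℝ), ∃ (N : ℕ) (e : ℝ), 1 ≤ N ∧ 0 < e ∧ ∀ x y : E2, ‖x - y‖ ≤ e →
      ‖x - y‖ ≤ κ * max ‖G^[N] x - G^[N] y‖ ‖F^[N] x - F^[N] y‖) (lam : ℝ) (hlam : 0 < lam) :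
    ∃ N e, 1 ≤ N ∧ 0 < e ∧ Expa f N e lam := by
  obtain ⟨N, e0, hN, he0, hE⟩ := hE (lam / 2) (by linarith)
  have hMN : 0 < M ^ N := pow_pos (by linarith only [hM]) N
  refine ⟨N, min (e0 / 2) (1 / (4 * M ^ N)), hN, lt_min (by linarith only [he0]) (by positivity), ?_⟩
  intro p q hpq
  have hback : ∀ (X : E2) (r : T2), proj X = f^[N] r → proj (G^[N] X) = r := by
    intro X r hX
    apply hinj.iterate N
    have hli : Function.LeftInverse F G := hFG
    rw [← tv_proj_iter hl, hli.iterate N X, hX]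
  have hfwd : ∀ (X : E2) (r : T2), proj X = f^[N] r → proj (F^[N] X) = f^[2 * N] r := by
    intro X r hX
    rw [tv_proj_iter hl, hX, two_mul, Function.iterate_add_apply]
  obtain ⟨Y, hY, hXY⟩ := hT.lift (sec (f^[N] p)) (f^[N] q)
  have hX := hT.sec (f^[N] p)
  set X := sec (f^[N] p) with hXdef
  rw [hX] at hXY
  have a1 : dist (f^[N] p) (f^[N] q) ≤ e0 / 2 := hpq.trans (min_le_left _ _)
  have a2 : dist (f^[N] p) (f^[N] q) ≤ 1 / (4 * M ^ N) := hpq.trans (min_le_right _ _)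
  have a3 : M ^ N * ‖X - Y‖ ≤ 1 / 2 := by
    have b1 : ‖X - Y‖ ≤ 2 * (1 / (4 * M ^ N)) := by linarith only [hXY, a2]
    have b2 := mul_le_mul_of_nonneg_left b1 hMN.le
    have b3 : M ^ N * (2 * (1 / (4 * M ^ N))) = 1 / 2 := by
      field_simp
      norm_num
    linarith only [b2, b3]
  have c1 := hT.loc _ _ ((hG N X Y).trans a3)
  have c2 := hT.loc _ _ ((hF N X Y).trans a3)
  rw [hback X p hX, hback Y q hY] at c1
  rw [hfwd X p hX, hfwd Y q hY] at c2
  have c3 := hE X Y (by linarith only [hXY, a1])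
  have c4 := hT.le X Y
  rw [hX, hY] at c4
  have c5 : max ‖G^[N] X - G^[N] Y‖ ‖F^[N] X - F^[N] Y‖ ≤
      2 * max (dist p q) (dist (f^[2 * N] p) (f^[2 * N] q)) := by
    have d1 := le_max_left (dist p q) (dist (f^[2 * N] p) (f^[2 * N] q))
    have d2 := le_max_right (dist p q) (dist (f^[2 * N] p) (f^[2 * N] q))
    exact max_le (by linarith only [c1, d1]) (by linarith only [c2, d2])
  have c6 := mul_le_mul_of_nonneg_left c5 (by linarith only [hlam] : 0 ≤ lam / 2)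
  linarith only [c3, c4, c6]

theorem tv_shad (hT : TorF) {f : T2 → T2} {F : E2 → E2} {Eu Es : T2 → Submodule ℝ E2} {L : ℝ}
    (hL : 1 ≤ L) (hl : ∀ x, proj (F x) = f (proj x))
    (hf : ∀ p q, dist (f p) (f q) ≤ L * dist p q)
    (hS : ∃ N : ℕ, 1 ≤ N ∧ ∀ ε > (0 : ℝ), ∃ η > (0 : ℝ), ∀ x k : ℤ → E2,
      (∀ i y, Eu (proj (y - k i)) = Eu (proj y) ∧ Es (proj (y - k i)) = Es (proj y)) →
      (∀ i, ‖F^[N] (x i) - k i - x (i + 1)‖ ≤ η) →
      ∃ y : ℤ → E2, ∀ i, y (i + 1) = F^[N] (y i) - k i ∧ ‖y i - x i‖ ≤ ε) (ε : ℝ) (hε : 0 < ε) :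
    ∃ η > (0 : ℝ), Shad f η ε := by
  obtain ⟨N, hN, hS⟩ := hS
  have hLN : 0 < L ^ N := pow_pos (by linarith only [hL]) N
  have hN0 : (0 : ℝ) < N := by exact_mod_cast hN
  have hNz : (0 : ℤ) < N := by exact_mod_cast hN
  obtain ⟨η', hη', hS⟩ := hS (ε / 2 / L ^ N) (by positivity)
  have hA : 0 < (N : ℝ) * L ^ N := by positivity
  have hη : 0 < min η' ε / 2 / (N * L ^ N) := by
    have := lt_min hη' hε
    positivity
  refine ⟨min η' ε / 2 / (N * L ^ N), hη, ?_⟩
  intro x hx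
  have hdr : ∀ (i : ℤ) (r : ℕ), r ≤ N → dist (f^[r] (x i)) (x (i + r)) ≤ min η' ε / 2 := by
    intro i r hr
    refine (tv_drift hL hη.le hf x hx i r).trans ?_
    have b1 : (r : ℝ) * L ^ r ≤ N * L ^ N :=
      mul_le_mul (by exact_mod_cast hr) (pow_le_pow_right₀ hL hr) (by positivity) hN0.le
    have b2 := mul_le_mul_of_nonneg_right b1 hη.le
    have b3 : (N : ℝ) * L ^ N * (min η' ε / 2 / (N * L ^ N)) = min η' ε / 2 := by
      field_simp
    linarith only [b2, b3]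
  choose y' hy' hy'' using fun i : ℤ => hT.lift (F^[N] (sec (x (i * N)))) (x ((i + 1) * N))
  have hk : ∀ (i : ℤ) (y : E2), proj (y - (y' i - sec (x ((i + 1) * N)))) = proj y := by
    intro i y
    rw [hT.sub, hT.sub, hy', hT.sec, sub_self, sub_zero]
  obtain ⟨Y, hY⟩ := hS (fun i => sec (x (i * N))) (fun i => y' i - sec (x ((i + 1) * N)))
    (fun i y => by rw [hk]; exact ⟨rfl, rfl⟩) (fun i => by
      have e1 : F^[N] (sec (x (i * N))) - (y' i - sec (x ((i + 1) * N))) - sec (x ((i + 1) * N)) =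
          F^[N] (sec (x (i * N))) - y' i := by abel
      rw [e1]
      have b1 := hy'' i
      rw [tv_proj_iter hl, hT.sec] at b1
      have b2 := hdr (i * N) N le_rfl
      have e2 : i * N + N = (i + 1) * N := by ring
      rw [e2] at b2
      have b3 := min_le_left η' ε
      linarith only [b1, b2, b3])
  have hP : ∀ i, proj (Y (i + 1)) = f^[N] (proj (Y i)) := by
    intro i
    rw [(hY i).1, hk, tv_proj_iter hl]
  refine ⟨fun l => f^[(l % N).toNat] (proj (Y (l / N))), fun l =>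
    tv_spread hN (fun i => proj (Y i)) hP l, fun l => ?_⟩
  have h0 : 0 ≤ l % N := Int.emod_nonneg _ hNz.ne'
  have h1 : l % N < N := Int.emod_lt_of_pos _ hNz
  have h2 : l % N + N * (l / N) = l := Int.emod_add_mul_ediv l N
  have hr : (l % N).toNat ≤ N := by omega
  have b1 := hdr (l / N * N) _ hr
  have e1 : l / N * N + ((l % N).toNat : ℤ) = l := by
    rw [Int.toNat_of_nonneg h0]
    linarith only [h2]
  rw [e1] at b1
  have b2 := tv_iter_lip (by linarith only [hL]) hf (l % N).toNat (x (l / N * N)) (proj (Y (l / N)))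
  have b3 := hT.le (Y (l / N)) (sec (x (l / N * N)))
  rw [hT.sec, dist_comm] at b3
  have b4 := b3.trans (hY (l / N)).2
  have b5 : L ^ (l % N).toNat * dist (x (l / N * N)) (proj (Y (l / N))) ≤
      L ^ N * (ε / 2 / L ^ N) :=
    mul_le_mul (pow_le_pow_right₀ hL hr) b4 dist_nonneg hLN.le
  have b6 : L ^ N * (ε / 2 / L ^ N) = ε / 2 := by field_simp
  have b7 := min_le_right η' ε
  have b8 := dist_triangle_left (x l) (f^[(l % N).toNat] (proj (Y (l / N))))
    (f^[(l % N).toNat] (x (l / N * N)))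
  show dist (x l) (f^[(l % N).toNat] (proj (Y (l / N)))) ≤ ε
  linarith only [b1, b2, b5, b6, b7, b8]

theorem sDesc : SDesc := by
  intro hT f F G Eu Es M hM hl hFG hF hG hinj hE hS
  have h1 := tv_lip hT hM hl hF
  exact ⟨h1, fun lam hlam => tv_expa hT hM hl hFG hF hG hinj hE lam hlam,
    fun ε hε => tv_shad hT (by linarith) hl h1 hS ε hε⟩

end sTV

section sTW

theorem tw_pos (t : ℝ) : 0 < 16 + 9 * t ^ 2 := by positivity

theorem tw_sqrt (t : ℝ) :
    HasDerivAt (fun t : ℝ => √(16 + 9 * t ^ 2)) (9 * t / √(16 + 9 * t ^ 2)) t := by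
  have h1 : HasDerivAt (fun t : ℝ => 16 + 9 * t ^ 2) (18 * t) t := by
    have := ((hasDerivAt_pow 2 t).const_mul 9).const_add 16
    rwa [show (9 : ℝ) * ((2 : ℕ) * t ^ (2 - 1)) = 18 * t by norm_num; ring] at this
  convert h1.sqrt (tw_pos t).ne' using 1
  have := (Real.sqrt_pos.2 (tw_pos t)).ne'
  field_simp
  ring

theorem tw_deriv (h : ℝ) : deriv (hyperb h) = fun t => h / 4 * (9 * t / √(16 + 9 * t ^ 2) - 5) := by
  funext t
  have := (((tw_sqrt t).sub ((hasDerivAt_id' t).const_mul 5)).const_mul (h / 4)).deriv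
  rw [mul_one] at this
  exact this

theorem tw_mono : StrictMono fun t : ℝ => 9 * t / √(16 + 9 * t ^ 2) := by
  refine strictMono_of_deriv_pos fun t => ?_
  have hs := Real.sqrt_pos.2 (tw_pos t)
  have := (((hasDerivAt_id' t).const_mul 9).div (tw_sqrt t) hs.ne').deriv
  rw [show (fun t : ℝ => 9 * t / √(16 + 9 * t ^ 2)) =
    ((fun y : ℝ => 9 * y) / fun t : ℝ => √(16 + 9 * t ^ 2)) from rfl, this]
  refine div_pos ?_ (by positivity)
  have e := Real.mul_self_sqrt (tw_pos t).le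
  rw [sub_pos, ← mul_div_assoc, div_lt_iff₀ hs]
  linarith only [e]

theorem tw_lim (h : ℝ) :
    Tendsto (fun t : ℝ => t * (h / 4 * (√(16 + 9 * t ^ 2) - 3 * t))) atTop (𝓝 (2 * h / 3)) := by
  have h1 : Tendsto (fun t : ℝ => 4 * h / (√(16 * t⁻¹ ^ 2 + 9) + 3)) atTop
      (𝓝 (4 * h / (√(16 * 0 ^ 2 + 9) + 3))) := by
    refine tendsto_const_nhds.div (Tendsto.add_const _ (Tendsto.sqrt (Tendsto.add_const _
      ((tendsto_inv_atTop_zero.pow 2).const_mul 16)))) (by positivity)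
  have h9 : √(16 * 0 ^ 2 + 9 : ℝ) = 3 := by
    rw [show (16 * 0 ^ 2 + 9 : ℝ) = 3 ^ 2 by norm_num, Real.sqrt_sq (by norm_num)]
  rw [h9, show 4 * h / (3 + 3) = 2 * h / 3 by ring] at h1
  refine h1.congr' ((eventually_gt_atTop 0).mono fun t ht => ?_)
  have e1 : √(16 + 9 * t ^ 2) = t * √(16 * t⁻¹ ^ 2 + 9) := by
    rw [show 16 + 9 * t ^ 2 = t ^ 2 * (16 * t⁻¹ ^ 2 + 9) by field_simp,
      Real.sqrt_mul (by positivity), Real.sqrt_sq ht.le]
  have e2 := Real.mul_self_sqrt (show 0 ≤ 16 * t⁻¹ ^ 2 + 9 by positivity)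
  have hs := Real.sqrt_nonneg (16 * t⁻¹ ^ 2 + 9)
  have e3 : t ^ 2 * (16 * t⁻¹ ^ 2) = 16 := by field_simp
  simp only
  rw [e1, div_eq_iff (by positivity)]
  generalize √(16 * t⁻¹ ^ 2 + 9) = s at *
  linear_combination (-h / 4 * t ^ 2) * e2 - h / 4 * e3

theorem tw_lim0 (h : ℝ) :
    Tendsto (fun t : ℝ => h / 4 * (√(16 + 9 * t ^ 2) - 3 * t)) atTop (𝓝 0) := by
  have := (tw_lim h).mul tendsto_inv_atTop_zero
  rw [mul_zero] at this
  refine this.congr' ((eventually_gt_atTop 0).mono fun t ht => ?_)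
  simp only
  field_simp

theorem sHyp : SHyp := by
  intro h hh
  have s0 : √(16 + 9 * 0 ^ 2 : ℝ) = 4 := by
    rw [show (16 + 9 * 0 ^ 2 : ℝ) = 4 ^ 2 by norm_num, Real.sqrt_sq (by norm_num)]
  have s1 : √(16 + 9 * 1 ^ 2 : ℝ) = 5 := by
    rw [show (16 + 9 * 1 ^ 2 : ℝ) = 5 ^ 2 by norm_num, Real.sqrt_sq (by norm_num)]
  refine ⟨?_, ?_, ?_, ?_, ?_, ?_, ?_, ?_, ?_, ?_, ?_⟩
  · refine StrictMono.strictConvexOn_univ_of_deriv (by unfold hyperb; fun_prop) ?_
    rw [tw_deriv]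
    intro a b hab
    have := tw_mono hab
    simp only at this ⊢
    exact mul_lt_mul_of_pos_left (by linarith) (by positivity)
  · intro t _
    have a1 : AnalyticAt ℝ (fun t : ℝ => 16 + 9 * t ^ 2) t := by fun_prop
    have a2 : AnalyticAt ℝ (fun t : ℝ => √(16 + 9 * t ^ 2)) t :=
      AnalyticAt.fun_comp (f := fun t : ℝ => 16 + 9 * t ^ 2) (g := Real.sqrt)
        (Real.contDiffAt_sqrt (n := ⊤) (tw_pos t).ne').analyticAt a1
    exact analyticAt_const.mul (a2.sub (by fun_prop))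
  · rw [hyperb, s0]; ring
  · rw [hyperb, s1]; ring
  · rw [tw_deriv]; simp only; rw [s0]; linarith
  · rw [tw_deriv]; simp only; rw [s1]; linarith
  · rw [tw_deriv]; simp only; rw [s1]; linarith
  · refine (tw_lim0 h).congr fun t => ?_
    rw [hyperb]; ring
  · refine ((tw_lim0 h).comp tendsto_neg_atBot_atTop).congr fun t => ?_
    simp only [Function.comp, hyperb, neg_sq]; ring
  · refine (tw_lim h).congr fun t => ?_
    rw [hyperb]; ring
  · refine ((tw_lim h).comp tendsto_neg_atBot_atTop).neg.congr fun t => ?_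
    simp only [Function.comp, hyperb, neg_sq]; ring

end sTW

section sAsm

theorem asm_anosov (hT : STor) (h1 : SHypD) (h2 : SIter) (h3 : SAngle) (h4 : SHol) (h5 : SExpE)
    (h6 : SShadE) (h7 : STrans) (h8 : SPot) (h9 : SDesc)
    {f : T2 → T2} {F : E2 ≃ E2} {Eu Es : T2 → Submodule ℝ E2} (hA : IsAnosov f F Eu Es)
    (hvol : MeasurePreserving f volume volume) :
    HSys f ∧ ∃ K α : ℝ, 0 ≤ K ∧ 0 < α ∧ α ≤ 1 ∧
      ∀ p q, |geomPot F Eu p - geomPot F Eu q| ≤ K * dist p q ^ α := by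
  obtain ⟨⟨C, lam, M, hH⟩, hper⟩ := h1 hT f F Eu Es hA
  have iF := h2 _ _ _ _ _ _ _ hH
  have iG := h2 _ _ _ _ _ _ _ hH.symm
  obtain ⟨Γ, hΓ, hang⟩ := h3 _ _ _ _ _ _ _ hH iF
  obtain ⟨C', α, hC', hα0, hα1, hhol⟩ := h4 _ _ _ _ _ _ _ _ hH iG hΓ hang
  have hexp := h5 _ _ _ _ _ _ _ hH iF iG
  have hsh := h6 _ _ _ _ _ _ _ _ _ _ hH iF hΓ hang hC' hα0 hhol
  obtain ⟨d1, d2, d3⟩ := h9 hT f F F.symm Eu Es M hH.M1 hA.lift hH.FG iF.lip iG.lip hA.bij.1 hexp hsh
  have hM : (1 : ℝ) ≤ 2 * M := by linarith [hH.M1]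
  have hfc : Continuous f := continuous_of_lip hM d1
  obtain ⟨K, hK, hpot⟩ := h8 hT F F.symm Eu Es C lam M C' α hH hper hC' hα0 hα1 hhol
  exact ⟨⟨⟨2 * M, hM, d1⟩, d2, d3, h7 T2 f volume hfc hA.bij.2 hvol⟩, K, α, hK, hα0, hα1, hpot⟩

theorem asm_gap (hG : SGapH) {f : T2 → T2} {φ : T2 → ℝ} (hS : HSys f) {K α : ℝ} (hK : 0 ≤ K)
    (h0 : 0 < α) (h1 : α ≤ 1) (hφ : ∀ p q, |φ p - φ q| ≤ K * dist p q ^ α)
    (P : ℝ → ℝ) (hP : ∀ t, pressure f (fun p => t * φ p) = (P t : EReal))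
    (σ : ℝ) (hσ : σ = 1 ∨ σ = -1) (a : ℝ)
    (ha : Tendsto (fun t => P (σ * t) - a * t) atTop (𝓝 0)) :
    (∃ δ > (0 : ℝ), ∀ᶠ t : ℝ in atTop, P (σ * t) - a * t ≤ Real.exp (-δ * t)) ∨
      (∀ ε > (0 : ℝ), ∀ᶠ t : ℝ in atTop, t ^ (-ε) ≤ P (σ * t) - a * t) := by
  refine hG T2 f hS (fun p => σ * φ p) K α hK h0 h1 ?_ (fun t => P (σ * t)) a ?_ ha
  · intro p q
    rw [← mul_sub, abs_mul]
    rcases hσ with rfl | rfl <;> simpa only [abs_one, one_mul, abs_neg] using hφ p q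
  · intro t _
    rw [← hP (σ * t)]
    congr 1
    funext p
    ring

theorem asm_hyp {g : ℝ → ℝ} {c : ℝ} (hc : 0 < c) (hg : Tendsto (fun t => t * g t) atTop (𝓝 c)) :
    ¬ ((∃ δ > (0 : ℝ), ∀ᶠ t : ℝ in atTop, g t ≤ Real.exp (-δ * t)) ∨
      (∀ ε > (0 : ℝ), ∀ᶠ t : ℝ in atTop, t ^ (-ε) ≤ g t)) := by
  rintro (⟨δ, hδ, h⟩ | h)
  · have e1 : Tendsto (fun t : ℝ => t * Real.exp (-δ * t)) atTop (𝓝 0) := by
      have := Real.tendsto_pow_mul_exp_neg_atTop_nhds_zero 1
      have e2 := (this.comp (tendsto_id.const_mul_atTop hδ)).const_mul δ⁻¹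
      simp only [mul_zero] at e2
      refine e2.congr fun t => ?_
      simp only [Function.comp, id, pow_one]
      field_simp
    have e3 : c ≤ 0 := by
      refine le_of_tendsto_of_tendsto hg e1 ?_
      filter_upwards [h, eventually_ge_atTop (0 : ℝ)] with t ht ht0
      exact mul_le_mul_of_nonneg_left ht ht0
    linarith
  · have e1 : Tendsto (fun t : ℝ => t ^ (1 / 2 : ℝ)) atTop atTop := tendsto_rpow_atTop (by norm_num)
    have e2 : ∀ᶠ t : ℝ in atTop, t * g t < c + 1 := hg.eventually (gt_mem_nhds (by linarith))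
    obtain ⟨t, ⟨⟨k1, k2⟩, k3⟩, k4⟩ := ((((h (1 / 2) (by norm_num)).and e2).and
      (e1.eventually_ge_atTop (c + 1))).and (eventually_gt_atTop (0 : ℝ))).exists
    have e3 : t * t ^ (-(1 / 2) : ℝ) = t ^ (1 / 2 : ℝ) := by
      rw [← Real.rpow_one_add' k4.le (by norm_num)]
      norm_num
    have := mul_le_mul_of_nonneg_left k1 k4.le
    linarith

end sAsm

end Pool.Agent.MP_80da8f_an
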