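import Pool.Agent.MP_80da8f_an.PA
import Pool.Agent.MP_80da8f_an.PB
import Pool.Agent.MP_80da8f_an.PC

open MeasureTheory Filter Topology

namespace Pool.Agent.MP_80da8f_an

theorem gapH : SGapH :=
  sGapH (sGapA sRate sPart sEntNonneg (sHorse sRate sWin sPart sEntLB sGlue sCode sMeas)
    (sUB sGibbs) sMane sAub1 sAub2 sAub3 sDim (sII sShort) sI)

theorem gap_main {f : T2 → T2} {F : E2 ≃ E2} {Eu Es : T2 → Submodule ℝ E2}
    (hA : IsAnosov f F Eu Es) (hvol : MeasurePreserving f volume volume)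
    (P : ℝ → ℝ) (hP : ∀ t, pressure f (fun p => t * geomPot F Eu p) = (P t : EReal))
    (σ : ℝ) (hσ : σ = 1 ∨ σ = -1) (a : ℝ)
    (ha : Tendsto (fun t => P (σ * t) - a * t) atTop (𝓝 0)) :
    (∃ δ > (0 : ℝ), ∀ᶠ t : ℝ in atTop, P (σ * t) - a * t ≤ Real.exp (-δ * t)) ∨
      (∀ ε > (0 : ℝ), ∀ᶠ t : ℝ in atTop, t ^ (-ε) ≤ P (σ * t) - a * t) := by
  obtain ⟨hS, K, α, hK, h0, h1, hφ⟩ :=
    asm_anosov sTor sHypD sIter sAngle sHol sExpE (sShadE sCross) sTrans sPot sDesc hA hvol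
  exact asm_gap gapH hS hK h0 h1 hφ P hP σ hσ a ha

end Pool.Agent.MP_80da8f_an
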