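import Pool.Agent.MP_80da8f_an.Stm

open MeasureTheory Filter Topology

namespace Pool.Agent.MP_80da8f_an

section sTA

theorem sRate : SRate := by
  intro X _ f L N e hS e' he' k
  induction k with
  | zero => intro x y h; simpa using h 0 (by simp)
  | succ k ih =>
    intro x y h
    have e1 : ∀ z, f^[N] (f^[k * N] z) = f^[(k + 1) * N] z := fun z => by
      rw [← Function.iterate_add_apply]; congr 1; ring
    have e2 : ∀ z, f^[2 * N] (f^[k * N] z) = f^[k * N] (f^[2 * N] z) := fun z => by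
      rw [← Function.iterate_add_apply, ← Function.iterate_add_apply, add_comm]
    have h1 := hS.expa (f^[k * N] x) (f^[k * N] y) (by
      rw [e1, e1]; exact (h _ (by omega)).trans he')
    rw [e1, e1, e2, e2] at h1
    have h2 := ih x y fun j hj => h j (by rw [add_mul]; omega)
    have h3 := ih (f^[2 * N] x) (f^[2 * N] y) fun j hj => by
      rw [← Function.iterate_add_apply, ← Function.iterate_add_apply]
      exact h _ (by rw [add_mul]; omega)
    have h4 := max_le h2 h3
    calc _ ≤ 1 / 4 * (e' / 4 ^ k) := h1.trans (by linarith only [h4])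
      _ = e' / 4 ^ (k + 1) := by rw [pow_succ]; field_simp

theorem ta_step (a : ℤ → ℝ) (n : ℕ) (s : ℤ) :
    ∑ l ∈ Finset.range n, a (l + (s + 1)) + a s = ∑ l ∈ Finset.range n, a (l + s) + a (n + s) := by
  induction n with
  | zero => simp
  | succ n ih =>
    rw [Finset.sum_range_succ, Finset.sum_range_succ]
    have : ((n + 1 : ℕ) : ℤ) + s = n + (s + 1) := by push_cast; ring
    rw [this]; linarith only [ih]

theorem ta_shift (a : ℤ → ℝ) (B : ℝ) (h0 : ∀ i, 0 ≤ a i) (hB : ∀ i, a i ≤ B) (n N : ℕ) (s : ℤ)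
    (hs : |s| ≤ N) : ∑ l ∈ Finset.range n, a (l + s) ≤ ∑ l ∈ Finset.range n, a l + N * B := by
  have B0 : 0 ≤ B := (h0 0).trans (hB 0)
  have p : ∀ m : ℕ, ∑ l ∈ Finset.range n, a (l + m) ≤ ∑ l ∈ Finset.range n, a l + m * B ∧
      ∑ l ∈ Finset.range n, a (l + -(m : ℤ)) ≤ ∑ l ∈ Finset.range n, a l + m * B := by
    intro m
    induction m with
    | zero => simp
    | succ m ih =>
      have t1 := ta_step a n m
      have t2 := ta_step a n (-((m + 1 : ℕ) : ℤ))
      have u : -((m + 1 : ℕ) : ℤ) + 1 = -(m : ℤ) := by push_cast; ring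
      rw [u] at t2
      have u2 : ((m + 1 : ℕ) : ℤ) = m + 1 := by push_cast; ring
      have u3 : ((m + 1 : ℕ) : ℝ) = m + 1 := by push_cast; ring
      have a1 := h0 m
      have a2 := hB (n + m)
      have a3 := hB (-((m + 1 : ℕ) : ℤ))
      have a4 := h0 (n + -((m + 1 : ℕ) : ℤ))
      refine ⟨?_, ?_⟩
      · rw [u2, u3]; linarith only [ih.1, t1, a1, a2]
      · rw [u3]; linarith only [ih.2, t2, a3, a4]
  obtain ⟨m, rfl | rfl⟩ := Int.eq_nat_or_neg s
  · have hm : (m : ℝ) ≤ N := by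
      have := (abs_le.1 hs).2
      exact_mod_cast this
    exact (p m).1.trans (by nlinarith only [B0, hm])
  · have hm : (m : ℝ) ≤ N := by
      have := (abs_le.1 hs).1
      have : (m : ℤ) ≤ N := by omega
      exact_mod_cast this
    exact (p m).2.trans (by nlinarith only [B0, hm])

theorem sWin : SWin := by
  intro X _ f L N e hS
  have hL := hS.one_le
  have he := hS.epos
  have hN : (1 : ℝ) ≤ N := by exact_mod_cast hS.Npos
  obtain ⟨M, hM⟩ : ∃ M, M = L ^ (2 * N) := ⟨_, rfl⟩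
  have M1 : 1 ≤ M := hM ▸ one_le_pow₀ hL
  have P : 0 < 4 * N * M := by positivity
  obtain ⟨η, hη, hηe⟩ : ∃ η > (0 : ℝ), M * (2 * N * η) = e / 2 :=
    ⟨e / (4 * N * M), by positivity, by field_simp; ring⟩
  refine ⟨η, hη, 8 * N * M, 8 * N * M * (N * η) + N * e / 8, by positivity, ?_⟩
  intro x y hx hy hd n
  obtain ⟨a, ha⟩ : ∃ a : ℤ → ℝ, ∀ i, a i = dist (f (x i)) (x (i + 1)) := ⟨_, fun _ => rfl⟩
  obtain ⟨d, hdd⟩ : ∃ d : ℤ → ℝ, ∀ i, d i = dist (x i) (y i) := ⟨_, fun _ => rfl⟩
  have a0 : ∀ i, 0 ≤ a i := fun i => (ha i).symm ▸ dist_nonneg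
  have a1 : ∀ i, a i ≤ η := fun i => (ha i).symm ▸ hx i
  have d0 : ∀ i, 0 ≤ d i := fun i => (hdd i).symm ▸ dist_nonneg
  have d1 : ∀ i, d i ≤ e / 8 := fun i => (hdd i).symm ▸ hd i
  have c1 : ∀ (i : ℤ) (k : ℕ), dist (f^[k] (x i)) (x (i + k)) ≤
      L ^ k * ∑ j ∈ Finset.range k, a (i + j) := by
    intro i k
    induction k with
    | zero => simp
    | succ k ih =>
      have u : i + ((k + 1 : ℕ) : ℤ) = i + k + 1 := by push_cast; ring
      rw [Function.iterate_succ_apply', u, Finset.sum_range_succ, pow_succ]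
      have t := dist_triangle (f (f^[k] (x i))) (f (x (i + k))) (x (i + k + 1))
      have t2 := hS.lip (f^[k] (x i)) (x (i + k))
      have t3 : L * dist (f^[k] (x i)) (x (i + k)) ≤ L * (L ^ k * ∑ j ∈ Finset.range k, a (i + j)) :=
        mul_le_mul_of_nonneg_left ih (by linarith only [hL])
      have t4 : 1 ≤ L ^ k * L := by rw [← pow_succ]; exact one_le_pow₀ hL
      rw [← ha] at t
      nlinarith only [a0 (i + k), t, t2, t3, t4]
  have c2 : ∀ (i : ℤ) (k : ℕ), f^[k] (y i) = y (i + k) := by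
    intro i k
    induction k with
    | zero => simp
    | succ k ih =>
      have u : i + ((k + 1 : ℕ) : ℤ) = i + k + 1 := by push_cast; ring
      rw [Function.iterate_succ_apply', u, hy, ih]
  obtain ⟨J, hJ⟩ : ∃ J : ℤ → ℝ, ∀ i, J i = M * ∑ j ∈ Finset.range (2 * N), a (i + j) :=
    ⟨_, fun _ => rfl⟩
  have c3 : ∀ (i : ℤ) (k : ℕ), k ≤ 2 * N → dist (f^[k] (x i)) (x (i + k)) ≤ J i := by
    intro i k hk
    refine (c1 i k).trans ?_
    rw [hJ, hM]
    refine mul_le_mul (pow_le_pow_right₀ hL hk) ?_ (Finset.sum_nonneg fun j _ => a0 _)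
      (by positivity)
    exact Finset.sum_le_sum_of_subset_of_nonneg (Finset.range_mono hk) fun j _ _ => a0 _
  have c4 : ∀ i, J i ≤ e / 2 := by
    intro i
    rw [hJ, ← hηe]
    refine mul_le_mul_of_nonneg_left ?_ (by linarith only [M1])
    refine (Finset.sum_le_card_nsmul _ _ η fun j _ => a1 _).trans ?_
    simp
  have c5 : ∀ l : ℤ, d l ≤ 2 * J (l + -(N : ℤ)) + (d (l + -(N : ℤ)) + d (l + N)) / 4 := by
    intro l
    obtain ⟨i, rfl⟩ : ∃ i, l = i + N := ⟨l - N, by ring⟩
    have u1 : i + N + -(N : ℤ) = i := by ring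
    have u2 : i + N + N = i + ((2 * N : ℕ) : ℤ) := by push_cast; ring
    rw [u1, u2]
    have k1 := c3 i N (by omega)
    have k2 := c3 i (2 * N) le_rfl
    have t1 := dist_triangle (f^[N] (x i)) (x (i + N)) (y (i + N))
    have t2 := dist_triangle (f^[2 * N] (x i)) (x (i + (2 * N : ℕ))) (y (i + (2 * N : ℕ)))
    have t3 := dist_triangle_left (x (i + N)) (y (i + N)) (f^[N] (x i))
    rw [← hdd] at t1 t2 t3
    have k3 := hS.expa (x i) (y i) (by rw [c2]; linarith only [c4 i, d1 (i + N), he, k1, t1])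
    rw [c2, c2, ← hdd] at k3
    have j0 : 0 ≤ J i := dist_nonneg.trans k1
    have k4 : max (d i) (dist (f^[2 * N] (x i)) (y (i + (2 * N : ℕ)))) ≤
        d i + J i + d (i + (2 * N : ℕ)) :=
      max_le (by linarith only [d0 (i + (2 * N : ℕ)), k1, t1, t3]) (by linarith only [d0 i, k2, t2])
    linarith only [k1, t1, t3, k3, k4]
  have s1 := ta_shift d (e / 8) d0 d1 n N (-(N : ℤ)) (by simp)
  have s2 := ta_shift d (e / 8) d0 d1 n N N (by simp)
  have s3 : ∑ l ∈ Finset.range n, J (l + -(N : ℤ)) ≤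
      M * (2 * N * (∑ l ∈ Finset.range n, a l + N * η)) := by
    simp only [hJ]
    rw [← Finset.mul_sum, Finset.sum_comm]
    refine mul_le_mul_of_nonneg_left ?_ (by linarith only [M1])
    refine (Finset.sum_le_card_nsmul _ _ (∑ l ∈ Finset.range n, a l + N * η) fun j hj => ?_).trans
      (by rw [Finset.card_range, nsmul_eq_mul]; push_cast; exact le_rfl)
    have hj' := Finset.mem_range.1 hj
    simp only [add_assoc]
    exact ta_shift a η a0 a1 n N _ (abs_le.2 ⟨by omega, by omega⟩)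
  have s4 : ∑ l ∈ Finset.range n, d l ≤ ∑ l ∈ Finset.range n,
      (2 * J (l + -(N : ℤ)) + (d (l + -(N : ℤ)) + d (l + N)) / 4) :=
    Finset.sum_le_sum fun l _ => c5 l
  rw [Finset.sum_add_distrib, ← Finset.mul_sum, ← Finset.sum_div, Finset.sum_add_distrib] at s4
  simp only [← ha, ← hdd]
  linarith only [s1, s2, s3, s4]

end sTA

section sTB

theorem sPart : SPart := by
  classical
  intro X _ _ _ _ _ ρ hρ
  obtain ⟨t, -, htf, hcov⟩ :=
    finite_cover_balls_of_compact (isCompact_univ (X := X)) (half_pos hρ)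
  set s : Finset X := htf.toFinset with hs
  set c : Fin s.card → X := fun i => (s.equivFin.symm i : X) with hc
  have hp : ∀ x : X, ∃ k : ℕ, ∃ h : k < s.card, x ∈ Metric.ball (c ⟨k, h⟩) (ρ / 2) := by
    intro x
    have hx := hcov (Set.mem_univ x)
    simp only [Set.mem_iUnion] at hx
    obtain ⟨y, hy, hxy⟩ := hx
    have hys : y ∈ s := by simpa [hs] using hy
    refine ⟨(s.equivFin ⟨y, hys⟩ : ℕ), (s.equivFin ⟨y, hys⟩).2, ?_⟩
    simpa [hc] using hxy
  have hm : ∀ k : ℕ, MeasurableSet {x : X | ∃ h : k < s.card, x ∈ Metric.ball (c ⟨k, h⟩) (ρ / 2)} := by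
    intro k
    by_cases h : k < s.card
    · have : {x : X | ∃ h : k < s.card, x ∈ Metric.ball (c ⟨k, h⟩) (ρ / 2)} =
          Metric.ball (c ⟨k, h⟩) (ρ / 2) := by
        ext x
        exact ⟨fun ⟨_, hx⟩ => hx, fun hx => ⟨h, hx⟩⟩
      rw [this]
      exact Metric.isOpen_ball.measurableSet
    · have : {x : X | ∃ h : k < s.card, x ∈ Metric.ball (c ⟨k, h⟩) (ρ / 2)} = ∅ := by
        ext x
        exact ⟨fun ⟨h', _⟩ => absurd h' h, fun hx => hx.elim⟩
      rw [this]
      exact MeasurableSet.empty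
  have hfind : Measurable fun x => Nat.find (hp x) := measurable_find hp hm
  refine ⟨s.card, fun x => ⟨Nat.find (hp x), (Nat.find_spec (hp x)).1⟩, ?_, ?_, ?_⟩
  · obtain ⟨k, h, -⟩ := hp (Classical.arbitrary X)
    omega
  · refine measurable_to_countable' fun i => ?_
    have : (fun x => (⟨Nat.find (hp x), (Nat.find_spec (hp x)).1⟩ : Fin s.card)) ⁻¹' {i} =
        (fun x => Nat.find (hp x)) ⁻¹' {(i : ℕ)} := by
      ext x
      simp only [Metric.mem_ball, Set.mem_preimage, Set.mem_singleton_iff, Fin.ext_iff]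
    rw [this]
    exact hfind (measurableSet_singleton _)
  · intro x y hxy
    have hx := (Nat.find_spec (hp x)).2
    have hy := (Nat.find_spec (hp y)).2
    simp only at hxy
    rw [hxy] at hx
    rw [Metric.mem_ball] at hx hy
    have := dist_triangle_right x y (c ⟨Nat.find (hp y), (Nat.find_spec (hp y)).1⟩)
    linarith only [hx, hy, this]

theorem tb_sum_one {X S : Type} [MeasurableSpace X] [Fintype S] (μ : Measure X)
    [IsProbabilityMeasure μ] (W : X → S) (hW : ∀ s, MeasurableSet (W ⁻¹' {s})) :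
    ∑ s, μ.real (W ⁻¹' {s}) = 1 := by
  rw [sum_measureReal_preimage_singleton Finset.univ (fun s _ => hW s)]
  simp only [Finset.coe_univ, Set.preimage_univ, probReal_univ]

theorem sEntLB : SEntLB := by
  intro X _ f μ hμ hf r ξ hξ a b h
  have hmeas : ∀ n : ℕ, Measurable (itin f ξ n) := fun n =>
    measurable_pi_lambda _ fun i => hξ.comp (hf.iterate i)
  have hsh : ∀ n : ℕ, a * n - b ≤ shannon μ (itin f ξ n) := by
    intro n
    have h1 := tb_sum_one μ (itin f ξ n) fun w => hmeas n (measurableSet_singleton w)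
    calc a * n - b = ∑ w, μ.real (itin f ξ n ⁻¹' {w}) * (a * n - b) := by
          rw [← Finset.sum_mul, h1, one_mul]
      _ ≤ _ := by
          refine Finset.sum_le_sum fun w _ => ?_
          have h0 : 0 ≤ μ.real (itin f ξ n ⁻¹' {w}) := measureReal_nonneg
          rcases h0.eq_or_lt with h2 | h2
          · rw [← h2]; simp
          · have h3 : Real.log (μ.real (itin f ξ n ⁻¹' {w})) ≤ b - a * n :=
              (Real.log_le_iff_le_exp h2).2 (h n w)
            unfold Real.negMulLog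
            nlinarith only [h0, h3]
  have hlim : Tendsto (fun n : ℕ => (((a * n - b) / n : ℝ) : EReal)) atTop (𝓝 (a : EReal)) := by
    refine (continuous_coe_real_ereal.tendsto a).comp ?_
    have h1 : Tendsto (fun n : ℕ => a - b / (n : ℝ)) atTop (𝓝 (a - 0)) :=
      tendsto_const_nhds.sub (tendsto_const_div_atTop_nhds_zero_nat b)
    rw [sub_zero] at h1
    refine h1.congr' ?_
    filter_upwards [eventually_gt_atTop 0] with n hn
    have : (n : ℝ) ≠ 0 := by positivity
    field_simp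
  have h2 : (a : EReal) ≤ partEntropy μ f ξ := by
    rw [← hlim.limsup_eq]
    refine limsup_le_limsup (Eventually.of_forall fun n => ?_)
    exact EReal.coe_le_coe_iff.2 (div_le_div_of_nonneg_right (hsh n) (Nat.cast_nonneg n))
  exact h2.trans (le_iSup_of_le r (le_iSup_of_le ξ (le_iSup_of_le hξ le_rfl)))

theorem sEntNonneg : SEntNonneg := by
  intro X _ f μ hμ
  have h2 : (0 : EReal) ≤ partEntropy μ f (fun _ => (0 : Fin 1)) := by
    refine le_limsup_of_frequently_le (Frequently.of_forall fun n => ?_)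
    refine EReal.coe_nonneg.2 (div_nonneg ?_ (Nat.cast_nonneg n))
    exact Finset.sum_nonneg fun w _ =>
      Real.negMulLog_nonneg measureReal_nonneg measureReal_le_one
  exact h2.trans (le_iSup_of_le 1 (le_iSup_of_le (fun _ => (0 : Fin 1))
    (le_iSup_of_le measurable_const le_rfl)))

theorem tb_int {X S : Type} [MeasurableSpace X] [Fintype S] (μ : Measure X)
    [IsProbabilityMeasure μ] (W : X → S) (hW : ∀ s, MeasurableSet (W ⁻¹' {s})) (g : S → ℝ) :
    Integrable (fun x => g (W x)) μ ∧ ∫ x, g (W x) ∂μ = ∑ s, μ.real (W ⁻¹' {s}) * g s := by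
  let _ : MeasurableSpace S := ⊤
  have : MeasurableSingletonClass S := ⟨fun _ => trivial⟩
  have hm : Measurable W := measurable_to_countable' hW
  have hg : Measurable g := fun _ _ => trivial
  have hi : Integrable g (μ.map W) := Integrable.of_finite
  refine ⟨(integrable_map_measure hg.aestronglyMeasurable hm.aemeasurable).1 hi, ?_⟩
  rw [← integral_map hm.aemeasurable hg.aestronglyMeasurable, integral_fintype hi]
  refine Finset.sum_congr rfl fun s _ => ?_
  rw [map_measureReal_apply hm (measurableSet_singleton s), smul_eq_mul]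

theorem sGibbs : SGibbs := by
  intro X S T _ _ _ μ hμ W V hW hV Q hQ hsum
  have hT : Nonempty T := by
    obtain ⟨x⟩ : Nonempty X := nonempty_of_isProbabilityMeasure μ
    exact ⟨V x⟩
  set q : S → ℝ := fun s => ∑ t, Q s t with hq
  have hle : ∀ s t, Q s t ≤ q s := fun s t =>
    Finset.single_le_sum (f := Q s) (fun t _ => (hQ s t).le) (Finset.mem_univ t)
  have hqpos : ∀ s, 0 < q s := fun s => (hQ s (Classical.arbitrary T)).trans_le (hle s _)
  obtain ⟨hi1, he1⟩ := tb_int μ W hW fun s => -Real.log (q s)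
  have hWV : ∀ p : S × T, MeasurableSet ((fun x => (W x, V x)) ⁻¹' {p}) := by
    intro p
    have : (fun x => (W x, V x)) ⁻¹' {p} = W ⁻¹' {p.1} ∩ V ⁻¹' {p.2} := by
      ext x
      simp [Prod.ext_iff]
    rw [this]
    exact (hW _).inter (hV _)
  obtain ⟨hi2, -⟩ := tb_int μ (fun x => (W x, V x)) hWV fun p => -Real.log (Q p.1 p.2)
  have h1 : ∫ x, -Real.log (q (W x)) ∂μ ≤ ∫ x, -Real.log (Q (W x) (V x)) ∂μ :=
    integral_mono hi1 hi2 fun x => neg_le_neg (Real.log_le_log (hQ _ _) (hle _ _))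
  refine le_trans ?_ h1
  rw [he1]
  have h2 : ∀ s, Real.negMulLog (μ.real (W ⁻¹' {s})) + (μ.real (W ⁻¹' {s}) - q s) ≤
      μ.real (W ⁻¹' {s}) * -Real.log (q s) := by
    intro s
    have h0 : 0 ≤ μ.real (W ⁻¹' {s}) := measureReal_nonneg
    rcases h0.eq_or_lt with h3 | h3
    · rw [← h3]
      have := hqpos s
      simp only [Real.negMulLog_zero, zero_mul]
      linarith
    · have h4 := Real.log_le_sub_one_of_pos (div_pos (hqpos s) h3)
      rw [Real.log_div (hqpos s).ne' h3.ne'] at h4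
      have h5 := mul_le_mul_of_nonneg_left h4 h0
      have h6 : μ.real (W ⁻¹' {s}) * (q s / μ.real (W ⁻¹' {s}) - 1) = q s - μ.real (W ⁻¹' {s}) := by
        field_simp
      rw [h6] at h5
      unfold Real.negMulLog
      linarith only [h5]
  have h3 := Finset.sum_le_sum fun s (_ : s ∈ Finset.univ) => h2 s
  rw [Finset.sum_add_distrib, Finset.sum_sub_distrib, tb_sum_one μ W hW] at h3
  have h4 : ∑ s, q s ≤ 1 := hsum
  unfold shannon
  linarith

end sTB

section sTC

theorem tc_block {X : Type} {q m : ℕ} (c : Fin q → ℕ → X) (ω : ℤ → Fin q) (b : ℤ) (j : ℕ)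
    (hj : j < m) : glue c m ω (b * m + j) = c (ω b) j := by
  have hm : (m : ℤ) ≠ 0 := by omega
  have h0 : (0 : ℤ) ≤ j := by omega
  have h1 : (j : ℤ) < m := by omega
  have e1 : (b * m + j : ℤ) / m = b := by
    rw [add_comm, Int.add_mul_ediv_right _ _ hm, Int.ediv_eq_zero_of_lt h0 h1, zero_add]
  have e2 : (b * m + j : ℤ) % m = j := by
    rw [add_comm, Int.add_mul_emod_self_right, Int.emod_eq_of_lt h0 h1]
  unfold glue
  rw [e1, e2, Int.toNat_natCast]

theorem tc_split {m : ℕ} (hm : 1 ≤ m) (l : ℤ) : ∃ (b : ℤ) (j : ℕ), j < m ∧ l = b * m + j := by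
  have hm' : (0 : ℤ) < m := by omega
  have h0 := Int.emod_nonneg l hm'.ne'
  have h1 := Int.emod_lt_of_pos l hm'
  refine ⟨l / m, (l % m).toNat, by omega, ?_⟩
  rw [Int.toNat_of_nonneg h0]
  exact (Int.ediv_mul_add_emod l m).symm

theorem tc_next {X : Type} {q m : ℕ} (z : X) (c : Fin q → ℕ → X) (hc : ∀ i, c i 0 = z ∧ c i m = z)
    (ω : ℤ → Fin q) (b : ℤ) (j : ℕ) (hj : j < m) :
    glue c m ω (b * m + j + 1) = c (ω b) (j + 1) := by
  by_cases h : j + 1 < m
  · have := tc_block c ω b (j + 1) h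
    rw [← this]
    congr 1
    push_cast
    ring
  · have e : m = j + 1 := by omega
    have := tc_block (m := m) c ω (b + 1) 0 (by omega)
    rw [(hc _).1] at this
    rw [← e, (hc _).2, ← this]
    congr 1
    have e' : (m : ℤ) = j + 1 := by omega
    push_cast
    rw [add_mul, one_mul, add_zero, add_assoc, ← e']

theorem sGlue : SGlue := by
  intro X _ f q m hm z c hc
  refine ⟨fun η h ω l => ?_, fun ψ K E h ω k => ?_, fun ω l => ?_, fun ω b j hj => tc_block c ω b j hj⟩
  · obtain ⟨b, j, hj, rfl⟩ := tc_split hm l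
    rw [tc_next z c hc ω b j hj, tc_block c ω b j hj]
    exact h _ j hj
  · induction k with
    | zero => simp
    | succ k ih =>
      rw [Nat.succ_mul, Finset.sum_range_add]
      have e : ∑ x ∈ Finset.range m, (ψ (glue c m ω ((k * m + x : ℕ) : ℤ)) +
          K * dist (f (glue c m ω ((k * m + x : ℕ) : ℤ))) (glue c m ω (((k * m + x : ℕ) : ℤ) + 1))) =
          cost f ψ K (c (ω k)) m := by
        refine Finset.sum_congr rfl fun j hj => ?_
        have hj' := Finset.mem_range.1 hj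
        rw [Nat.cast_add, Nat.cast_mul, tc_next z c hc ω k j hj', tc_block c ω k j hj']
      rw [e]
      have := h (ω k)
      push_cast
      linarith only [ih, this]
  · obtain ⟨b, j, hj, rfl⟩ := tc_split hm l
    have e : b * (m : ℤ) + j + m = (b + 1) * m + j := by ring
    rw [e, tc_block c _ b j hj, tc_block c ω (b + 1) j hj]

theorem tc_iter {X : Type} (f : X → X) (y : ℤ → X) (hy : ∀ i, y (i + 1) = f (y i)) (i : ℤ) (j : ℕ) :
    f^[j] (y i) = y (i + j) := by
  induction j with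
  | zero => simp
  | succ j ih =>
    rw [Function.iterate_succ_apply', ih, ← hy]
    congr 1
    push_cast
    ring

theorem tc_close {X : Type} [MetricSpace X] {f : X → X} {N : ℕ} {e : ℝ} (he : 0 < e)
    (hR : Rate f N e) (y y' : ℤ → X) (hy : ∀ i, y (i + 1) = f (y i))
    (hy' : ∀ i, y' (i + 1) = f (y' i)) (l : ℤ) (k : ℕ)
    (h : ∀ i, l - (k * N : ℕ) ≤ i → i ≤ l + (k * N : ℕ) → dist (y i) (y' i) ≤ e / 4) :
    dist (y l) (y' l) ≤ e / 4 / 4 ^ k := by
  have := hR (e / 4) (by linarith) k (y (l - (k * N : ℕ))) (y' (l - (k * N : ℕ))) (fun j hj => by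
    rw [tc_iter f y hy, tc_iter f y' hy']
    exact h _ (by omega) (by omega))
  rwa [tc_iter f y hy, tc_iter f y' hy', sub_add_cancel] at this

theorem tc_small (e : ℝ) {ε : ℝ} (hε : 0 < ε) : ∃ k : ℕ, e / 4 / 4 ^ k < ε := by
  obtain ⟨k, hk⟩ := pow_unbounded_of_one_lt (e / 4 / ε) (show (1 : ℝ) < 4 by norm_num)
  refine ⟨k, ?_⟩
  rw [div_lt_iff₀ hε] at hk
  rw [div_lt_iff₀ (by positivity)]
  linarith

theorem sCode : SCode := by
  intro X _ _ _ _ f N e η _ he hR hS q m _ c h1 h2
  choose Y hY hd using fun ω => hS (glue c m ω) (h1 ω)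
  have tri : ∀ x a b : X, dist x a ≤ e / 8 → dist x b ≤ e / 8 → dist a b ≤ e / 4 := by
    intro x a b ha hb
    have := dist_triangle_left a b x
    linarith only [ha, hb, this]
  refine ⟨Y, hY, hd, fun ω l => ?_, fun l => Continuous.measurable ?_⟩
  · refine dist_le_zero.1 (le_of_forall_pos_le_add fun ε hε => ?_)
    obtain ⟨k, hk⟩ := tc_small e hε
    have := tc_close he hR (Y fun b => ω (b + 1)) (fun i => Y ω (i + m)) (hY _)
      (fun i => by rw [← hY, add_right_comm]) l k
      (fun i _ _ => tri _ _ _ (hd _ i) (by rw [h2]; exact hd ω _))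
    linarith only [hk, this]
  · refine continuous_iff_continuousAt.2 fun ω => Metric.tendsto_nhds.2 fun ε hε => ?_
    obtain ⟨k, hk⟩ := tc_small e hε
    have ev : ∀ᶠ ω' in 𝓝 ω, ∀ i ∈ Finset.Icc (l - (k * N : ℕ)) (l + (k * N : ℕ)),
        ω' (i / m) = ω (i / m) := by
      refine (Filter.eventually_all_finset _).2 fun i _ => ?_
      have ho : IsOpen ((fun p : ℤ → Fin q => p (i / m)) ⁻¹' {ω (i / m)}) :=
        (isOpen_discrete _).preimage (continuous_apply _)
      exact ho.mem_nhds rfl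
    refine ev.mono fun ω' hω => lt_of_le_of_lt ?_ hk
    refine tc_close he hR _ _ (hY ω') (hY ω) l k fun i i1 i2 => tri _ _ _ (hd ω' i) ?_
    have : glue c m ω' i = glue c m ω i := by
      unfold glue
      rw [hω i (Finset.mem_Icc.2 ⟨i1, i2⟩)]
    rw [this]
    exact hd ω i

end sTC

section sTD

theorem td_bern (q : ℕ) (hq : 1 ≤ q) : ∃ ν : Measure (ℤ → Fin q), IsProbabilityMeasure ν ∧
    ν.map (fun ω b => ω (b + 1)) = ν ∧
    ∀ (T : Finset ℤ) (ω0 : ℤ → Fin q), ν {ω | ∀ b ∈ T, ω b = ω0 b} = ((q : ENNReal)⁻¹) ^ T.card := by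
  have : Nonempty (Fin q) := ⟨⟨0, hq⟩⟩
  let u : Measure (Fin q) := (PMF.uniformOfFintype (Fin q)).toMeasure
  have : IsProbabilityMeasure u := PMF.toMeasure.isProbabilityMeasure _
  have hu : ∀ a : Fin q, u {a} = (q : ENNReal)⁻¹ := by
    intro a
    simp only [u]
    rw [PMF.toMeasure_apply_singleton _ _ (measurableSet_singleton a), PMF.uniformOfFintype_apply]
    simp
  refine ⟨Measure.infinitePi (fun _ : ℤ => u), inferInstance, ?_, ?_⟩
  · refine Measure.eq_infinitePi (fun _ : ℤ => u) fun s t ht => ?_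
    have hm : Measurable (fun (ω : ℤ → Fin q) (b : ℤ) => ω (b + 1)) := by fun_prop
    rw [Measure.map_apply hm (MeasurableSet.pi (Finset.countable_toSet s) fun i _ => ht i)]
    have hset : (fun (ω : ℤ → Fin q) (b : ℤ) => ω (b + 1)) ⁻¹' (Set.pi (s : Set ℤ) t) =
        Set.pi ((s.map (Equiv.addRight (1 : ℤ)).toEmbedding : Finset ℤ) : Set ℤ)
          (fun i => t (i - 1)) := by
      ext ω
      simp only [Set.mem_preimage, Set.mem_pi, Finset.mem_coe, Finset.mem_map,
        Equiv.coe_toEmbedding, Equiv.coe_addRight]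
      constructor
      · rintro h i ⟨a, ha, rfl⟩
        simpa using h a ha
      · intro h i hi
        simpa using h (i + 1) ⟨i, hi, rfl⟩
    rw [hset, Measure.infinitePi_pi _ (fun i _ => ht _), Finset.prod_map]
    simp
  · intro T ω0
    have hset : {ω : ℤ → Fin q | ∀ b ∈ T, ω b = ω0 b} = Set.pi (T : Set ℤ) (fun i => {ω0 i}) := by
      ext ω
      simp
    rw [hset, Measure.infinitePi_pi _ (fun i _ => measurableSet_singleton _)]
    simp [hu]

theorem td_per (b : ℤ → ℝ) (m : ℕ) (hb : ∀ l, b (l + m) = b l) (k : ℕ) :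
    ∑ l ∈ Finset.range (k * m), b l = k * ∑ l ∈ Finset.range m, b l := by
  have hk : ∀ (k : ℕ) (l : ℤ), b (l + k * m) = b l := by
    intro k
    induction k with
    | zero => simp
    | succ k ih =>
      intro l
      have : l + ((k + 1 : ℕ) : ℤ) * m = (l + k * m) + m := by push_cast; ring
      rw [this, hb, ih]
  induction k with
  | zero => simp
  | succ k ih =>
    rw [Nat.succ_mul, Finset.sum_range_add, ih]
    have : ∑ x ∈ Finset.range m, b ((k * m + x : ℕ) : ℤ) = ∑ x ∈ Finset.range m, b x := by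
      refine Finset.sum_congr rfl fun x _ => ?_
      rw [← hk k x]
      congr 1
      push_cast
      ring
    rw [this]
    push_cast
    ring

theorem td_lim {S E C : ℝ} (h : ∀ k : ℕ, k * S ≤ k * E + C) : S ≤ E := by
  by_contra hlt
  have hpos : 0 < S - E := by linarith [not_le.1 hlt]
  obtain ⟨k, hk⟩ := exists_nat_gt (C / (S - E))
  have h1 := h k
  rw [div_lt_iff₀ hpos] at hk
  linarith only [hk, h1]

theorem sMeas : SMeas := by
  intro X _ f hf q m hq hm Y hY1 hY2 hYm
  obtain ⟨ν, hν, hshift, hcyl⟩ := td_bern q hq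
  have hσ : Measurable (fun (ω : ℤ → Fin q) (b : ℤ) => ω (b + 1)) := by fun_prop
  let a : ℤ → Measure X := fun l => ν.map (fun ω => Y ω l)
  have haP : ∀ l, IsProbabilityMeasure (a l) := fun l =>
    Measure.isProbabilityMeasure_map (hYm l).aemeasurable
  have ha1 : ∀ l, (a l).map f = a (l + 1) := by
    intro l
    simp only [a]
    rw [Measure.map_map hf (hYm l)]
    congr 1
    funext ω
    simp [hY1]
  have ham : ∀ l, a (l + m) = a l := by
    intro l
    simp only [a]
    conv_rhs => rw [← hshift]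
    rw [Measure.map_map (hYm l) hσ]
    congr 1
    funext ω
    simp [hY2]
  have hm0 : (m : ENNReal) ≠ 0 := by
    simp only [ne_eq, Nat.cast_eq_zero]
    omega
  have hmt : (m : ENNReal) ≠ ⊤ := ENNReal.natCast_ne_top m
  let μ : Measure X := (m : ENNReal)⁻¹ • ∑ j ∈ Finset.range m, a j
  have hμP : IsProbabilityMeasure μ := by
    constructor
    simp only [μ, Measure.smul_apply, Measure.coe_finsetSum, Finset.sum_apply, measure_univ,
      Finset.sum_const, Finset.card_range, nsmul_eq_mul, mul_one, smul_eq_mul]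
    exact ENNReal.inv_mul_cancel hm0 hmt
  have hsum : ∑ j ∈ Finset.range m, a ((j : ℤ) + 1) = ∑ j ∈ Finset.range m, a j := by
    obtain ⟨m', rfl⟩ : ∃ m', m = m' + 1 := ⟨m - 1, by omega⟩
    rw [Finset.sum_range_succ, Finset.sum_range_succ']
    congr 1
    have := ham 0
    simpa using this
  refine ⟨μ, ⟨hμP, ⟨hf, ?_⟩⟩, ?_, ?_⟩
  · simp only [μ]
    rw [Measure.map_smul]
    congr 1
    conv_rhs => rw [← hsum]
    ext s hs
    rw [Measure.map_apply hf hs]
    simp only [Measure.coe_finsetSum, Finset.sum_apply]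
    refine Finset.sum_congr rfl fun j _ => ?_
    rw [← ha1, Measure.map_apply hf hs]
  · intro A hA s hT
    have hq1 : (q : ENNReal)⁻¹ ≤ 1 := by
      rw [ENNReal.inv_le_one]
      exact_mod_cast hq
    have hj : ∀ j ∈ Finset.range m, a j A ≤ ((q : ENNReal)⁻¹) ^ s := by
      intro j hj
      obtain ⟨T, hTs, hT'⟩ := hT j (Finset.mem_range.1 hj)
      simp only [a]
      rw [Measure.map_apply (hYm _) hA]
      rcases Set.eq_empty_or_nonempty ((fun ω => Y ω (j : ℤ)) ⁻¹' A) with h | ⟨ω0, h0⟩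
      · rw [h]
        simp
      · calc ν ((fun ω => Y ω (j : ℤ)) ⁻¹' A) ≤ ν {ω | ∀ b ∈ T, ω b = ω0 b} :=
              measure_mono fun ω hω => hT' ω ω0 hω h0
          _ = ((q : ENNReal)⁻¹) ^ T.card := hcyl T ω0
          _ ≤ ((q : ENNReal)⁻¹) ^ s := pow_le_pow_of_le_one (zero_le) hq1 hTs
    have hle : μ A ≤ ((q : ENNReal)⁻¹) ^ s := by
      simp only [μ, Measure.smul_apply, Measure.coe_finsetSum, Finset.sum_apply, smul_eq_mul]
      calc (m : ENNReal)⁻¹ * ∑ j ∈ Finset.range m, a j A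
          ≤ (m : ENNReal)⁻¹ * ∑ _j ∈ Finset.range m, ((q : ENNReal)⁻¹) ^ s := by
            gcongr with j hj'
            exact hj j hj'
        _ = ((q : ENNReal)⁻¹) ^ s := by
            rw [Finset.sum_const, Finset.card_range, nsmul_eq_mul, ← mul_assoc,
              ENNReal.inv_mul_cancel hm0 hmt, one_mul]
    have hne : ((q : ENNReal)⁻¹) ^ s ≠ ⊤ :=
      ne_top_of_le_ne_top ENNReal.one_ne_top (pow_le_one₀ (zero_le) hq1)
    have := ENNReal.toReal_mono hne hle
    simpa only [Measure.real, one_div, inv_pow, ge_iff_le, ENNReal.toReal_pow, ENNReal.toReal_inv, ENNReal.toReal_natCast] using this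
  · intro ψ hψ hB E C hE
    obtain ⟨B, hB⟩ := hB
    have hint : ∀ (ρ : Measure X) [IsFiniteMeasure ρ], Integrable ψ ρ := fun ρ _ =>
      Integrable.of_bound hψ.aestronglyMeasurable B (Eventually.of_forall fun x => hB x)
    have hint2 : ∀ l, Integrable (fun ω => ψ (Y ω l)) ν := fun l =>
      Integrable.of_bound (hψ.comp (hYm l)).aestronglyMeasurable B
        (Eventually.of_forall fun ω => hB _)
    let b : ℤ → ℝ := fun l => ∫ x, ψ x ∂(a l)
    have hb : ∀ l, b l = ∫ ω, ψ (Y ω l) ∂ν := fun l =>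
      integral_map (hYm l).aemeasurable hψ.aestronglyMeasurable
    have hbm : ∀ l, b (l + m) = b l := fun l => by simp only [b, ham]
    have hS : ∑ l ∈ Finset.range m, b l ≤ E := by
      refine td_lim (C := C) fun k => ?_
      rw [← td_per b m hbm k]
      simp only [hb]
      rw [← integral_finsetSum _ fun (l : ℕ) _ => hint2 l]
      calc ∫ ω, ∑ l ∈ Finset.range (k * m), ψ (Y ω l) ∂ν ≤ ∫ _ω, (k * E + C) ∂ν :=
            integral_mono (integrable_finsetSum _ fun (l : ℕ) _ => hint2 l) (integrable_const _)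
              fun ω => hE ω k
        _ = k * E + C := by simp
    have hμ : ∫ x, ψ x ∂μ = (∑ l ∈ Finset.range m, b l) / m := by
      simp only [μ]
      rw [integral_smul_measure, integral_finsetSum_measure fun (j : ℕ) _ => hint (a j)]
      simp only [ENNReal.toReal_inv, ENNReal.toReal_natCast, smul_eq_mul, b]
      ring
    rw [hμ]
    exact div_le_div_of_nonneg_right hS (Nat.cast_nonneg m)

end sTD

section sTE

theorem te_iter {X : Type} {f : X → X} {y : ℤ → X} (hy : ∀ l, y (l + 1) = f (y l)) (j : ℤ)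
    (i : ℕ) : y (j + i) = f^[i] (y j) := by
  induction i with
  | zero => simp
  | succ i ih => rw [Function.iterate_succ_apply', ← ih, ← hy, Nat.cast_succ, add_assoc]

theorem te_pow {q m n : ℕ} (hq : 1 ≤ q) (hm : 1 ≤ m) :
    (1 / q : ℝ) ^ (n / m - 1) ≤ Real.exp (2 * Real.log q - Real.log q / m * n) := by
  have hq' : (1 : ℝ) ≤ q := by exact_mod_cast hq
  have hm' : (0 : ℝ) < m := by exact_mod_cast hm
  have hl : 0 ≤ Real.log q := Real.log_nonneg hq'
  have h1 : (1 / q : ℝ) = Real.exp (-Real.log q) := by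
    rw [Real.exp_neg, Real.exp_log (by linarith only [hq']), one_div]
  rw [h1, ← Real.exp_nat_mul, Real.exp_le_exp]
  have h2 : n < (n / m - 1 + 2) * m := by
    have := Nat.lt_div_mul_add (a := n) (b := m) hm
    have h3 : n / m + 1 ≤ n / m - 1 + 2 := by omega
    have := Nat.mul_le_mul_right m h3
    nlinarith
  have h3 : (n : ℝ) / m ≤ ((n / m - 1 : ℕ) : ℝ) + 2 := by
    rw [div_le_iff₀ hm']
    exact_mod_cast h2.le
  have h4 : Real.log q / m * n = Real.log q * (n / m) := by ring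
  rw [h4]
  linarith only [mul_le_mul_of_nonneg_left h3 hl]

theorem sHorse (h1 : SRate) (h2 : SWin) (h3 : SPart) (h4 : SEntLB) (h5 : SGlue) (h6 : SCode)
    (h7 : SMeas) : SHorse := by
  intro X _ _ _ _ _ f L N e hs
  have hR := h1 X f L N e hs
  obtain ⟨η1, hη1, C2, C3, hC2, hW⟩ := h2 X f L N e hs
  have he := hs.epos
  obtain ⟨η2, hη2, hS⟩ := hs.shad (e / 8) (by positivity)
  refine ⟨min η1 η2, lt_min hη1 hη2, C2, hC2, ?_⟩
  intro ψ K hK hψ q m hq hm z c E hc hsep
  obtain ⟨g1, g2, g3, g4⟩ := h5 X f q m hm z c fun i => ⟨(hc i).1, (hc i).2.1⟩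
  have hj := g1 _ fun i => (hc i).2.2.1
  obtain ⟨Y, y1, y2, y3, y4⟩ := h6 X f N e η2 hs.Npos he hR hS q m hm c
    (fun ω l => (hj ω l).trans (min_le_right _ _)) g3
  have fm : Measurable f := (continuous_of_lip hs.one_le hs.lip).measurable
  obtain ⟨μ, hμ, m1, m2⟩ := h7 X f fm q m hq hm Y y1 y3 y4
  refine ⟨μ, hμ, ?_, ?_⟩
  · obtain ⟨r, ξ, -, hξ, hcell⟩ := h3 X (e / 8) (by positivity)
    refine h4 X f μ hμ.1 fm r ξ hξ _ (2 * Real.log q) fun n w => ?_
    have hit : Measurable (itin f ξ n) :=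
      measurable_pi_lambda _ fun i : Fin n => hξ.comp (fm.iterate (i : ℕ))
    have hA : MeasurableSet (itin f ξ n ⁻¹' {w}) := hit (measurableSet_singleton w)
    refine (m1 _ hA (n / m - 1) fun j hjm => ⟨Finset.Icc 1 ((n / m - 1 : ℕ) : ℤ), by simp only [Int.card_Icc, add_sub_cancel_right, Int.toNat_natCast, Std.le_refl], ?_⟩).trans
      (te_pow hq hm)
    intro ω ω' hω hω' b hb
    by_contra hne
    obtain ⟨j', hj', hd⟩ := hsep _ _ hne
    obtain ⟨hb1, hb2⟩ := Finset.mem_Icc.1 hb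
    obtain ⟨b', rfl⟩ : ∃ b' : ℕ, b = b' := ⟨b.toNat, by omega⟩
    have hb3 : 1 ≤ b' := by exact_mod_cast hb1
    have hb4 : b' + 1 ≤ n / m := by
      have : b' ≤ n / m - 1 := by exact_mod_cast hb2
      omega
    have hb5 : (b' + 1) * m ≤ n := (Nat.mul_le_mul_right m hb4).trans (Nat.div_mul_le_self n m)
    have hb6 : m ≤ b' * m := Nat.le_mul_of_pos_left m hb3
    obtain ⟨i, hi⟩ : ∃ i : ℕ, b' * m + j' = j + i := ⟨b' * m + j' - j, by omega⟩
    have hin : i < n := by linarith only [hj', hb5, hi]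
    have ht : ((b' : ℤ) * m + j' : ℤ) = (j : ℤ) + i := by exact_mod_cast hi
    have e1 : ξ (f^[i] (Y ω j)) = ξ (f^[i] (Y ω' j)) :=
      (congrFun hω ⟨i, hin⟩).trans (congrFun hω' ⟨i, hin⟩).symm
    have e2 := hcell _ _ e1
    rw [← te_iter (y1 ω), ← te_iter (y1 ω'), ← ht] at e2
    have e3 := y2 ω (b' * m + j')
    have e4 := y2 ω' (b' * m + j')
    rw [g4 _ _ _ hj'] at e3 e4
    have e5 := dist_triangle4 (c (ω b') j') (Y ω (b' * m + j')) (Y ω' (b' * m + j')) (c (ω' b') j')
    rw [dist_comm] at e4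
    linarith only [he, hd, e2, e3, e4, e5]
  · have hcψ := hψ.continuous hK
    refine m2 ψ hcψ.measurable ?_ E (K * C3) fun ω k => ?_
    · obtain ⟨B, hB⟩ := (isCompact_range hcψ).isBounded.exists_norm_le
      exact ⟨B, fun x => hB _ ⟨x, rfl⟩⟩
    · have a1 := hW (glue c m ω) (Y ω) (fun l => (hj ω l).trans (min_le_left _ _)) (y1 ω) (y2 ω)
        (k * m)
      have a2 := g2 ψ (K * C2) E (fun i => (hc i).2.2.2) ω k
      have a3 : ∑ l ∈ Finset.range (k * m), ψ (Y ω l) ≤ ∑ l ∈ Finset.range (k * m),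
          (ψ (glue c m ω l) + K * dist (glue c m ω l) (Y ω l)) :=
        Finset.sum_le_sum fun l _ => by
          have := (abs_le.1 (hψ (glue c m ω l) (Y ω l))).1
          linarith only [this]
      rw [Finset.sum_add_distrib, ← Finset.mul_sum] at a2 a3
      linarith only [mul_le_mul_of_nonneg_left a1 hK, a2, a3]

end sTE

section sTF

theorem tf_prod_sum_le {I A : Type} [Fintype I] [DecidableEq I] [Fintype A] (q : I → A → ℝ)
    (h0 : ∀ i a, 0 ≤ q i a) (h1 : ∀ i, ∑ a, q i a ≤ 1) : ∑ w : I → A, ∏ i, q i (w i) ≤ 1 := by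
  have h := Finset.prod_univ_sum (fun _ : I => (Finset.univ : Finset A)) q
  rw [Fintype.piFinset_univ] at h
  rw [← h]
  exact Finset.prod_le_one (fun i _ => Finset.sum_nonneg fun a _ => h0 i a) fun i _ => h1 i

theorem tf_mass {I J A B C : Type} [Fintype I] [DecidableEq I] [Fintype J] [DecidableEq J]
    [Fintype A] [Fintype B] [Fintype C] (p : ℝ) (hp0 : 0 ≤ p) (hp : Fintype.card C * p ≤ 1)
    (q3 : B → ℝ) (h30 : ∀ b, 0 ≤ q3 b) (h31 : ∑ b, q3 b ≤ 1) (q2 : A → A → ℝ)
    (h20 : ∀ a b, 0 ≤ q2 a b) (h21 : ∀ b, ∑ a, q2 a b ≤ 1) (pred : I → C × (J → B) → A) :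
    ∑ w : I → A, ∑ v : C × (J → B), p * (∏ j, q3 (v.2 j)) * ∏ i, q2 (w i) (pred i v) ≤ 1 := by
  rw [Finset.sum_comm]
  calc ∑ v : C × (J → B), ∑ w : I → A, p * (∏ j, q3 (v.2 j)) * ∏ i, q2 (w i) (pred i v)
      ≤ ∑ v : C × (J → B), p * ∏ j, q3 (v.2 j) := by
        refine Finset.sum_le_sum fun v _ => ?_
        rw [← Finset.mul_sum]
        refine mul_le_of_le_one_right
          (mul_nonneg hp0 (Finset.prod_nonneg fun j _ => h30 _)) ?_
        exact tf_prod_sum_le (fun i a => q2 a (pred i v)) (fun i a => h20 _ _) fun i => h21 _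
    _ = ∑ _c : C, p * ∑ v : J → B, ∏ j, q3 (v j) := by
        rw [Fintype.sum_prod_type]
        exact Finset.sum_congr rfl fun c _ => by rw [Finset.mul_sum]
    _ ≤ ∑ _c : C, p := by
        refine Finset.sum_le_sum fun c _ => mul_le_of_le_one_right hp0 ?_
        exact tf_prod_sum_le (fun _ b => q3 b) (fun _ b => h30 b) fun _ => h31
    _ ≤ 1 := by simpa only [Finset.sum_const, Finset.card_univ, nsmul_eq_mul] using hp

open Classical in
theorem tf_int {X : Type} [MeasurableSpace X] {μ : Measure X} [IsProbabilityMeasure μ]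
    {g : X → X} (hg : MeasurePreserving g μ μ) {B : Set X} (hB : MeasurableSet B) (a b : ℝ) :
    Integrable (fun x => a + if g x ∈ B then 0 else b) μ ∧
      ∫ x, (a + if g x ∈ B then 0 else b) ∂μ = a + μ.real Bᶜ * b := by
  have hm : MeasurableSet (g ⁻¹' Bᶜ) := hg.measurable hB.compl
  have he : (fun x => if g x ∈ B then 0 else b) = (g ⁻¹' Bᶜ).indicator fun _ => b := by
    funext x
    by_cases hx : g x ∈ B <;> simp [Set.indicator, hx]
  have hi : Integrable (fun x => if g x ∈ B then 0 else b) μ := by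
    rw [he]
    exact (integrable_const b).indicator hm
  refine ⟨(integrable_const a).add hi, ?_⟩
  rw [integral_add (integrable_const a) hi, he, integral_indicator_const _ hm]
  have : μ.real (g ⁻¹' Bᶜ) = μ.real Bᶜ := by
    simp only [Measure.real]
    rw [hg.measure_preimage hB.compl.nullMeasurableSet]
  rw [this]
  simp

theorem tf_meas_itin {X : Type} [MeasurableSpace X] {f : X → X} (hf : Measurable f) {k : ℕ}
    {ζ : X → Fin k} (hζ : Measurable ζ) (n : ℕ) : Measurable (itin f ζ n) :=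
  measurable_pi_lambda _ fun i => hζ.comp (hf.iterate i)

/-- a large closed set on which the partition is locally constant at scale `e / 4 ^ k` -/
theorem tf_sep {X : Type} [MetricSpace X] [CompactSpace X] [MeasurableSpace X] [BorelSpace X]
    (μ : Measure X) [IsProbabilityMeasure μ] {k0 : ℕ} (hk0 : 1 ≤ k0) {ζ : X → Fin k0}
    (hζ : Measurable ζ) (e : ℝ) {ρ : ℝ} (hρ : 0 < ρ) :
    ∃ (K : Set X) (k : ℕ), MeasurableSet K ∧ μ.real Kᶜ ≤ ρ ∧
      ∀ x ∈ K, ∀ y ∈ K, dist x y ≤ e / 4 ^ k → ζ x = ζ y := by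
  have hk : (0 : ℝ) < k0 := by exact_mod_cast hk0
  have hex : ∀ a : Fin k0, ∃ F ⊆ ζ ⁻¹' {a}, IsClosed F ∧
      μ (ζ ⁻¹' {a} \ F) < ENNReal.ofReal (ρ / k0) := fun a =>
    (hζ (measurableSet_singleton a)).exists_isClosed_sdiff_lt (measure_ne_top _ _)
      (by simpa only [ne_eq, ENNReal.ofReal_eq_zero, not_le] using div_pos hρ hk)
  choose F hF1 hF2 hF3 using hex
  have hev : ∀ᶠ k : ℕ in atTop, ∀ a b : Fin k0, ∀ x ∈ F a, ∀ y ∈ F b,
      dist x y ≤ e / 4 ^ k → a = b := by
    refine eventually_all.2 fun a => eventually_all.2 fun b => ?_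
    by_cases hab : a = b
    · exact Eventually.of_forall fun _ _ _ _ _ _ => hab
    have hd : Disjoint (F a) (F b) := Set.disjoint_left.2 fun x hx hy =>
      hab ((hF1 a hx).symm.trans (hF1 b hy))
    obtain ⟨δ, hδ, hdis⟩ := hd.exists_thickenings (hF2 a).isCompact (hF2 b)
    have ht : Tendsto (fun k : ℕ => e / 4 ^ k) atTop (𝓝 0) :=
      tendsto_const_nhds.div_atTop (tendsto_pow_atTop_atTop_of_one_lt (by norm_num))
    filter_upwards [ht.eventually (gt_mem_nhds hδ)] with k hk x hx y hy hxy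
    exact (Set.disjoint_left.1 hdis (Metric.self_subset_thickening hδ _ hx)
      (Metric.mem_thickening_iff.2 ⟨y, hy, hxy.trans_lt hk⟩)).elim
  obtain ⟨k, hk'⟩ := hev.exists
  refine ⟨⋃ a, F a, k, MeasurableSet.iUnion fun a => (hF2 a).measurableSet, ?_, ?_⟩
  · have hsub : (⋃ a, F a)ᶜ ⊆ ⋃ a, (ζ ⁻¹' {a} \ F a) := fun x hx =>
      Set.mem_iUnion.2 ⟨ζ x, rfl, fun h => hx (Set.mem_iUnion.2 ⟨_, h⟩)⟩
    calc μ.real (⋃ a, F a)ᶜ ≤ μ.real (⋃ a, (ζ ⁻¹' {a} \ F a)) := measureReal_mono hsub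
      _ ≤ ∑ a, μ.real (ζ ⁻¹' {a} \ F a) := measureReal_iUnion_fintype_le _
      _ ≤ ∑ _a : Fin k0, ρ / k0 := Finset.sum_le_sum fun a _ =>
          ENNReal.toReal_le_of_le_ofReal (div_pos hρ hk).le (hF3 a).le
      _ = ρ := by simp only [Finset.sum_const, Finset.card_univ, Fintype.card_fin, nsmul_eq_mul]; field_simp
  · intro x hx y hy hxy
    obtain ⟨a, ha⟩ := Set.mem_iUnion.1 hx
    obtain ⟨b, hb⟩ := Set.mem_iUnion.1 hy
    have hab := hk' a b x ha y hb hxy
    have h1 : ζ x = a := hF1 a ha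
    have h2 : ζ y = b := hF1 b hb
    rw [h1, h2, hab]

open Classical in
/-- the bound for itineraries of length `n` -/
theorem tf_main (h1 : SGibbs) {X : Type} [MetricSpace X] [MeasurableSpace X] {f : X → X} {N : ℕ}
    {e : ℝ} (hR : Rate f N e) {μ : Measure X} (hμ : Inv f μ) {r : ℕ} {ξ : X → Fin r} {G : Set X}
    (hr : 1 ≤ r) (hξ : Measurable ξ) (hG : MeasurableSet G)
    (hc : ∀ (n : ℕ) (x y : X), ξ x = ξ y →
      (∀ j < n, (f^[j] x ∈ G ↔ f^[j] y ∈ G) ∧ (f^[j] x ∉ G → ξ (f^[j + 1] x) = ξ (f^[j + 1] y))) →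
      dist (f^[n] x) (f^[n] y) ≤ e)
    {s : ℝ} (hs0 : 0 < s) (hs1 : s < 1) {k0 : ℕ} (hk0 : 1 ≤ k0) {ζ : X → Fin k0}
    (hζ : Measurable ζ) {K : Set X} {k : ℕ} (hK : MeasurableSet K)
    (hsep : ∀ x ∈ K, ∀ y ∈ K, dist x y ≤ e / 4 ^ k → ζ x = ζ y) {u : ℝ} (hu0 : 0 < u) (hu1 : u < 1)
    (n : ℕ) :
    shannon μ (itin f ζ n) ≤ Real.log r +
      (n + 2 * (k * N) : ℕ) * (-Real.log (1 - s) + μ.real Gᶜ * Real.log (r / s)) +
      n * (-Real.log (1 - u) + μ.real Kᶜ * Real.log (k0 / u)) := by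
  obtain ⟨hP, hf⟩ := hμ
  have hfm : Measurable f := hf.measurable
  have hr0 : (0 : ℝ) < r := by exact_mod_cast hr
  have hk00 : (0 : ℝ) < k0 := by exact_mod_cast hk0
  have hk01 : (1 : ℝ) ≤ k0 := by exact_mod_cast hk0
  obtain ⟨V, hV⟩ : ∃ V : X → Fin r × (Fin (n + 2 * (k * N)) → Option (Fin r)), V = fun x =>
      (ξ x, fun j : Fin (n + 2 * (k * N)) =>
        if f^[j] x ∈ G then none else some (ξ (f^[(j : ℕ) + 1] x))) := ⟨_, rfl⟩
  obtain ⟨W, hW⟩ : ∃ W : X → Fin n → Fin k0, W = fun x => itin f ζ n (f^[k * N] x) := ⟨_, rfl⟩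
  have hWi : ∀ x (i : Fin n), W x i = ζ (f^[(i : ℕ) + k * N] x) := fun x i => by
    rw [hW, Function.iterate_add_apply]; rfl
  have hWm : ∀ w, MeasurableSet (W ⁻¹' {w}) := fun w => by
    rw [hW]
    exact ((tf_meas_itin hfm hζ n).comp (hfm.iterate _)) (measurableSet_singleton w)
  have hVm : ∀ v, MeasurableSet (V ⁻¹' {v}) := fun v => by
    let _ : MeasurableSpace (Option (Fin r)) := ⊤
    have : MeasurableSingletonClass (Option (Fin r)) := ⟨fun _ => trivial⟩
    have hm : Measurable V := by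
      rw [hV]
      refine hξ.prodMk (measurable_pi_lambda _ fun j => ?_)
      refine Measurable.ite ((hfm.iterate _) hG) measurable_const ?_
      exact (Measurable.of_discrete (f := (some : Fin r → Option (Fin r)))).comp
        (hξ.comp (hfm.iterate _))
    exact hm (measurableSet_singleton v)
  have hsh : shannon μ (itin f ζ n) = shannon μ W := by
    unfold shannon
    refine Finset.sum_congr rfl fun w _ => ?_
    congr 1
    simp only [Measure.real]
    rw [hW, ← (hf.iterate (k * N)).measure_preimage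
      ((tf_meas_itin hfm hζ n) (measurableSet_singleton w)).nullMeasurableSet]
    rfl
  -- equal codes give close orbits
  have hclose : ∀ x y, V x = V y → ∀ i : Fin n,
      dist (f^[(i : ℕ) + k * N] x) (f^[(i : ℕ) + k * N] y) ≤ e / 4 ^ k := by
    intro x y hxy i
    rw [hV] at hxy
    obtain ⟨h0, h2⟩ := Prod.mk.inj hxy
    have hall : ∀ m ≤ n + 2 * (k * N), dist (f^[m] x) (f^[m] y) ≤ e := by
      intro m hm
      refine hc m x y h0 fun j hj => ?_
      have h3 := congrFun h2 ⟨j, by omega⟩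
      by_cases hx : f^[j] x ∈ G <;> by_cases hy : f^[j] y ∈ G <;> simp [hx, hy] at h3 ⊢
      simpa using h3
    have h4 := hR e le_rfl k (f^[i] x) (f^[i] y) fun j hj => by
      rw [← Function.iterate_add_apply, ← Function.iterate_add_apply]
      exact hall _ (by have := i.2; omega)
    rw [← Function.iterate_add_apply, ← Function.iterate_add_apply, add_comm] at h4
    exact h4
  obtain ⟨pred, hpred⟩ : ∃ pred : Fin n → Fin r × (Fin (n + 2 * (k * N)) → Option (Fin r)) → Fin k0,
      ∀ x (i : Fin n), f^[(i : ℕ) + k * N] x ∈ K → W x i = pred i (V x) := by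
    refine ⟨fun i v => if h : ∃ y, V y = v ∧ f^[(i : ℕ) + k * N] y ∈ K then W h.choose i
      else ⟨0, hk0⟩, fun x i hx => ?_⟩
    have h : ∃ y, V y = V x ∧ f^[(i : ℕ) + k * N] y ∈ K := ⟨x, rfl, hx⟩
    simp only [dif_pos h]
    rw [hWi, hWi]
    exact hsep _ hx _ h.choose_spec.2 (hclose _ _ h.choose_spec.1.symm i)
  obtain ⟨q3, hq3⟩ : ∃ q3 : Option (Fin r) → ℝ, q3 = fun o => o.elim (1 - s) fun _ => s / r :=
    ⟨_, rfl⟩
  obtain ⟨q2, hq2⟩ : ∃ q2 : Fin k0 → Fin k0 → ℝ, q2 = fun a b => if a = b then 1 - u else u / k0 :=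
    ⟨_, rfl⟩
  have h3p : ∀ o, 0 < q3 o := by
    rintro (_ | c) <;> rw [hq3]
    · exact sub_pos.2 hs1
    · exact div_pos hs0 hr0
  have h2p : ∀ a b, 0 < q2 a b := fun a b => by
    rw [hq2]
    dsimp only
    split_ifs
    · exact sub_pos.2 hu1
    · exact div_pos hu0 hk00
  have h31 : ∑ o, q3 o ≤ 1 := by
    rw [Fintype.sum_option, hq3]
    simp only [Option.elim, Finset.sum_const, Finset.card_univ, Fintype.card_fin, nsmul_eq_mul]
    rw [mul_div_cancel₀ _ hr0.ne']
    linarith only []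
  have h21 : ∀ b, ∑ a, q2 a b ≤ 1 := fun b => by
    calc ∑ a, q2 a b ≤ ∑ a : Fin k0, ((if a = b then 1 - u else 0) + u / k0) := by
          refine Finset.sum_le_sum fun a _ => ?_
          rw [hq2]
          dsimp only
          split_ifs
          · linarith only [div_pos hu0 hk00]
          · linarith only []
      _ = 1 := by
          rw [Finset.sum_add_distrib]
          simp only [Finset.sum_ite_eq', Finset.mem_univ, if_true, Finset.sum_const,
            Finset.card_univ, Fintype.card_fin, nsmul_eq_mul]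
          rw [mul_div_cancel₀ _ hk00.ne']
          ring
  obtain ⟨Q, hQ⟩ : ∃ Q : (Fin n → Fin k0) → Fin r × (Fin (n + 2 * (k * N)) → Option (Fin r)) → ℝ,
      Q = fun w v => (1 / r : ℝ) * (∏ j, q3 (v.2 j)) * ∏ i, q2 (w i) (pred i v) := ⟨_, rfl⟩
  have hQp : ∀ w v, 0 < Q w v := fun w v => by
    rw [hQ]
    exact mul_pos (mul_pos (one_div_pos.2 hr0) (Finset.prod_pos fun j _ => h3p _))
      (Finset.prod_pos fun i _ => h2p _ _)
  have hQ1 : ∑ w, ∑ v, Q w v ≤ 1 := by
    rw [hQ]
    exact tf_mass (1 / r : ℝ) (one_div_pos.2 hr0).le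
      (by rw [Fintype.card_fin, mul_one_div_cancel hr0.ne']) q3 (fun b => (h3p b).le) h31 q2
      (fun a b => (h2p a b).le) h21 pred
  have hQle : ∀ w v, Q w v ≤ 1 := fun w v =>
    ((Finset.single_le_sum (f := fun v => Q w v) (fun v _ => (hQp w v).le)
      (Finset.mem_univ v)).trans (Finset.single_le_sum (f := fun w => ∑ v, Q w v)
      (fun w _ => Finset.sum_nonneg fun v _ => (hQp w v).le) (Finset.mem_univ w))).trans hQ1
  have ha : 0 ≤ -Real.log (1 - s) := neg_nonneg.2 (Real.log_nonpos (by linarith only [hs1]) (by linarith only [hs0]))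
  have ha' : 0 ≤ -Real.log (1 - u) := neg_nonneg.2 (Real.log_nonpos (by linarith only [hu1]) (by linarith only [hu0]))
  have hb' : 0 ≤ Real.log (k0 / u) := Real.log_nonneg ((one_le_div hu0).2 (by linarith only [hu1, hk01]))
  have hpt : ∀ x, -Real.log (Q (W x) (V x)) ≤ Real.log r +
      ∑ j : Fin (n + 2 * (k * N)),
        (-Real.log (1 - s) + if f^[j] x ∈ G then 0 else Real.log (r / s)) +
      ∑ i : Fin n,
        (-Real.log (1 - u) + if f^[(i : ℕ) + k * N] x ∈ K then 0 else Real.log (k0 / u)) := by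
    intro x
    rw [hQ]
    dsimp only
    rw [Real.log_mul (mul_pos (one_div_pos.2 hr0) (Finset.prod_pos fun j _ => h3p _)).ne'
      (Finset.prod_pos fun i _ => h2p _ _).ne', Real.log_mul (one_div_pos.2 hr0).ne'
      (Finset.prod_pos fun j _ => h3p _).ne', Real.log_prod (fun j _ => (h3p _).ne'),
      Real.log_prod (fun i _ => (h2p _ _).ne'), one_div, Real.log_inv, neg_add, neg_add, neg_neg,
      ← Finset.sum_neg_distrib, ← Finset.sum_neg_distrib]
    refine add_le_add (add_le_add le_rfl (Finset.sum_le_sum fun j _ => ?_))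
      (Finset.sum_le_sum fun i _ => ?_)
    · rw [hV, hq3]
      dsimp only
      split_ifs
      · simp
      · have : Real.log (s / r) = -Real.log (r / s) := by rw [← Real.log_inv, inv_div]
        simp only [Option.elim, this]
        linarith only [ha]
    · have hl : Real.log (u / k0) = -Real.log (k0 / u) := by rw [← Real.log_inv, inv_div]
      rw [hq2]
      dsimp only
      by_cases hx : f^[(i : ℕ) + k * N] x ∈ K
      · rw [if_pos (hpred x i hx), if_pos hx, add_zero]
      · rw [if_neg hx]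
        split_ifs
        · linarith only [hb']
        · rw [hl]; linarith only [ha']
  have hI1 := fun j : Fin (n + 2 * (k * N)) =>
    tf_int (hf.iterate j) hG (-Real.log (1 - s)) (Real.log (r / s))
  have hI2 := fun i : Fin n =>
    tf_int (hf.iterate ((i : ℕ) + k * N)) hK (-Real.log (1 - u)) (Real.log (k0 / u))
  have hJ1 := integrable_finsetSum Finset.univ fun j _ => (hI1 j).1
  have hJ2 := integrable_finsetSum Finset.univ fun i _ => (hI2 i).1
  have hJ3 := (integrable_const (μ := μ) (Real.log r)).add hJ1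
  rw [hsh]
  refine (h1 X _ _ μ hP W V hWm hVm Q hQp hQ1).trans ((integral_mono_of_nonneg
    (Eventually.of_forall fun x => neg_nonneg.2 (Real.log_nonpos (hQp _ _).le (hQle _ _)))
    (hJ3.add hJ2) (Eventually.of_forall hpt)).trans (le_of_eq ?_))
  rw [integral_add' hJ3 hJ2, integral_add' (integrable_const _) hJ1,
    integral_finsetSum _ fun j _ => (hI1 j).1, integral_finsetSum _ fun i _ => (hI2 i).1]
  simp only [fun j => (hI1 j).2, fun i => (hI2 i).2, Finset.sum_const, Finset.card_univ,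
    Fintype.card_fin, nsmul_eq_mul, integral_const, probReal_univ, one_smul]

theorem sUB (h1 : SGibbs) : SUB := by
  intro X _ _ _ _ f N e _ _ hR μ hμ r ξ G hr hξ hG hc s hs0 hs1
  have := hμ.1
  refine iSup_le fun k0 => iSup_le fun ζ => iSup_le fun hζ => ?_
  have hk0 : 1 ≤ k0 := by
    obtain ⟨x⟩ := nonempty_of_isProbabilityMeasure μ
    exact (ζ x).pos
  have hk01 : (1 : ℝ) ≤ k0 := by exact_mod_cast hk0
  obtain ⟨A, hA⟩ : ∃ A, A = -Real.log (1 - s) + μ.real Gᶜ * Real.log (r / s) := ⟨_, rfl⟩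
  rw [← hA]
  refine EReal.le_of_forall_lt_iff_le.1 fun z hz => ?_
  have hz' : A < z := by exact_mod_cast hz
  obtain ⟨ε, hε, hεz⟩ : ∃ ε > (0 : ℝ), A + 3 * ε = z := ⟨(z - A) / 3, by linarith only [hz'], by ring⟩
  have hu0 : 0 < 1 - Real.exp (-ε) := sub_pos.2 (Real.exp_lt_one_iff.2 (by linarith only [hε]))
  have hu1 : 1 - Real.exp (-ε) < 1 := by linarith only [Real.exp_pos (-ε)]
  have hb : 0 ≤ Real.log (k0 / (1 - Real.exp (-ε))) :=
    Real.log_nonneg ((one_le_div hu0).2 (by linarith only [hk01, hu1]))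
  obtain ⟨K, k, hK, hKρ, hsep⟩ := tf_sep μ hk0 hζ e
    (ρ := ε / (Real.log (k0 / (1 - Real.exp (-ε))) + 1)) (div_pos hε (by linarith only [hs0, hs1, hb]))
  have hKb : μ.real Kᶜ * Real.log (k0 / (1 - Real.exp (-ε))) ≤ ε := by
    rw [le_div_iff₀ (by linarith only [hs0, hs1, hb])] at hKρ
    linarith only [measureReal_nonneg (μ := μ) (s := Kᶜ), hKρ]
  have ht : Tendsto (fun n : ℕ => (Real.log r + 2 * (k * N) * A) / n) atTop (𝓝 0) :=
    tendsto_const_nhds.div_atTop tendsto_natCast_atTop_atTop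
  refine limsup_le_of_le (by isBoundedDefault) ?_
  filter_upwards [ht.eventually (gt_mem_nhds hε), eventually_ge_atTop 1] with n hn hn1
  have hn0 : (0 : ℝ) < n := by exact_mod_cast hn1
  have hm := tf_main h1 hR hμ hr hξ hG hc hs0 hs1 hk0 hζ hK hsep hu0 hu1 n
  rw [← hA, sub_sub_cancel, Real.log_exp, neg_neg] at hm
  rw [div_lt_iff₀ hn0] at hn
  refine EReal.coe_le_coe_iff.2 ((div_le_iff₀ hn0).2 ?_)
  push_cast at hm
  rw [← hεz]
  linarith only [mul_le_mul_of_nonneg_left hKb hn0.le, hn, hm]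

end sTF

end Pool.Agent.MP_80da8f_an
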