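import Pool.Agent.MP_80da8f_an.Main

section

/-! Statements for the arithmetic obstruction. -/

open MeasureTheory Filter Topology

namespace Pool.Agent.MP_80da8f_an

/-- orbits near `Ω` that stay `e`-close on a window are exponentially close in its middle -/
def RateNear {X : Type} [MetricSpace X] (f : X → X) (Ω : Set X) (e C κ : ℝ) : Prop :=
  ∀ (n : ℕ) (x y : X), (∀ j ≤ 2 * n, ∃ p ∈ Ω, dist (f^[j] x) p ≤ e) →
    (∀ j ≤ 2 * n, dist (f^[j] x) (f^[j] y) ≤ e) →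
    dist (f^[n] x) (f^[n] y) ≤ C * Real.exp (-κ * n)

/-- a full orbit -/
def Orb {X : Type} (f : X → X) (α : ℤ → X) : Prop := ∀ j, α (j + 1) = f (α j)

/-- mixed second differences of `φ` on a rectangle of four orbits -/
def Mix {X : Type} [MetricSpace X] (f : X → X) (φ : X → ℝ) (e C : ℝ) : Prop :=
  ∀ α β γ δ : ℤ → X, Orb f α → Orb f β → Orb f γ → Orb f δ → ∀ n₁ n₂ : ℤ, n₁ ≤ n₂ →
    ∀ (H K : ℤ → ℝ) (R : ℝ),
      (∀ j ≤ n₂, max (dist (γ j) (α j)) (dist (δ j) (β j)) ≤ min e (H j)) →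
      (∀ j ≥ n₁, max (dist (γ j) (β j)) (dist (δ j) (α j)) ≤ min e (K j)) →
      (∀ j > n₂, 1 ≤ H j) → (∀ j < n₁, 1 ≤ K j) →
      (∀ s : Finset ℤ, ∑ j ∈ s, H j * K j ≤ R) →
      ∀ s : Finset ℤ, ∑ j ∈ s, |φ (γ j) + φ (δ j) - φ (α j) - φ (β j)| ≤ C * R

/-- the Jacobian of an area-preserving map has modulus one -/
def DET_s : Prop := ∀ (f : T2 → T2) (F : E2 ≃ E2) (Eu Es : T2 → Submodule ℝ E2),
  IsAnosov f F Eu Es → MeasurePreserving f volume volume → ∀ x, |(fderiv ℝ F x).det| = 1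

/-- the unstable field is Lipschitz -/
def LIPU_s : Prop := ∀ (F G : E2 → E2) (U S : E2 → Submodule ℝ E2) (C lam M Γ : ℝ),
  HypD F G U S C lam M → 1 ≤ Γ → Angle U S Γ → ∃ C', 0 ≤ C' ∧ HolU U S C' 1

/-- the sharp rate near a set where the unstable Jacobian grows at the rate `χ` -/
def RATE_s : Prop := ∀ (f : T2 → T2) (F : E2 ≃ E2) (Eu Es : T2 → Submodule ℝ E2),
  IsAnosov f F Eu Es → (∀ x, |(fderiv ℝ F x).det| = 1) → ∀ K : ℝ, 0 ≤ K →
    Lip K (geomPot F Eu) → ∀ (Ω : Set T2) (χ B κ : ℝ),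
    (∀ p ∈ Ω, ∀ n : ℕ, ∑ j ∈ Finset.range n, geomPot F Eu (f^[j] p) ≤ B - χ * n) → κ < χ →
    ∃ e > (0 : ℝ), ∃ C : ℝ, RateNear f Ω e C κ

/-- mixed second differences of the geometric potential of a map of class `C³` -/
def MIX_s : Prop := ∀ (f : T2 → T2) (F : E2 ≃ E2) (Eu Es : T2 → Submodule ℝ E2),
  IsAnosov f F Eu Es → ContDiff ℝ 3 F → ∃ e > (0 : ℝ), ∃ C : ℝ, 0 ≤ C ∧ Mix f (geomPot F Eu) e C

end Pool.Agent.MP_80da8f_an

end

section

/-! Jacobian of an area-preserving map, Lipschitz unstable field, sharp expansivity rate. -/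

attribute [-instance] ProperSMul.toContinuousSMul TotallySeparatedSpace.t2Space
  NonarchimedeanAddGroup.toIsTopologicalAddGroup IdemSemiring.toCanonicallyOrderedAdd
  AddQuantale.instAddLeftMono RKHS.instFunLike IsAddCyclic.isAddCommutative NumberField.to_charZero
  covariant_swap_mul_of_covariant_mul NonUnitalNonAssocSemiring.toAddCommMonoid
  IsScalarTower.complexToReal littleWedderburn AddQuantale.instAddRightMono
  CoalgHomClass.toSemilinearMapClass CommRing.toRing DivisionRing.toRing NormedRing.toRing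
  IsTopologicalTorsor.toContinuousSMul NonUnitalRing.toNonUnitalNonAssocRing
  IsTopologicalSemiring.toContinuousAdd Quantale.instMulRightMono
  LinearOrderedCommMonoidWithZero.toPosMulStrictMono IsOrderedMonoid.toMulLeftMono
  Valued.toUniformSpace IsValuativeTopology.instIsTopologicalAddGroup
  Group.IsPerfect.subsingleton_of_isMulCommutative NonUnitalNonAssocSemiring.toMulZeroClass
  NonUnitalSeminormedRing.toPseudoMetricSpace RingHomClass.toLinearMapClassNNRat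
  SeminormedRing.toRing NormedAlgebra.toAlgebra AddCommGroupWithOne.toAddGroupWithOne
  SemilinearIsometryClass.toSemilinearMapClass Quantale.instMulLeftMono IdemSemiring.toSemiring
  LeftPreLieAlgebra.toIsScalarTower continuousSub_of_discreteTopology
  NonAssocSemiring.toNonUnitalNonAssocSemiring RightPreLieAlgebra.toIsScalarTower NeZero.of_gt'
  IdemSemiring.toMulLeftMono NormedCommRing.toCommRing AddCommMonoidWithOne.toAddCommMonoid
  MulZeroOneClass.toMulZeroClass NonUnitalSemiring.toNonUnitalNonAssocSemiring instCoeTOfCoeDep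
  CStarAlgebra.instOrderClosedTopology RingHomClass.toLinearMapClassRat
  LieAdmissibleRing.toNonUnitalNonAssocRing NonUnitalNonAssocCommSemiring.toNonUnitalNonAssocSemiring
  IdemSemiring.toSemilatticeSup instCoeTCOfCoe LieAdmissibleAlgebra.toIsScalarTower

open MeasureTheory Filter Topology

namespace Pool.Agent.MP_80da8f_an

section qxLip

theorem lipU : LIPU_s := by
  intro F G U S C lam M Γ h hΓ hA
  have hG := sIter _ _ _ _ _ _ _ h.symm
  have hC := h.Cpos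
  have hl := h.lpos
  have hM := h.M1
  obtain ⟨N, hN⟩ := exists_pow_lt_of_lt_one (x := 1 / (6 * Γ) / C) (by positivity) h.l1
  obtain ⟨th, hth⟩ : ∃ th, th = C * lam ^ N := ⟨_, rfl⟩
  obtain ⟨R, hR⟩ : ∃ R, R = (2 * M ^ 2) ^ N := ⟨_, rfl⟩
  have hR0 : 0 < R := by rw [hR]; positivity
  have ht0 : 0 < th := by rw [hth]; positivity
  have ht1 : 6 * Γ * th ≤ 1 := by
    rw [lt_div_iff₀ hC, lt_div_iff₀ (by positivity)] at hN
    rw [hth]; linarith only [hN]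
  have ht2 : th ≤ 1 / 2 := by nlinarith only [ht1, ht0, hΓ]
  have dec : ∀ y v : E2, ∃ u ∈ U y, ∃ s ∈ S y, u + s = v := fun y v => by
    obtain ⟨s, hs, u, hu, hv⟩ := Submodule.mem_sup.1
      ((h.compl y).sup_eq_top ▸ Submodule.mem_top : v ∈ S y ⊔ U y)
    exact ⟨u, hu, s, hs, by rw [add_comm, hv]⟩
  have key : ∀ (k : ℕ) (x y : E2), ∀ u ∈ U y, ∀ s ∈ S y, u + s ∈ U x →
      ‖s‖ ≤ (2 * Γ * R * ‖x - y‖ + Γ * (1 / 2) ^ k) * ‖u + s‖ := by
    intro k
    induction k with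
    | zero =>
      intro x y u hu s hs _
      refine (hA y u hu s hs).2.trans (mul_le_mul_of_nonneg_right ?_ (norm_nonneg _))
      have : 0 ≤ 2 * Γ * R * ‖x - y‖ := by positivity
      linarith only [this]
    | succ k ih =>
      intro x y u hu s hs hv
      obtain ⟨d, hd⟩ : ∃ d, d = ‖x - y‖ := ⟨_, rfl⟩
      have hd0 : 0 ≤ d := hd ▸ norm_nonneg _
      have hw := norm_nonneg (u + s)
      have hq : 0 ≤ Γ * (1 / 2 : ℝ) ^ k := by positivity
      rw [← hd]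
      rcases le_total 1 (R * d) with h1 | h1
      · refine (hA y u hu s hs).2.trans (mul_le_mul_of_nonneg_right ?_ hw)
        have : 0 ≤ Γ * (1 / 2 : ℝ) ^ (k + 1) := by positivity
        nlinarith only [this, h1, hΓ]
      obtain ⟨s0, hs0, hs1⟩ := tu_unit (h.rS y)
      obtain ⟨B, hB⟩ : ∃ B, B = fderiv ℝ (G^[N]) y := ⟨_, rfl⟩
      obtain ⟨σ, hσ⟩ : ∃ σ, σ = ‖B s0‖ := ⟨_, rfl⟩
      have hBs : ∀ t ∈ S y, ‖B t‖ = σ * ‖t‖ := fun t ht => by
        obtain ⟨c, rfl⟩ := tu_span (h.rS y) hs0 hs1 ht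
        rw [map_smul, norm_smul, norm_smul, hs1, hσ]; ring
      have hσ1 : 1 ≤ σ := by
        have := hG.expU N y s0 hs0
        rw [← hth, ← hB, ← hσ, hs1] at this
        nlinarith only [this, ht2, ht0]
      have hxy : ‖G^[N] x - G^[N] y‖ ≤ 3 * Γ * σ * d := by
        obtain ⟨a, ha, b, hb, hab⟩ := dec y (x - y)
        have e1 := hG.taylor N y x
        have e2 := hG.conS N y a ha
        have e3 := hBs b hb
        obtain ⟨e4, e5⟩ := hA y a ha b hb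
        rw [← hB, ← hR, ← hd] at e1
        rw [← hB, ← hth] at e2
        rw [hab, ← hd] at e4 e5
        have e6 : G^[N] x - G^[N] y = (G^[N] x - G^[N] y - B (x - y)) + B a + B b := by
          rw [← hab, map_add]; abel
        rw [e6]
        refine (norm_add₃_le).trans ?_
        have e7 : R * d ^ 2 ≤ d := by nlinarith only [h1, hd0]
        have e8 : th * ‖a‖ ≤ Γ * d := by nlinarith only [ht2, e4, norm_nonneg a]
        have e9 : σ * ‖b‖ ≤ σ * (Γ * d) := by gcongr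
        have e10 : Γ * d ≤ σ * (Γ * d) := le_mul_of_one_le_left (by positivity) hσ1
        have e11 : d ≤ Γ * d := le_mul_of_one_le_left hd0 hΓ
        linarith only [e1, e2, e3, e7, e8, e9, e10, e11]
      obtain ⟨u', hu', s', hs', hv'⟩ := dec (G^[N] y) (fderiv ℝ (G^[N]) x (u + s))
      have f1 := ih (G^[N] x) (G^[N] y) u' hu' s' hs' (hv' ▸ hG.memS N x _ hv)
      have f2 := hG.conS N x _ hv
      rw [← hth, ← hv'] at f2
      have f3 := (hA (G^[N] y) (u' - B u) ((U _).sub_mem hu' (hB ▸ hG.memS N y u hu)) (s' - B s)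
        ((S _).sub_mem hs' (hB ▸ hG.memU N y s hs))).2
      have f4 : u' - B u + (s' - B s) = (fderiv ℝ (G^[N]) x - B) (u + s) := by
        rw [sub_apply, ← hv', map_add]; abel
      have f5 : ‖(fderiv ℝ (G^[N]) x - B) (u + s)‖ ≤ R * d * ‖u + s‖ :=
        (ContinuousLinearMap.le_opNorm _ _).trans
          (mul_le_mul_of_nonneg_right (by rw [hB, hR, hd]; exact hG.lipD N x y) hw)
      have f6 : σ * ‖s‖ ≤ ‖s'‖ + ‖s' - B s‖ := by
        rw [← hBs s hs]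
        have := norm_sub_le s' (s' - B s)
        rwa [sub_sub_cancel] at this
      rw [f4] at f3
      have f7 : ‖s'‖ ≤ (2 * Γ * R * (3 * Γ * σ * d) + Γ * (1 / 2) ^ k) * (th * ‖u + s‖) := by
        refine f1.trans ?_
        gcongr
      have f8 : Γ * ‖(fderiv ℝ (G^[N]) x - B) (u + s)‖ ≤ Γ * (R * d * ‖u + s‖) := by gcongr
      refine le_of_mul_le_mul_left ?_ (zero_lt_one.trans_le hσ1)
      obtain ⟨w, hw'⟩ : ∃ w, w = ‖u + s‖ := ⟨_, rfl⟩
      rw [← hw'] at f7 f8 hw ⊢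
      obtain ⟨q, hq'⟩ : ∃ q, q = Γ * (1 / 2 : ℝ) ^ k := ⟨_, rfl⟩
      rw [pow_succ, ← mul_assoc Γ, ← hq']
      rw [← hq'] at f7 hq
      have g0 : 0 ≤ Γ * R * d * w := by positivity
      have g1 : 6 * Γ * th * (σ * (Γ * R * d * w)) ≤ 1 * (σ * (Γ * R * d * w)) := by gcongr
      have g2 : Γ * R * d * w ≤ σ * (Γ * R * d * w) := le_mul_of_one_le_left g0 hσ1
      have g3 : q * w * th ≤ q * w * (1 / 2) := by gcongr
      have g4 : q * w ≤ σ * (q * w) := le_mul_of_one_le_left (by positivity) hσ1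
      linarith only [f3, f6, f7, f8, g1, g2, g3, g4]
  refine ⟨2 * Γ * R, by positivity, fun x y _ u hu s hs hv => ?_⟩
  rw [Real.rpow_one]
  have lim : Tendsto (fun k : ℕ => (2 * Γ * R * ‖x - y‖ + Γ * (1 / 2) ^ k) * ‖u + s‖) atTop
      (𝓝 ((2 * Γ * R * ‖x - y‖ + Γ * 0) * ‖u + s‖)) :=
    (((tendsto_pow_atTop_nhds_zero_of_lt_one (by norm_num) (by norm_num)).const_mul Γ).const_add
      _).mul_const _
  rw [mul_zero, add_zero] at lim
  exact ge_of_tendsto' lim fun k => key k x y u hu s hs hv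

end qxLip

section qxDet

theorem qx_vol (c : E2) {A : Set E2} (hA : IsCompact A) (hc : A ⊆ Metric.ball c (1 / 2)) :
    volume (proj '' A) = volume A := by
  have hp : Continuous proj := continuous_pi fun i =>
    (AddCircle.continuous_mk' 1).comp (by fun_prop)
  have h1 := measurePreserving_pi _ (fun _ : Fin 2 => (volume : Measure UnitAddCircle))
    fun i => UnitAddCircle.measurePreserving_mk (c i - 1 / 2)
  rw [← Measure.restrict_pi_pi] at h1
  have hQ : MeasurableSet (Set.univ.pi fun i : Fin 2 => Set.Ioc (c i - 1 / 2) (c i - 1 / 2 + 1)) :=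
    MeasurableSet.univ_pi fun _ => measurableSet_Ioc
  have h2 := h1.comp ((PiLp.volume_preserving_ofLp (Fin 2)).restrict_preimage hQ)
  have hm := (hA.image hp).measurableSet
  have h3 := h2.measure_preimage hm.nullMeasurableSet
  rw [Measure.restrict_apply (h2.measurable hm)] at h3
  refine h3.symm.trans (congrArg _ ?_)
  have hin : ∀ a ∈ A, ∀ i, a i ∈ Set.Ioc (c i - 1 / 2) (c i - 1 / 2 + 1) := fun a ha i => by
    have h4 := (tn_coord (a - c) i).trans_lt (mem_ball_iff_norm.1 (hc ha))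
    rw [PiLp.sub_apply, abs_lt] at h4
    constructor <;> linarith [h4.1, h4.2]
  ext z
  refine ⟨?_, fun hz => ⟨⟨z, hz, rfl⟩, fun i _ => hin z hz i⟩⟩
  rintro ⟨⟨a, ha, e⟩, hz⟩
  have : a = z := by
    ext i
    exact (AddCircle.coe_eq_coe_iff_of_mem_Ioc (hin a ha i) (hz i trivial)).1 (congrFun e i)
  exact this ▸ ha

theorem det : DET_s := by
  intro f F Eu Es hA hv x
  have hs : ContDiff ℝ 2 F := hA.smooth
  have dF : Differentiable ℝ F := hs.differentiable (by norm_num)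
  have hg : Continuous fun z => |(fderiv ℝ F z).det| :=
    (ContinuousLinearMap.continuous_det.comp (hs.continuous_fderiv (by norm_num))).abs
  have hp : Continuous proj := continuous_pi fun i =>
    (AddCircle.continuous_mk' 1).comp (by fun_prop)
  have main : ∀ W ∈ 𝓝 x, ∃ B ⊆ W, MeasurableSet B ∧ volume B ≠ 0 ∧ volume B ≠ ⊤ ∧
      ∫⁻ z in B, ENNReal.ofReal |(fderiv ℝ F z).det| = volume B := by
    intro W hW
    obtain ⟨r, hr, hB⟩ := Metric.nhds_basis_closedBall.mem_iff.1 (inter_mem hW (inter_mem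
      (Metric.ball_mem_nhds x one_half_pos)
      (dF.continuous.continuousAt (Metric.ball_mem_nhds (F x) one_half_pos))))
    have hK := isCompact_closedBall x r
    have hK' := hK.image dF.continuous
    refine ⟨_, fun z hz => (hB hz).1, hK.measurableSet,
      (Metric.measure_closedBall_pos volume x hr).ne', hK.measure_lt_top.ne, ?_⟩
    rw [lintegral_abs_det_fderiv_eq_addHaar_image volume hK.measurableSet
      (fun z _ => (dF z).hasFDerivAt.hasFDerivWithinAt) F.injective.injOn,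
      ← qx_vol x hK fun z hz => (hB hz).2.1,
      ← qx_vol (F x) hK' (by rintro _ ⟨z, hz, rfl⟩; exact (hB hz).2.2),
      ← hv.measure_preimage (hK'.image hp).measurableSet.nullMeasurableSet]
    congr 1
    ext p
    constructor
    · rintro ⟨_, ⟨z, hz, rfl⟩, e⟩
      exact ⟨z, hz, hA.bij.1 (by rw [← hA.lift, e])⟩
    · rintro ⟨z, hz, rfl⟩
      exact ⟨_, ⟨z, hz, rfl⟩, hA.lift z⟩
  rcases lt_trichotomy |(fderiv ℝ F x).det| 1 with h | h | h
  · obtain ⟨c, h1, h2⟩ := exists_between h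
    obtain ⟨B, hB, hm, h0, ht, e⟩ := main _ (hg.continuousAt (Iio_mem_nhds h1))
    have h3 := setLIntegral_mono' (μ := volume) (g := fun _ => ENNReal.ofReal c) hm
      fun z hz => ENNReal.ofReal_le_ofReal (le_of_lt (hB hz))
    rw [e, setLIntegral_const] at h3
    exact absurd (h3.trans_lt (ENNReal.mul_lt_mul_left h0 ht (ENNReal.ofReal_lt_one.2 h2)))
      (by simp)
  · exact h
  · obtain ⟨c, h1, h2⟩ := exists_between h
    obtain ⟨B, hB, hm, h0, ht, e⟩ := main _ (hg.continuousAt (Ioi_mem_nhds h2))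
    have h3 := setLIntegral_mono' (μ := volume) (f := fun _ => ENNReal.ofReal c) hm
      fun z hz => ENNReal.ofReal_le_ofReal (le_of_lt (hB hz))
    rw [e, setLIntegral_const] at h3
    exact absurd ((ENNReal.mul_lt_mul_left h0 ht (ENNReal.one_lt_ofReal.2 h1)).trans_le h3)
      (by simp)

end qxDet

section qxRate

/-- the area form of the plane -/
def qxW (a b : E2) : ℝ := a 0 * b 1 - a 1 * b 0

theorem qx_wdet (A : E2 →L[ℝ] E2) (a b : E2) : qxW (A a) (A b) = A.det * qxW a b := by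
  have h := (EuclideanSpace.basisFun (Fin 2) ℝ).toBasis.det_comp A.toLinearMap ![a, b]
  simp only [Module.Basis.det_apply, Matrix.det_fin_two, Module.Basis.toMatrix_apply] at h
  simp at h
  unfold qxW ContinuousLinearMap.det
  linarith only [h]

theorem qx_sq (a : E2) : ‖a‖ ^ 2 = a 0 ^ 2 + a 1 ^ 2 := by
  rw [EuclideanSpace.real_norm_sq_eq, Fin.sum_univ_two]

theorem qx_wle (a b : E2) : |qxW a b| ≤ ‖a‖ * ‖b‖ := by
  refine abs_le_of_sq_le_sq ?_ (by positivity)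
  rw [mul_pow, qx_sq, qx_sq, qxW]
  nlinarith only [sq_nonneg (a 0 * b 0 + a 1 * b 1)]

theorem qx_wge {U S : E2 → Submodule ℝ E2} {Γ : ℝ} (hA : Angle U S Γ) {x a b : E2} (ha : a ∈ U x)
    (hb : b ∈ S x) (h0 : 0 < ‖a‖) : ‖a‖ * ‖b‖ ≤ Γ * |qxW a b| := by
  have h := (hA x _ ((U x).smul_mem (-(a 0 * b 0 + a 1 * b 1)) ha) _
    ((S x).smul_mem (‖a‖ ^ 2) hb)).2
  have e : ‖(-(a 0 * b 0 + a 1 * b 1)) • a + ‖a‖ ^ 2 • b‖ = ‖a‖ * |qxW a b| := by
    refine (pow_left_inj₀ (norm_nonneg _) (by positivity) two_ne_zero).1 ?_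
    rw [mul_pow, sq_abs, qx_sq, qx_sq, qxW]
    simp only [PiLp.add_apply, PiLp.smul_apply, smul_eq_mul]
    ring
  rw [e, norm_smul, Real.norm_of_nonneg (by positivity)] at h
  refine le_of_mul_le_mul_left ?_ h0
  linarith only [h]

theorem qx_chain {F : E2 → E2} (dF : Differentiable ℝ F) (n : ℕ) (x v : E2) :
    fderiv ℝ (F^[n + 1]) x v = fderiv ℝ F (F^[n] x) (fderiv ℝ (F^[n]) x v) := by
  rw [Function.iterate_succ', fderiv_comp x (dF _) (dF.iterate n x)]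
  rfl

/-- local expansivity at one point, with the rate at that point -/
theorem qx_loc {F G : E2 → E2} {U S : E2 → Submodule ℝ E2} {C lam M : ℝ}
    (h : HypD F G U S C lam M) {N : ℕ} {th : ℝ} (h0 : C * lam ^ N ≤ 1 / 2) (ht0 : 0 ≤ th)
    (ht1 : th ≤ 1 / 2) {x y : E2} (hu : ∀ u ∈ U x, ‖u‖ ≤ th * ‖fderiv ℝ (F^[N]) x u‖)
    (hs : ∀ s ∈ S x, ‖s‖ ≤ th * ‖fderiv ℝ (G^[N]) x s‖) (hxy : 8 * (2 * M ^ 2) ^ N * ‖y - x‖ ≤ 1) :
    ‖y - x‖ ≤ 4 * th * max ‖G^[N] x - G^[N] y‖ ‖F^[N] x - F^[N] y‖ := by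
  have hF := sIter _ _ _ _ _ _ _ h
  have hG := sIter _ _ _ _ _ _ _ h.symm
  obtain ⟨s, hs', u, hu', hv⟩ := Submodule.mem_sup.1
    ((h.compl x).sup_eq_top ▸ Submodule.mem_top : y - x ∈ S x ⊔ U x)
  set m := max ‖G^[N] x - G^[N] y‖ ‖F^[N] x - F^[N] y‖ with hm
  have hm0 : 0 ≤ m := (norm_nonneg _).trans (le_max_left _ _)
  set w := ‖y - x‖ with hw
  have hw0 : 0 ≤ w := norm_nonneg _
  have hT : (2 * M ^ 2) ^ N * w ^ 2 ≤ w / 8 := by
    linarith only [mul_le_mul_of_nonneg_left hxy hw0]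
  have key : ∀ H : E2 → E2, ‖H y - H x - fderiv ℝ H x (y - x)‖ ≤ (2 * M ^ 2) ^ N * w ^ 2 →
      ‖H x - H y‖ ≤ m → ∀ a b : E2, a + b = y - x → ‖fderiv ℝ H x b‖ ≤ C * lam ^ N * ‖b‖ →
      ‖fderiv ℝ H x a‖ ≤ m + w / 8 + 1 / 2 * ‖b‖ := by
    intro H h1 h2 a b hab h3
    have : fderiv ℝ H x a =
        -(H x - H y) - (H y - H x - fderiv ℝ H x (y - x)) - fderiv ℝ H x b := by
      rw [← hab, map_add]; abel
    rw [this]
    refine (norm_sub_le _ _).trans (add_le_add ((norm_sub_le _ _).trans ?_)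
      (h3.trans (mul_le_mul_of_nonneg_right h0 (norm_nonneg _))))
    rw [norm_neg]
    linarith only [hT, h1, h2]
  have hu1 := (hu u hu').trans (mul_le_mul_of_nonneg_left (key _ (hF.taylor N x y)
    (le_max_right _ _) u s (by rw [add_comm, hv]) (hF.conS N x s hs')) ht0)
  have hs1 := (hs s hs').trans (mul_le_mul_of_nonneg_left (key _ (hG.taylor N x y)
    (le_max_left _ _) s u hv (hG.conS N x u hu')) ht0)
  have hws : w ≤ ‖s‖ + ‖u‖ := by
    rw [hw, ← hv]; exact norm_add_le _ _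
  have b1 : th * (‖s‖ + ‖u‖) ≤ 1 / 2 * (‖s‖ + ‖u‖) := by gcongr
  have b2 : th * w ≤ 1 / 2 * w := by gcongr
  have b4 : 0 ≤ th * m := by positivity
  linarith only [hw0, hu1, hs1, hws, b1, b2, b4]

theorem rate : RATE_s := by
  intro f F Eu Es hA hdet K hK hL Ω χ B κ hΩ hκ
  have T : TorF := sTor
  rcases le_or_gt κ 0 with hk | hk
  · refine ⟨1, one_pos, 1, fun n x y _ _ => (T.diam _ _).trans ?_⟩
    have := Real.one_le_exp (mul_nonneg (neg_nonneg.2 hk) (Nat.cast_nonneg n))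
    linarith only [this]
  obtain ⟨⟨C, lam, M, h⟩, hper⟩ := sHypD T f F Eu Es hA
  have hF := sIter _ _ _ _ _ _ _ h
  have hG := sIter _ _ _ _ _ _ _ h.symm
  obtain ⟨Γ, hΓ, hang⟩ := sAngle _ _ _ _ _ _ _ h hF
  have hM := h.M1
  have hC := h.Cpos
  have hf := tv_lip T hM hA.lift hF.lip
  have hJ : ∀ (n : ℕ) (X : E2), ∀ u ∈ Eu (proj X), ‖u‖ =
      Real.exp (∑ j ∈ Finset.range n, geomPot F Eu (f^[j] (proj X))) * ‖fderiv ℝ (F^[n]) X u‖ := by
    intro n X u hu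
    induction n with
    | zero => simp
    | succ n ih =>
      obtain ⟨u0, hu0, hu1⟩ := tu_unit (h.rU (F^[n] X))
      obtain ⟨c, hc⟩ := tu_span (h.rU _) hu0 hu1 (hF.memU n X u hu)
      have hp : 0 < ‖fderiv ℝ F (F^[n] X) u0‖ := by
        have := tu_lower h (F^[n] X) u0
        rw [hu1] at this
        by_contra hn
        nlinarith only [this, hn, hM]
      rw [Finset.sum_range_succ, Real.exp_add, qx_chain h.dF, ih, hc, map_smul, norm_smul,
        norm_smul, hu1, ← tv_proj_iter hA.lift n X, geomPot, normOn, tu_norm (h.rU _) hu0 hu1,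
        hper _ _ (T.sec _), Real.exp_neg, Real.exp_log hp]
      field_simp
  have hW : ∀ (n : ℕ) (X a b : E2),
      |qxW (fderiv ℝ (F^[n]) X a) (fderiv ℝ (F^[n]) X b)| = |qxW a b| := by
    intro n X a b
    induction n with
    | zero => simp
    | succ n ih => rw [qx_chain h.dF, qx_chain h.dF, qx_wdet, abs_mul, hdet, one_mul, ih]
  obtain ⟨N, hN0, hN1, hN2⟩ : ∃ N : ℕ, 1 ≤ N ∧ C * lam ^ N ≤ 1 / 2 ∧
      8 * Γ * Real.exp (B + 1) * Real.exp (κ - χ) ^ N ≤ 1 := by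
    have l1 := (tendsto_pow_atTop_nhds_zero_of_lt_one h.lpos.le h.l1).const_mul C
    have l2 := (tendsto_pow_atTop_nhds_zero_of_lt_one (Real.exp_pos (κ - χ)).le
      (Real.exp_lt_one_iff.2 (sub_neg.2 hκ))).const_mul (8 * Γ * Real.exp (B + 1))
    rw [mul_zero] at l1 l2
    exact ((eventually_ge_atTop 1).and ((l1.eventually (ge_mem_nhds one_half_pos)).and
      (l2.eventually (ge_mem_nhds one_pos)))).exists
  obtain ⟨ρ, hρ⟩ : ∃ ρ, ρ = Real.exp (-κ * N) := ⟨_, rfl⟩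
  obtain ⟨J, hJ'⟩ : ∃ J, J = Real.exp (B - χ * N + 1) := ⟨_, rfl⟩
  have hρ0 : 0 < ρ := hρ ▸ Real.exp_pos _
  have hJ0 : 0 < J := hJ' ▸ Real.exp_pos _
  have hρ1 : ρ ≤ 1 := by
    rw [hρ, Real.exp_le_one_iff]
    exact mul_nonpos_of_nonpos_of_nonneg (neg_nonpos.2 hk.le) (Nat.cast_nonneg N)
  have hth : 8 * (Γ * J) ≤ ρ := by
    have e : J = Real.exp (B + 1) * Real.exp (κ - χ) ^ N * ρ := by
      rw [hJ', hρ, ← Real.exp_nat_mul, ← Real.exp_add, ← Real.exp_add]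
      congr 1
      ring
    rw [e]
    nlinarith only [hN2, hρ0]
  obtain ⟨e, he, he1, he2, he3⟩ : ∃ e > (0 : ℝ), N * (K * ((2 * M) ^ N * e)) ≤ 1 ∧
      8 * (2 * M ^ 2) ^ N * (2 * e) ≤ 1 ∧ M ^ N * (2 * e) ≤ 1 / 2 := by
    have c : ∀ (g : ℝ → ℝ) (t : ℝ), Continuous g → g 0 < t → ∀ᶠ e in 𝓝[>] (0 : ℝ), g e ≤ t :=
      fun g t hg h0 => nhdsWithin_le_nhds (hg.continuousAt.eventually (ge_mem_nhds h0))
    obtain ⟨e, h0, h1⟩ := (eventually_mem_nhdsWithin.and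
      ((c (fun e => N * (K * ((2 * M) ^ N * e))) 1 (by fun_prop) (by simp)).and
      ((c (fun e => 8 * (2 * M ^ 2) ^ N * (2 * e)) 1 (by fun_prop) (by simp)).and
      (c (fun e => M ^ N * (2 * e)) (1 / 2) (by fun_prop) (by simp))))).exists
    exact ⟨e, h0, h1⟩
  have near : ∀ X : E2, (∃ p ∈ Ω, dist (proj X) p ≤ e) → ∀ u ∈ Eu (proj X),
      ‖u‖ ≤ J * ‖fderiv ℝ (F^[N]) X u‖ := by
    rintro X ⟨p, hp, hd⟩ u hu
    refine (hJ N X u hu).trans_le (mul_le_mul_of_nonneg_right ?_ (norm_nonneg _))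
    rw [hJ', Real.exp_le_exp]
    have h1 : ∀ j ∈ Finset.range N, geomPot F Eu (f^[j] (proj X)) ≤
        geomPot F Eu (f^[j] p) + K * ((2 * M) ^ N * e) := fun j hj => by
      have a1 := (abs_le.1 (hL (f^[j] (proj X)) (f^[j] p))).2
      have a2 := tv_iter_lip (by positivity) hf j (proj X) p
      have a3 : (2 * M) ^ j * dist (proj X) p ≤ (2 * M) ^ N * e := by
        have := (Finset.mem_range.1 hj).le
        gcongr
        linarith only [hM]
      linarith only [a1, mul_le_mul_of_nonneg_left (a2.trans a3) hK]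
    have h2 := Finset.sum_le_sum h1
    rw [Finset.sum_add_distrib, Finset.sum_const, Finset.card_range, nsmul_eq_mul] at h2
    linarith only [h2, hΩ p hp N, he1]
  have step : ∀ p q : T2, (∃ z ∈ Ω, dist p z ≤ e) → (∃ z ∈ Ω, dist (f^[N] p) z ≤ e) →
      dist (f^[N] p) (f^[N] q) ≤ e →
      dist (f^[N] p) (f^[N] q) ≤ ρ * max (dist p q) (dist (f^[2 * N] p) (f^[2 * N] q)) := by
    intro p q n1 n2 hpq
    have hli : Function.LeftInverse F F.symm := h.FG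
    have hback : ∀ (X : E2) (r : T2), proj X = f^[N] r → proj (F.symm^[N] X) = r := fun X r hX =>
      hA.bij.1.iterate N (by rw [← tv_proj_iter hA.lift, hli.iterate N X, hX])
    have hfwd : ∀ (X : E2) (r : T2), proj X = f^[N] r → proj (F^[N] X) = f^[2 * N] r :=
      fun X r hX => by rw [tv_proj_iter hA.lift, hX, two_mul, Function.iterate_add_apply]
    obtain ⟨X, hX⟩ : ∃ X, proj X = f^[N] p := ⟨_, T.sec _⟩
    obtain ⟨Y, hY, hXY⟩ := T.lift X (f^[N] q)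
    rw [hX] at hXY
    have a1 : ‖X - Y‖ ≤ 2 * e := by linarith only [hXY, hpq]
    have a3 : M ^ N * ‖X - Y‖ ≤ 1 / 2 := le_trans (by gcongr) he3
    have c1 := T.loc _ _ ((hG.lip N X Y).trans a3)
    have c2 := T.loc _ _ ((hF.lip N X Y).trans a3)
    rw [hback X p hX, hback Y q hY] at c1
    rw [hfwd X p hX, hfwd Y q hY] at c2
    have c3 := qx_loc h hN1 (th := Γ * J) (x := X) (y := Y) (by positivity)
      (by linarith only [hth, hρ1]) (fun u hu => (near X (hX ▸ n2) u hu).trans (by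
        have : J ≤ Γ * J := le_mul_of_one_le_left hJ0.le hΓ
        gcongr)) (fun s hs => by
      obtain ⟨u, hu, hu1⟩ := tu_unit (h.rU (F.symm^[N] X))
      have d1 := near _ ((hback X p hX).symm ▸ n1) u hu
      have d2 := hF.memU N _ u hu
      have d3 : fderiv ℝ (F^[N]) (F.symm^[N] X) (fderiv ℝ (F.symm^[N]) X s) = s := by
        have h2 := fderiv_comp X (hF.diff N (F.symm^[N] X)) (hG.diff N X)
        rw [(hli.iterate N).comp_eq_id, fderiv_id] at h2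
        rw [← ContinuousLinearMap.comp_apply, ← h2]
        rfl
      rw [hli.iterate N X] at d2
      rw [hu1] at d1
      have d4 := qx_wge hang d2 hs (by
        by_contra hn
        nlinarith only [d1, hn, hJ0])
      have d5 := hW N (F.symm^[N] X) u (fderiv ℝ (F.symm^[N]) X s)
      have d6 := qx_wle u (fderiv ℝ (F.symm^[N]) X s)
      rw [d3] at d5
      rw [hu1, one_mul, ← d5] at d6
      have d7 := mul_le_mul_of_nonneg_left (d4.trans (mul_le_mul_of_nonneg_left d6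
        (zero_le_one.trans hΓ))) hJ0.le
      linarith only [d7, mul_le_mul_of_nonneg_right d1 (norm_nonneg s)])
      (le_trans (by rw [norm_sub_rev]; gcongr) he2)
    have c4 := T.le X Y
    rw [hX, hY, norm_sub_rev] at c4
    obtain ⟨m, hm⟩ : ∃ m, m = max (dist p q) (dist (f^[2 * N] p) (f^[2 * N] q)) := ⟨_, rfl⟩
    have c5 : max ‖F.symm^[N] X - F.symm^[N] Y‖ ‖F^[N] X - F^[N] Y‖ ≤ 2 * m := by
      have d1 := le_max_left (dist p q) (dist (f^[2 * N] p) (f^[2 * N] q))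
      have d2 := le_max_right (dist p q) (dist (f^[2 * N] p) (f^[2 * N] q))
      exact max_le (by linarith only [c1, d1, hm]) (by linarith only [c2, d2, hm])
    have hm0 : 0 ≤ m := hm ▸ le_max_of_le_left dist_nonneg
    have c6 := mul_le_mul_of_nonneg_left c5 (by positivity : 0 ≤ 4 * (Γ * J))
    rw [← hm]
    linarith only [c3, c4, c6, mul_le_mul_of_nonneg_right hth hm0]
  have iter : ∀ (k : ℕ) (x y : T2), (∀ j ≤ 2 * (k * N), ∃ p ∈ Ω, dist (f^[j] x) p ≤ e) →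
      (∀ j ≤ 2 * (k * N), dist (f^[j] x) (f^[j] y) ≤ e) →
      dist (f^[k * N] x) (f^[k * N] y) ≤ ρ ^ k * e := by
    intro k
    induction k with
    | zero => intro x y _ h; simpa using h 0 (by simp)
    | succ k ih =>
      intro x y g h
      have e1 : ∀ z, f^[N] (f^[k * N] z) = f^[(k + 1) * N] z := fun z => by
        rw [← Function.iterate_add_apply]; congr 1; ring
      have e2 : ∀ z, f^[2 * N] (f^[k * N] z) = f^[k * N] (f^[2 * N] z) := fun z => by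
        rw [← Function.iterate_add_apply, ← Function.iterate_add_apply, add_comm]
      have h1 := step (f^[k * N] x) (f^[k * N] y) (g _ (by rw [add_mul]; omega))
        (by rw [e1]; exact g _ (by omega)) (by rw [e1, e1]; exact h _ (by omega))
      rw [e1, e1, e2, e2] at h1
      have h2 := ih x y (fun j hj => g j (by rw [add_mul]; omega))
        fun j hj => h j (by rw [add_mul]; omega)
      have h3 := ih (f^[2 * N] x) (f^[2 * N] y) (fun j hj => by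
        rw [← Function.iterate_add_apply]
        exact g _ (by rw [add_mul]; omega)) fun j hj => by
        rw [← Function.iterate_add_apply, ← Function.iterate_add_apply]
        exact h _ (by rw [add_mul]; omega)
      rw [pow_succ', mul_assoc]
      exact h1.trans (mul_le_mul_of_nonneg_left (max_le h2 h3) hρ0.le)
  refine ⟨e, he, Real.exp (κ * N) * e, fun n x y g h => ?_⟩
  have e1 := Nat.div_add_mod' n N
  have e2 := Nat.mod_lt n hN0
  have h1 := iter (n / N) (f^[n % N] x) (f^[n % N] y) (fun j hj => by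
    rw [← Function.iterate_add_apply]
    exact g _ (by omega)) fun j hj => by
    rw [← Function.iterate_add_apply, ← Function.iterate_add_apply]
    exact h _ (by omega)
  rw [← Function.iterate_add_apply, ← Function.iterate_add_apply, e1] at h1
  refine h1.trans ?_
  rw [mul_right_comm, ← Real.exp_add, hρ, ← Real.exp_nat_mul]
  gcongr
  have e3 : ((n / N : ℕ) : ℝ) * N + (n % N : ℕ) = n := by exact_mod_cast e1
  have e4 : ((n % N : ℕ) : ℝ) ≤ N := by exact_mod_cast e2.le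
  rw [← e3]
  nlinarith only [e4, hk]

end qxRate

end Pool.Agent.MP_80da8f_an

end

section

/-! Mixed second differences of the geometric potential. -/

open MeasureTheory Filter Topology

namespace Pool.Agent.MP_80da8f_an
namespace Mx

/-- mixed difference on a rectangle -/
def D2 {V : Type} [AddCommGroup V] (a b c d : V) : V := c + d - a - b

/-- all finite sums are at most `R` -/
def Sm (ρ : ℤ → ℝ) (R : ℝ) : Prop := ∀ s : Finset ℤ, ∑ j ∈ s, ρ j ≤ R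

theorem Sm.add {ρ ρ' : ℤ → ℝ} {R R' : ℝ} (h : Sm ρ R) (h' : Sm ρ' R') :
    Sm (fun j => ρ j + ρ' j) (R + R') := fun s => by
  rw [Finset.sum_add_distrib]; exact add_le_add (h s) (h' s)

theorem Sm.mul {ρ : ℤ → ℝ} {R c : ℝ} (h : Sm ρ R) (hc : 0 ≤ c) :
    Sm (fun j => c * ρ j) (c * R) := fun s => by
  rw [← Finset.mul_sum]; exact mul_le_mul_of_nonneg_left (h s) hc

theorem Sm.shift {ρ : ℤ → ℝ} {R : ℝ} (h : Sm ρ R) (a : ℤ) : Sm (fun j => ρ (j + a)) R := fun s => by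
  simpa using h (s.map (addRightEmbedding a))

theorem Sm.mono {ρ ρ' : ℤ → ℝ} {R : ℝ} (h : Sm ρ R) (h' : ∀ j, ρ' j ≤ ρ j) : Sm ρ' R :=
  fun s => (Finset.sum_le_sum fun j _ => h' j).trans (h s)

theorem sm_rec {d ρ : ℤ → ℝ} {R : ℝ} (I : Finset ℤ) (a b : ℤ) (d0 : ∀ j, 0 ≤ d j) (h : Sm ρ R)
    (h1 : ∀ j, j ∉ I → d j ≤ ρ j) (h2 : ∀ j ∈ I, d j ≤ (d (j + a) + d (j + b)) / 4 + ρ j) :
    Sm d (4 * R) := by
  have k : Sm d (∑ j ∈ I, d j + R) := fun s => by
    rw [← Finset.sum_inter_add_sum_sdiff s I]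
    exact add_le_add (Finset.sum_le_sum_of_subset_of_nonneg Finset.inter_subset_right
      fun j _ _ => d0 j) ((Finset.sum_le_sum fun j hj => h1 j (Finset.mem_sdiff.1 hj).2).trans (h _))
  have e := Finset.sum_le_sum h2
  rw [Finset.sum_add_distrib, ← Finset.sum_div, Finset.sum_add_distrib] at e
  exact fun s => by linarith only [k s, e, k.shift a I, k.shift b I, h I]

theorem rect {W : Type} [NormedAddCommGroup W] [NormedSpace ℝ W] {T : E2 → W} {L ρ : ℝ}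
    (dT : Differentiable ℝ T) (L0 : 0 ≤ L)
    (hL : ∀ x y, ‖fderiv ℝ T x - fderiv ℝ T y‖ ≤ L * ‖x - y‖) {a b c d : E2}
    (h1 : ‖c - a‖ + ‖d - a‖ ≤ ρ) (h2 : ‖b - a‖ ≤ ρ) :
    ‖D2 (T a) (T b) (T c) (T d) - fderiv ℝ T a (D2 a b c d)‖ ≤
      L * (‖c - a‖ * ‖d - a‖) + L * ρ * ‖D2 a b c d‖ := by
  have m1 := convex_univ.norm_image_sub_le_of_norm_hasFDerivWithin_le
    (f := fun x => T (x + (d - a)) - T x) (f' := fun x => fderiv ℝ T (x + (d - a)) - fderiv ℝ T x)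
    (C := L * ‖d - a‖) (x := a) (y := c)
    (fun x _ => (((hasFDerivAt_comp_add_right (d - a)).2 (dT _).hasFDerivAt).sub
      (dT x).hasFDerivAt).hasFDerivWithinAt)
    (fun x _ => by simpa using hL (x + (d - a)) x) trivial trivial
  have m2 := (convex_closedBall a ρ).norm_image_sub_le_of_norm_fderiv_le' (f := T)
    (φ := fderiv ℝ T a) (C := L * ρ) (x := b) (y := c + (d - a)) (fun x _ => dT x)
    (fun x hx => (hL x a).trans (mul_le_mul_of_nonneg_left (mem_closedBall_iff_norm.1 hx) L0))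
    (mem_closedBall_iff_norm.2 h2) (mem_closedBall_iff_norm.2 (by
      rw [show c + (d - a) - a = (c - a) + (d - a) by abel]; exact (norm_add_le _ _).trans h1))
  rw [show c + (d - a) - b = D2 a b c d by unfold D2; abel] at m2
  rw [add_sub_cancel] at m1
  refine le_trans (le_of_eq ?_) ((norm_sub_le _ _).trans (add_le_add m2 m1) |>.trans_eq (by ring))
  congr 1
  unfold D2; abel

theorem app1 {Aa Ac : E2 →L[ℝ] E2} {va vc : E2} {L x : ℝ} (L2 : 2 ≤ L) (x0 : 0 ≤ x)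
    (h1 : ‖Ac - Aa‖ ≤ L * x) (h2 : ‖vc‖ ≤ 2) (h3 : ‖Aa‖ ≤ L) (h4 : ‖vc - va‖ ≤ L * x) :
    ‖Ac vc - Aa va‖ ≤ 2 * L ^ 2 * x := by
  rw [show Ac vc - Aa va = (Ac - Aa) vc + Aa (vc - va) by simp]
  have a := (Ac - Aa).le_of_opNorm_le_of_le h1 h2
  have b := Aa.le_of_opNorm_le_of_le h3 h4
  refine (norm_add_le _ _).trans ?_
  nlinarith only [a, b, mul_nonneg (mul_nonneg (show 0 ≤ L by linarith) x0) (sub_nonneg.2 L2)]

theorem app2 {Aa Ab Ac Ad : E2 →L[ℝ] E2} {va vb vc vd : E2} {L x y : ℝ}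
    (h1 : ‖Ac - Aa‖ ≤ L * x) (h2 : ‖Ad - Aa‖ ≤ L * y) (h3 : ‖vc - va‖ ≤ L * x)
    (h4 : ‖vd - va‖ ≤ L * y) (h5 : ‖vb‖ ≤ 2) :
    ‖D2 (Aa va) (Ab vb) (Ac vc) (Ad vd)‖ ≤ 2 * ‖D2 Aa Ab Ac Ad‖ + ‖Aa (D2 va vb vc vd)‖ +
      L * (x + y) * ‖D2 va vb vc vd‖ + 2 * L ^ 2 * (x * y) := by
  rw [show D2 (Aa va) (Ab vb) (Ac vc) (Ad vd) = D2 Aa Ab Ac Ad vb + Aa (D2 va vb vc vd) +
    ((Ac - Aa) (D2 va vb vc vd) + (Ad - Aa) (D2 va vb vc vd)) -
    ((Ac - Aa) (vd - va) + (Ad - Aa) (vc - va)) by simp [D2]; abel]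
  have a := (D2 Aa Ab Ac Ad).le_of_opNorm_le_of_le le_rfl h5
  have b := (Ac - Aa).le_of_opNorm_le_of_le h1 (le_refl ‖D2 va vb vc vd‖)
  have c := (Ad - Aa).le_of_opNorm_le_of_le h2 (le_refl ‖D2 va vb vc vd‖)
  have d := (Ac - Aa).le_of_opNorm_le_of_le h1 h4
  have e := (Ad - Aa).le_of_opNorm_le_of_le h2 h3
  refine (norm_sub_le _ _).trans (le_trans (add_le_add (norm_add_le_of_le (norm_add_le _ _)
    (norm_add_le _ _)) (norm_add_le _ _)) ?_)
  linarith only [a, b, c, d, e]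

theorem logn {ya yb yc yd : E2} {B x y : ℝ} (B1 : 1 ≤ B) (x0 : 0 ≤ x)
    (ua : ‖ya‖ ≤ B) (ub : ‖yb‖ ≤ B) (uc : ‖yc‖ ≤ B) (ud : ‖yd‖ ≤ B)
    (la : 1 ≤ B * ‖ya‖) (lb : 1 ≤ B * ‖yb‖) (lc : 1 ≤ B * ‖yc‖) (ld : 1 ≤ B * ‖yd‖)
    (h1 : ‖yc - ya‖ ≤ B * x) (h2 : ‖yd - ya‖ ≤ B * y) :
    |D2 (Real.log ‖ya‖) (Real.log ‖yb‖) (Real.log ‖yc‖) (Real.log ‖yd‖)| ≤
      3 * B ^ 8 * (‖D2 ya yb yc yd‖ + x * y) := by
  have B0 : 0 < B := by linarith
  have ne {z : E2} (h : 1 ≤ B * ‖z‖) : ‖z‖ ≠ 0 := fun e => by rw [e] at h; linarith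
  have sq {z w : E2} (h : 1 ≤ B * ‖z‖) (h' : 1 ≤ B * ‖w‖) : 1 ≤ B ^ 4 * (‖z‖ ^ 2 * ‖w‖ ^ 2) := by
    rw [show B ^ 4 * (‖z‖ ^ 2 * ‖w‖ ^ 2) = (B * ‖z‖ * (B * ‖w‖)) ^ 2 by ring]
    exact one_le_pow₀ (one_le_mul_of_one_le_of_one_le h h')
  have sd {z : E2} {t : ℝ} (u : ‖z‖ ≤ B) (h : ‖z - ya‖ ≤ B * t) :
      |‖z‖ ^ 2 - ‖ya‖ ^ 2| ≤ 2 * B * (B * t) := by
    rw [sq_sub_sq, abs_mul, abs_of_nonneg (by positivity)]
    exact mul_le_mul (by linarith) ((abs_norm_sub_norm_le _ _).trans h) (abs_nonneg _) (by linarith)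
  have k := tu_log (by positivity) (sq lc ld) (sq la lb)
  have e : D2 (‖ya‖ ^ 2) (‖yb‖ ^ 2) (‖yc‖ ^ 2) (‖yd‖ ^ 2) = inner ℝ (D2 ya yb yc yd) yb +
      inner ℝ (yc + yd - ya) (D2 ya yb yc yd) - 2 * inner ℝ (yc - ya) (yd - ya) := by
    simp only [D2, ← real_inner_self_eq_norm_sq, inner_add_left, inner_add_right, inner_sub_left,
      inner_sub_right, real_inner_comm ya, real_inner_comm yb yc, real_inner_comm yb yd,
      real_inner_comm yc yd]
    ring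
  set t := ‖D2 ya yb yc yd‖ with ht
  have t0 : 0 ≤ t := norm_nonneg _
  have e1 : |D2 (‖ya‖ ^ 2) (‖yb‖ ^ 2) (‖yc‖ ^ 2) (‖yd‖ ^ 2)| ≤
      t * B + 3 * B * t + 2 * (B * x * (B * y)) := by
    rw [e]
    refine (abs_sub _ _).trans (add_le_add ((abs_add_le _ _).trans (add_le_add ?_ ?_)) ?_)
    · exact (abs_real_inner_le_norm _ _).trans (mul_le_mul_of_nonneg_left ub t0)
    · refine (abs_real_inner_le_norm _ _).trans (mul_le_mul_of_nonneg_right ?_ t0)
      linarith only [norm_sub_le (yc + yd) ya, norm_add_le yc yd, ua, uc, ud]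
    · rw [abs_mul, abs_two]
      exact mul_le_mul_of_nonneg_left ((abs_real_inner_le_norm _ _).trans
        (mul_le_mul h1 h2 (norm_nonneg _) (by positivity))) zero_le_two
  have e2 : |‖yc‖ ^ 2 * ‖yd‖ ^ 2 - ‖ya‖ ^ 2 * ‖yb‖ ^ 2| ≤
      B ^ 2 * (t * B + 3 * B * t + 2 * (B * x * (B * y))) + 2 * B * (B * x) * (2 * B * (B * y)) := by
    rw [show ‖yc‖ ^ 2 * ‖yd‖ ^ 2 - ‖ya‖ ^ 2 * ‖yb‖ ^ 2 =
      ‖ya‖ ^ 2 * D2 (‖ya‖ ^ 2) (‖yb‖ ^ 2) (‖yc‖ ^ 2) (‖yd‖ ^ 2) +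
        (‖yc‖ ^ 2 - ‖ya‖ ^ 2) * (‖yd‖ ^ 2 - ‖ya‖ ^ 2) by unfold D2; ring]
    refine (abs_add_le _ _).trans (add_le_add ?_ ?_) <;> rw [abs_mul]
    · rw [abs_of_nonneg (sq_nonneg _)]; gcongr
    · exact mul_le_mul (sd uc h1) (sd ud h2) (abs_nonneg _) (by positivity)
  rw [Real.log_mul (pow_ne_zero 2 (ne lc)) (pow_ne_zero 2 (ne ld)),
    Real.log_mul (pow_ne_zero 2 (ne la)) (pow_ne_zero 2 (ne lb))] at k
  simp only [Real.log_pow, Nat.cast_ofNat] at k
  rw [show 2 * Real.log ‖yc‖ + 2 * Real.log ‖yd‖ - (2 * Real.log ‖ya‖ + 2 * Real.log ‖yb‖) =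
    2 * D2 (Real.log ‖ya‖) (Real.log ‖yb‖) (Real.log ‖yc‖) (Real.log ‖yd‖) by unfold D2; ring,
    abs_mul, abs_two] at k
  have e3 := mul_le_mul_of_nonneg_left e2 (show 0 ≤ B ^ 4 by positivity)
  have e4 : B ^ 7 * t ≤ B ^ 8 * t :=
    mul_le_mul_of_nonneg_right (pow_le_pow_right₀ B1 (by norm_num)) t0
  linarith only [k, e3, e4, show 0 ≤ B ^ 8 * t by positivity]

/-- unit vectors of `U` and the coordinate functionals of the splitting -/
structure Fr (U S : E2 → Submodule ℝ E2) (Γ : ℝ) (e : E2 → E2) (l : E2 → E2 →ₗ[ℝ] ℝ) : Prop where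
  rk : ∀ p, Module.finrank ℝ (U p) = 1
  mem : ∀ p, e p ∈ U p
  nrm : ∀ p, ‖e p‖ = 1
  one : ∀ p, l p (e p) = 1
  sub : ∀ p v, v - l p v • e p ∈ S p
  bd : ∀ p v, |l p v| ≤ Γ * ‖v‖

theorem exFr {U S : E2 → Submodule ℝ E2} {Γ : ℝ} (rk : ∀ p, Module.finrank ℝ (U p) = 1)
    (co : ∀ p, IsCompl (S p) (U p)) (an : Angle U S Γ) : ∃ e l, Fr U S Γ e l := by
  choose e he hn using fun p => tu_unit (rk p)
  let l : E2 → E2 →ₗ[ℝ] ℝ := fun p =>
    LinearMap.ofIsCompl (co p) 0 ((innerₗ E2 (e p)).comp (U p).subtype)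
  have one : ∀ p, l p (e p) = 1 := fun p => by
    have := LinearMap.ofIsCompl_apply_right (co p) (φ := 0)
      (ψ := (innerₗ E2 (e p)).comp (U p).subtype) ⟨e p, he p⟩
    simpa [hn p] using this
  have sub : ∀ p v, v - l p v • e p ∈ S p := fun p v => by
    obtain ⟨s, hs, u, hu, rfl⟩ := Submodule.mem_sup.1
      (show v ∈ S p ⊔ U p by rw [(co p).sup_eq_top]; trivial)
    obtain ⟨c, rfl⟩ := tu_span (rk p) (he p) (hn p) hu
    have z : l p s = 0 := LinearMap.ofIsCompl_apply_left (co p) ⟨s, hs⟩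
    simpa [z, one p] using hs
  refine ⟨e, l, rk, he, hn, one, sub, fun p v => ?_⟩
  have := (an p _ ((U p).smul_mem (l p v) (he p)) _ (sub p v)).1
  rwa [add_sub_cancel, norm_smul, hn, mul_one] at this

/-- a vector of `U x` normalised in the frame of `p` -/
structure Nv (U : E2 → Submodule ℝ E2) (l : E2 → E2 →ₗ[ℝ] ℝ) (p x v : E2) : Prop where
  mem : v ∈ U x
  one : l p v = 1
  bd : ‖v‖ ≤ 2

variable {F G : E2 → E2} {U S : E2 → Submodule ℝ E2} {Γ C lam M C' L ε : ℝ} {e : E2 → E2}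
  {l : E2 → E2 →ₗ[ℝ] ℝ}

theorem Fr.uniq (h : Fr U S Γ e l) {p x v w : E2} (hv : v ∈ U x) (hw : Nv U l p x w) :
    v = l p v • w := by
  obtain ⟨c, rfl⟩ := tu_span (h.rk x) (h.mem x) (h.nrm x) hv
  obtain ⟨c', rfl⟩ := tu_span (h.rk x) (h.mem x) (h.nrm x) hw.mem
  have := hw.one
  rw [map_smul, smul_eq_mul] at this
  rw [map_smul, smul_smul, smul_eq_mul, mul_assoc, mul_comm _ c', this, mul_one]

theorem Fr.self (h : Fr U S Γ e l) (p : E2) : Nv U l p p (e p) :=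
  ⟨h.mem p, h.one p, (h.nrm p).trans_le one_le_two⟩

theorem Fr.hol (h : Fr U S Γ e l) (hH : HolU U S C' 1) {x y v : E2} (h1 : ‖x - y‖ ≤ 1)
    (hv : v ∈ U x) : ‖v - l y v • e y‖ ≤ C' * ‖x - y‖ * ‖v‖ := by
  have := hH x y h1 _ ((U y).smul_mem (l y v) (h.mem y)) _ (h.sub y v) (by rwa [add_sub_cancel])
  rwa [add_sub_cancel, Real.rpow_one] at this

/-- the normalised vector -/
noncomputable def vv (e : E2 → E2) (l : E2 → E2 →ₗ[ℝ] ℝ) (p x : E2) : E2 := (l p (e x))⁻¹ • e x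

theorem Fr.nv (h : Fr U S Γ e l) (hH : HolU U S C' 1) {p x : E2} (h1 : ‖x - p‖ ≤ 1)
    (h2 : C' * ‖x - p‖ ≤ 1 / 2) : Nv U l p x (vv e l p x) := by
  have a := h.hol hH h1 (h.mem x)
  have b := norm_sub_norm_le (e x) (l p (e x) • e p)
  rw [norm_smul, h.nrm, h.nrm, mul_one, Real.norm_eq_abs] at b
  rw [h.nrm, mul_one] at a
  have c : 1 / 2 ≤ |l p (e x)| := by linarith
  have n : l p (e x) ≠ 0 := fun z => by rw [z, abs_zero] at c; linarith
  refine ⟨(U x).smul_mem _ (h.mem x), by simp [vv, n], ?_⟩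
  rw [vv, norm_smul, h.nrm, mul_one, norm_inv, Real.norm_eq_abs]
  exact (inv_le_comm₀ (by linarith) two_pos).2 (by linarith)

theorem Fr.lip (h : Fr U S Γ e l) (hH : HolU U S C' 1) (Γ1 : 1 ≤ Γ) (C0 : 0 ≤ C') {p x y v w : E2}
    (h1 : ‖x - y‖ ≤ 1) (hv : Nv U l p x v) (hw : Nv U l p y w) :
    ‖v - w‖ ≤ 6 * Γ * C' * ‖x - y‖ := by
  have a := (h.hol hH h1 hv.mem).trans (mul_le_mul_of_nonneg_left hv.bd (by positivity))
  have b := h.uniq ((U y).smul_mem (l y v) (h.mem y)) hw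
  set s := v - l y v • e y with hs
  have c : v - w = s - l p s • w := by
    rw [hs, map_sub, hv.one, sub_smul, one_smul, ← b]; abel
  have d := mul_le_mul (h.bd p s) hw.bd (norm_nonneg _) (by positivity)
  have f := norm_sub_le s (l p s • w)
  rw [norm_smul, Real.norm_eq_abs] at f
  rw [c]
  nlinarith only [a, d, f, mul_le_mul_of_nonneg_left a (show 0 ≤ Γ by linarith),
    mul_le_mul_of_nonneg_right Γ1 (norm_nonneg s)]

/-- the step of the slope recursion -/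
theorem Fr.step (h : Fr U S Γ e l) {Aa Ab Ac Ad : E2 →L[ℝ] E2}
    {a b c d a' b' c' d' vb vc vd wb wc wd : E2} {θ x y : ℝ} (Γ1 : 1 ≤ Γ) (L2 : 2 ≤ L) (ΓL : Γ ≤ L)
    (x0 : 0 ≤ x) (y0 : 0 ≤ y) (hε : 100 * L ^ 3 * ε ≤ 1) (xε : x ≤ ε) (yε : y ≤ ε)
    (θ0 : 0 ≤ θ) (hθ : 24 * Γ * θ ≤ 1)
    (nb : Nv U l a b vb) (nc : Nv U l a c vc) (nd : Nv U l a d vd)
    (mb : Nv U l a' b' wb) (mc : Nv U l a' c' wc) (md : Nv U l a' d' wd)
    (ua : Aa (e a) ∈ U a') (ub : Ab vb ∈ U b') (uc : Ac vc ∈ U c') (ud : Ad vd ∈ U d')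
    (h1 : ‖Ac - Aa‖ ≤ L * x) (h2 : ‖Ad - Aa‖ ≤ L * y) (h3 : ‖vc - e a‖ ≤ L * x)
    (h4 : ‖vd - e a‖ ≤ L * y) (h5 : ‖wc - e a'‖ ≤ L * x) (h6 : ‖wd - e a'‖ ≤ L * y)
    (h7 : ‖Aa‖ ≤ L) (cs : ∀ s ∈ S a, ‖Aa s‖ ≤ θ * ‖s‖) (ex : ‖e a‖ ≤ θ * ‖Aa (e a)‖) :
    ‖D2 (e a') wb wc wd‖ ≤ ‖D2 (e a) vb vc vd‖ / 2 + 10 * L ^ 4 * (‖D2 Aa Ab Ac Ad‖ + x * y) := by
  have p2 := app2 (Ab := Ab) h1 h2 h3 h4 nb.bd
  have q1 := (h.bd a' _).trans (mul_le_mul ΓL (app1 L2 x0 h1 nc.bd h7 h3) (norm_nonneg _) (by linarith))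
  have q2 := (h.bd a' _).trans (mul_le_mul ΓL (app1 L2 y0 h2 nd.bd h7 h4) (norm_nonneg _) (by linarith))
  have q3 := h.bd a' (D2 (Aa (e a)) (Ab vb) (Ac vc) (Ad vd))
  have hs : D2 (e a) vb vc vd ∈ S a := by
    simpa [D2, nb.one, nc.one, nd.one, h.one] using h.sub a (D2 (e a) vb vc vd)
  have p3 := cs _ hs
  have ea := h.uniq ua (h.self a')
  have eb := h.uniq ub mb
  have ec := h.uniq uc mc
  have ed := h.uniq ud md
  rw [map_sub] at q1 q2
  simp only [D2, map_sub, map_add] at q3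
  set ma := l a' (Aa (e a))
  set mb' := l a' (Ab vb)
  set mc' := l a' (Ac vc)
  set md' := l a' (Ad vd)
  have key : (mc' + md' - ma) • D2 (e a') wb wc wd = D2 (Aa (e a)) (Ab vb) (Ac vc) (Ad vd) -
      (mc' + md' - ma - mb') • wb + ((mc' - ma) • (wd - e a') + (md' - ma) • (wc - e a')) := by
    rw [ea, eb, ec, ed]; unfold D2; module
  rw [ea, norm_smul, h.nrm, h.nrm, mul_one, Real.norm_eq_abs] at ex
  have L0 : 0 ≤ L := by linarith
  have t1 : θ ≤ 1 / 24 := by nlinarith only [hθ, mul_le_mul_of_nonneg_right Γ1 θ0]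
  have m1 : 1 ≤ |mc' + md' - ma| := by
    have a1 := abs_add_le (mc' + md' - ma - (mc' - ma)) (-(md' - ma))
    have a2 := abs_sub (mc' + md' - ma) (mc' - ma)
    rw [show mc' + md' - ma - (mc' - ma) + -(md' - ma) = ma by ring, abs_neg] at a1
    have a3 := mul_le_mul_of_nonneg_left xε (show 0 ≤ L ^ 3 by positivity)
    have a4 := mul_le_mul_of_nonneg_left yε (show 0 ≤ L ^ 3 by positivity)
    linarith only [a1, a2, a3, a4, q1, q2, hε, ex, mul_le_mul_of_nonneg_right t1 (abs_nonneg ma)]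
  set Y := ‖D2 (Aa (e a)) (Ab vb) (Ac vc) (Ad vd)‖ with hY
  set s := ‖D2 (e a) vb vc vd‖
  set E := ‖D2 Aa Ab Ac Ad‖
  have s0 : 0 ≤ s := norm_nonneg _
  have E0 : 0 ≤ E := norm_nonneg _
  have Y0 : 0 ≤ Y := norm_nonneg _
  have k1 : ‖D2 (e a') wb wc wd‖ ≤ Y + Γ * Y * 2 +
      (L * (2 * L ^ 2 * x) * (L * y) + L * (2 * L ^ 2 * y) * (L * x)) := by
    refine (le_mul_of_one_le_left (norm_nonneg _) m1).trans ?_
    rw [← Real.norm_eq_abs, ← norm_smul, key]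
    refine norm_add_le_of_le ((norm_sub_le _ _).trans (add_le_add le_rfl ?_)) (norm_add_le_of_le ?_ ?_)
      <;> rw [norm_smul, Real.norm_eq_abs]
    · exact mul_le_mul q3 mb.bd (norm_nonneg _) (by positivity)
    · exact mul_le_mul q1 h6 (norm_nonneg _) (by positivity)
    · exact mul_le_mul q2 h5 (norm_nonneg _) (by positivity)
  have r0 : 0 ≤ x * y := mul_nonneg x0 y0
  have k2 : Γ * Y ≤ Γ * (2 * E + θ * s + L * (x + y) * s + 2 * L ^ 2 * (x * y)) :=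
    mul_le_mul_of_nonneg_left (by linarith only [p2, p3]) (by linarith)
  have L1 : 1 ≤ L := by linarith
  have k3 : Γ * E ≤ L ^ 4 * E :=
    mul_le_mul_of_nonneg_right (ΓL.trans (le_self_pow₀ L1 (by norm_num))) E0
  have k4 : Γ * (L * (x + y) * s) ≤ L * (L ^ 2 * (ε + ε) * s) := by
    gcongr; exact le_self_pow₀ L1 (by norm_num)
  have k5 : Γ * (L ^ 2 * (x * y)) ≤ L ^ 2 * (L ^ 2 * (x * y)) := by
    gcongr; exact ΓL.trans (le_self_pow₀ L1 (by norm_num))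
  linarith only [k1, k2, k3, k4, k5, mul_le_mul_of_nonneg_right Γ1 Y0,
    mul_le_mul_of_nonneg_right hθ s0, mul_le_mul_of_nonneg_right hε s0, s0,
    show 0 ≤ L ^ 4 * E by positivity]

/-- the recursion for the defect -/
theorem defect (iF : Iter F U S C lam M) (iG : Iter G S U C lam M) (fr : Fr U S Γ e l)
    (an : Angle U S Γ) {N : ℕ} (θ0 : 0 ≤ C * lam ^ N) (hθ : 24 * Γ * (C * lam ^ N) ≤ 1)
    (hL : (2 * M ^ 2) ^ N ≤ L) (L2 : 2 ≤ L) (hε : 100 * L ^ 3 * ε ≤ 1) {a b c d : E2}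
    (h1 : ‖c - a‖ + ‖d - a‖ ≤ 2 * ε) (h2 : ‖b - a‖ ≤ 2 * ε) :
    ‖D2 a b c d‖ ≤ (‖D2 (F^[N] a) (F^[N] b) (F^[N] c) (F^[N] d)‖ +
      ‖D2 (G^[N] a) (G^[N] b) (G^[N] c) (G^[N] d)‖) / 4 + L * (‖c - a‖ * ‖d - a‖) := by
  have L0 : 0 ≤ L := by linarith
  have r1 := rect (iF.diff N) L0 (fun x y => (iF.lipD N x y).trans
    (mul_le_mul_of_nonneg_right hL (norm_nonneg _))) h1 h2
  have r2 := rect (iG.diff N) L0 (fun x y => (iG.lipD N x y).trans
    (mul_le_mul_of_nonneg_right hL (norm_nonneg _))) h1 h2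
  set D := D2 a b c d
  have hu := (U a).smul_mem (l a D) (fr.mem a)
  have hs := fr.sub a D
  have a1 := (an _ _ (iF.memU N a _ hu) _ (iF.memS N a _ hs)).1
  have a2 := (an _ _ (iG.memS N a _ hu) _ (iG.memU N a _ hs)).2
  rw [← map_add, add_sub_cancel] at a1 a2
  have b1 := (iF.expU N a _ hu).trans (mul_le_mul_of_nonneg_left a1 θ0)
  have b2 := (iG.expU N a _ hs).trans (mul_le_mul_of_nonneg_left a2 θ0)
  have c0 := norm_add_le (l a D • e a) (D - l a D • e a)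
  rw [add_sub_cancel] at c0
  have c1 := norm_sub_norm_le (fderiv ℝ F^[N] a D) (D2 (F^[N] a) (F^[N] b) (F^[N] c) (F^[N] d))
  have c2 := norm_sub_norm_le (fderiv ℝ G^[N] a D) (D2 (G^[N] a) (G^[N] b) (G^[N] c) (G^[N] d))
  rw [norm_sub_rev] at c1 c2
  have e0 : 0 ≤ ε := by linarith [norm_nonneg (b - a)]
  have e1 : L * ε ≤ L ^ 3 * ε := mul_le_mul_of_nonneg_right (le_self_pow₀ (by linarith) (by norm_num)) e0
  have e2 := mul_le_mul_of_nonneg_right (show 100 * (L * ε) ≤ 1 by linarith) (norm_nonneg D)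
  linarith only [b1, b2, c0, c1, c2, r1, r2, e2, norm_nonneg D,
    mul_le_mul_of_nonneg_right hθ (norm_nonneg (fderiv ℝ F^[N] a D)),
    mul_le_mul_of_nonneg_right hθ (norm_nonneg (fderiv ℝ G^[N] a D)),
    norm_nonneg (D2 (F^[N] a) (F^[N] b) (F^[N] c) (F^[N] d)),
    norm_nonneg (D2 (G^[N] a) (G^[N] b) (G^[N] c) (G^[N] d)),
    show 0 ≤ L * (‖c - a‖ * ‖d - a‖) by positivity]

/-- bounded first derivative that is Lipschitz -/
structure C11 (T : E2 → E2 →L[ℝ] E2) (L : ℝ) : Prop where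
  df : Differentiable ℝ T
  bd : ∀ x, ‖fderiv ℝ T x‖ ≤ L
  lp : ∀ x y, ‖fderiv ℝ T x - fderiv ℝ T y‖ ≤ L * ‖x - y‖

theorem C11.mono {T : E2 → E2 →L[ℝ] E2} {L' : ℝ} (h : C11 T L) (h' : L ≤ L') : C11 T L' :=
  ⟨h.df, fun x => (h.bd x).trans h', fun x y => (h.lp x y).trans (by gcongr)⟩

theorem C11.rect {T : E2 → E2 →L[ℝ] E2} (h : C11 T L) (L0 : 0 ≤ L) {a b c d : E2}
    (h1 : ‖c - a‖ + ‖d - a‖ ≤ 1) (h2 : ‖b - a‖ ≤ 1) :
    ‖D2 (T a) (T b) (T c) (T d)‖ ≤ 2 * L * (‖D2 a b c d‖ + ‖c - a‖ * ‖d - a‖) := by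
  have a1 := Mx.rect h.df L0 h.lp h1 h2
  have a2 := (fderiv ℝ T a).le_of_opNorm_le_of_le (h.bd a) (le_refl ‖D2 a b c d‖)
  linarith only [a1, a2, norm_sub_norm_le (D2 (T a) (T b) (T c) (T d)) (fderiv ℝ T a (D2 a b c d)),
    show 0 ≤ L * (‖c - a‖ * ‖d - a‖) by positivity]

theorem exC11 (T : TorF) {H : E2 → E2} (hs : ContDiff ℝ 3 H)
    (hp : ∀ x y, proj x = proj y → proj (H x) = proj (H y)) : ∃ L, C11 (fderiv ℝ H) L := by
  have hd : ContDiff ℝ 2 (fderiv ℝ H) := hs.fderiv_right (m := 2) (by norm_num)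
  have hd2 : ContDiff ℝ 1 (fderiv ℝ (fderiv ℝ H)) := hd.fderiv_right (m := 1) (by norm_num)
  have h2 : ∀ x y, proj x = proj y → ∀ z,
      fderiv ℝ (fderiv ℝ H) (z + (y - x)) = fderiv ℝ (fderiv ℝ H) z := fun x y h z => by
    rw [← fderiv_comp_add_right, funext (to_per T hs.continuous hp h)]
  obtain ⟨M1, hM1⟩ := to_bdd T hd2.continuous fun x y h => by rw [← h2 x y h x, add_sub_cancel]
  obtain ⟨M2, hM2⟩ := to_bdd T (hd2.continuous_fderiv (by norm_num)) fun x y h => by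
    have := fderiv_comp_add_right (𝕜 := ℝ) (f := fderiv ℝ (fderiv ℝ H)) (x := x) (y - x)
    rwa [funext (h2 x y h), add_sub_cancel] at this
  exact ⟨max M1 M2, hd.differentiable (by norm_num), fun x => (hM1 x).trans (le_max_left _ _),
    fun x y => convex_univ.norm_image_sub_le_of_norm_fderiv_le
      (fun z _ => hd2.differentiable (by norm_num) z)
      (fun z _ => (hM2 z).trans (le_max_right _ _)) trivial trivial⟩

/-- the mixed difference of the potential -/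
theorem pot (h : HypD F G U S C lam M) (fr : Fr U S Γ e l) {φ : E2 → ℝ}
    (hφ : ∀ x, φ x = -Real.log ‖fderiv ℝ F x (e x)‖) (L2 : 2 ≤ L) (ΓL : Γ ≤ L) (ML : M ≤ L)
    (c1 : C11 (fderiv ℝ F) L) {a b c d vb vc vd : E2} (h1 : ‖c - a‖ + ‖d - a‖ ≤ 1)
    (h2 : ‖b - a‖ ≤ 1) (nb : Nv U l a b vb) (nc : Nv U l a c vc) (nd : Nv U l a d vd)
    (h3 : ‖vc - e a‖ ≤ L * ‖c - a‖) (h4 : ‖vd - e a‖ ≤ L * ‖d - a‖) :
    |D2 (φ a) (φ b) (φ c) (φ d)| ≤
      50 * (2 * L ^ 2) ^ 9 * (‖D2 a b c d‖ + ‖D2 (e a) vb vc vd‖ + ‖c - a‖ * ‖d - a‖) := by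
  have L0 : 0 ≤ L := by linarith
  have LB : 2 * L ≤ L ^ 2 := by nlinarith only [L2]
  have M0 : 0 ≤ M := by linarith [h.M1]
  have bF (x) : ‖fderiv ℝ F x‖ ≤ L := (h.bF x).trans ML
  have lF (x) : ‖fderiv ℝ F x - fderiv ℝ F a‖ ≤ L * ‖x - a‖ := (h.lF x a).trans (by gcongr)
  have pt {x v : E2} (n : Nv U l a x v) : (‖v‖ ≤ 2 * L ^ 2 ∧ 1 ≤ 2 * L ^ 2 * ‖v‖) ∧
      (‖fderiv ℝ F x v‖ ≤ 2 * L ^ 2 ∧ 1 ≤ 2 * L ^ 2 * ‖fderiv ℝ F x v‖) ∧
      φ x = Real.log ‖v‖ - Real.log ‖fderiv ℝ F x v‖ := by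
    have a1 := fr.bd a v
    rw [n.one, abs_one] at a1
    have a2 : 1 ≤ L * ‖v‖ := a1.trans (by gcongr)
    have a3 : ‖v‖ ≤ L * ‖fderiv ℝ F x v‖ := (tu_lower h x v).trans (by gcongr)
    have a4 := mul_le_mul_of_nonneg_left a3 L0
    have a5 := (fderiv ℝ F x).le_of_opNorm_le_of_le (bF x) n.bd
    refine ⟨⟨by linarith [n.bd], by nlinarith only [a2, LB, L0, norm_nonneg v]⟩, ⟨by linarith, by
      nlinarith only [a2, a4, norm_nonneg (fderiv ℝ F x v), sq_nonneg L]⟩, ?_⟩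
    obtain ⟨t, rfl⟩ := tu_span (fr.rk x) (fr.mem x) (fr.nrm x) n.mem
    have t0 : ‖t‖ ≠ 0 := fun z => by rw [norm_smul, z] at a2; linarith
    have t1 : ‖fderiv ℝ F x (e x)‖ ≠ 0 := fun z => by
      have := tu_lower h x (e x)
      rw [z, fr.nrm] at this; linarith
    rw [hφ, map_smul, norm_smul, norm_smul, fr.nrm, mul_one, Real.log_mul t0 t1]; ring
  obtain ⟨a1, a2, a3⟩ := pt (fr.self a)
  obtain ⟨b1, b2, b3⟩ := pt nb
  obtain ⟨d1, d2, d3⟩ := pt nd
  obtain ⟨e1, e2, e3⟩ := pt nc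
  have B1 : 1 ≤ 2 * L ^ 2 := by linarith
  have LL : L ≤ 2 * L ^ 2 := by linarith
  have k1 := logn B1 (norm_nonneg (c - a)) a1.1 b1.1 e1.1 d1.1 a1.2 b1.2 e1.2 d1.2
    (h3.trans (by gcongr)) (y := ‖d - a‖) (h4.trans (by gcongr))
  have k2 := logn B1 (norm_nonneg (c - a)) a2.1 b2.1 e2.1 d2.1 a2.2 b2.2 e2.2 d2.2
    (app1 L2 (norm_nonneg _) (lF c) nc.bd (bF a) h3) (app1 L2 (norm_nonneg _) (lF d) nd.bd (bF a) h4)
  have k3 := app2 (Ab := fderiv ℝ F b) (lF c) (lF d) h3 h4 nb.bd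
  have k4 := c1.rect L0 h1 h2
  have k5 := (fderiv ℝ F a).le_of_opNorm_le_of_le (bF a) (le_refl ‖D2 (e a) vb vc vd‖)
  set B := 2 * L ^ 2
  set s := ‖D2 (e a) vb vc vd‖
  set t := ‖D2 a b c d‖
  have s0 : 0 ≤ s := norm_nonneg _
  have t0 : 0 ≤ t := norm_nonneg _
  have r0 : 0 ≤ ‖c - a‖ * ‖d - a‖ := by positivity
  have k6 : L * (‖c - a‖ + ‖d - a‖) * s ≤ L * 1 * s := by gcongr
  set r := ‖c - a‖ * ‖d - a‖
  have k7 : ‖D2 (fderiv ℝ F a (e a)) (fderiv ℝ F b vb) (fderiv ℝ F c vc) (fderiv ℝ F d vd)‖ + r +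
      (s + r) ≤ 8 * B * (t + s + r) := by
    linarith only [k3, k4, k5, k6, mul_le_mul_of_nonneg_right LL s0, mul_le_mul_of_nonneg_right LL t0,
      mul_le_mul_of_nonneg_right LL r0, mul_le_mul_of_nonneg_right B1 s0,
      mul_le_mul_of_nonneg_right B1 t0, mul_le_mul_of_nonneg_right B1 r0, s0, t0, r0]
  rw [show D2 (φ a) (φ b) (φ c) (φ d) =
    D2 (Real.log ‖e a‖) (Real.log ‖vb‖) (Real.log ‖vc‖) (Real.log ‖vd‖) -
    D2 (Real.log ‖fderiv ℝ F a (e a)‖) (Real.log ‖fderiv ℝ F b vb‖) (Real.log ‖fderiv ℝ F c vc‖)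
      (Real.log ‖fderiv ℝ F d vd‖) by rw [a3, b3, d3, e3]; unfold D2; ring]
  refine (abs_sub _ _).trans ?_
  linarith only [k1, k2, mul_le_mul_of_nonneg_left k7 (show 0 ≤ B ^ 8 by positivity),
    show 0 ≤ B ^ 9 * (t + s + r) by positivity]

theorem orbF {a : ℤ → E2} (h : Orb F a) (n : ℕ) (j : ℤ) : a (j + n) = F^[n] (a j) := by
  induction n with
  | zero => simp
  | succ n ih => rw [Function.iterate_succ_apply', ← ih, ← h]; congr 1; push_cast; ring

theorem orbG {a : ℤ → E2} (h : Orb F a) (hG : ∀ x, G (F x) = x) (n : ℕ) (j : ℤ) :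
    a (j + -n) = G^[n] (a j) := by
  have := orbF h n (j + -n)
  rw [neg_add_cancel_right] at this
  rw [this, (Function.LeftInverse.iterate hG n) _]

theorem plane (h : HypD F G U S C lam M) (Γ1 : 1 ≤ Γ) (an : Angle U S Γ) (C0 : 0 ≤ C')
    (hH : HolU U S C' 1) (fr : Fr U S Γ e l) {φ : E2 → ℝ}
    (hφ : ∀ x, φ x = -Real.log ‖fderiv ℝ F x (e x)‖) (h3 : ∀ N, ∃ L, C11 (fderiv ℝ F^[N]) L) :
    ∃ ε > (0 : ℝ), ∃ Q : ℝ, 0 ≤ Q ∧ ∀ a b c d : ℤ → E2, Orb F a → Orb F b → Orb F c → Orb F d →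
      ∀ n₁ n₂ : ℤ, n₁ ≤ n₂ → ∀ (H K : ℤ → ℝ) (R : ℝ),
      (∀ j ≤ n₂, max ‖c j - a j‖ ‖d j - b j‖ ≤ min ε (H j)) →
      (∀ j ≥ n₁, max ‖c j - b j‖ ‖d j - a j‖ ≤ min ε (K j)) →
      (∀ j > n₂, 1 ≤ H j) → (∀ j < n₁, 1 ≤ K j) → Sm (fun j => H j * K j) R →
      Sm (fun j => if j ∈ Finset.Icc n₁ n₂ then |D2 (φ (a j)) (φ (b j)) (φ (c j)) (φ (d j))| else 0)
        (Q * R) := by
  have iF := sIter _ _ _ _ _ _ _ h
  have iG := sIter _ _ _ _ _ _ _ h.symm
  have C1 := h.Cpos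
  have M1 := h.M1
  obtain ⟨N, hN⟩ := exists_pow_lt_of_lt_one (show 0 < 1 / (24 * Γ * C) by positivity) h.l1
  rw [lt_div_iff₀ (by positivity)] at hN
  have hθ : 24 * Γ * (C * lam ^ N) ≤ 1 := by linarith
  have θ0 : 0 ≤ C * lam ^ N := by have := h.lpos; positivity
  obtain ⟨L1, c1⟩ := h3 1
  obtain ⟨LN, cN⟩ := h3 N
  obtain ⟨L, L2, ΓL, ML, CL, NL, NL', QL, QL', q1, qN⟩ := ((eventually_ge_atTop 2).and
    ((eventually_ge_atTop Γ).and ((eventually_ge_atTop M).and ((eventually_ge_atTop C').and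
    ((eventually_ge_atTop ((2 * M ^ 2) ^ N)).and ((eventually_ge_atTop (M ^ N)).and
    ((eventually_ge_atTop (6 * Γ * C')).and ((eventually_ge_atTop (6 * Γ * C' * M ^ N)).and
    ((eventually_ge_atTop L1).and (eventually_ge_atTop LN)))))))))).exists
  replace c1 : C11 (fderiv ℝ F) L := c1.mono q1
  replace cN := cN.mono qN
  have L0 : 0 < L := by linarith
  obtain ⟨ε, ε0, hε⟩ : ∃ ε > 0, 100 * L ^ 3 * ε ≤ 1 :=
    ⟨1 / (100 * L ^ 3), by positivity, le_of_eq (by field_simp)⟩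
  have e1 : L * ε ≤ L ^ 3 * ε := by gcongr; exact le_self_pow₀ (by linarith) (by norm_num)
  have e2 : 2 * ε ≤ L * ε := by gcongr
  have e3 : C' * ε ≤ L * ε := by gcongr
  refine ⟨ε, ε0, 50 * (2 * L ^ 2) ^ 9 * (4 * L + 4 * (40 * L ^ 5 * (4 * L + 1)) + 1), by positivity,
    fun a b c d oa ob oc od n₁ n₂ hn H K R hh hk h1 k1 hR => ?_⟩
  simp only [max_le_iff] at hh hk
  simp only [le_min_iff] at hh hk
  have H0 (j) : 0 ≤ H j := (le_or_gt j n₂).elim
    (fun q => (norm_nonneg _).trans (hh j q).1.2) fun q => zero_le_one.trans (h1 j q)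
  have K0 (j) : 0 ≤ K j := (le_or_gt n₁ j).elim
    (fun q => (norm_nonneg _).trans (hk j q).1.2) fun q => zero_le_one.trans (k1 j q)
  have r0 (j) : 0 ≤ H j * K j := mul_nonneg (H0 j) (K0 j)
  have sm {j} (hj : j ∈ Finset.Icc n₁ n₂) : ‖c j - a j‖ ≤ ε ∧ ‖d j - a j‖ ≤ ε ∧ ‖d j - b j‖ ≤ ε ∧
      ‖b j - a j‖ ≤ 2 * ε ∧ ‖c j - a j‖ * ‖d j - a j‖ ≤ H j * K j := by
    obtain ⟨p, q⟩ := Finset.mem_Icc.1 hj
    have := norm_sub_le_norm_sub_add_norm_sub (b j) (d j) (a j)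
    rw [norm_sub_rev (b j) (d j)] at this
    exact ⟨(hh j q).1.1, (hk j p).2.1, (hh j q).2.1, by linarith [(hk j p).2.1, (hh j q).2.1],
      mul_le_mul (hh j q).1.2 (hk j p).2.2 (norm_nonneg _) (H0 j)⟩
  have nv {p x : E2} (q : ‖x - p‖ ≤ 2 * ε) : Nv U l p x (vv e l p x) :=
    fr.nv hH (by linarith) ((mul_le_mul_of_nonneg_left q C0).trans (by linarith))
  have lp {p x y v w : E2} (q : ‖x - y‖ ≤ ε) (hv : Nv U l p x v) (hw : Nv U l p y w) :=
    fr.lip hH Γ1 C0 (show ‖x - y‖ ≤ 1 by linarith) hv hw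
  have sD : Sm (fun j => ‖D2 (a j) (b j) (c j) (d j)‖) (4 * (L * R)) := by
    refine sm_rec (Finset.Icc n₁ n₂) N (-N) (fun _ => norm_nonneg _) (hR.mul L0.le)
      (fun j hj => ?_) fun j hj => ?_
    · have t := mul_le_mul_of_nonneg_right L2 (r0 j)
      rw [Finset.mem_Icc, not_and_or, not_le, not_le] at hj
      rcases hj with q | q
      · rw [show D2 (a j) (b j) (c j) (d j) = (c j - a j) + (d j - b j) by unfold D2; abel]
        linarith only [t, norm_add_le (c j - a j) (d j - b j), (hh j (by omega)).1.2,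
          (hh j (by omega)).2.2, mul_le_mul_of_nonneg_left (k1 j q) (H0 j)]
      · rw [show D2 (a j) (b j) (c j) (d j) = (c j - b j) + (d j - a j) by unfold D2; abel]
        linarith only [t, norm_add_le (c j - b j) (d j - a j), (hk j (by omega)).1.2,
          (hk j (by omega)).2.2, mul_le_mul_of_nonneg_right (h1 j q) (K0 j)]
    · obtain ⟨s1, s2, -, s4, s5⟩ := sm hj
      simp only [orbF oa, orbF ob, orbF oc, orbF od, orbG oa h.GF, orbG ob h.GF, orbG oc h.GF,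
        orbG od h.GF]
      exact (defect iF iG fr an θ0 hθ NL L2 hε (by linarith) s4).trans (by gcongr)
  have sS : Sm (fun j => if j ∈ Finset.Icc n₁ n₂ then
      ‖D2 (e (a j)) (vv e l (a j) (b j)) (vv e l (a j) (c j)) (vv e l (a j) (d j))‖ else 0)
      (4 * (40 * L ^ 5 * (4 * (L * R) + R))) := by
    refine sm_rec (Finset.Icc n₁ n₂) (-N) (-N) (fun j => by positivity)
      (((sD.add hR).shift (-N)).mul (by positivity)) (fun j hj => ?_) fun j hj => ?_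
    · rw [if_neg hj]; have := r0 (j + -N); positivity
    obtain ⟨s1, s2, s3, s4, -⟩ := sm hj
    have mb := nv s4
    have mc := nv (show ‖c j - a j‖ ≤ 2 * ε by linarith)
    have md := nv (show ‖d j - a j‖ ≤ 2 * ε by linarith)
    have w1 := lp s1 mc (fr.self _)
    have w2 := lp s2 md (fr.self _)
    have w3 := lp s3 md mb
    rw [if_pos hj]
    obtain ⟨i, rfl⟩ : ∃ i, j = i + N := ⟨j - N, by ring⟩
    simp only [add_neg_cancel_right]
    have up {x y : ℤ → E2} (ox : Orb F x) (oy : Orb F y) :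
        6 * Γ * C' * ‖x (i + N) - y (i + N)‖ ≤ L * ‖x i - y i‖ := by
      rw [orbF ox, orbF oy]
      refine (mul_le_mul_of_nonneg_left (iF.lip N _ _) (by positivity)).trans ?_
      rw [← mul_assoc]; gcongr
    have r1 := r0 i
    have D0 := norm_nonneg (D2 (a i) (b i) (c i) (d i))
    by_cases hi : i ∈ Finset.Icc n₁ n₂
    · obtain ⟨t1, t2, -, t4, t5⟩ := sm hi
      have nb := nv t4
      have nc := nv (show ‖c i - a i‖ ≤ 2 * ε by linarith)
      have nd := nv (show ‖d i - a i‖ ≤ 2 * ε by linarith)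
      have st := fr.step (Aa := fderiv ℝ F^[N] (a i)) (Ab := fderiv ℝ F^[N] (b i))
        (Ac := fderiv ℝ F^[N] (c i)) (Ad := fderiv ℝ F^[N] (d i)) Γ1 L2 ΓL (norm_nonneg _)
        (norm_nonneg _) hε t1 t2 θ0 hθ nb nc nd mb mc md
        (by rw [orbF oa]; exact iF.memU N _ _ (fr.mem _))
        (by rw [orbF ob]; exact iF.memU N _ _ nb.mem)
        (by rw [orbF oc]; exact iF.memU N _ _ nc.mem)
        (by rw [orbF od]; exact iF.memU N _ _ nd.mem)
        ((iF.lipD N _ _).trans (by gcongr)) ((iF.lipD N _ _).trans (by gcongr))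
        ((lp t1 nc (fr.self _)).trans (by gcongr)) ((lp t2 nd (fr.self _)).trans (by gcongr))
        (w1.trans (up oc oa)) (w2.trans (up od oa)) ((iF.bnd N _).trans NL') (iF.conS N _)
        (iF.expU N _ _ (fr.mem _))
      have rc := cN.rect L0.le (show ‖c i - a i‖ + ‖d i - a i‖ ≤ 1 by linarith)
        (show ‖b i - a i‖ ≤ 1 by linarith)
      have u1 := mul_le_mul_of_nonneg_left t5 L0.le
      have u2 := mul_le_mul_of_nonneg_right L2 r1
      have u3 : ‖D2 (fderiv ℝ F^[N] (a i)) (fderiv ℝ F^[N] (b i)) (fderiv ℝ F^[N] (c i))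
          (fderiv ℝ F^[N] (d i))‖ + ‖c i - a i‖ * ‖d i - a i‖ ≤
          4 * L * (‖D2 (a i) (b i) (c i) (d i)‖ + H i * K i) := by
        linarith only [rc, u1, u2, t5, r1, mul_nonneg L0.le D0]
      rw [if_pos hi]
      linarith only [st, mul_le_mul_of_nonneg_left u3 (show 0 ≤ L ^ 4 by positivity)]
    · have q : i < n₁ := by rw [Finset.mem_Icc] at hi hj; omega
      have u1 := mul_le_mul_of_nonneg_left (hh i (by omega)).1.2 L0.le
      have u2 := mul_le_mul_of_nonneg_left (hh i (by omega)).2.2 L0.le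
      have u3 := mul_le_mul_of_nonneg_left (mul_le_mul_of_nonneg_left (k1 i q) (H0 i)) L0.le
      have u4 : L * (H i * K i) ≤ L ^ 5 * (H i * K i) := by
        gcongr; exact le_self_pow₀ (by linarith) (by norm_num)
      rw [if_neg hi, show ∀ p q r s : E2, D2 p q r s = (r - p) + (s - q) from fun p q r s => by
        unfold D2; abel]
      refine (norm_add_le _ _).trans ?_
      linarith only [w1, w3, up oc oa, up od ob, u1, u2, u3, u4, mul_nonneg L0.le r1,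
        mul_nonneg (show 0 ≤ L ^ 5 by positivity) D0]
  refine fun s => ((((sD.add sS).add hR).mul (show 0 ≤ 50 * (2 * L ^ 2) ^ 9 by positivity)).mono
    (fun j => ?_) s).trans_eq (by ring)
  split_ifs with hj
  · obtain ⟨s1, s2, -, s4, s5⟩ := sm hj
    have mc := nv (show ‖c j - a j‖ ≤ 2 * ε by linarith)
    have md := nv (show ‖d j - a j‖ ≤ 2 * ε by linarith)
    exact (pot h fr hφ L2 ΓL ML c1 (by linarith) (by linarith) (nv s4) mc md
      ((lp s1 mc (fr.self _)).trans (by gcongr)) ((lp s2 md (fr.self _)).trans (by gcongr))).trans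
      (by gcongr)
  · have := r0 j; positivity

theorem lift_orb {f : T2 → T2} {F : E2 ≃ E2} (hi : Function.Injective f)
    (hl : ∀ x, proj (F x) = f (proj x)) {α : ℤ → T2} (h : Orb f α) {n : ℤ} {x : E2}
    (hx : proj x = α n) : ∃ a, Orb F a ∧ a n = x ∧ ∀ j, proj (a j) = α j := by
  obtain ⟨a, o, an⟩ : ∃ a, Orb F a ∧ a n = x :=
    ⟨fun j => ((F : Equiv.Perm E2) ^ (j - n)) x, fun j => by
      simp only [show j + 1 - n = 1 + (j - n) by ring, zpow_one_add, Equiv.Perm.mul_apply], by simp⟩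
  refine ⟨a, o, an, fun j => ?_⟩
  refine Int.inductionOn' j n (by rwa [an]) (fun k _ q => ?_) fun k _ q => hi ?_
  · rw [o k, hl, q, h k]
  · rw [← hl, ← o (k - 1), ← h (k - 1), sub_add_cancel, q]

theorem close (T : TorF) (h : HypD F G U S C lam M) {x y : ℤ → E2} (ox : Orb F x) (oy : Orb F y)
    {p : ℤ → Prop} {n : ℤ} (p1 : ∀ k, n ≤ k → p (k + 1) → p k) (p2 : ∀ k ≤ n, p (k - 1) → p k)
    (h0 : ‖x n - y n‖ ≤ 1 / 2) (hε : 4 * M * ε ≤ 1)
    (hd : ∀ j, p j → dist (proj (x j)) (proj (y j)) ≤ ε) (j : ℤ) (hj : p j) :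
    ‖x j - y j‖ ≤ 2 * dist (proj (x j)) (proj (y j)) := by
  have M0 : 0 ≤ M := by linarith [h.M1]
  have k {i} (q : p i) (r : ‖x i - y i‖ ≤ 1 / 2) : M ^ 1 * ‖x i - y i‖ ≤ 1 / 2 := by
    linarith only [hε, mul_le_mul_of_nonneg_left (T.loc _ _ r) M0,
      mul_le_mul_of_nonneg_left (hd i q) M0]
  refine T.loc _ _ (Int.inductionOn' (motive := fun j => p j → ‖x j - y j‖ ≤ 1 / 2) j n (fun _ => h0)
    (fun i a b c => ?_) (fun i a b c => ?_) hj)
  · rw [ox, oy]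
    exact ((sIter _ _ _ _ _ _ _ h).lip 1 _ _).trans (k (p1 i a c) (b (p1 i a c)))
  · rw [sub_eq_add_neg i, show (-1 : ℤ) = -(1 : ℕ) from rfl, orbG ox h.GF, orbG oy h.GF]
    exact ((sIter _ _ _ _ _ _ _ h.symm).lip 1 _ _).trans (k (p2 i a c) (b (p2 i a c)))

end Mx
open Mx

theorem mix (hL : LIPU_s) : MIX_s := by
  intro f F Eu Es hA h3
  have T : TorF := sTor
  obtain ⟨⟨C, lam, M, h⟩, hper⟩ := sHypD T f F Eu Es hA
  obtain ⟨Γ, Γ1, an⟩ := sAngle _ _ _ _ _ _ _ h (sIter _ _ _ _ _ _ _ h)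
  obtain ⟨C', C0, hH⟩ := hL _ _ _ _ _ _ _ _ h Γ1 an
  obtain ⟨P, P0, hP⟩ := sPot T F F.symm Eu Es C lam M C' 1 h hper C0 one_pos le_rfl hH
  simp only [Real.rpow_one] at hP
  obtain ⟨e, l, fr⟩ := exFr h.rU h.compl an
  obtain ⟨ε, ε0, Q, Q0, hQ⟩ := plane h Γ1 an C0 hH fr (φ := fun x => geomPot F Eu (proj x))
    (fun x => by
      rw [geomPot, normOn, tu_norm (fr.rk x) (fr.mem x) (fr.nrm x), hper _ x (T.sec _)])
    fun N => exC11 T (by
      induction N with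
      | zero => exact contDiff_id
      | succ n ih => rw [Function.iterate_succ']; exact h3.comp ih)
      fun x y q => by rw [tv_proj_iter hA.lift, tv_proj_iter hA.lift, q]
  have M1 := h.M1
  obtain ⟨η, η0, η1, η2⟩ : ∃ η > 0, 2 * η ≤ ε ∧ 12 * M * η ≤ 1 :=
    ⟨min (ε / 2) (1 / (12 * M)), by positivity, by linarith [min_le_left (ε / 2) (1 / (12 * M))],
      (le_div_iff₀' (by positivity)).1 (min_le_right _ _)⟩
  have η3 := mul_le_mul_of_nonneg_right M1 η0.le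
  refine ⟨η, η0, Q * 4 + 2 * P, by positivity,
    fun α β γ δ oα oβ oγ oδ n₁ n₂ hn H K R hh hk h1 k1 hR => ?_⟩
  simp only [max_le_iff] at hh hk
  simp only [le_min_iff] at hh hk
  obtain ⟨a, oa, -, pa⟩ := lift_orb hA.bij.1 hA.lift oα (T.sec (α n₁))
  obtain ⟨c0, c1, c2⟩ := T.lift (a n₁) (γ n₁)
  obtain ⟨d0, d1, d2⟩ := T.lift (a n₁) (δ n₁)
  obtain ⟨b0, b1, b2⟩ := T.lift c0 (β n₁)
  obtain ⟨b, ob, rfl, pb⟩ := lift_orb hA.bij.1 hA.lift oβ b1
  obtain ⟨c, oc, rfl, pc⟩ := lift_orb hA.bij.1 hA.lift oγ c1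
  obtain ⟨d, od, rfl, pd⟩ := lift_orb hA.bij.1 hA.lift oδ d1
  rw [pa, dist_comm, norm_sub_rev] at c2 d2
  rw [pc] at b2
  have g1 := (hh n₁ hn).1.1
  have g2 := (hk n₁ le_rfl).1.1
  have g3 := (hk n₁ le_rfl).2.1
  have g4 : ‖d n₁ - b n₁‖ ≤ 1 / 2 := by
    have t1 := norm_sub_le_norm_sub_add_norm_sub (d n₁) (a n₁) (b n₁)
    have t2 := norm_sub_le_norm_sub_add_norm_sub (a n₁) (c n₁) (b n₁)
    rw [norm_sub_rev (a n₁) (c n₁)] at t2
    linarith
  have lo {x y : ℤ → E2} (ox : Orb F x) (oy : Orb F y) (h0 : ‖x n₁ - y n₁‖ ≤ 1 / 2) :=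
    close (ε := η) T h ox oy (p := (· ≤ n₂)) (fun _ _ _ => by omega) (fun _ _ _ => by omega) h0
      (by linarith)
  have up {x y : ℤ → E2} (ox : Orb F x) (oy : Orb F y) (h0 : ‖x n₁ - y n₁‖ ≤ 1 / 2) :=
    close (ε := η) T h ox oy (p := (n₁ ≤ ·)) (fun _ _ _ => by omega) (fun _ _ _ => by omega) h0
      (by linarith)
  have l1 := lo oc oa (by linarith)
  have l2 := lo od ob g4
  have l3 := up oc ob (by linarith)
  have l4 := up od oa (by linarith)
  simp only [pa, pb, pc, pd] at l1 l2 l3 l4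
  have z := hQ a b c d oa ob oc od n₁ n₂ hn (fun j => 2 * H j) (fun j => 2 * K j) (4 * R)
    (fun j q => by
      have t1 := l1 (fun j q => (hh j q).1.1) j q
      have t2 := l2 (fun j q => (hh j q).2.1) j q
      obtain ⟨⟨u1, u2⟩, u3, u4⟩ := hh j q
      exact max_le (le_min (by linarith) (by linarith)) (le_min (by linarith) (by linarith)))
    (fun j q => by
      have t1 := l3 (fun j q => (hk j q).1.1) j q
      have t2 := l4 (fun j q => (hk j q).2.1) j q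
      obtain ⟨⟨u1, u2⟩, u3, u4⟩ := hk j q
      exact max_le (le_min (by linarith) (by linarith)) (le_min (by linarith) (by linarith)))
    (fun j q => by linarith [h1 j q]) (fun j q => by linarith [k1 j q])
    ((Sm.mul hR (by norm_num)).mono fun j => le_of_eq (by ring))
  simp only [pa, pb, pc, pd] at z
  refine fun s => ((z.add (Sm.mul hR (show 0 ≤ 2 * P by positivity))).mono (fun j => ?_) s).trans_eq
    (by ring)
  split_ifs with hj
  · obtain ⟨p, q⟩ := Finset.mem_Icc.1 hj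
    exact le_add_of_nonneg_right (mul_nonneg (by positivity) (mul_nonneg
      (dist_nonneg.trans (hh j q).1.2) (dist_nonneg.trans (hk j p).1.2)))
  rw [Finset.mem_Icc, not_and_or, not_le, not_le] at hj
  rcases hj with q | q
  · obtain ⟨⟨-, u2⟩, -, u4⟩ := hh j (by omega)
    have t := abs_add_le (geomPot F Eu (γ j) - geomPot F Eu (α j))
      (geomPot F Eu (δ j) - geomPot F Eu (β j))
    rw [show ∀ p q r s : ℝ, p - q + (r - s) = p + r - q - s from fun _ _ _ _ => by ring] at t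
    linarith only [t, hP (γ j) (α j), hP (δ j) (β j), mul_le_mul_of_nonneg_left u2 P0,
      mul_le_mul_of_nonneg_left u4 P0, mul_le_mul_of_nonneg_left
        (mul_le_mul_of_nonneg_left (k1 j q) (dist_nonneg.trans u2)) P0]
  · obtain ⟨⟨-, u2⟩, -, u4⟩ := hk j (by omega)
    have t := abs_add_le (geomPot F Eu (γ j) - geomPot F Eu (β j))
      (geomPot F Eu (δ j) - geomPot F Eu (α j))
    rw [show ∀ p q r s : ℝ, p - q + (r - s) = p + r - s - q from fun _ _ _ _ => by ring] at t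
    linarith only [t, hP (γ j) (β j), hP (δ j) (α j), mul_le_mul_of_nonneg_left u2 P0,
      mul_le_mul_of_nonneg_left u4 P0, mul_le_mul_of_nonneg_left
        (mul_le_mul_of_nonneg_right (h1 j q) (dist_nonneg.trans u2)) P0]

end Pool.Agent.MP_80da8f_an

end
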