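import Pool.Agent.MP_80da8f_an.QR

section

open MeasureTheory Filter Topology

namespace Pool.Agent.MP_80da8f_an

section gen

open Classical in
theorem qa_main {X : Type} [MetricSpace X] [MeasurableSpace X] {f : X → X} {N : ℕ}
    {e : ℝ} (hR : Rate f N e) {μ : Measure X} (hμ : Inv f μ) {S : Type} [Fintype S] {c : X → S}
    (hcm : ∀ s, MeasurableSet (c ⁻¹' {s})) {l : ℕ} (hl : 1 ≤ l)
    (hc : ∀ x y, c x = c y → ∀ j < l, dist (f^[j] x) (f^[j] y) ≤ e)
    (q3 : S → ℝ) (h3p : ∀ s, 0 < q3 s) (h31 : ∑ s, q3 s ≤ 1) {g : X → ℝ} (hg : Integrable g μ)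
    (hq : ∀ x, -Real.log (q3 (c x)) ≤ g x) {k0 : ℕ} (hk0 : 1 ≤ k0) {ζ : X → Fin k0}
    (hζ : Measurable ζ) {K : Set X} {k : ℕ} (hK : MeasurableSet K)
    (hsep : ∀ x ∈ K, ∀ y ∈ K, dist x y ≤ e / 4 ^ k → ζ x = ζ y) {u : ℝ} (hu0 : 0 < u) (hu1 : u < 1)
    (n J : ℕ) (hJ : n + 2 * (k * N) < J * l) :
    shannon μ (itin f ζ n) ≤ J * ∫ x, g x ∂μ +
      n * (-Real.log (1 - u) + μ.real Kᶜ * Real.log (k0 / u)) := by
  obtain ⟨hP, hf⟩ := hμ
  have hfm : Measurable f := hf.measurable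
  have hk00 : (0 : ℝ) < k0 := by exact_mod_cast hk0
  have hk01 : (1 : ℝ) ≤ k0 := by exact_mod_cast hk0
  obtain ⟨V, hV⟩ : ∃ V : X → Unit × (Fin J → S), V = fun x =>
      ((), fun j : Fin J => c (f^[(j : ℕ) * l] x)) := ⟨_, rfl⟩
  obtain ⟨W, hW⟩ : ∃ W : X → Fin n → Fin k0, W = fun x => itin f ζ n (f^[k * N] x) := ⟨_, rfl⟩
  have hWi : ∀ x (i : Fin n), W x i = ζ (f^[(i : ℕ) + k * N] x) := fun x i => by
    rw [hW, Function.iterate_add_apply]; rfl
  have hWm : ∀ w, MeasurableSet (W ⁻¹' {w}) := fun w => by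
    rw [hW]
    exact ((tf_meas_itin hfm hζ n).comp (hfm.iterate _)) (measurableSet_singleton w)
  have hVm : ∀ v, MeasurableSet (V ⁻¹' {v}) := fun v => by
    let _ : MeasurableSpace S := ⊤
    have : MeasurableSingletonClass S := ⟨fun _ => trivial⟩
    have hm : Measurable V := by
      rw [hV]
      refine measurable_const.prodMk (measurable_pi_lambda _ fun j => ?_)
      exact (measurable_to_countable' hcm).comp (hfm.iterate _)
    exact hm (measurableSet_singleton v)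
  have hsh : shannon μ (itin f ζ n) = shannon μ W := by
    unfold shannon
    refine Finset.sum_congr rfl fun w _ => ?_
    congr 1
    simp only [Measure.real]
    rw [hW, ← (hf.iterate (k * N)).measure_preimage
      ((tf_meas_itin hfm hζ n) (measurableSet_singleton w)).nullMeasurableSet]
    rfl
  have hclose : ∀ x y, V x = V y → ∀ i : Fin n,
      dist (f^[(i : ℕ) + k * N] x) (f^[(i : ℕ) + k * N] y) ≤ e / 4 ^ k := by
    intro x y hxy i
    rw [hV] at hxy
    obtain ⟨-, h2⟩ := Prod.mk.inj hxy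
    have hall : ∀ m ≤ n + 2 * (k * N), dist (f^[m] x) (f^[m] y) ≤ e := by
      intro m hm
      have h3 := hc _ _ (congrFun h2 ⟨m / l, (Nat.div_lt_iff_lt_mul hl).2 (by omega)⟩) (m % l)
        (Nat.mod_lt _ hl)
      rwa [← Function.iterate_add_apply, ← Function.iterate_add_apply, Nat.mod_add_div'] at h3
    have h4 := hR e le_rfl k (f^[i] x) (f^[i] y) fun j hj => by
      rw [← Function.iterate_add_apply, ← Function.iterate_add_apply]
      exact hall _ (by have := i.2; omega)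
    rw [← Function.iterate_add_apply, ← Function.iterate_add_apply, add_comm] at h4
    exact h4
  obtain ⟨pred, hpred⟩ : ∃ pred : Fin n → Unit × (Fin J → S) → Fin k0,
      ∀ x (i : Fin n), f^[(i : ℕ) + k * N] x ∈ K → W x i = pred i (V x) := by
    refine ⟨fun i v => if h : ∃ y, V y = v ∧ f^[(i : ℕ) + k * N] y ∈ K then W h.choose i
      else ⟨0, hk0⟩, fun x i hx => ?_⟩
    have h : ∃ y, V y = V x ∧ f^[(i : ℕ) + k * N] y ∈ K := ⟨x, rfl, hx⟩
    simp only [dif_pos h]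
    rw [hWi, hWi]
    exact hsep _ hx _ h.choose_spec.2 (hclose _ _ h.choose_spec.1.symm i)
  obtain ⟨q2, hq2⟩ : ∃ q2 : Fin k0 → Fin k0 → ℝ, q2 = fun a b => if a = b then 1 - u else u / k0 :=
    ⟨_, rfl⟩
  have h2p : ∀ a b, 0 < q2 a b := fun a b => by
    rw [hq2]
    dsimp only
    split_ifs
    · exact sub_pos.2 hu1
    · exact div_pos hu0 hk00
  have h21 : ∀ b, ∑ a, q2 a b ≤ 1 := fun b => by
    calc ∑ a, q2 a b ≤ ∑ a : Fin k0, ((if a = b then 1 - u else 0) + u / k0) := by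
          refine Finset.sum_le_sum fun a _ => ?_
          rw [hq2]
          dsimp only
          split_ifs
          · linarith only [div_pos hu0 hk00]
          · linarith only []
      _ = 1 := by
          rw [Finset.sum_add_distrib]
          simp only [Finset.sum_ite_eq', Finset.mem_univ, if_true, Finset.sum_const,
            Finset.card_univ, Fintype.card_fin, nsmul_eq_mul]
          rw [mul_div_cancel₀ _ hk00.ne']
          ring
  obtain ⟨Q, hQ⟩ : ∃ Q : (Fin n → Fin k0) → Unit × (Fin J → S) → ℝ,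
      Q = fun w v => (1 : ℝ) * (∏ j, q3 (v.2 j)) * ∏ i, q2 (w i) (pred i v) := ⟨_, rfl⟩
  have hQp : ∀ w v, 0 < Q w v := fun w v => by
    rw [hQ]
    exact mul_pos (mul_pos one_pos (Finset.prod_pos fun j _ => h3p _))
      (Finset.prod_pos fun i _ => h2p _ _)
  have hQ1 : ∑ w, ∑ v, Q w v ≤ 1 := by
    rw [hQ]
    exact tf_mass (1 : ℝ) zero_le_one (by simp) q3 (fun b => (h3p b).le) h31 q2
      (fun a b => (h2p a b).le) h21 pred
  have hQle : ∀ w v, Q w v ≤ 1 := fun w v =>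
    ((Finset.single_le_sum (f := fun v => Q w v) (fun v _ => (hQp w v).le)
      (Finset.mem_univ v)).trans (Finset.single_le_sum (f := fun w => ∑ v, Q w v)
      (fun w _ => Finset.sum_nonneg fun v _ => (hQp w v).le) (Finset.mem_univ w))).trans hQ1
  have ha' : 0 ≤ -Real.log (1 - u) :=
    neg_nonneg.2 (Real.log_nonpos (by linarith only [hu1]) (by linarith only [hu0]))
  have hb' : 0 ≤ Real.log (k0 / u) :=
    Real.log_nonneg ((one_le_div hu0).2 (by linarith only [hu1, hk01]))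
  have hpt : ∀ x, -Real.log (Q (W x) (V x)) ≤
      ∑ j : Fin J, g (f^[(j : ℕ) * l] x) +
      ∑ i : Fin n,
        (-Real.log (1 - u) + if f^[(i : ℕ) + k * N] x ∈ K then 0 else Real.log (k0 / u)) := by
    intro x
    rw [hQ]
    dsimp only
    rw [one_mul, Real.log_mul (Finset.prod_pos fun j _ => h3p _).ne'
      (Finset.prod_pos fun i _ => h2p _ _).ne', Real.log_prod (fun j _ => (h3p _).ne'),
      Real.log_prod (fun i _ => (h2p _ _).ne'), neg_add,
      ← Finset.sum_neg_distrib, ← Finset.sum_neg_distrib]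
    refine add_le_add (Finset.sum_le_sum fun j _ => ?_) (Finset.sum_le_sum fun i _ => ?_)
    · rw [hV]
      exact hq _
    · have hl : Real.log (u / k0) = -Real.log (k0 / u) := by rw [← Real.log_inv, inv_div]
      rw [hq2]
      dsimp only
      by_cases hx : f^[(i : ℕ) + k * N] x ∈ K
      · rw [if_pos (hpred x i hx), if_pos hx, add_zero]
      · rw [if_neg hx]
        split_ifs
        · linarith only [hb']
        · rw [hl]; linarith only [ha']
  have hI1 : ∀ j : Fin J, Integrable (fun x => g (f^[(j : ℕ) * l] x)) μ ∧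
      ∫ x, g (f^[(j : ℕ) * l] x) ∂μ = ∫ x, g x ∂μ := fun j => by
    have h := hf.iterate ((j : ℕ) * l)
    refine ⟨h.integrable_comp_of_integrable hg, ?_⟩
    rw [← integral_map h.measurable.aemeasurable (by rw [h.map_eq]; exact hg.1), h.map_eq]
  have hI2 := fun i : Fin n =>
    tf_int (hf.iterate ((i : ℕ) + k * N)) hK (-Real.log (1 - u)) (Real.log (k0 / u))
  have hJ1 := integrable_finsetSum Finset.univ fun j _ => (hI1 j).1
  have hJ2 := integrable_finsetSum Finset.univ fun i _ => (hI2 i).1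
  rw [hsh]
  refine (sGibbs X _ _ μ hP W V hWm hVm Q hQp hQ1).trans ((integral_mono_of_nonneg
    (Eventually.of_forall fun x => neg_nonneg.2 (Real.log_nonpos (hQp _ _).le (hQle _ _)))
    (hJ1.add hJ2) (Eventually.of_forall hpt)).trans (le_of_eq ?_))
  rw [integral_add' hJ1 hJ2,
    integral_finsetSum _ fun j _ => (hI1 j).1, integral_finsetSum _ fun i _ => (hI2 i).1]
  simp only [fun j => (hI1 j).2, fun i => (hI2 i).2, Finset.sum_const, Finset.card_univ,
    Fintype.card_fin, nsmul_eq_mul]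

open Classical in
/-- block codes bound the entropy -/
theorem qa_gen {X : Type} [MetricSpace X] [CompactSpace X] [MeasurableSpace X] [BorelSpace X]
    {f : X → X} {N : ℕ}
    {e : ℝ} (hR : Rate f N e) {μ : Measure X} (hμ : Inv f μ) {S : Type} [Fintype S] {c : X → S}
    (hcm : ∀ s, MeasurableSet (c ⁻¹' {s})) {l : ℕ} (hl : 1 ≤ l)
    (hc : ∀ x y, c x = c y → ∀ j < l, dist (f^[j] x) (f^[j] y) ≤ e)
    (q3 : S → ℝ) (h3p : ∀ s, 0 < q3 s) (h31 : ∑ s, q3 s ≤ 1) {g : X → ℝ} (hg : Integrable g μ)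
    (hq : ∀ x, -Real.log (q3 (c x)) ≤ g x) :
    ksEntropy μ f ≤ (((∫ x, g x ∂μ) / l : ℝ) : EReal) := by
  have := hμ.1
  refine iSup_le fun k0 => iSup_le fun ζ => iSup_le fun hζ => ?_
  have hk0 : 1 ≤ k0 := by
    obtain ⟨x⟩ := nonempty_of_isProbabilityMeasure μ
    exact (ζ x).pos
  have hk01 : (1 : ℝ) ≤ k0 := by exact_mod_cast hk0
  have hl0 : (0 : ℝ) < l := by exact_mod_cast hl
  obtain ⟨A', hA⟩ : ∃ A', A' = (∫ x, g x ∂μ) / l := ⟨_, rfl⟩
  rw [← hA]
  refine EReal.le_of_forall_lt_iff_le.1 fun z hz => ?_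
  have hz' : A' < z := by exact_mod_cast hz
  obtain ⟨ε, hε, hεz⟩ : ∃ ε > (0 : ℝ), A' + 3 * ε = z :=
    ⟨(z - A') / 3, by linarith only [hz'], by ring⟩
  have hu0 : 0 < 1 - Real.exp (-ε) := sub_pos.2 (Real.exp_lt_one_iff.2 (by linarith only [hε]))
  have hu1 : 1 - Real.exp (-ε) < 1 := by linarith only [Real.exp_pos (-ε)]
  have hb : 0 ≤ Real.log (k0 / (1 - Real.exp (-ε))) :=
    Real.log_nonneg ((one_le_div hu0).2 (by linarith only [hk01, hu1]))
  obtain ⟨K, k, hK, hKρ, hsep⟩ := tf_sep μ hk0 hζ e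
    (ρ := ε / (Real.log (k0 / (1 - Real.exp (-ε))) + 1)) (div_pos hε (by linarith only [hb]))
  have hKb : μ.real Kᶜ * Real.log (k0 / (1 - Real.exp (-ε))) ≤ ε := by
    rw [le_div_iff₀ (by linarith only [hb])] at hKρ
    linarith only [measureReal_nonneg (μ := μ) (s := Kᶜ), hKρ]
  have ht : Tendsto (fun n : ℕ => ((2 * (k * N) + l) * |A'|) / n) atTop (𝓝 0) :=
    tendsto_const_nhds.div_atTop tendsto_natCast_atTop_atTop
  refine limsup_le_of_le (by isBoundedDefault) ?_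
  filter_upwards [ht.eventually (gt_mem_nhds hε), eventually_ge_atTop 1] with n hn hn1
  have hn0 : (0 : ℝ) < n := by exact_mod_cast hn1
  obtain ⟨J, hJ1, hJ2⟩ : ∃ J : ℕ, n + 2 * (k * N) < J * l ∧ J * l ≤ n + 2 * (k * N) + l := by
    refine ⟨(n + 2 * (k * N)) / l + 1, ?_, ?_⟩
    · rw [mul_comm _ l]; exact Nat.lt_mul_div_succ _ hl
    · rw [add_mul, one_mul]; exact Nat.add_le_add_right (Nat.div_mul_le_self _ _) _
  have hm := qa_main hR hμ hcm hl hc q3 h3p h31 hg hq hk0 hζ hK hsep hu0 hu1 n J hJ1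
  have hA2 : ∫ x, g x ∂μ = l * A' := by rw [hA]; field_simp
  rw [hA2, sub_sub_cancel, Real.log_exp, neg_neg] at hm
  rw [div_lt_iff₀ hn0] at hn
  refine EReal.coe_le_coe_iff.2 ((div_le_iff₀ hn0).2 ?_)
  have e1 : (n : ℝ) + 2 * (k * N) ≤ J * l := by exact_mod_cast hJ1.le
  have e2 : (J : ℝ) * l ≤ n + 2 * (k * N) + l := by exact_mod_cast hJ2
  have e0 : (0 : ℝ) ≤ 2 * (k * N) := by positivity
  have e3 : (J * l - n) * A' ≤ (2 * (k * N) + l) * |A'| :=
    (mul_le_mul_of_nonneg_left (le_abs_self _) (by linarith only [e1, e0])).trans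
      (mul_le_mul_of_nonneg_right (by linarith only [e2]) (abs_nonneg _))
  rw [← hεz]
  linarith only [mul_le_mul_of_nonneg_left hKb hn0.le, hn, hm, e3]

end gen

section close

/-- counting bound for separated families of chains -/
def Close {X : Type} [MetricSpace X] (f : X → X) (ψ : X → ℝ) (P : ℝ → ℝ) (r η Kc : ℝ) : Prop :=
  ∀ t > (0 : ℝ), ∃ D : ℝ, 0 < D ∧ ∀ (ι : Type) (I : Finset ι) (n : ℕ) (c : ι → ℕ → X) (E : ℝ),
    (∀ i ∈ I, IsChain f η (c i) n ∧ cost f ψ Kc (c i) n ≤ E) →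
    (∀ i ∈ I, ∀ i' ∈ I, i ≠ i' → ∃ j < n, r < dist (c i j) (c i' j)) →
    (I.card : ℝ) ≤ D * Real.exp (P t * n + t * E)

theorem qa_close {X : Type} [MetricSpace X] [CompactSpace X] [Nonempty X] [MeasurableSpace X]
    [BorelSpace X] {f : X → X} {L : ℝ} {N : ℕ} {e : ℝ} (hS : Sys f L N e) {ψ : X → ℝ} {K : ℝ}
    (hK : 0 ≤ K) (hlip : Lip K ψ) (hpos : ∀ x, 0 ≤ ψ x) {P : ℝ → ℝ}
    (hP : ∀ t > (0 : ℝ), ∀ μ, Inv f μ → ksEntropy μ f ≤ ((P t + t * ∫ x, ψ x ∂μ : ℝ) : EReal))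
    {r : ℝ} (hr : 0 < r) : ∃ η > (0 : ℝ), ∃ Kc, 0 ≤ Kc ∧ Close f ψ P r η Kc := by
  classical
  have hS' : Sys f L N (min e (2 * r)) := ⟨hS.one_le, hS.lip, hS.Npos,
    lt_min hS.epos (by linarith only [hr]),
    fun x y h => hS.expa x y (h.trans (min_le_left _ _)), hS.shad, hS.trans⟩
  obtain ⟨η0, hη0, C2, hC2, hhorse⟩ :=
    sHorse sRate sWin sPart sEntLB sGlue sCode sMeas X f L N _ hS'
  have hKC : 0 ≤ K * C2 := mul_nonneg hK hC2
  refine ⟨η0, hη0, K * C2, hKC, fun t ht => ?_⟩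
  obtain ⟨z0⟩ := ‹Nonempty X›
  obtain ⟨B, hB0, hB⟩ : ∃ B : ℝ, 0 ≤ B ∧ ∀ x, ψ x ≤ B := by
    obtain ⟨x, -, hx⟩ := isCompact_univ.exists_isMaxOn ⟨z0, Set.mem_univ z0⟩
      (hlip.continuous hK).continuousOn
    exact ⟨ψ x, hpos x, fun y => hx (Set.mem_univ y)⟩
  obtain ⟨M, hM⟩ := hS.trans η0 hη0
  choose nn hn1 hnM cc hc0 hcn hch using hM
  set E0 : ℝ := 2 * (M * (B + K * C2 * η0)) with hE0
  have hM1 : (0 : ℝ) < M := by exact_mod_cast (hn1 z0 z0).trans (hnM z0 z0)
  refine ⟨(M : ℝ) ^ 2 * Real.exp (2 * M * |P t| + t * E0), by positivity,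
    fun ι Z l c E hZ hsep => ?_⟩
  let g : ι → ℕ × ℕ := fun z => (nn z0 (c z 0), nn (c z l) z0)
  have hmaps : ∀ z ∈ Z, g z ∈ Finset.Icc 1 M ×ˢ Finset.Icc 1 M := by
    intro z _
    simp only [g, Finset.mem_product, Finset.mem_Icc]
    exact ⟨⟨hn1 _ _, hnM _ _⟩, hn1 _ _, hnM _ _⟩
  have hfib : ∀ p ∈ Finset.Icc 1 M ×ˢ Finset.Icc 1 M,
      (((Z.filter fun z => g z = p).card : ℕ) : ℝ) ≤
        Real.exp (2 * M * |P t| + t * E0) * Real.exp (P t * l + t * E) := by
    rintro ⟨a, b⟩ hp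
    simp only [Finset.mem_product, Finset.mem_Icc] at hp
    set Z' := Z.filter fun z => g z = (a, b) with hZ'
    by_cases hq : Z'.card = 0
    · rw [hq]; push_cast; positivity
    have hq1 : 1 ≤ Z'.card := Nat.one_le_iff_ne_zero.2 hq
    let u : Fin Z'.card → ι := fun i => (Z'.equivFin.symm i : ι)
    have hu : ∀ i, u i ∈ Z ∧ nn z0 (c (u i) 0) = a ∧ nn (c (u i) l) z0 = b := by
      intro i
      have h1 := Finset.mem_filter.1 (Z'.equivFin.symm i).2
      exact ⟨h1.1, congrArg Prod.fst h1.2, congrArg Prod.snd h1.2⟩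
    have hui : ∀ i i', i ≠ i' → u i ≠ u i' := by
      intro i i' h h'
      exact h (Z'.equivFin.symm.injective (Subtype.ext h'))
    let c1 : Fin Z'.card → ℕ → X := fun i => cc z0 (c (u i) 0)
    let c3 : Fin Z'.card → ℕ → X := fun i => cc (c (u i) l) z0
    have h12 : ∀ i, c (u i) 0 = c1 i a := by
      intro i
      have := hcn z0 (c (u i) 0)
      rw [(hu i).2.1] at this
      exact this.symm
    have h23 : ∀ i, c3 i 0 = cat (c1 i) a (c (u i)) (a + l) := by
      intro i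
      rw [cat_right]
      exact hc0 _ _
    have hch1 : ∀ i, IsChain f η0 (c1 i) a := by
      intro i
      have := hch z0 (c (u i) 0)
      rwa [(hu i).2.1] at this
    have hch3 : ∀ i, IsChain f η0 (c3 i) b := by
      intro i
      have := hch (c (u i) l) z0
      rwa [(hu i).2.2] at this
    obtain ⟨μ, hμ, hent, hint⟩ := hhorse ψ K hK hlip Z'.card (a + l + b) hq1 (by omega) z0
      (fun i => cat (cat (c1 i) a (c (u i))) (a + l) (c3 i)) (E + E0)
      (by
        intro i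
        refine ⟨?_, ?_, ?_, ?_⟩
        · rw [cat_left (h23 i) (Nat.zero_le _), cat_left (h12 i) (Nat.zero_le _)]
          exact hc0 _ _
        · rw [cat_right]
          have := hcn (c (u i) l) z0
          rwa [(hu i).2.2] at this
        · exact IsChain.cat (h23 i) (IsChain.cat (h12 i) (hch1 i) (hZ _ (hu i).1).1) (hch3 i)
        · rw [cost_cat f ψ _ (h23 i), cost_cat f ψ _ (h12 i)]
          have h1 := tj_cost hKC hη0.le hB0 hB (hch1 i) hp.1.2
          have h3 := tj_cost hKC hη0.le hB0 hB (hch3 i) hp.2.2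
          linarith only [h1, h3, (hZ _ (hu i).1).2, hE0])
      (by
        intro i i' hii
        obtain ⟨j, hj, hd⟩ := hsep _ (hu i).1 _ (hu i').1 (hui i i' hii)
        refine ⟨a + j, by omega, ?_⟩
        rw [cat_left (h23 i) (by omega), cat_left (h23 i') (by omega), cat_right, cat_right]
        linarith only [hd, min_le_right e (2 * r)])
    have h1 := EReal.coe_le_coe_iff.1 (hent.trans (hP t ht μ hμ))
    have hm : (0 : ℝ) < ((a + l + b : ℕ) : ℝ) := by
      have : 0 < a + l + b := by omega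
      exact_mod_cast this
    have h2 : Real.log Z'.card ≤ P t * ((a + l + b : ℕ) : ℝ) + t * (E + E0) := by
      have h3 := mul_le_mul_of_nonneg_left hint ht.le
      have h4 : Real.log Z'.card / ((a + l + b : ℕ) : ℝ) ≤
          (P t * ((a + l + b : ℕ) : ℝ) + t * (E + E0)) / ((a + l + b : ℕ) : ℝ) := by
        rw [add_div, mul_div_assoc, div_self hm.ne', mul_one, mul_div_assoc]
        linarith only [h1, h3]
      exact (div_le_div_iff_of_pos_right hm).1 h4
    have h5 : (a : ℝ) + b ≤ 2 * M := by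
      have : a + b ≤ 2 * M := by omega
      exact_mod_cast this
    have h7 : (a + b : ℝ) * P t ≤ 2 * M * |P t| :=
      (mul_le_mul_of_nonneg_left (le_abs_self _) (by positivity)).trans
        (mul_le_mul_of_nonneg_right h5 (abs_nonneg _))
    rw [← Real.exp_add]
    have hq0 : (0 : ℝ) < Z'.card := by exact_mod_cast hq1
    rw [← Real.log_le_iff_le_exp hq0]
    push_cast at h2
    linarith only [h2, h7]
  rw [Finset.card_eq_sum_card_fiberwise hmaps]
  push_cast
  refine (Finset.sum_le_sum hfib).trans (le_of_eq ?_)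
  rw [Finset.sum_const, Finset.card_product, Nat.card_Icc, nsmul_eq_mul]
  simp only [Nat.add_sub_cancel]
  push_cast
  ring

/-- growth bound for separated sets in `Ω` -/
def Sep {X : Type} [MetricSpace X] (f : X → X) (Ω : Set X) (b : ℝ) : Prop :=
  ∀ r > (0 : ℝ), ∀ β > b, ∃ D : ℝ, 0 < D ∧ ∀ (n : ℕ) (Z : Finset X), (∀ z ∈ Z, z ∈ Ω) →
    (∀ z ∈ Z, ∀ z' ∈ Z, z ≠ z' → ∃ j < n, r < dist (f^[j] z) (f^[j] z')) →
    (Z.card : ℝ) ≤ D * Real.exp (β * n)

theorem qa_sep {X : Type} [MetricSpace X] {f : X → X} {ψ : X → ℝ} {P : ℝ → ℝ} {Ω : Set X} {b : ℝ}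
    (hC : ∀ r > (0 : ℝ), ∃ η > (0 : ℝ), ∃ Kc, 0 ≤ Kc ∧ Close f ψ P r η Kc)
    (hb : Tendsto P atTop (𝓝 b)) (hz : ∀ x ∈ Ω, ψ x = 0) (hf : ∀ x ∈ Ω, f x ∈ Ω) : Sep f Ω b := by
  intro r hr β hβ
  obtain ⟨η, hη, Kc, -, h⟩ := hC r hr
  obtain ⟨t, ht1, ht2⟩ := ((hb.eventually (gt_mem_nhds hβ)).and (eventually_gt_atTop 0)).exists
  obtain ⟨D, hD, h⟩ := h t ht2
  refine ⟨D, hD, fun n Z hZ hsep => (h X Z n (fun z j => f^[j] z) 0 (fun z hzZ => ⟨?_, ?_⟩)
    hsep).trans ?_⟩
  · intro j _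
    simp only [Function.iterate_succ_apply', dist_self]
    exact hη.le
  · refine le_of_eq (Finset.sum_eq_zero fun j _ => ?_)
    simp only [Function.iterate_succ_apply', dist_self]
    rw [hz _ (tj_fwd hf j _ (hZ _ hzZ))]
    ring
  · refine mul_le_mul_of_nonneg_left (Real.exp_le_exp.2 ?_) hD.le
    have := mul_le_mul_of_nonneg_right ht1.le (Nat.cast_nonneg (α := ℝ) n)
    linarith only [this]

end close

end Pool.Agent.MP_80da8f_an

end

section

open MeasureTheory Filter Topology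

namespace Pool.Agent.MP_80da8f_an

/-- a separated partition of `Ω` with small cells -/
def Lab {X : Type} [MetricSpace X] (Ω : Set X) {k : ℕ} (ξ : X → Fin k) (e r : ℝ) : Prop :=
  ∀ x ∈ Ω, ∀ y ∈ Ω, (ξ x = ξ y → dist x y ≤ e) ∧ (dist x y ≤ r → ξ x = ξ y)

open Classical in
/-- the itineraries of the points of a set -/
noncomputable def words {X : Type} (f : X → X) (Ω : Set X) {k : ℕ} (ξ : X → Fin k) (l : ℕ) :
    Finset (Fin l → Fin k) := Finset.univ.filter fun w => ∃ y ∈ Ω, itin f ξ l y = w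

theorem mem_words {X : Type} {f : X → X} {Ω : Set X} {k : ℕ} {ξ : X → Fin k} {l : ℕ}
    {w : Fin l → Fin k} : w ∈ words f Ω ξ l ↔ ∃ y ∈ Ω, itin f ξ l y = w := by
  simp [words]

theorem qb_code {X : Type} [MetricSpace X] [CompactSpace X] [Nonempty X] [MeasurableSpace X]
    [BorelSpace X] {f : X → X} {L : ℝ} {N : ℕ} {e : ℝ} (hS : Sys f L N e)
    {Ω : Set X} (hf : ∀ x ∈ Ω, f x ∈ Ω) {k : ℕ} {ξ : X → Fin k} {r : ℝ} (hr : 0 < r)
    (hξ : Lab Ω ξ (e / 2) r) (l : ℕ) : ∃ ρ > (0 : ℝ), ∃ R : ℕ, 1 ≤ R ∧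
      ∃ c : X → (words f Ω ξ l) ⊕ (Fin l → Fin R), (∀ s, MeasurableSet (c ⁻¹' {s})) ∧
        (∀ x y, c x = c y → ∀ j < l, dist (f^[j] x) (f^[j] y) ≤ e) ∧
        ∀ x y, ∀ hy : y ∈ Ω, dist x y < ρ →
          c x = .inl ⟨itin f ξ l y, mem_words.2 ⟨y, hy, rfl⟩⟩ := by
  classical
  have he := hS.epos
  have hL0 : 0 < L := by linarith only [hS.one_le]
  have hfm : Measurable f := (continuous_of_lip hS.one_le hS.lip).measurable
  obtain ⟨ρ, hρ, hρ1, hρ2⟩ : ∃ ρ > (0 : ℝ), L ^ l * ρ ≤ e / 4 ∧ L ^ l * ρ ≤ r / 2 := by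
    refine ⟨min (e / 4) (r / 2) / L ^ l, by positivity, ?_, ?_⟩ <;>
      rw [mul_div_cancel₀ _ (by positivity)]
    · exact min_le_left _ _
    · exact min_le_right _ _
  have hit : ∀ x y, ∀ j < l, dist (f^[j] x) (f^[j] y) ≤ L ^ l * dist x y := fun x y j hj =>
    (tv_iter_lip hL0.le hS.lip j x y).trans
      (mul_le_mul_of_nonneg_right (pow_le_pow_right₀ hS.one_le hj.le) dist_nonneg)
  have hit' : ∀ x y, dist x y < ρ → ∀ j < l, dist (f^[j] x) (f^[j] y) ≤ L ^ l * ρ :=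
    fun x y h j hj => (hit x y j hj).trans (mul_le_mul_of_nonneg_left h.le (by positivity))
  obtain ⟨R, ζ, hR, hζ, hcell⟩ := sPart X e he
  set G := Metric.thickening ρ Ω with hG
  have hGm : MeasurableSet G := Metric.isOpen_thickening.measurableSet
  have hnear : ∀ x, ∃ y, x ∈ G → y ∈ Ω ∧ dist x y < ρ := fun x => by
    by_cases h : x ∈ G
    · obtain ⟨y, h1, h2⟩ := Metric.mem_thickening_iff.1 h
      exact ⟨y, fun _ => ⟨h1, h2⟩⟩
    · exact ⟨x, fun h' => absurd h' h⟩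
  choose nr hnr using hnear
  let c : X → (words f Ω ξ l) ⊕ (Fin l → Fin R) := fun x =>
    if h : x ∈ G then .inl ⟨itin f ξ l (nr x), mem_words.2 ⟨_, (hnr x h).1, rfl⟩⟩
    else .inr (itin f ζ l x)
  have hk : ∀ x y, ∀ hy : y ∈ Ω, dist x y < ρ →
      c x = .inl ⟨itin f ξ l y, mem_words.2 ⟨y, hy, rfl⟩⟩ := fun x y h1 h3 => by
    have hx : x ∈ G := Metric.mem_thickening_iff.2 ⟨y, h1, h3⟩
    simp only [c, dif_pos hx]
    congr 1
    refine Subtype.ext (funext fun j => ?_)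
    refine (hξ _ (tj_fwd hf j _ (hnr x hx).1) _ (tj_fwd hf j _ h1)).2 ?_
    have a1 := hit' _ _ (hnr x hx).2 j j.2
    have a2 := hit' _ _ h3 j j.2
    linarith only [dist_triangle_left (f^[j] (nr x)) (f^[j] y) (f^[j] x), a1, a2, hρ2]
  have hcm : ∀ s, MeasurableSet (c ⁻¹' {s}) := by
    rintro (w | w)
    · have : c ⁻¹' {.inl w} = Metric.thickening ρ {y ∈ Ω | itin f ξ l y = w} := by
        ext x
        simp only [Set.mem_preimage, Set.mem_singleton_iff, Metric.mem_thickening_iff]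
        constructor
        · intro h
          simp only [c] at h
          by_cases hx : x ∈ G
          · rw [dif_pos hx] at h
            exact ⟨nr x, ⟨(hnr x hx).1, congrArg Subtype.val (Sum.inl.inj h)⟩, (hnr x hx).2⟩
          · rw [dif_neg hx] at h
            exact absurd h (by simp)
        · rintro ⟨y, ⟨h1, h2⟩, h3⟩
          exact (hk x y h1 h3).trans (congrArg _ (Subtype.ext h2))
      rw [this]
      exact Metric.isOpen_thickening.measurableSet
    · have : c ⁻¹' {.inr w} = Gᶜ ∩ itin f ζ l ⁻¹' {w} := by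
        ext x
        by_cases hx : x ∈ G <;> simp [c, hx]
      rw [this]
      exact hGm.compl.inter (tf_meas_itin hfm hζ l (measurableSet_singleton w))
  have hc : ∀ x y, c x = c y → ∀ j < l, dist (f^[j] x) (f^[j] y) ≤ e := by
    intro x y h j hj
    by_cases hx : x ∈ G <;> by_cases hy : y ∈ G <;> simp only [c, hx, hy, dif_pos, dif_neg,
      not_false_eq_true, Sum.inl.injEq, Sum.inr.injEq, Subtype.mk.injEq, reduceCtorEq] at h
    · have a0 := (hξ _ (tj_fwd hf j _ (hnr x hx).1) _ (tj_fwd hf j _ (hnr y hy).1)).1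
        (congrFun h ⟨j, hj⟩)
      have a1 := hit' _ _ (hnr x hx).2 j hj
      have a2 := hit' _ _ (hnr y hy).2 j hj
      linarith only [dist_triangle4_right (f^[j] x) (f^[j] y) (f^[j] (nr x)) (f^[j] (nr y)), a0, a1,
        a2, hρ1]
    · exact hcell _ _ (congrFun h ⟨j, hj⟩)
  exact ⟨ρ, hρ, R, hR, c, hcm, hc, hk⟩

theorem qb_words {X : Type} [MetricSpace X] [CompactSpace X] [Nonempty X] [MeasurableSpace X]
    [BorelSpace X] {f : X → X} {L : ℝ} {N : ℕ} {e : ℝ} (hS : Sys f L N e) {ψ : X → ℝ}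
    {Ω : Set X} (hf : ∀ x ∈ Ω, f x ∈ Ω) (hpay : Pay f ψ Ω) {P : ℝ → ℝ} {b : ℝ}
    (hP : ∀ t > (0 : ℝ), ∀ z : ℝ,
      (∀ μ, Inv f μ → ksEntropy μ f ≤ ((z + t * ∫ x, ψ x ∂μ : ℝ) : EReal)) → P t ≤ z)
    (hb : Tendsto P atTop (𝓝 b)) {k : ℕ} {ξ : X → Fin k} {r : ℝ} (hr : 0 < r)
    (hξ : Lab Ω ξ (e / 2) r) {l : ℕ} (hl : 1 ≤ l) :
    Real.exp (b * l) ≤ (words f Ω ξ l).card := by
  classical
  have hl0 : (0 : ℝ) < l := by exact_mod_cast hl
  obtain ⟨ρ, hρ, R, hR, c, hcm, hc, hk⟩ := qb_code hS hf hr hξ l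
  obtain ⟨c0, hc0, hcp⟩ := hpay ρ hρ
  set G := Metric.thickening ρ Ω with hG
  have hGm : MeasurableSet G := Metric.isOpen_thickening.measurableSet
  by_contra hcon
  push Not at hcon
  obtain ⟨w, hw0, hw1, hw2⟩ : ∃ w > (0 : ℝ), ((words f Ω ξ l).card : ℝ) ≤ w ∧
      Real.log w < b * l := by
    have := Real.exp_pos (b * l)
    have h0 : (0 : ℝ) ≤ (words f Ω ξ l).card := Nat.cast_nonneg _
    refine ⟨((words f Ω ξ l).card + Real.exp (b * l)) / 2, by positivity,
      by linarith only [hcon], ?_⟩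
    rw [Real.log_lt_iff_lt_exp (by positivity)]
    linarith only [hcon]
  obtain ⟨ε, hε, hεw⟩ : ∃ ε > (0 : ℝ), Real.log w + 2 * ε = b * l :=
    ⟨(b * l - Real.log w) / 2, by linarith only [hw2], by ring⟩
  have hs0 : 0 < 1 - Real.exp (-ε) := sub_pos.2 (Real.exp_lt_one_iff.2 (by linarith only [hε]))
  have hR0 : (0 : ℝ) < (R : ℝ) ^ l := by
    have : (0 : ℝ) < R := by exact_mod_cast hR
    positivity
  let q3 : (words f Ω ξ l) ⊕ (Fin l → Fin R) → ℝ :=
    Sum.elim (fun _ => Real.exp (-ε) / w) fun _ => (1 - Real.exp (-ε)) / (R : ℝ) ^ l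
  have h3p : ∀ s, 0 < q3 s := by
    rintro (s | s) <;> simp only [q3, Sum.elim_inl, Sum.elim_inr] <;> positivity
  have h31 : ∑ s, q3 s ≤ 1 := by
    simp only [q3, Fintype.sum_sum_type, Sum.elim_inl, Sum.elim_inr, Finset.sum_const,
      Finset.card_univ, Fintype.card_coe, Fintype.card_fun, Fintype.card_fin, nsmul_eq_mul]
    push_cast
    rw [mul_div_cancel₀ _ hR0.ne']
    have : ((words f Ω ξ l).card : ℝ) * (Real.exp (-ε) / w) ≤ w * (Real.exp (-ε) / w) := by
      gcongr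
    rw [mul_div_cancel₀ _ hw0.ne'] at this
    linarith only [this]
  set B := |-Real.log ((1 - Real.exp (-ε)) / (R : ℝ) ^ l) - (Real.log w + ε)| with hB
  have hq : ∀ x, -Real.log (q3 (c x)) ≤ (Real.log w + ε) + if x ∈ G then 0 else B := by
    intro x
    have a : -Real.log (Real.exp (-ε) / w) = Real.log w + ε := by
      rw [Real.log_div (Real.exp_pos _).ne' hw0.ne', Real.log_exp]
      ring
    by_cases hx : x ∈ G
    · obtain ⟨y, h1, h2⟩ := Metric.mem_thickening_iff.1 hx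
      simp only [hk x y h1 h2, q3, if_pos hx, Sum.elim_inl, a, add_zero, le_refl]
    · rw [if_neg hx]
      rcases c x with s | s
      · simp only [q3, Sum.elim_inl, a]
        exact le_add_of_nonneg_right (abs_nonneg _)
      · simp only [q3, Sum.elim_inr]
        linarith only [le_abs_self (-Real.log ((1 - Real.exp (-ε)) / (R : ℝ) ^ l) -
          (Real.log w + ε)), hB]
  have hle : b ≤ (Real.log w + ε) / l := by
    refine le_of_tendsto hb ?_
    filter_upwards [eventually_ge_atTop (B / (c0 * l)), eventually_gt_atTop 0] with t ht ht0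
    refine hP t ht0 _ fun μ hμ => ?_
    have := hμ.1
    have hi := tf_int (MeasurePreserving.id μ) hGm (Real.log w + ε) B
    refine (qa_gen (sRate X f L N e hS) hμ hcm hl hc q3 h3p h31 hi.1 hq).trans
      (EReal.coe_le_coe_iff.2 ?_)
    rw [hi.2]
    rw [div_le_iff₀ (by positivity)] at ht
    have a1 := mul_le_mul_of_nonneg_left ht (measureReal_nonneg (μ := μ) (s := Gᶜ))
    have a2 := mul_le_mul_of_nonneg_left (hcp μ hμ) (mul_pos ht0 hl0).le
    rw [add_div, add_le_add_iff_left, div_le_iff₀ hl0]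
    linarith only [a1, a2]
  rw [le_div_iff₀ hl0] at hle
  linarith only [hle, hεw, hε]

theorem qb_short {A : Type} (R : A → A → Prop) (hr : ∀ a, R a a) (hs : ∀ a b, R a b → R b a)
    (S : Set A) (B : ℝ)
    (hB : ∀ Z : Finset A, (∀ z ∈ Z, z ∈ S) → (∀ z ∈ Z, ∀ z' ∈ Z, z ≠ z' → ¬ R z z') →
      (Z.card : ℝ) ≤ B) (n : ℕ) :
    ∀ c : ℕ → A, (∀ j ≤ n, c j ∈ S) → (∀ j < n, R (c j) (c (j + 1))) →
      ∃ (n' : ℕ) (c' : ℕ → A), (n' : ℝ) ≤ 2 * B ∧ (∀ j ≤ n', c' j ∈ S) ∧
        (∀ j < n', R (c' j) (c' (j + 1))) ∧ c' 0 = c 0 ∧ c' n' = c n := by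
  classical
  induction n using Nat.strong_induction_on with
  | _ n ih =>
    intro c hS hR
    by_cases h : ∃ i d, i + d + 2 ≤ n ∧ R (c i) (c (i + d + 2))
    · obtain ⟨i, d, h1, h2⟩ := h
      obtain ⟨n', c', a1, a2, a3, a4, a5⟩ := ih (n - (d + 1)) (by omega)
        (fun j => if j ≤ i then c j else c (j + (d + 1))) (fun j hj => by
          split_ifs <;> exact hS _ (by omega)) (fun j hj => by
          by_cases b1 : j + 1 ≤ i
          · rw [if_pos (by omega), if_pos b1]; exact hR _ (by omega)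
          · by_cases b2 : j ≤ i
            · rw [if_pos b2, if_neg b1]
              obtain rfl : j = i := by omega
              rw [show j + 1 + (d + 1) = j + d + 2 by ring]
              exact h2
            · rw [if_neg b2, if_neg b1, Nat.add_right_comm]; exact hR _ (by omega))
      refine ⟨n', c', a1, a2, a3, by simpa using a4, ?_⟩
      rw [a5, if_neg (by omega), Nat.sub_add_cancel (by omega)]
    · push Not at h
      have key : ∀ i i', i ≠ i' → 2 * i ≤ n → 2 * i' ≤ n → ¬ R (c (2 * i)) (c (2 * i')) := by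
        intro i i' hne h1 h2 hh
        rcases Nat.lt_or_gt_of_ne hne with h3 | h3
        · refine h (2 * i) (2 * (i' - i - 1)) (by omega) ?_
          rwa [show 2 * i + 2 * (i' - i - 1) + 2 = 2 * i' by omega]
        · refine h (2 * i') (2 * (i - i' - 1)) (by omega) ?_
          rw [show 2 * i' + 2 * (i - i' - 1) + 2 = 2 * i by omega]
          exact hs _ _ hh
      have h1 := hB ((Finset.range (n / 2 + 1)).image fun i => c (2 * i)) (fun z hz => by
        obtain ⟨i, hi, rfl⟩ := Finset.mem_image.1 hz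
        exact hS _ (by have := Finset.mem_range.1 hi; omega)) (fun z hz z' hz' hne => by
        obtain ⟨i, hi, rfl⟩ := Finset.mem_image.1 hz
        obtain ⟨i', hi', rfl⟩ := Finset.mem_image.1 hz'
        have := Finset.mem_range.1 hi
        have := Finset.mem_range.1 hi'
        exact key i i' (fun h => hne (by rw [h])) (by omega) (by omega))
      rw [Finset.card_image_of_injOn (fun i hi i' hi' hh => by
        by_contra hne
        have := Finset.mem_range.1 (Finset.mem_coe.1 hi)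
        have := Finset.mem_range.1 (Finset.mem_coe.1 hi')
        refine key i i' hne (by omega) (by omega) ?_
        rw [show c (2 * i) = c (2 * i') from hh]
        exact hr _), Finset.card_range] at h1
      refine ⟨n, c, ?_, hS, hR, rfl, rfl⟩
      have h2 : (n : ℝ) ≤ 2 * ((n / 2 + 1 : ℕ) : ℝ) := by exact_mod_cast (by omega)
      linarith only [h1, h2]

/-- full orbits of a bijection -/
structure Flow {X : Type} [MetricSpace X] (f : X → X) (Ω : Set X) (o : X → ℤ → X) : Prop where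
  zero : ∀ x, o x 0 = x
  orb : ∀ x, Orb f (o x)
  uniq : ∀ α, Orb f α → ∀ t, α t = o (α 0) t
  mem : ∀ x ∈ Ω, ∀ t, o x t ∈ Ω
  unif : ∀ (n : ℕ), ∀ ε > (0 : ℝ), ∃ δ > (0 : ℝ), ∀ x y, dist x y ≤ δ → ∀ t : ℤ, |t| ≤ n →
    dist (o x t) (o y t) ≤ ε

theorem qb_flow {X : Type} [MetricSpace X] [CompactSpace X] {f : X → X} (hc : Continuous f)
    (hb : Function.Bijective f) {Ω : Set X} (hf : ∀ x ∈ Ω, f x ∈ Ω)
    (hw : ∀ x ∈ Ω, ∃ w ∈ Ω, f w = x) : ∃ o, Flow f Ω o := by
  let E : Equiv.Perm X := Equiv.ofBijective f hb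
  have hci : Continuous E.symm := Continuous.continuous_symm_of_equiv_compact_to_t2 (f := E) hc
  have h1 : ∀ (t : ℤ) x, (E ^ (t + 1)) x = f ((E ^ t) x) := fun t x => by
    rw [add_comm, zpow_one_add]; rfl
  have h2 : ∀ (t : ℤ) x, (E ^ (t - 1)) x = E.symm ((E ^ t) x) := fun t x => by
    rw [Equiv.eq_symm_apply]
    have := h1 (t - 1) x
    rw [sub_add_cancel] at this
    exact this.symm
  have hct : ∀ t : ℤ, Continuous fun x => (E ^ t) x := fun t => by
    induction t using Int.induction_on with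
    | zero => exact continuous_id
    | succ i ih => simp only [h1]; exact hc.comp ih
    | pred i ih => simp only [h2]; exact hci.comp ih
  refine ⟨fun x t => (E ^ t) x, fun x => rfl, fun x t => h1 t x, fun α hα t => ?_,
    fun x hx t => ?_, fun n ε hε => ?_⟩
  · induction t using Int.induction_on with
    | zero => rfl
    | succ i ih => rw [h1, ← ih, hα]
    | pred i ih =>
      rw [h2, ← ih, Equiv.eq_symm_apply]
      have := hα (-(i : ℤ) - 1)
      rw [sub_add_cancel] at this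
      exact this.symm
  · induction t using Int.induction_on with
    | zero => exact hx
    | succ i ih => rw [h1]; exact hf _ ih
    | pred i ih =>
      obtain ⟨w, hw1, hw2⟩ := hw _ ih
      rw [h2, ← hw2]
      rwa [show E.symm (f w) = w from E.symm_apply_apply w]
  · have hu : UniformContinuous fun x => fun t : Set.Icc (-(n : ℤ)) n => (E ^ (t : ℤ)) x :=
      CompactSpace.uniformContinuous_of_continuous (continuous_pi fun t => hct t)
    obtain ⟨δ, hδ, h⟩ := Metric.uniformContinuous_iff_le.1 hu ε hε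
    exact ⟨δ, hδ, fun x y hxy t ht => (dist_le_pi_dist _ _ (⟨t, abs_le.1 ht⟩ : Set.Icc _ _)).trans
      (h hxy)⟩

theorem Orb.iter {X : Type} {f : X → X} {α : ℤ → X} (h : Orb f α) (t : ℤ) (j : ℕ) :
    f^[j] (α t) = α (t + j) := by
  induction j with
  | zero => simp
  | succ j ih => rw [Function.iterate_succ_apply', ih, ← h]; push_cast; rw [add_assoc]

theorem RateNear.orb {X : Type} [MetricSpace X] {f : X → X} {Ω : Set X} {e C κ : ℝ}
    (h : RateNear f Ω e C κ) {α β : ℤ → X} (hα : Orb f α) (hβ : Orb f β)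
    (hn : ∀ j, ∃ p ∈ Ω, dist (α j) p ≤ e) (t : ℤ) (n : ℕ)
    (hd : ∀ j, t - n ≤ j → j ≤ t + n → dist (α j) (β j) ≤ e) :
    dist (α t) (β t) ≤ C * Real.exp (-κ * n) := by
  have := h n (α (t - n)) (β (t - n)) (fun j _ => by rw [hα.iter]; exact hn _) fun j hj => by
    rw [hα.iter, hβ.iter]
    exact hd _ (by omega) (by omega)
  rwa [hα.iter, hβ.iter, sub_add_cancel] at this

theorem qb_small {β κ : ℝ} (h : β < κ) (A : ℝ) {σ : ℝ} (hσ : 0 < σ) :
    ∀ᶠ n : ℕ in atTop, A * Real.exp (β * n) * Real.exp (-κ * n) ≤ σ := by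
  have h1 : Tendsto (fun n : ℕ => A * Real.exp (-((κ - β) * n))) atTop (𝓝 (A * 0)) :=
    (Real.tendsto_exp_neg_atTop_nhds_zero.comp
      (tendsto_natCast_atTop_atTop.const_mul_atTop (sub_pos.2 h))).const_mul A
  rw [mul_zero] at h1
  filter_upwards [h1.eventually (gt_mem_nhds hσ)] with n hn
  rw [mul_assoc, ← Real.exp_add, show β * n + -κ * n = -((κ - β) * n) by ring]
  exact hn.le

theorem qb_half {X : Type} [MetricSpace X] {f : X → X} {L : ℝ} (hL : 1 ≤ L)
    (hlip : ∀ x y, dist (f x) (f y) ≤ L * dist x y) {Ω : Set X} {o : X → ℤ → X} (ho : Flow f Ω o)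
    {e C κ b η : ℝ} (he : 0 < e) (hC : 0 ≤ C) (hR : RateNear f Ω e C κ) (hsep : Sep f Ω b)
    (hb : b < κ) (hη : 0 < η) (hsh : Shad f η (e / 4)) (s : ℤ) (hs : s = 1 ∨ s = -1) (n₀ : ℕ) :
    ∃ ρ > (0 : ℝ), ∀ p ∈ Ω, ∀ (k : ℕ) (x : ℕ → X), (∀ i ≤ k, x i ∈ Ω ∧ L * dist (x i) p ≤ η) →
      (∀ i < k, dist (x i) (x (i + 1)) ≤ ρ) → ∀ j : ℕ, j ≤ n₀ →
        dist (o (x 0) (s * j)) (o (x k) (s * j)) ≤ e := by
  classical
  obtain ⟨σ, hσ, hσ'⟩ := ho.unif n₀ (e / 2) (by positivity)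
  obtain ⟨D, hD, hD'⟩ := hsep (e / 2) (by positivity) ((b + κ) / 2) (by linarith only [hb])
  obtain ⟨n, hn⟩ := (qb_small (show (b + κ) / 2 < κ by linarith only [hb])
    (2 * D * Real.exp ((b + κ) / 2) * C) hσ).exists
  obtain ⟨ρ, hρ, hρ'⟩ := ho.unif n (e / 2) (by positivity)
  refine ⟨ρ, hρ, fun p hp k x hx hch j hj => ?_⟩
  have habs : ∀ j : ℕ, |s * j| = j := fun j => by rcases hs with rfl | rfl <;> simp
  have hπ : ∀ y, ∃ π : ℤ → X, L * dist y p ≤ η → Orb f π ∧
      ∀ t, dist (if 0 ≤ s * t then o y t else o p t) (π t) ≤ e / 4 := fun y => by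
    by_cases hy : L * dist y p ≤ η
    · obtain ⟨π, h1, h2⟩ := hsh (fun t => if 0 ≤ s * t then o y t else o p t) fun t => by
        by_cases a1 : 0 ≤ s * t <;> by_cases a2 : 0 ≤ s * (t + 1)
        · rw [if_pos a1, if_pos a2, ho.orb, dist_self]; exact hη.le
        · obtain rfl : t = 0 := by rcases hs with rfl | rfl <;> omega
          rw [if_pos a1, if_neg a2, ho.orb, ho.zero, ho.zero]
          exact (hlip _ _).trans hy
        · obtain rfl : t = -1 := by rcases hs with rfl | rfl <;> omega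
          rw [if_neg a1, if_pos a2, ← ho.orb, neg_add_cancel, ho.zero, ho.zero, dist_comm]
          exact (le_mul_of_one_le_left dist_nonneg hL).trans hy
        · rw [if_neg a1, if_neg a2, ho.orb, dist_self]; exact hη.le
      exact ⟨π, fun _ => ⟨h1, h2⟩⟩
    · exact ⟨fun _ => y, fun h => absurd h hy⟩
  choose π hπ using hπ
  obtain ⟨k', c, a1, a2, a3, a4, a5⟩ := qb_short
    (fun y y' => ∀ j : ℕ, j ≤ n → dist (o y (s * j)) (o y' (s * j)) ≤ e / 2)
    (fun y j _ => by rw [dist_self]; positivity) (fun y y' h j hj => dist_comm (o y' _) _ ▸ h j hj)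
    {y | y ∈ Ω ∧ L * dist y p ≤ η} (D * Real.exp ((b + κ) / 2 * (n + 1 : ℕ))) (fun Z h1 h2 => by
      have hinj : Function.Injective fun z => o z (min 0 (s * n)) := fun z z' h => by
        have b1 := ho.uniq (fun t => o z (t + min 0 (s * n))) (fun t => by
          simp only [add_right_comm t 1, ho.orb _ _]) (-min 0 (s * n))
        have b2 := ho.uniq (fun t => o z' (t + min 0 (s * n))) (fun t => by
          simp only [add_right_comm t 1, ho.orb _ _]) (-min 0 (s * n))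
        simp only [neg_add_cancel, ho.zero, zero_add] at b1 b2 h
        rw [b1, b2, h]
      rw [← Finset.card_image_of_injective Z hinj]
      refine hD' (n + 1) _ (fun z hz => ?_) fun z hz z' hz' hne => ?_
      · obtain ⟨y, hy, rfl⟩ := Finset.mem_image.1 hz
        exact ho.mem _ (h1 y hy).1 _
      · obtain ⟨y, hy, rfl⟩ := Finset.mem_image.1 hz
        obtain ⟨y', hy', rfl⟩ := Finset.mem_image.1 hz'
        have := h2 y hy y' hy' fun h => hne (by rw [h])
        push Not at this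
        obtain ⟨j, hj, hd⟩ := this
        refine ⟨(s * j - min 0 (s * n)).toNat, by rcases hs with rfl | rfl <;> omega, ?_⟩
        rwa [(ho.orb _).iter, (ho.orb _).iter,
          show min 0 (s * n) + ((s * j - min 0 (s * n)).toNat : ℤ) = s * j by
            rcases hs with rfl | rfl <;> omega])
    k x hx fun i hi j hj => hρ' _ _ (hch i hi) _ (by rw [habs]; exact_mod_cast hj)
  have hstep : ∀ i < k', dist (π (c i) 0) (π (c (i + 1)) 0) ≤ C * Real.exp (-κ * n) := by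
    intro i hi
    obtain ⟨b1, b2⟩ := hπ _ (a2 i hi.le).2
    obtain ⟨b3, b4⟩ := hπ _ (a2 (i + 1) hi).2
    refine hR.orb b1 b3 (fun t => ⟨_, ?_, dist_comm (π (c i) t) _ ▸ (b2 t).trans
      (by linarith only [he])⟩) 0 n fun t h1 h2 => ?_
    · split_ifs
      · exact ho.mem _ (a2 i hi.le).1 _
      · exact ho.mem _ hp _
    · have b5 := b2 t
      have b6 := b4 t
      by_cases h : 0 ≤ s * t
      · rw [if_pos h] at b5 b6
        have b7 := a3 i hi t.natAbs (by omega)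
        rw [show s * (t.natAbs : ℤ) = t by rcases hs with rfl | rfl <;> omega] at b7
        linarith only [dist_triangle4_left (o (c i) t) (o (c (i + 1)) t) (π (c i) t)
          (π (c (i + 1)) t), b5, b6, b7]
      · rw [if_neg h] at b5 b6
        linarith only [dist_triangle_left (π (c i) t) (π (c (i + 1)) t) (o p t), b5, b6, he]
  have htot : dist (π (x 0) 0) (π (x k) 0) ≤ σ := by
    have b1 := dist_le_range_sum_of_dist_le (f := fun i => π (c i) 0) k'
      (d := fun _ => C * Real.exp (-κ * n)) fun hi => hstep _ hi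
    rw [a4, a5, Finset.sum_const, Finset.card_range, nsmul_eq_mul] at b1
    refine b1.trans (le_trans ?_ hn)
    refine (mul_le_mul_of_nonneg_right a1 (by positivity)).trans (le_of_eq ?_)
    push_cast
    rw [mul_add, mul_one, Real.exp_add]
    ring
  obtain ⟨b1, b2⟩ := hπ _ (hx 0 (Nat.zero_le _)).2
  obtain ⟨b3, b4⟩ := hπ _ (hx k le_rfl).2
  have b5 := hσ' _ _ htot (s * j) (by rw [habs]; exact_mod_cast hj)
  rw [← ho.uniq _ b1, ← ho.uniq _ b3] at b5
  have b6 := b2 (s * j)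
  have b7 := b4 (s * j)
  rw [if_pos (by rcases hs with rfl | rfl <;> omega)] at b6 b7
  linarith only [dist_triangle4_right (o (x 0) (s * j)) (o (x k) (s * j)) (π (x 0) (s * j))
    (π (x k) (s * j)), b5, b6, b7]

theorem qb_part {X : Type} [MetricSpace X] [CompactSpace X] [Nonempty X] [MeasurableSpace X]
    [BorelSpace X] {f : X → X} {L : ℝ} (hL : 1 ≤ L)
    (hlip : ∀ x y, dist (f x) (f y) ≤ L * dist x y) {Ω : Set X} {o : X → ℤ → X} (ho : Flow f Ω o)
    {e C κ b : ℝ} (he : 0 < e) (hC : 0 ≤ C) (hR : RateNear f Ω e C κ) (hsep : Sep f Ω b)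
    (hb : b < κ) (hκ : 0 < κ) (hsh : ∀ ε > (0 : ℝ), ∃ η > (0 : ℝ), Shad f η ε) {e₁ : ℝ}
    (he₁ : 0 < e₁) : ∃ (k : ℕ) (ξ : X → Fin k), ∃ r > (0 : ℝ), Lab Ω ξ e₁ r := by
  classical
  obtain ⟨η, hη, hsh⟩ := hsh (e / 4) (by positivity)
  have hL0 : 0 < L := by linarith only [hL]
  set σ := min e₁ (η / L / 2) with hσ
  have hσ0 : 0 < σ := lt_min he₁ (by positivity)
  obtain ⟨n₀, hn₀⟩ := (qb_small hκ C hσ0).exists
  rw [zero_mul, Real.exp_zero, mul_one] at hn₀
  obtain ⟨ρ₁, h1, h1'⟩ := qb_half hL hlip ho he hC hR hsep hb hη hsh 1 (.inl rfl) n₀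
  obtain ⟨ρ₂, h2, h2'⟩ := qb_half hL hlip ho he hC hR hsep hb hη hsh (-1) (.inr rfl) n₀
  set ρ := min (min ρ₁ ρ₂) (η / L / 2) with hρ
  have hρ0 : 0 < ρ := lt_min (lt_min h1 h2) (by positivity)
  have hchain : ∀ (x : ℕ → X) (k : ℕ), (∀ i ≤ k, x i ∈ Ω) → (∀ i < k, dist (x i) (x (i + 1)) ≤ ρ) →
      ∀ i ≤ k, dist (x 0) (x i) ≤ σ := by
    intro x k
    induction k with
    | zero => intro _ _ i hi; rw [Nat.le_zero.1 hi, dist_self]; exact hσ0.le
    | succ k ih =>
      intro hx hc i hi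
      have ih' := ih (fun i hi => hx i (by omega)) fun i hi => hc i (by omega)
      rcases Nat.lt_or_ge i (k + 1) with h | h
      · exact ih' i (by omega)
      obtain rfl : i = k + 1 := by omega
      have hball : ∀ i ≤ k + 1, x i ∈ Ω ∧ L * dist (x i) (x 0) ≤ η := fun i hi => by
        refine ⟨hx i hi, ?_⟩
        rw [mul_comm, ← le_div_iff₀ hL0, dist_comm]
        have a1 : σ ≤ η / L / 2 := min_le_right _ _
        have a2 : ρ ≤ η / L / 2 := min_le_right _ _
        rcases Nat.lt_or_ge i (k + 1) with h | h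
        · linarith only [ih' i (by omega), a1, hσ0]
        · obtain rfl : i = k + 1 := by omega
          linarith only [dist_triangle (x 0) (x k) (x (k + 1)), ih' k le_rfl, hc k (by omega),
            a1, a2]
      have a3 := hR.orb (ho.orb (x 0)) (ho.orb (x (k + 1))) (fun t =>
        ⟨_, ho.mem _ (hx 0 (by omega)) t, by rw [dist_self]; exact he.le⟩) 0 n₀ fun t b1 b2 => by
          rcases le_total 0 t with b3 | b3
          · have := h1' _ (hx 0 (by omega)) _ x hball (fun i hi => (hc i hi).trans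
              ((min_le_left _ _).trans (min_le_left _ _))) t.natAbs (by omega)
            rwa [show (1 : ℤ) * (t.natAbs : ℤ) = t by omega] at this
          · have := h2' _ (hx 0 (by omega)) _ x hball (fun i hi => (hc i hi).trans
              ((min_le_left _ _).trans (min_le_right _ _))) t.natAbs (by omega)
            rwa [show (-1 : ℤ) * (t.natAbs : ℤ) = t by omega] at this
      rw [ho.zero, ho.zero] at a3
      exact a3.trans hn₀
  let T : X → X → Prop := Relation.ReflTransGen fun x y => x ∈ Ω ∧ y ∈ Ω ∧ dist x y ≤ ρ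
  have hTs : ∀ x y, T x y → T y x := fun x y h => by
    induction h with
    | refl => exact .refl
    | tail _ h ih => exact .head ⟨h.2.1, h.1, by rw [dist_comm]; exact h.2.2⟩ ih
  have hT : ∀ x ∈ Ω, ∀ y, T x y → ∃ (k : ℕ) (c : ℕ → X), (∀ i ≤ k, c i ∈ Ω) ∧
      (∀ i < k, dist (c i) (c (i + 1)) ≤ ρ) ∧ c 0 = x ∧ c k = y := by
    intro x hx y h
    induction h with
    | refl => exact ⟨0, fun _ => x, fun _ _ => hx, fun _ h => absurd h (by omega), rfl, rfl⟩
    | @tail y z _ h ih =>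
      obtain ⟨k, c, a1, a2, a3, a4⟩ := ih
      refine ⟨k + 1, fun i => if i ≤ k then c i else z, fun i _ => ?_, fun i hi => ?_, by simpa,
        by simp⟩
      · dsimp only
        split_ifs with b
        · exact a1 i b
        · exact h.2.1
      · dsimp only
        rw [if_pos (by omega)]
        split_ifs with b
        · exact a2 i b
        · rw [show i = k by omega, a4]; exact h.2.2
  obtain ⟨k, ζ, -, -, hcell⟩ := sPart X ρ hρ0
  let V : X → Finset (Fin k) := fun x => Finset.univ.filter fun a => ∃ y, T x y ∧ ζ y = a ∧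
    (x ∈ Ω → y ∈ Ω)
  have hV : ∀ x, (V x).Nonempty := fun x => ⟨ζ x, by
    simp only [V, Finset.mem_filter, Finset.mem_univ, true_and]
    exact ⟨x, .refl, rfl, id⟩⟩
  refine ⟨k, fun x => (V x).min' (hV x), ρ, hρ0, fun x hx y hy => ⟨fun h => ?_, fun h => ?_⟩⟩
  · obtain ⟨x', a1, a2, a3⟩ := (Finset.mem_filter.1 ((V x).min'_mem (hV x))).2
    obtain ⟨y', b1, b2, b3⟩ := (Finset.mem_filter.1 ((V y).min'_mem (hV y))).2
    have hxy : T x y := (a1.tail ⟨a3 hx, b3 hy, hcell _ _ (a2.trans (h.trans b2.symm))⟩).trans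
      (hTs _ _ b1)
    obtain ⟨n, c, c1, c2, c3, c4⟩ := hT x hx y hxy
    have := hchain c n c1 c2 n le_rfl
    rw [c3, c4] at this
    exact this.trans (min_le_left _ _)
  · have hxy : T x y := .single ⟨hx, hy, h⟩
    have : V x = V y := by
      ext a
      simp only [V, Finset.mem_filter, Finset.mem_univ, true_and]
      exact ⟨fun ⟨z, a1, a2, a3⟩ => ⟨z, (hTs _ _ hxy).trans a1, a2, fun _ => a3 hx⟩,
        fun ⟨z, a1, a2, a3⟩ => ⟨z, hxy.trans a1, a2, fun _ => a3 hy⟩⟩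
    simp only [this]

end Pool.Agent.MP_80da8f_an

end

section

open MeasureTheory Filter Topology

namespace Pool.Agent.MP_80da8f_an

/-- state at time `i`: index in the base orbit and position in the inserted loop -/
def st (T : Finset ℕ) (q : ℕ) : ℕ → ℕ × ℕ
  | 0 => (0, 0)
  | i + 1 => if (st T q i).1 ∈ T ∧ (st T q i).2 < q then ((st T q i).1, (st T q i).2 + 1)
      else ((st T q i).1 + 1, 0)

/-- number of insertions before the index `j` -/
def cnt (T : Finset ℕ) (j : ℕ) : ℕ := (T.filter (· < j)).card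

/-- time at which the index `j` is reached -/
def tau (T : Finset ℕ) (q j : ℕ) : ℕ := j + q * cnt T j

theorem cnt_succ (T : Finset ℕ) (j : ℕ) : cnt T (j + 1) = cnt T j + if j ∈ T then 1 else 0 := by
  unfold cnt
  split_ifs with h
  · rw [← Finset.card_insert_of_notMem (a := j) (by simp)]
    congr 1
    ext i
    simp only [Finset.mem_filter, Finset.mem_insert]
    constructor
    · rintro ⟨a, b⟩
      by_cases c : i = j
      · exact .inl c
      · exact .inr ⟨a, by omega⟩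
    · rintro (rfl | ⟨a, b⟩)
      · exact ⟨h, by omega⟩
      · exact ⟨a, by omega⟩
  · rw [add_zero]
    congr 1
    ext i
    simp only [Finset.mem_filter]
    refine and_congr_right fun a => ?_
    have : i ≠ j := fun c => h (c ▸ a)
    omega

theorem cnt_le (T : Finset ℕ) (j : ℕ) : cnt T j ≤ T.card := Finset.card_filter_le _ _

theorem tau_succ (T : Finset ℕ) (q j : ℕ) :
    tau T q (j + 1) = tau T q j + (if j ∈ T then q else 0) + 1 := by
  unfold tau
  rw [cnt_succ]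
  split_ifs <;> ring

theorem tau_mono (T : Finset ℕ) (q : ℕ) : StrictMono (tau T q) :=
  strictMono_nat_of_lt_succ fun j => by rw [tau_succ]; omega

theorem st_inv (T : Finset ℕ) (q i : ℕ) : i = tau T q (st T q i).1 + (st T q i).2 ∧
    (st T q i).2 ≤ q ∧ (0 < (st T q i).2 → (st T q i).1 ∈ T) := by
  induction i with
  | zero => simp [st, tau, cnt]
  | succ i ih =>
    obtain ⟨h1, h2, h3⟩ := ih
    rw [st]
    split_ifs with h
    · exact ⟨by dsimp only; omega, h.2, fun _ => h.1⟩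
    · refine ⟨?_, Nat.zero_le _, fun h => absurd h (lt_irrefl _)⟩
      dsimp only
      rw [tau_succ]
      split_ifs with h4
      · have : ¬ (st T q i).2 < q := fun c => h ⟨h4, c⟩
        omega
      · have : ¬ 0 < (st T q i).2 := fun c => h4 (h3 c)
        omega

theorem st_add {T : Finset ℕ} {q i j : ℕ} (h : st T q i = (j, 0)) (hj : j ∈ T) :
    ∀ a ≤ q, st T q (i + a) = (j, a) := by
  intro a
  induction a with
  | zero => intro _; exact h
  | succ a ih =>
    intro ha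
    rw [← add_assoc, st, ih (by omega), if_pos ⟨hj, ha⟩]

theorem st_tau (T : Finset ℕ) (q j : ℕ) : st T q (tau T q j) = (j, 0) := by
  induction j with
  | zero => simp [st, tau, cnt]
  | succ j ih =>
    rw [tau_succ, st]
    by_cases hj : j ∈ T
    · rw [if_pos hj, st_add ih hj q le_rfl, if_neg (by simp)]
    · rw [if_neg hj, add_zero, ih, if_neg (by simp [hj])]

theorem tau_inj {T T' : Finset ℕ} {q : ℕ} (h : T.image (tau T q) = T'.image (tau T' q)) :
    T = T' := by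
  have key : ∀ j, tau T q j = tau T' q j → (j ∈ T ↔ j ∈ T') := fun j hj => by
    constructor <;> intro a
    · have := Finset.mem_image_of_mem (tau T q) a
      rw [h, hj] at this
      obtain ⟨i, b, c⟩ := Finset.mem_image.1 this
      rwa [← (tau_mono T' q).injective c]
    · have := Finset.mem_image_of_mem (tau T' q) a
      rw [← h, ← hj] at this
      obtain ⟨i, b, c⟩ := Finset.mem_image.1 this
      rwa [← (tau_mono T q).injective c]
  have all : ∀ j, tau T q j = tau T' q j := fun j => by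
    induction j with
    | zero => simp [tau, cnt]
    | succ j ih => rw [tau_succ, tau_succ, ih]; simp only [key j ih]
  ext j
  exact key j (all j)

/-- the sequence obtained from `x` by inserting the loop `z` at the indices in `T` -/
def ins {A : Type} (T : Finset ℕ) (q : ℕ) (x z : ℕ → A) (i : ℕ) : A :=
  if (st T q i).1 ∈ T ∧ (st T q i).2 < q then z (st T q i).2 else x (st T q i).1

theorem ins_loop {A : Type} {T : Finset ℕ} {q : ℕ} (x z : ℕ → A) {j a : ℕ} (hj : j ∈ T)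
    (ha : a < q) : ins T q x z (tau T q j + a) = z a := by
  rw [ins, st_add (st_tau T q j) hj a ha.le, if_pos ⟨hj, ha⟩]

theorem ins_base {A : Type} (T : Finset ℕ) (q : ℕ) (x z : ℕ → A) (j : ℕ) :
    ins T q x z (tau T q j + if j ∈ T then q else 0) = x j := by
  by_cases hj : j ∈ T
  · rw [if_pos hj, ins, st_add (st_tau T q j) hj q le_rfl, if_neg (by simp)]
  · rw [if_neg hj, add_zero, ins, st_tau, if_neg (by simp [hj])]

theorem ins_occ {A : Type} {T : Finset ℕ} {q : ℕ} {x z : ℕ → A}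
    (h : ∀ j, ∃ a < q, x (j + a) ≠ z a) {i : ℕ} (hi : ∀ a < q, ins T q x z (i + a) = z a) :
    ∃ j ∈ T, i ∈ Finset.Ico (tau T q j - q) (tau T q j + q) := by
  by_cases h1 : ∃ a < q, (st T q (i + a)).1 ∈ T ∧ (st T q (i + a)).2 < q
  · obtain ⟨a, a1, a2, a3⟩ := h1
    refine ⟨_, a2, Finset.mem_Ico.2 ?_⟩
    have := (st_inv T q (i + a)).1
    omega
  · push Not at h1
    have h2 : ∀ a < q, (st T q (i + a)).1 = (st T q i).1 + a := by
      intro a
      induction a with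
      | zero => intro _; rfl
      | succ a ih =>
        intro ha
        rw [← add_assoc, st, if_neg fun c => (h1 a (by omega) c.1).not_gt c.2, ih (by omega)]
        rfl
    obtain ⟨a, a1, a2⟩ := h (st T q i).1
    have := hi a a1
    rw [ins, if_neg fun c => (h1 a a1 c.1).not_gt c.2, h2 a a1] at this
    exact absurd this a2

theorem ins_cost {X : Type} [MetricSpace X] {f : X → X} {ψ : X → ℝ} (hpos : ∀ x, 0 ≤ ψ x)
    {T : Finset ℕ} {q : ℕ} {x z : ℕ → X} (hx : ∀ j, x (j + 1) = f (x j)) (hx0 : ∀ j, ψ (x j) = 0)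
    (hz : ∀ j, z (j + 1) = f (z j)) {ρ K E : ℝ} (hρ : 0 ≤ ρ) (hK : 0 ≤ K)
    (hT : ∀ j ∈ T, dist (x j) (z 0) ≤ ρ ∧ dist (z q) (x j) ≤ ρ)
    (hE : ∑ a ∈ Finset.range q, ψ (z a) ≤ E) (n : ℕ) :
    IsChain f ρ (ins T q x z) n ∧ cost f ψ K (ins T q x z) n ≤ T.card * (E + 2 * (K * ρ)) := by
  have hKρ := mul_nonneg hK hρ
  have hA : ∀ i, (st T q i).1 ∈ T ∧ (st T q i).2 < q → dist (f (ins T q x z i))
      (ins T q x z (i + 1)) ≤ if (st T q i).2 + 1 = q then ρ else 0 := fun i h => by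
    rw [ins, ins, st, if_pos h, if_pos h, ← hz]
    dsimp only
    by_cases c : (st T q i).2 + 1 = q
    · rw [if_pos c, if_neg (by omega), c]; exact (hT _ h.1).2
    · rw [if_neg c, if_pos ⟨h.1, by omega⟩, dist_self]
  have hB : ∀ i, ¬ ((st T q i).1 ∈ T ∧ (st T q i).2 < q) → dist (f (ins T q x z i))
      (ins T q x z (i + 1)) ≤ if (st T q i).1 + 1 ∈ T then ρ else 0 := fun i h => by
    rw [ins, ins, st, if_neg h, if_neg h, ← hx]
    dsimp only
    by_cases c : (st T q i).1 + 1 ∈ T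
    · rw [if_pos c]
      split_ifs
      · exact (hT _ c).1
      · rw [dist_self]; exact hρ
    · rw [if_neg c, if_neg fun d => c d.1, dist_self]
  refine ⟨fun i _ => ?_, ?_⟩
  · by_cases h : (st T q i).1 ∈ T ∧ (st T q i).2 < q
    · exact (hA i h).trans (by split_ifs; exacts [le_rfl, hρ])
    · exact (hB i h).trans (by split_ifs; exacts [le_rfl, hρ])
  have hpart : ∀ a ≤ q, K * ρ + ∑ b ∈ Finset.range a, ψ (z b) + (if a = q then K * ρ else 0) ≤
      E + 2 * (K * ρ) := fun a ha => by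
    have := Finset.sum_le_sum_of_subset_of_nonneg (f := fun b => ψ (z b))
      (Finset.range_subset_range.2 ha) fun _ _ _ => hpos _
    split_ifs <;> linarith only [this, hE, hKρ]
  have hE0 : 0 ≤ E + 2 * (K * ρ) := by
    linarith only [hE, hKρ, Finset.sum_nonneg fun a (_ : a ∈ Finset.range q) => hpos (z a)]
  have key : cost f ψ K (ins T q x z) n ≤ cnt T (st T q n).1 * (E + 2 * (K * ρ)) +
      if (st T q n).1 ∈ T then K * ρ + ∑ b ∈ Finset.range (st T q n).2, ψ (z b) +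
        (if (st T q n).2 = q then K * ρ else 0) else 0 := by
    induction n with
    | zero =>
      simp only [cost, st, cnt, Finset.range_zero, Finset.sum_empty]
      split_ifs <;> positivity
    | succ n ih =>
      rw [tg_succ]
      by_cases h : (st T q n).1 ∈ T ∧ (st T q n).2 < q
      · have a1 := mul_le_mul_of_nonneg_left (hA n h) hK
        have a2 : ψ (ins T q x z n) = ψ (z (st T q n).2) := by rw [ins, if_pos h]
        rw [if_pos h.1, if_neg h.2.ne] at ih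
        rw [st, if_pos h]
        dsimp only
        rw [if_pos h.1, Finset.sum_range_succ]
        split_ifs at a1 ⊢ <;> linarith only [a1, a2, ih]
      · have a1 := mul_le_mul_of_nonneg_left (hB n h) hK
        have a2 : ψ (ins T q x z n) = 0 := by rw [ins, if_neg h, hx0]
        have a3 := hpart _ (st_inv T q n).2.1
        rw [st, if_neg h]
        dsimp only
        rw [cnt_succ, Finset.sum_range_zero]
        split_ifs at a1 ih a3 ⊢ <;> push_cast <;> linarith only [a1, a2, a3, ih, hKρ]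
  have a1 := cnt_le T ((st T q n).1 + 1)
  rw [cnt_succ] at a1
  have a2 := hpart _ (st_inv T q n).2.1
  by_cases h : (st T q n).1 ∈ T
  · rw [if_pos h] at a1 key
    have : (cnt T (st T q n).1 : ℝ) + 1 ≤ T.card := by exact_mod_cast a1
    linarith only [mul_le_mul_of_nonneg_right this hE0, key, a2]
  · rw [if_neg h] at a1 key
    have : (cnt T (st T q n).1 : ℝ) ≤ T.card := by exact_mod_cast a1
    linarith only [mul_le_mul_of_nonneg_right this hE0, key]

/-- an orbit segment near `Ω` whose labels are not an itinerary of `Ω` -/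
structure Mark {X : Type} [MetricSpace X] (f : X → X) (ψ : X → ℝ) (Ω : Set X) {k : ℕ}
    (ξ : X → Fin k) (r E : ℝ) (q : ℕ) (z : ℕ → X) (w : ℕ → Fin k) : Prop where
  orb : ∀ j, z (j + 1) = f (z j)
  cost : ∑ a ∈ Finset.range q, ψ (z a) ≤ E
  near : ∀ a < q, ∃ p ∈ Ω, ξ p = w a ∧ dist (z a) p ≤ r / 4
  new : ∀ y ∈ Ω, ∃ a < q, ξ (f^[a] y) ≠ w a

theorem qc_count {X : Type} [MetricSpace X] {f : X → X} {ψ : X → ℝ} (hpos : ∀ x, 0 ≤ ψ x)
    {Ω : Set X} (hz : ∀ x ∈ Ω, ψ x = 0) (hf : ∀ x ∈ Ω, f x ∈ Ω) {k : ℕ} {ξ : X → Fin k}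
    {e r E : ℝ} (hr : 0 < r) (hξ : Lab Ω ξ e r) {q : ℕ} {z : ℕ → X} {w : ℕ → Fin k}
    (hM : Mark f ψ Ω ξ r E q z w) {ρ η K : ℝ} (hρ : 0 ≤ ρ) (hη : ρ ≤ η) (hK : 0 ≤ K)
    {l m : ℕ} {Bd : ℝ}
    (hC : ∀ (I : Finset (Fin (l + q * m) → Fin k)) (c : (Fin (l + q * m) → Fin k) → ℕ → X),
      (∀ i ∈ I, IsChain f η (c i) (l + q * m) ∧
        cost f ψ K (c i) (l + q * m) ≤ m * (E + 2 * (K * ρ))) →
      (∀ i ∈ I, ∀ i' ∈ I, i ≠ i' → ∃ j < l + q * m, r / 2 < dist (c i j) (c i' j)) →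
      (I.card : ℝ) ≤ Bd)
    (F : Finset X) (hF : ∀ x ∈ F, x ∈ Ω) (hinj : Set.InjOn (itin f ξ l) F) (S : X → Finset ℕ)
    (hS : ∀ x ∈ F, ∀ j ∈ S x, j < l ∧ dist (f^[j] x) (z 0) ≤ ρ ∧ dist (z q) (f^[j] x) ≤ ρ) :
    ((∑ x ∈ F, (S x).card.choose m : ℕ) : ℝ) ≤ 2 ^ (2 * q * m) * Bd := by
  classical
  let I := F.sigma fun x => (S x).powersetCard m
  let lab : (Σ _ : X, Finset ℕ) → Fin (l + q * m) → Fin k := fun p i =>
    ins p.2 q (fun j => ξ (f^[j] p.1)) w i
  have hI : ∀ p ∈ I, p.1 ∈ F ∧ p.2 ⊆ S p.1 ∧ p.2.card = m := fun p hp => by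
    simpa only [I, Finset.mem_sigma, Finset.mem_powersetCard] using hp
  have htau : ∀ p ∈ I, ∀ j < l, tau p.2 q j + (if j ∈ p.2 then q else 0) < l + q * m := by
    intro p hp j hj
    have a1 := (tau_mono p.2 q).monotone (show j + 1 ≤ l from hj)
    have a2 := Nat.mul_le_mul_left q ((cnt_le p.2 l).trans_eq (hI p hp).2.2)
    rw [tau_succ] at a1
    have a3 : tau p.2 q l = l + q * cnt p.2 l := rfl
    omega
  have hrep : ∀ s, ∃ p, s ∈ I.image lab → p ∈ I ∧ lab p = s := fun s => by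
    by_cases h : s ∈ I.image lab
    · obtain ⟨p, a, b⟩ := Finset.mem_image.1 h
      exact ⟨p, fun _ => ⟨a, b⟩⟩
    · exact ⟨⟨z 0, ∅⟩, fun c => absurd c h⟩
  choose rep hrep using hrep
  have hnear : ∀ p ∈ I, ∀ i : Fin (l + q * m), ∃ y ∈ Ω, ξ y = lab p i ∧
      dist (ins p.2 q (fun j => f^[j] p.1) z i) y ≤ r / 4 := fun p hp i => by
    simp only [lab, ins]
    split_ifs with h
    · exact hM.near _ h.2
    · exact ⟨_, tj_fwd hf _ _ (hF _ (hI p hp).1), rfl, by rw [dist_self]; positivity⟩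
  have h1 := hC (I.image lab) (fun s => ins (rep s).2 q (fun j => f^[j] (rep s).1) z)
    (fun s hs => by
      obtain ⟨a1, a2, a3⟩ := hI _ (hrep s hs).1
      have := ins_cost hpos (T := (rep s).2) (x := fun j => f^[j] (rep s).1)
        (fun j => Function.iterate_succ_apply' _ _ _) (fun j => hz _ (tj_fwd hf j _ (hF _ a1)))
        hM.orb hρ hK (fun j hj => (hS _ a1 j (a2 hj)).2) hM.cost (l + q * m)
      rw [a3] at this
      exact ⟨this.1.mono hη, this.2⟩) fun s hs s' hs' hne => by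
      obtain ⟨i, hi⟩ := Function.ne_iff.1 hne
      obtain ⟨y, a1, a2, a3⟩ := hnear _ (hrep s hs).1 i
      obtain ⟨y', b1, b2, b3⟩ := hnear _ (hrep s' hs').1 i
      rw [(hrep s hs).2] at a2
      rw [(hrep s' hs').2] at b2
      refine ⟨i, i.2, ?_⟩
      have c : r < dist y y' := not_le.1 fun c => hi (by rw [← a2, ← b2]; exact (hξ _ a1 _ b1).2 c)
      linarith only [c, a3, b3,
        dist_triangle4_left (ins (rep s).2 q (fun j => f^[j] (rep s).1) z i)
          (ins (rep s').2 q (fun j => f^[j] (rep s').1) z i) y y']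
  have h2 : I.card ≤ 2 ^ (2 * q * m) * (I.image lab).card := by
    refine Finset.card_le_mul_card_image _ _ fun s hs => ?_
    obtain ⟨a1, a2⟩ := hrep s hs
    let O := (rep s).2.biUnion fun j => Finset.Ico (tau (rep s).2 q j - q) (tau (rep s).2 q j + q)
    have hO : O.card ≤ 2 * q * m := by
      refine (Finset.card_biUnion_le_card_mul _ _ (2 * q) fun j _ => ?_).trans_eq ?_
      · rw [Nat.card_Ico]; omega
      · rw [(hI _ a1).2.2, mul_comm]
    refine le_trans ?_ (Nat.pow_le_pow_right two_pos hO)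
    rw [← Finset.card_powerset]
    refine Finset.card_le_card_of_injOn (fun p => p.2.image (tau p.2 q)) (fun p hp => ?_)
      fun p hp p' hp' h => ?_
    · obtain ⟨b1, b2⟩ := Finset.mem_filter.1 (Finset.mem_coe.1 hp)
      refine Finset.mem_coe.2 (Finset.mem_powerset.2 fun i hi => ?_)
      obtain ⟨j, c1, rfl⟩ := Finset.mem_image.1 hi
      refine Finset.mem_biUnion.2 (ins_occ (x := fun j => ξ (f^[j] (rep s).1)) (z := w)
        (fun j => ?_) fun a ha => ?_)
      · obtain ⟨a, d1, d2⟩ := hM.new _ (tj_fwd hf j _ (hF _ (hI _ a1).1))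
        refine ⟨a, d1, ?_⟩
        rwa [add_comm, Function.iterate_add_apply]
      · have d1 := htau p b1 j (hS _ (hI p b1).1 j ((hI p b1).2.1 c1)).1
        rw [if_pos c1] at d1
        have d2 := congrFun (a2.trans b2.symm) ⟨tau p.2 q j + a, by omega⟩
        exact d2.trans (ins_loop _ _ c1 ha)
    · obtain ⟨b1, b2⟩ := Finset.mem_filter.1 (Finset.mem_coe.1 hp)
      obtain ⟨c1, c2⟩ := Finset.mem_filter.1 (Finset.mem_coe.1 hp')
      obtain ⟨x, T⟩ := p
      obtain ⟨x', T'⟩ := p'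
      obtain rfl : T = T' := tau_inj h
      obtain rfl : x = x' := hinj (hI _ b1).1 (hI _ c1).1 (funext fun j => by
        have d2 := congrFun (b2.trans c2.symm) ⟨_, htau _ b1 j j.2⟩
        simp only [lab, ins_base] at d2
        exact d2)
      rfl
  have h3 : I.card = ∑ x ∈ F, (S x).card.choose m := by
    simp only [I, Finset.card_sigma, Finset.card_powersetCard]
  rw [← h3]
  refine le_trans (by exact_mod_cast h2) (mul_le_mul_of_nonneg_left h1 (by positivity))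

theorem qc_choose {s m : ℕ} {v : ℝ} (hv : 0 ≤ v) (h : (v + 1) * m ≤ s) : v ^ m ≤ s.choose m := by
  refine le_trans ?_ (Nat.pow_le_choose (α := ℝ) m s)
  rw [le_div_iff₀ (by positivity)]
  have h1 : (m.factorial : ℝ) ≤ (m : ℝ) ^ m := by exact_mod_cast Nat.factorial_le_pow m
  refine (mul_le_mul_of_nonneg_left h1 (by positivity)).trans ?_
  rw [← mul_pow]
  refine pow_le_pow_left₀ (by positivity) ?_ m
  have h2 : (m : ℝ) ≤ s := by linarith only [h, mul_nonneg hv (Nat.cast_nonneg (α := ℝ) m)]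
  rw [Nat.cast_sub ((by exact_mod_cast h2 : m ≤ s).trans (Nat.le_succ s))]
  push_cast
  linarith only [h]

open Classical in
theorem qc_gain {X : Type} [MetricSpace X] {f : X → X} {ψ : X → ℝ} (hpos : ∀ x, 0 ≤ ψ x)
    {Ω : Set X} (hz : ∀ x ∈ Ω, ψ x = 0) (hf : ∀ x ∈ Ω, f x ∈ Ω) {k : ℕ} {ξ : X → Fin k}
    {e r E : ℝ} (hr : 0 < r) (hξ : Lab Ω ξ e r) {q : ℕ} {z : ℕ → X} {w : ℕ → Fin k}
    (hM : Mark f ψ Ω ξ r E q z w) {ρ η K : ℝ} (hρ : 0 ≤ ρ) (hη : ρ ≤ η) (hK : 0 ≤ K)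
    {P : ℝ → ℝ} (hC : Close f ψ P (r / 2) η K) {b A N : ℝ} (hA : 0 < A) (hN : 0 < N)
    (hF : ∃ᶠ l : ℕ in atTop, ∃ F : Finset X, (∀ x ∈ F, x ∈ Ω) ∧ Set.InjOn (itin f ξ l) F ∧
      Real.exp (b * l) ≤ A * F.card ∧ ∀ x ∈ F, (l : ℝ) ≤ N * ((Finset.range l).filter fun j =>
        dist (f^[j] x) (z 0) ≤ ρ ∧ dist (z q) (f^[j] x) ≤ ρ).card) :
    ∀ t > (0 : ℝ), 1 ≤ (N * Real.exp (1 + 2 * q * Real.log 2 + q * b + t * (E + 2 * (K * ρ))) +
      (N + 1 + q)) * (P t - b) := by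
  set E' := E + 2 * (K * ρ) with hE'
  set c := 1 + 2 * q * Real.log 2 + q * b with hc
  intro t ht
  obtain ⟨D, hD, hC⟩ := hC t ht
  set v := Real.exp (c + t * E') with hv
  have hv0 : 0 < v := Real.exp_pos _
  obtain ⟨B, hB1, hB2⟩ : ∃ B : ℕ, N * (v + 1) ≤ B ∧ (B : ℝ) ≤ N * (v + 1) + 1 :=
    ⟨⌈N * (v + 1)⌉₊, Nat.le_ceil _, (Nat.ceil_lt_add_one (by positivity)).le⟩
  have hB0 : (0 : ℝ) < B := lt_of_lt_of_le (by positivity) hB1
  have hB0' : 0 < B := by exact_mod_cast hB0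
  have key : 1 ≤ (B + q) * (P t - b) := by
    by_contra hcon
    push Not at hcon
    set g := max (P t - b) 0 with hg
    have hg0 : 0 ≤ g := le_max_right _ _
    have hg1 : (B + q) * g < 1 := by
      rw [hg, mul_max_of_nonneg _ _ (by positivity), mul_zero]
      exact max_lt hcon one_pos
    obtain ⟨m₀, hm₀⟩ := exists_nat_gt ((Real.log (A * D) + g * B) / (1 - (B + q) * g))
    obtain ⟨l, ⟨F, h1, h2, h3, h4⟩, hl⟩ := (hF.and_eventually (eventually_ge_atTop (m₀ * B))).exists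
    set m := l / B with hm
    have a1 : (m₀ : ℝ) ≤ m := by exact_mod_cast (Nat.le_div_iff_mul_le hB0').2 hl
    have a2 : (m : ℝ) * B ≤ l := by exact_mod_cast Nat.div_mul_le_self l B
    have a3 : (l : ℝ) ≤ B * (m + 1) := by exact_mod_cast (Nat.lt_mul_div_succ l hB0').le
    have a4 := qc_count hpos hz hf hr hξ hM hρ hη hK (l := l) (m := m)
      (fun I c => hC _ I (l + q * m) c (m * E')) F h1 h2 (fun x => (Finset.range l).filter fun j =>
        dist (f^[j] x) (z 0) ≤ ρ ∧ dist (z q) (f^[j] x) ≤ ρ) fun x _ j hj => by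
        simpa only [Finset.mem_filter, Finset.mem_range] using hj
    have a5 : F.card * v ^ m ≤ 2 ^ (2 * q * m) *
        (D * Real.exp (P t * (l + q * m : ℕ) + t * (m * E'))) := by
      refine le_trans ?_ a4
      push_cast
      rw [← nsmul_eq_mul]
      refine Finset.card_nsmul_le_sum _ _ _ fun x hx => qc_choose hv0.le ?_
      refine le_of_mul_le_mul_left ?_ hN
      linarith only [h4 x hx, a2, mul_le_mul_of_nonneg_right hB1 (Nat.cast_nonneg (α := ℝ) m)]
    have a6 : Real.exp (b * l) * v ^ m ≤ (A * D) * (2 ^ (2 * q * m) *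
        Real.exp (P t * (l + q * m : ℕ) + t * (m * E'))) := by
      have := mul_le_mul_of_nonneg_left a5 hA.le
      linarith only [mul_le_mul_of_nonneg_right h3 (pow_pos hv0 m).le, this]
    have a7 := Real.log_le_log (by positivity) a6
    rw [Real.log_mul (by positivity) (by positivity), Real.log_mul (by positivity) (by positivity),
      Real.log_mul (x := 2 ^ _) (by positivity) (by positivity), Real.log_exp, Real.log_exp,
      Real.log_pow, Real.log_pow, hv, Real.log_exp, hc] at a7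
    push_cast at a7
    rw [div_lt_iff₀ (by linarith only [hg1])] at hm₀
    have a8 : (P t - b) * (l + q * m) ≤ g * (l + q * m) :=
      mul_le_mul_of_nonneg_right (le_max_left _ _) (by positivity)
    linarith only [a7, a8, hm₀, mul_le_mul_of_nonneg_left a3 hg0,
      mul_le_mul_of_nonneg_right a1 (sub_pos.2 hg1).le]
  have hg : 0 < P t - b := by
    by_contra h
    have := mul_nonpos_of_nonneg_of_nonpos (show (0 : ℝ) ≤ B + q by positivity) (not_lt.1 h)
    linarith only [this, key]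
  exact key.trans (mul_le_mul_of_nonneg_right (by linarith only [hB2]) hg.le)

end Pool.Agent.MP_80da8f_an

end

section

open MeasureTheory Filter Topology

namespace Pool.Agent.MP_80da8f_an

section spec

theorem qd_sum {V A : Type} [Fintype V] [DecidableEq V] [CommSemiring A] (M : Matrix V V A)
    (l : ℕ) : ∀ u : V → A,
    ∑ s : Fin (l + 1) → V, u (s 0) * ∏ i : Fin l, M (s i.castSucc) (s i.succ) =
      ∑ a, u a * ∑ b, (M ^ l) a b := by
  induction l with
  | zero =>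
    intro u
    rw [← (Equiv.funUnique (Fin 1) V).symm.sum_comp]
    simp [Matrix.one_apply]
  | succ l ih =>
    intro u
    rw [← (Fin.consEquiv fun _ : Fin (l + 2) => V).sum_comp, Fintype.sum_prod_type,
      Finset.sum_comm]
    have h := ih fun c => ∑ a, u a * M a c
    simp only [Finset.sum_mul] at h
    simp only [Fin.consEquiv_apply, Fin.prod_univ_succ, Fin.cons_zero, Fin.castSucc_zero,
      Fin.cons_succ, ← Fin.succ_castSucc, ← mul_assoc, h, pow_succ', Matrix.mul_apply,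
      Finset.mul_sum]
    rw [Finset.sum_comm]
    exact Finset.sum_congr rfl fun a _ => Finset.sum_comm

open Classical in
/-- paths of length `l` of a relation -/
noncomputable def paths {n : ℕ} (R : Fin n → Fin n → Prop) (l : ℕ) :
    Finset (Fin (l + 1) → Fin n) :=
  Finset.univ.filter fun s => ∀ i : Fin l, R (s i.castSucc) (s i.succ)

open Classical in
/-- adjacency matrix -/
noncomputable def adj {n : ℕ} (R : Fin n → Fin n → Prop) : Matrix (Fin n) (Fin n) ℕ :=
  Matrix.of fun i j => if R i j then 1 else 0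

/-- sum of the entries of a power -/
def tot {n : ℕ} (M : Matrix (Fin n) (Fin n) ℕ) (l : ℕ) : ℕ := ∑ i, ∑ j, (M ^ l) i j

theorem qd_card {n : ℕ} (R : Fin n → Fin n → Prop) (l : ℕ) :
    (paths R l).card = tot (adj R) l := by
  classical
  have := qd_sum (adj R) l fun _ => 1
  simp only [one_mul] at this
  rw [tot, ← this, paths, Finset.card_filter]
  refine Finset.sum_congr rfl fun s _ => ?_
  simp only [adj, Matrix.of_apply, Fintype.prod_boole]
  by_cases h : ∀ i : Fin l, R (s i.castSucc) (s i.succ)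
  · rw [if_pos h, if_pos h]
  · rw [if_neg h, if_neg h]

theorem qd_le {n : ℕ} (M : Matrix (Fin n) (Fin n) ℕ) (p q : ℕ) (u v w : Fin n) :
    (M ^ p) u v * (M ^ q) v w ≤ (M ^ (p + q)) u w := by
  rw [pow_add, Matrix.mul_apply]
  exact Finset.single_le_sum (f := fun v => (M ^ p) u v * (M ^ q) v w) (fun _ _ => Nat.zero_le _)
    (Finset.mem_univ v)

theorem qd_sharp {n : ℕ} {R : Fin n → Fin n → Prop} {b : ℝ}
    (hs : ∀ u v, R u v → Relation.ReflTransGen R v u)
    (hup : ∀ β > b, ∃ D : ℝ, ∀ l : ℕ, (tot (adj R) l : ℝ) ≤ D * Real.exp (β * l)) :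
    ∃ D : ℝ, ∀ l : ℕ, (tot (adj R) l : ℝ) ≤ D * Real.exp (b * l) := by
  set M := adj R with hM
  have h1 : ∀ (l : ℕ) u, (((M ^ l) u u : ℕ) : ℝ) ≤ Real.exp (b * l) := fun l u => by
    have a1 : ∀ j, (M ^ l) u u ^ j ≤ tot M (l * j) := fun j => by
      refine le_trans ?_ ((Finset.single_le_sum (f := fun v => (M ^ (l * j)) u v)
        (fun _ _ => Nat.zero_le _) (Finset.mem_univ u)).trans (Finset.single_le_sum
          (f := fun u => ∑ v, (M ^ (l * j)) u v) (fun _ _ => Nat.zero_le _) (Finset.mem_univ u)))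
      induction j with
      | zero => simp
      | succ j ih => exact (Nat.mul_le_mul_right _ ih).trans (qd_le M _ _ u u u)
    by_contra h
    have h0 : (0 : ℝ) < (M ^ l) u u := (Real.exp_pos _).trans (not_le.1 h)
    rw [not_le, ← Real.lt_log_iff_exp_lt h0] at h
    obtain ⟨γ, g1, g2⟩ := exists_between h
    obtain ⟨D, hD⟩ := hup (b + (γ - b * l) / (l + 1)) (by
      have : 0 < (γ - b * l) / (l + 1) := div_pos (sub_pos.2 g1) (by positivity)
      linarith only [this])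
    obtain ⟨j, hj⟩ := (qb_small g2 |D| one_half_pos).exists
    have a2 : (b + (γ - b * l) / (l + 1)) * l ≤ γ := by
      have : (γ - b * l) / (l + 1) * l ≤ γ - b * l := by
        rw [div_mul_eq_mul_div, div_le_iff₀ (by positivity)]
        exact mul_le_mul_of_nonneg_left (by linarith only []) (sub_pos.2 g1).le
      linarith only [this]
    have a3 : Real.exp (Real.log ((M ^ l) u u : ℕ) * j) ≤ |D| * Real.exp (γ * j) := by
      rw [mul_comm, Real.exp_nat_mul, Real.exp_log h0]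
      refine le_trans (by exact_mod_cast a1 j) ((hD _).trans (mul_le_mul (le_abs_self _)
        (Real.exp_le_exp.2 ?_) (Real.exp_pos _).le (abs_nonneg _)))
      push_cast
      rw [← mul_assoc]
      exact mul_le_mul_of_nonneg_right a2 (Nat.cast_nonneg _)
    rw [neg_mul, Real.exp_neg, mul_inv_le_iff₀ (Real.exp_pos _)] at hj
    linarith only [a3, hj, Real.exp_pos (Real.log ((M ^ l) u u : ℕ) * j)]
  have h2 : ∀ l u v, (M ^ l) u v ≠ 0 → Relation.ReflTransGen R v u := fun l => by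
    induction l with
    | zero => intro u v h; rw [pow_zero, Matrix.one_apply] at h; rw [show u = v by simpa using h]
    | succ l ih =>
      intro u v h
      rw [pow_succ, Matrix.mul_apply] at h
      obtain ⟨w, -, hw⟩ := Finset.exists_ne_zero_of_sum_ne_zero h
      exact (hs w v (by simpa [hM, adj] using right_ne_zero_of_mul hw)).trans
        (ih u w (left_ne_zero_of_mul hw))
  have h3 : ∀ v u, ∃ s, Relation.ReflTransGen R v u → 1 ≤ (M ^ s) v u := fun v u => by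
    by_cases h : Relation.ReflTransGen R v u
    · induction h with
      | refl => exact ⟨0, fun _ => by simp⟩
      | @tail x y h1 h ih =>
        obtain ⟨s, hs⟩ := ih
        refine ⟨s + 1, fun _ => le_trans ?_ (qd_le M s 1 v x y)⟩
        simpa [hM, adj, h] using hs h1
    · exact ⟨0, fun c => absurd c h⟩
  choose s hs' using h3
  refine ⟨∑ u, ∑ v, Real.exp (b * s v u), fun l => ?_⟩
  rw [tot, Finset.sum_mul]
  push_cast
  refine Finset.sum_le_sum fun u _ => ?_
  rw [Finset.sum_mul]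
  refine Finset.sum_le_sum fun v _ => ?_
  by_cases h : (M ^ l) u v = 0
  · rw [h, Nat.cast_zero]
    positivity
  · rw [← Real.exp_add, ← mul_add, add_comm, ← Nat.cast_add]
    exact le_trans (Nat.cast_le.2 ((Nat.le_mul_of_pos_right _ (hs' v u (h2 l u v h))).trans
      (qd_le M _ _ u v u))) (h1 _ u)

theorem qd_mass {n : ℕ} (M : Matrix (Fin n) (Fin n) ℕ) {x y : ℝ} (hx : 0 ≤ x) (hy : 0 ≤ y)
    (h : ∀ l, y * ∑ p ∈ Finset.range (l + 1), x ^ p * tot M p ≤ 1) (l : ℕ) :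
    ∑ s : Fin (l + 1) → Fin n, y * ∏ i : Fin l, (x * M (s i.castSucc) (s i.succ) + y) ≤ 1 := by
  set Q : Matrix (Fin n) (Fin n) ℝ := Matrix.of fun i j => x * M i j + y with hQ
  have h0 : ∀ l, ∑ i, ∑ p ∈ Finset.range (l + 1), x ^ p * ∑ j, ((M ^ p) i j : ℝ) =
      ∑ p ∈ Finset.range (l + 1), x ^ p * tot M p := fun l => by
    rw [Finset.sum_comm]
    simp only [tot, Nat.cast_sum, Finset.mul_sum]
  have h1 : ∀ l i, ∑ j, (Q ^ l) i j ≤
      ∑ p ∈ Finset.range (l + 1), x ^ p * ∑ j, ((M ^ p) i j : ℝ) := fun l => by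
    induction l with
    | zero => intro i; simp [Matrix.one_apply]
    | succ l ih =>
      intro i
      have a1 : ∑ j, (Q ^ (l + 1)) i j = ∑ a, (x * M i a + y) * ∑ j, (Q ^ l) a j := by
        simp only [pow_succ', Matrix.mul_apply, Finset.mul_sum]
        exact Finset.sum_comm
      have a2 : ∑ a, x * M i a * ∑ p ∈ Finset.range (l + 1), x ^ p * ∑ j, ((M ^ p) a j : ℝ) =
          ∑ p ∈ Finset.range (l + 1), x ^ (p + 1) * ∑ j, ((M ^ (p + 1)) i j : ℝ) := by
        simp only [pow_succ', Matrix.mul_apply, Finset.mul_sum, Nat.cast_sum, Nat.cast_mul]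
        rw [Finset.sum_comm]
        refine Finset.sum_congr rfl fun p _ => Finset.sum_comm.trans ?_
        exact Finset.sum_congr rfl fun _ _ => Finset.sum_congr rfl fun _ _ => by ring
      rw [a1, Finset.sum_range_succ', ← a2]
      refine (Finset.sum_le_sum fun a _ => mul_le_mul_of_nonneg_left (ih a) (by positivity)).trans ?_
      simp only [add_mul, Finset.sum_add_distrib, ← Finset.mul_sum, h0]
      simpa [Matrix.one_apply] using h l
  refine (qd_sum Q l fun _ => y).trans_le (le_trans ?_ (h l))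
  rw [← h0, Finset.mul_sum]
  exact Finset.sum_le_sum fun i _ => mul_le_mul_of_nonneg_left (h1 l i) hy

open Classical in
/-- a Markov code gives the exponential rate -/
theorem qd_exp {X : Type} [MetricSpace X] [CompactSpace X] [Nonempty X] [MeasurableSpace X]
    [BorelSpace X] {f : X → X} {L : ℝ} {N : ℕ} {e : ℝ} (hS : Sys f L N e) {ψ : X → ℝ}
    {Ω : Set X} (hpay : Pay f ψ Ω) {P : ℝ → ℝ} {b : ℝ}
    (hP : ∀ t > (0 : ℝ), ∀ z : ℝ,
      (∀ μ, Inv f μ → ksEntropy μ f ≤ ((z + t * ∫ x, ψ x ∂μ : ℝ) : EReal)) → P t ≤ z)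
    {n : ℕ} {c : X → Fin n} (hcm : ∀ s, MeasurableSet (c ⁻¹' {s}))
    (hc : ∀ x y, c x = c y → dist x y ≤ e) {ρ : ℝ} (hρ : 0 < ρ) {M : Matrix (Fin n) (Fin n) ℕ}
    (hM : ∀ x ∈ Metric.thickening ρ Ω, 1 ≤ M (c x) (c (f x))) {D : ℝ}
    (hD : ∀ l : ℕ, (tot M l : ℝ) ≤ D * Real.exp (b * l)) :
    ∃ δ > (0 : ℝ), ∀ᶠ t : ℝ in atTop, P t - b ≤ Real.exp (-δ * t) := by
  obtain ⟨c0, hc0, hcp⟩ := hpay ρ hρ
  have hfm : Measurable f := (continuous_of_lip hS.one_le hS.lip).measurable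
  have hGm : MeasurableSet (Metric.thickening ρ Ω) := Metric.isOpen_thickening.measurableSet
  have hD0 : 0 < |D| + 1 := by positivity
  refine ⟨c0 / 4, by positivity, ?_⟩
  filter_upwards [eventually_ge_atTop (4 / c0), eventually_gt_atTop 0,
    eventually_ge_atTop (2 * (1 + |b| + |Real.log (|D| + 1)|) / c0)] with t ht1 ht0 ht2
  rw [div_le_iff₀ hc0] at ht1 ht2
  set s := Real.exp (-(c0 / 2) * t) with hs
  have hs0 : 0 < s := Real.exp_pos _
  have hs1 : 2 * s ≤ Real.exp (-(c0 / 4) * t) := by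
    rw [show -(c0 / 4) * t = c0 / 4 * t + -(c0 / 2) * t by ring, Real.exp_add]
    exact mul_le_mul_of_nonneg_right (by linarith only [Real.add_one_le_exp (c0 / 4 * t), ht1])
      hs0.le
  have hs2 : s ≤ 1 / 2 := by
    linarith only [hs1, Real.exp_le_one_iff.2 (show -(c0 / 4) * t ≤ 0 by linarith only [ht1])]
  have hl := tl_log hs0 hs2
  have hl' : Real.log (1 - s) ≤ 0 := Real.log_nonpos (by linarith only [hs2]) (by linarith only [hs0])
  have hx : 0 < (1 - s) * Real.exp (-b) := mul_pos (by linarith only [hs2]) (Real.exp_pos _)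
  have hy : 0 < s / (|D| + 1) := by positivity
  have hx' : Real.log ((1 - s) * Real.exp (-b)) = Real.log (1 - s) - b := by
    rw [Real.log_mul (by linarith only [hs2]) (Real.exp_pos _).ne', Real.log_exp, ← sub_eq_add_neg]
  have hy' : -Real.log (s / (|D| + 1)) ≤ b - Real.log (1 - s) + t * c0 := by
    rw [Real.log_div hs0.ne' hD0.ne', hs, Real.log_exp]
    linarith only [hl', ht2, neg_abs_le b, le_abs_self (Real.log (|D| + 1))]
  have hm := qd_mass M hx.le hy.le fun l => by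
    refine le_trans (mul_le_mul_of_nonneg_left (Finset.sum_le_sum (g := fun p => (|D| + 1) *
      (1 - s) ^ p) fun p _ => ?_) hy.le) ?_
    · have a1 : (tot M p : ℝ) ≤ (|D| + 1) * Real.exp (b * p) := (hD p).trans
        (mul_le_mul_of_nonneg_right (by linarith only [le_abs_self D]) (Real.exp_pos _).le)
      refine (mul_le_mul_of_nonneg_left a1 (by positivity)).trans_eq ?_
      rw [mul_pow, ← Real.exp_nat_mul, mul_assoc, mul_left_comm (Real.exp _), ← Real.exp_add]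
      simp [mul_comm]
    · have := mul_neg_geom_sum (1 - s) (l + 1)
      rw [← Finset.mul_sum, ← mul_assoc, div_mul_cancel₀ _ hD0.ne']
      rw [sub_sub_cancel] at this
      linarith only [this, pow_nonneg (show 0 ≤ 1 - s by linarith only [hs2]) (l + 1)]
  suffices P t ≤ b - Real.log (1 - s) by linarith only [this, hl, hs1]
  refine hP t ht0 _ fun μ hμ => ?_
  have := hμ.1
  set z := b - Real.log (1 - s) + μ.real (Metric.thickening ρ Ω)ᶜ * (t * c0) with hz
  have key : ∀ l : ℕ, ksEntropy μ f ≤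
      ((z + (-Real.log (s / (|D| + 1)) - z) / ((l : ℝ) + 1) : ℝ) : EReal) := fun l => by
    have hi := fun i : Fin l => tf_int (hμ.2.iterate i) hGm (b - Real.log (1 - s)) (t * c0)
    have hj := integrable_finsetSum Finset.univ fun i _ => (hi i).1
    refine (qa_gen (sRate X f L N e hS) hμ (c := itin f c (l + 1))
      (fun w => tf_meas_itin hfm (measurable_to_countable' hcm) _ (measurableSet_singleton w))
      (Nat.le_add_left 1 l) (fun x y h j hj => hc _ _ (congrFun h ⟨j, hj⟩)) _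
      (fun w => mul_pos hy (Finset.prod_pos fun i _ => by positivity)) (hm l)
      ((integrable_const (-Real.log (s / (|D| + 1)))).add hj) fun x => ?_).trans_eq ?_
    · rw [Real.log_mul hy.ne' (Finset.prod_pos fun i _ => by positivity).ne',
        Real.log_prod fun i _ => by positivity, neg_add, ← Finset.sum_neg_distrib]
      refine add_le_add le_rfl (Finset.sum_le_sum fun i _ => ?_)
      split_ifs with h
      · have a1 : (1 : ℝ) ≤ M (itin f c (l + 1) x i.castSucc) (itin f c (l + 1) x i.succ) := by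
          have := hM _ h
          rw [← Function.iterate_succ_apply' f] at this
          exact_mod_cast this
        have a2 := Real.log_le_log hx ((le_mul_of_one_le_right hx.le a1).trans
          (le_add_of_nonneg_right hy.le))
        linarith only [a2, hx']
      · exact (neg_le_neg (Real.log_le_log hy (le_add_of_nonneg_left (by positivity)))).trans hy'
    · rw [integral_add' (integrable_const _) hj, integral_finsetSum _ fun i _ => (hi i).1]
      simp only [fun i => (hi i).2, Finset.sum_const, Finset.card_univ, Fintype.card_fin,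
        nsmul_eq_mul, integral_const, probReal_univ, one_smul, ← hz]
      congr 1
      push_cast
      field_simp
      ring
  have h1 : Tendsto (fun l : ℕ => z + (-Real.log (s / (|D| + 1)) - z) / ((l : ℝ) + 1)) atTop
      (𝓝 (z + 0)) := (tendsto_const_nhds.div_atTop
        (tendsto_atTop_add_const_right _ 1 tendsto_natCast_atTop_atTop)).const_add z
  refine (ge_of_tendsto' (EReal.tendsto_coe.2 h1) key).trans (EReal.coe_le_coe_iff.2 ?_)
  linarith only [hz, mul_le_mul_of_nonneg_left (hcp μ hμ) ht0.le]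

attribute [local instance] Matrix.linftyOpNormedRing Matrix.linftyOpNormedAlgebra

theorem qd_spec {n : ℕ} (M : Matrix (Fin n) (Fin n) ℕ) {b : ℝ}
    (hup : ∀ β > b, ∃ D : ℝ, ∀ l : ℕ, (tot M l : ℝ) ≤ D * Real.exp (β * l))
    (hlo : ∀ l : ℕ, 1 ≤ l → Real.exp (b * l) ≤ tot M l) :
    spectralRadius ℂ (M.map (Nat.cast : ℕ → ℂ)) = ENNReal.ofReal (Real.exp b) := by
  classical
  set a := M.map (Nat.cast : ℕ → ℂ) with ha
  have hp : ∀ l i, ∑ j, ‖(a ^ l) i j‖₊ = ((∑ j, (M ^ l) i j : ℕ) : NNReal) := fun l i => by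
    rw [show a ^ l = (M ^ l).map (Nat.cast : ℕ → ℂ) from
      (map_pow (Nat.castRingHom ℂ).mapMatrix M l).symm]
    simp
  have h1 : ∀ l, ‖a ^ l‖ ≤ tot M l := fun l => by
    have : ‖a ^ l‖₊ ≤ (tot M l : NNReal) := by
      rw [Matrix.linfty_opNNNorm_def]
      refine Finset.sup_le fun i _ => ?_
      rw [hp, tot]
      exact_mod_cast Finset.single_le_sum (f := fun i => ∑ j, (M ^ l) i j)
        (fun _ _ => Nat.zero_le _) (Finset.mem_univ i)
    exact_mod_cast this
  have h2 : ∀ l, (tot M l : ℝ) ≤ n * ‖a ^ l‖ := fun l => by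
    have : (tot M l : NNReal) ≤ n * ‖a ^ l‖₊ := by
      rw [tot, Nat.cast_sum]
      refine (Finset.sum_le_card_nsmul _ _ ‖a ^ l‖₊ fun i _ => ?_).trans (by simp)
      rw [← hp, Matrix.linfty_opNNNorm_def]
      exact Finset.le_sup (f := fun i => ∑ j, ‖(a ^ l) i j‖₊) (Finset.mem_univ i)
    exact_mod_cast this
  have hG := spectrum.pow_norm_pow_one_div_tendsto_nhds_spectralRadius a
  have hroot : ∀ (β : ℝ) (l : ℕ), 1 ≤ l → Real.exp (β * l) ^ (1 / l : ℝ) = Real.exp β :=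
    fun β l hl => by
      rw [← Real.exp_mul, mul_assoc, mul_one_div_cancel (by exact_mod_cast (by omega)), mul_one]
  have hcont : Tendsto (fun β => ENNReal.ofReal (Real.exp β)) (𝓝 b)
      (𝓝 (ENNReal.ofReal (Real.exp b))) :=
    (ENNReal.continuous_ofReal.comp Real.continuous_exp).tendsto b
  apply le_antisymm
  · refine ge_of_tendsto (hcont.mono_left (nhdsWithin_le_nhds (s := Set.Ioi b)))
      (eventually_nhdsWithin_of_forall fun β hβ => le_of_tendsto hG ?_)
    have hβ' : b < β := hβ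
    obtain ⟨D, hD⟩ := hup ((b + β) / 2) (by linarith only [hβ'])
    filter_upwards [qb_small (show (b + β) / 2 < β by linarith only [hβ']) D one_pos,
      eventually_ge_atTop 1] with l h3 h4
    refine ENNReal.ofReal_le_ofReal ?_
    rw [← hroot β l h4]
    refine Real.rpow_le_rpow (norm_nonneg _) ((h1 l).trans ((hD l).trans ?_)) (by positivity)
    rwa [neg_mul, Real.exp_neg, mul_inv_le_iff₀ (Real.exp_pos _), one_mul] at h3
  · refine le_of_tendsto (hcont.mono_left (nhdsWithin_le_nhds (s := Set.Iio b)))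
      (eventually_nhdsWithin_of_forall fun β hβ => ge_of_tendsto hG ?_)
    filter_upwards [qb_small (show β < b from hβ) n one_pos, eventually_ge_atTop 1] with l h4 h5
    refine ENNReal.ofReal_le_ofReal ?_
    rw [← hroot β l h5]
    refine Real.rpow_le_rpow (Real.exp_pos _).le ?_ (by positivity)
    rw [neg_mul, Real.exp_neg, mul_inv_le_iff₀ (Real.exp_pos _), one_mul] at h4
    have h6 := (hlo l h5).trans (h2 l)
    refine le_of_mul_le_mul_left (h4.trans h6) ?_
    by_contra h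
    have := mul_nonpos_of_nonpos_of_nonneg (not_lt.1 h) (norm_nonneg (a ^ l))
    linarith only [this, h6, Real.exp_pos (b * l)]

end spec

section cheap

/-- one jump between orbits costs little -/
def Jump {X : Type} [MetricSpace X] (f : X → X) (ψ : X → ℝ) (Ω : Set X) (e C κ : ℝ) : Prop :=
  ∀ α β γ δ : ℤ → X, Orb f α → Orb f β → Orb f γ → Orb f δ → (∀ j, β j ∈ Ω) →
    (∀ j, ∃ p ∈ Ω, dist (γ j) p ≤ e) → (∀ j, ∃ p ∈ Ω, dist (δ j) p ≤ e) →
    ∀ (n₁ : ℤ) (w : ℕ), (∀ j ≤ n₁ + w, dist (γ j) (α j) ≤ e ∧ dist (δ j) (β j) ≤ e) →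
      (∀ j ≥ n₁, dist (γ j) (β j) ≤ e ∧ dist (δ j) (α j) ≤ e) → ∀ c : ℝ,
      (∀ s : Finset ℤ, ∑ j ∈ s, ψ (α j) ≤ c) →
      ∀ s : Finset ℤ, ∑ j ∈ s, ψ (γ j) ≤ c + C * Real.exp (-κ * w)

theorem qd_geo {ε : ℝ} (hε : 0 < ε) : ∃ S : ℝ, 0 ≤ S ∧ ∀ (n : ℤ) (s : Finset ℤ),
    ∑ j ∈ s, Real.exp (-ε * (j - n).natAbs) ≤ S := by
  have h1 : Summable fun j : ℕ => Real.exp (-ε * j) := by
    simp only [mul_comm (-ε), Real.exp_nat_mul]
    exact summable_geometric_of_lt_one (Real.exp_pos _).le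
      (Real.exp_lt_one_iff.2 (by linarith only [hε]))
  have h2 : Summable fun j : ℤ => Real.exp (-ε * j.natAbs) :=
    Summable.of_nat_of_neg (by simpa using h1) (by simpa using h1)
  refine ⟨_, tsum_nonneg fun _ => (Real.exp_pos _).le, fun n s => le_trans (le_of_eq ?_)
    (h2.sum_le_tsum (s.map (Equiv.subRight n).toEmbedding) fun _ _ => (Real.exp_pos _).le)⟩
  rw [Finset.sum_map]
  rfl

theorem qd_jump {X : Type} [MetricSpace X] {f : X → X} {φ u ψ : X → ℝ} {a Ku : ℝ} (hKu : 0 ≤ Ku)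
    (hu : Lip Ku u) (hψ : ∀ x, ψ x = a - φ x + u x - u (f x)) (hpos : ∀ x, 0 ≤ ψ x) {Ω : Set X}
    (hz : ∀ x ∈ Ω, ψ x = 0) {e C CM κ κ' : ℝ} (hC : 1 ≤ C) (hCM : 0 ≤ CM)
    (hR : RateNear f Ω e C κ) (hM : Mix f φ e CM) (h0 : 0 < κ') (hκ : κ' < κ) :
    ∃ C', 0 ≤ C' ∧ Jump f ψ Ω e C' κ' := by
  obtain ⟨S, hS0, hS⟩ := qd_geo (sub_pos.2 hκ)
  refine ⟨CM * (C * C * S) + 4 * (Ku * C), by positivity,
    fun α β γ δ hα hβ hγ hδ hβΩ hγn hδn n₁ w h1 h2 c hc s => ?_⟩
  have hH : ∀ j, ∀ n : ℕ, j + n ≤ n₁ + w →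
      max (dist (γ j) (α j)) (dist (δ j) (β j)) ≤ C * Real.exp (-κ * n) := fun j n h =>
    max_le (hR.orb hγ hα hγn j n fun i _ hi => (h1 i (hi.trans h)).1)
      (hR.orb hδ hβ hδn j n fun i _ hi => (h1 i (hi.trans h)).2)
  have hK : ∀ j, ∀ n : ℕ, n₁ ≤ j - n →
      max (dist (γ j) (β j)) (dist (δ j) (α j)) ≤ C * Real.exp (-κ * n) := fun j n h =>
    max_le (hR.orb hγ hβ hγn j n fun i hi _ => (h2 i (h.trans hi)).1)
      (hR.orb hδ hα hδn j n fun i hi _ => (h2 i (h.trans hi)).2)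
  have hmix := hM α β γ δ hα hβ hγ hδ n₁ (n₁ + w) (by omega)
    (fun j => C * Real.exp (-κ * (n₁ + w - j).toNat)) (fun j => C * Real.exp (-κ * (j - n₁).toNat))
    (C * C * S * Real.exp (-κ' * w))
    (fun j hj => le_min (max_le (h1 j hj).1 (h1 j hj).2) (hH j _ (by omega)))
    (fun j hj => le_min (max_le (h2 j hj).1 (h2 j hj).2) (hK j _ (by omega)))
    (fun j hj => by rw [show (n₁ + w - j).toNat = 0 by omega]; simpa using hC)
    (fun j hj => by rw [show (j - n₁).toNat = 0 by omega]; simpa using hC) fun s => by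
      refine le_trans (Finset.sum_le_sum fun j _ => ?_) ((Finset.mul_sum s (fun j =>
        Real.exp (-(κ - κ') * (j - n₁).natAbs)) (C * C * Real.exp (-κ' * w))).symm.trans_le
        ((mul_le_mul_of_nonneg_left (hS n₁ s) (by positivity)).trans_eq (by ring)))
      rw [mul_mul_mul_comm, mul_assoc (C * C), ← Real.exp_add, ← Real.exp_add]
      refine mul_le_mul_of_nonneg_left (Real.exp_le_exp.2 ?_) (by positivity)
      have a1 : (w : ℝ) ≤ ((n₁ + w - j).toNat : ℝ) + ((j - n₁).toNat : ℝ) := by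
        exact_mod_cast (by omega)
      have a2 : ((j - n₁).natAbs : ℝ) ≤ ((n₁ + w - j).toNat : ℝ) + ((j - n₁).toNat : ℝ) := by
        exact_mod_cast (by omega)
      linarith only [mul_le_mul_of_nonneg_left a1 h0.le,
        mul_le_mul_of_nonneg_left a2 (sub_pos.2 hκ).le]
  obtain ⟨T, hT1, hT2, hT3⟩ : ∃ T : ℕ, (∀ j ∈ s, -(T : ℤ) ≤ j ∧ j < T) ∧ -(T : ℤ) ≤ n₁ ∧
      n₁ + w ≤ T := by
    refine ⟨s.sup Int.natAbs + n₁.natAbs + w + 1, fun j hj => ?_, by omega, by omega⟩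
    have := Finset.le_sup (f := Int.natAbs) hj
    omega
  let E : ℕ ↪ ℤ := ⟨fun i => -(T : ℤ) + i, fun i j h => by simpa using h⟩
  have hsub : s ⊆ (Finset.range (2 * T)).map E := fun j hj => by
    have := hT1 j hj
    exact Finset.mem_map.2 ⟨(j + T).toNat, Finset.mem_range.2 (by omega), by
      show -(T : ℤ) + _ = _
      omega⟩
  set I := (Finset.range (2 * T)).map E with hI
  have htel : ∀ ζ, Orb f ζ → ∑ j ∈ I, ψ (ζ j) =
      ∑ j ∈ I, (a - φ (ζ j)) + (u (ζ (-T)) - u (ζ T)) := fun ζ hζ => by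
    have := Finset.sum_range_sub' (fun i : ℕ => u (ζ (-(T : ℤ) + i))) (2 * T)
    rw [show -(T : ℤ) + ((2 * T : ℕ) : ℤ) = T by omega, Nat.cast_zero, add_zero] at this
    rw [← this, hI, Finset.sum_map, Finset.sum_map, ← Finset.sum_add_distrib]
    refine Finset.sum_congr rfl fun i _ => ?_
    rw [hψ, ← hζ, Nat.cast_succ, ← add_assoc, add_sub_assoc]
    rfl
  have b1 := Finset.sum_le_sum_of_subset_of_nonneg (f := fun j => ψ (γ j)) hsub
    fun _ _ _ => hpos _
  have b2 : 0 ≤ ∑ j ∈ I, ψ (δ j) := Finset.sum_nonneg fun _ _ => hpos _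
  have b3 : ∑ j ∈ I, ψ (β j) = 0 := Finset.sum_eq_zero fun _ _ => hz _ (hβΩ _)
  have b4 : ∑ j ∈ I, (a - φ (γ j)) + ∑ j ∈ I, (a - φ (δ j)) - ∑ j ∈ I, (a - φ (α j)) -
      ∑ j ∈ I, (a - φ (β j)) ≤ CM * (C * C * S * Real.exp (-κ' * w)) := by
    rw [← Finset.sum_add_distrib, ← Finset.sum_sub_distrib, ← Finset.sum_sub_distrib]
    exact (Finset.sum_le_sum fun j _ => by
      linarith only [neg_abs_le (φ (γ j) + φ (δ j) - φ (α j) - φ (β j))]).trans (hmix I)
  have b5 : C * Real.exp (-κ * w) ≤ C * Real.exp (-κ' * w) :=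
    mul_le_mul_of_nonneg_left (Real.exp_le_exp.2 (by
      linarith only [mul_le_mul_of_nonneg_right hκ.le (Nat.cast_nonneg (α := ℝ) w)]))
      (by linarith only [hC])
  have b6 : ∀ x y, dist x y ≤ C * Real.exp (-κ * w) →
      |u x - u y| ≤ Ku * (C * Real.exp (-κ' * w)) := fun x y h =>
    (hu x y).trans (mul_le_mul_of_nonneg_left (h.trans b5) hKu)
  obtain ⟨c1, c2⟩ := max_le_iff.1 (hH (-T) w (by omega))
  obtain ⟨c3, c4⟩ := max_le_iff.1 (hK T w (by omega))
  linarith only [b1, b2, b3, b4, hc I, htel α hα, htel β hβ, htel γ hγ, htel δ hδ,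
    (abs_le.1 (b6 _ _ c1)).2, (abs_le.1 (b6 _ _ c2)).2, (abs_le.1 (b6 _ _ c3)).1,
    (abs_le.1 (b6 _ _ c4)).1]

theorem qd_cheap {X : Type} [MetricSpace X] {f : X → X} {ψ : X → ℝ} {Ω : Set X}
    (hz : ∀ x ∈ Ω, ψ x = 0) {o : X → ℤ → X} (ho : Flow f Ω o) {e C κ C' κ' ε η : ℝ}
    (hε : 0 ≤ ε) (hεe : 4 * ε ≤ e) (hη : 0 ≤ η) (hR : RateNear f Ω e C κ)
    (hJ : Jump f ψ Ω e C' κ') (hsh : Shad f η ε) {n : ℕ}
    (hn : C * Real.exp (-κ * n) ≤ η) {y : ℕ → X} (hy : ∀ i, y i ∈ Ω)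
    (hyy : ∀ i i' j j', j ≤ 2 * (n + 1) → j' ≤ 2 * (n + 1) → i + j = i' + j' →
      dist (f^[j] (y i)) (f^[j'] (y i')) ≤ e / 2) (q : ℕ) :
    ∃ z : ℕ → X, (∀ j, z (j + 1) = f (z j)) ∧
      ∑ a ∈ Finset.range q, ψ (z a) ≤ q * (C' * Real.exp (-κ' * (2 * n + 1 : ℕ))) ∧
      ∀ a ≤ q, dist (z a) (f^[n + 1] (y a)) ≤ C * Real.exp (-κ * n) := by
  let O : ℕ → ℤ → X := fun i t => o (y i) (t - i + (n + 1))
  have hO : ∀ i, Orb f (O i) := fun i t => by
    simp only [O, ← ho.orb _ _]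
    congr 1
    ring
  have hOΩ : ∀ i t, O i t ∈ Ω := fun i t => ho.mem _ (hy i) _
  have hOit : ∀ (i j : ℕ) (t : ℤ), t - i + (n + 1) = j → O i t = f^[j] (y i) := fun i j t h => by
    have := (ho.orb (y i)).iter 0 j
    rw [ho.zero, zero_add, ← h] at this
    exact this.symm
  have hOO : ∀ (i i' : ℕ) (t : ℤ), |t - i| ≤ n + 1 → |t - i'| ≤ n + 1 →
      dist (O i t) (O i' t) ≤ e / 2 := fun i i' t h h' => by
    rw [abs_le] at h h'
    rw [hOit i (t - i + (n + 1)).toNat t (by omega), hOit i' (t - i' + (n + 1)).toNat t (by omega)]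
    exact hyy _ _ _ _ (by omega) (by omega) (by omega)
  have hself : ∀ i t, ∃ p ∈ Ω, dist (O i t) p ≤ e := fun i t =>
    ⟨_, hOΩ i t, by rw [dist_self]; linarith only [hε, hεe]⟩
  have hps : ∀ k : ℕ, ∃ ζ, Orb f ζ ∧ ∀ t, dist (O (min t.toNat k) t) (ζ t) ≤ ε := fun k =>
    hsh _ fun t => by
      rw [← hO]
      by_cases h : min t.toNat k = min (t + 1).toNat k
      · rw [h, dist_self]; exact hη
      · refine (hR.orb (hO _) (hO _) (hself _) _ n fun j a b => (hOO _ _ j ?_ ?_).trans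
          (by linarith only [hε, hεe])).trans hn <;> rw [abs_le] <;> omega
  have key : ∀ k : ℕ, ∃ ζ, Orb f ζ ∧ (∀ t, dist (O (min t.toNat k) t) (ζ t) ≤ ε) ∧
      ∀ s : Finset ℤ, ∑ j ∈ s, ψ (ζ j) ≤ k * (C' * Real.exp (-κ' * (2 * n + 1 : ℕ))) := by
    intro k
    induction k with
    | zero =>
      refine ⟨O 0, hO 0, fun t => by rw [Nat.min_zero, dist_self]; exact hε, fun s => ?_⟩
      rw [Finset.sum_eq_zero fun j _ => hz _ (hOΩ _ _), Nat.cast_zero, zero_mul]
    | succ k ih =>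
      obtain ⟨α, hα, a1, a2⟩ := ih
      obtain ⟨γ, hγ, c1⟩ := hps (k + 1)
      have hαβ : ∀ t : ℤ, (k : ℤ) - n ≤ t → t ≤ k + (n + 1) → dist (O (k + 1) t) (α t) ≤ e / 2 + ε :=
        fun t h h' => (dist_triangle _ _ _).trans (add_le_add (hOO _ _ t
          (by rw [abs_le]; omega) (by rw [abs_le]; omega)) (a1 t))
      obtain ⟨δ, hδ, d1⟩ := hsh (fun t => if t ≤ k then O (k + 1) t else α t) fun t => by
        by_cases h : t + 1 ≤ k
        · rw [if_pos h, if_pos (by omega), hO, dist_self]; exact hη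
        · by_cases h' : t ≤ k
          · rw [if_neg h, if_pos h', ← hO]
            exact (hR.orb (hO _) hα (hself _) _ n fun j a b =>
              (hαβ j (by omega) (by omega)).trans (by linarith only [hε, hεe])).trans hn
          · rw [if_neg h, if_neg h', hα, dist_self]; exact hη
      have d2 : ∀ t ≤ (k : ℤ), dist (δ t) (O (k + 1) t) ≤ ε := fun t h => by
        have := d1 t
        rwa [if_pos h, dist_comm] at this
      have d3 : ∀ t, ¬ t ≤ (k : ℤ) → dist (δ t) (α t) ≤ ε := fun t h => by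
        have := d1 t
        rwa [if_neg h, dist_comm] at this
      refine ⟨γ, hγ, c1, fun s => (hJ α (O (k + 1)) γ δ hα (hO _) hγ hδ (hOΩ _)
        (fun t => ⟨_, hOΩ _ _, dist_comm (γ t) _ ▸ (c1 t).trans (by linarith only [hε, hεe])⟩)
        (fun t => ?_) (k - n) (2 * n + 1) (fun t ht => ⟨?_, ?_⟩) (fun t ht => ⟨?_, ?_⟩) _ a2
        s).trans_eq (by push_cast; ring)⟩
      · by_cases h : t ≤ k
        · exact ⟨_, hOΩ _ _, (d2 t h).trans (by linarith only [hε, hεe])⟩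
        · refine ⟨_, hOΩ (min t.toNat k) t, ?_⟩
          linarith only [dist_triangle_right (δ t) (O (min t.toNat k) t) (α t), d3 t h, a1 t, hε,
            hεe]
      · have : dist (O (min t.toNat (k + 1)) t) (O (min t.toNat k) t) ≤ e / 2 := by
          by_cases h : t ≤ k
          · rw [show min t.toNat (k + 1) = min t.toNat k by omega, dist_self]
            linarith only [hε, hεe]
          · exact hOO _ _ t (by rw [abs_le]; omega) (by rw [abs_le]; omega)
        linarith only [dist_triangle4_left (O (min t.toNat (k + 1)) t) (O (min t.toNat k) t)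
          (γ t) (α t), this, a1 t, c1 t, hεe]
      · by_cases h : t ≤ k
        · linarith only [d2 t h, hε, hεe]
        · linarith only [dist_triangle_right (δ t) (O (k + 1) t) (α t), d3 t h,
            hαβ t (by omega) (by omega), hεe]
      · have : dist (O (min t.toNat (k + 1)) t) (O (k + 1) t) ≤ e / 2 := by
          by_cases h : t ≤ k
          · exact hOO _ _ t (by rw [abs_le]; omega) (by rw [abs_le]; omega)
          · rw [show min t.toNat (k + 1) = k + 1 by omega, dist_self]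
            linarith only [hε, hεe]
        linarith only [dist_triangle_left (γ t) (O (k + 1) t) (O (min t.toNat (k + 1)) t), this,
          c1 t, hε, hεe]
      · by_cases h : t ≤ k
        · linarith only [dist_triangle (δ t) (O (k + 1) t) (α t), d2 t h,
            hαβ t (by omega) (by omega), hεe]
        · linarith only [d3 t h, hε, hεe]
  obtain ⟨ζ, hζ, h1, h2⟩ := key q
  refine ⟨fun j => ζ j, fun j => by rw [← hζ]; rfl, ?_, fun a ha => ?_⟩
  · have := h2 ((Finset.range q).map Nat.castEmbedding)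
    rwa [Finset.sum_map] at this
  · rw [← hOit a (n + 1) a (by omega), dist_comm]
    refine hR.orb (hO a) hζ (hself a) a n fun t b1 b2 => ?_
    linarith only [dist_triangle (O a t) (O (min t.toNat q) t) (ζ t), h1 t, hε, hεe,
      hOO a (min t.toNat q) t (by rw [abs_le]; omega) (by rw [abs_le]; omega)]

end cheap

end Pool.Agent.MP_80da8f_an

end

section

open MeasureTheory Filter Topology Relation

namespace Pool.Agent.MP_80da8f_an

theorem qe_toPath {A : Type} {R : A → A → Prop} {x y : A} (h : ReflTransGen R x y) :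
    ∃ (n : ℕ) (c : ℕ → A), c 0 = x ∧ c n = y ∧ ∀ j < n, R (c j) (c (j + 1)) := by
  induction h using ReflTransGen.head_induction_on with
  | refl => exact ⟨0, fun _ => y, rfl, rfl, fun _ h => absurd h (by omega)⟩
  | @head a b h _ ih =>
    obtain ⟨n, c, rfl, h2, h3⟩ := ih
    refine ⟨n + 1, fun j => j.casesOn a c, rfl, h2, fun j hj => ?_⟩
    cases j with
    | zero => exact h
    | succ j => exact h3 j (by omega)

theorem qe_ofPath {A : Type} {R : A → A → Prop} {c : ℕ → A} {n : ℕ}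
    (h : ∀ j < n, R (c j) (c (j + 1))) : ReflTransGen R (c 0) (c n) := by
  induction n with
  | zero => exact .refl
  | succ n ih => exact (ih fun j hj => h j (by omega)).tail (h n (by omega))

theorem qe_pigeon {A B : Type} [DecidableEq B] (F : Finset A) {W : Finset B} (hW : W.Nonempty)
    (g : A → B) (h : ∀ x ∈ F, g x ∈ W) :
    ∃ u ∈ W, (F.card : ℝ) ≤ W.card * (F.filter fun x => g x = u).card := by
  obtain ⟨u, hu, h1⟩ := W.exists_max_image (fun u => (F.filter fun x => g x = u).card) hW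
  refine ⟨u, hu, ?_⟩
  rw [Finset.card_eq_sum_card_fiberwise h]
  exact_mod_cast Finset.sum_le_card_nsmul _ _ _ h1

theorem qe_freq {B : Type} {W : Finset B} {p : ℕ → B → Prop} (h : ∃ᶠ l in atTop, ∃ u ∈ W, p l u) :
    ∃ u ∈ W, ∃ᶠ l in atTop, p l u := by
  by_contra hc
  push Not at hc
  obtain ⟨l, ⟨u, a, b⟩, c⟩ := (h.and_eventually ((eventually_all_finset W).2 hc)).exists
  exact c u a b

section
variable {X : Type} {f : X → X} {Ω : Set X} {k : ℕ} {ξ : X → Fin k} {m : ℕ}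

/-- an edge of the graph of words of length `m` -/
def St (f : X → X) (Ω : Set X) (ξ : X → Fin k) (m : ℕ) (a b : X) : Prop :=
  a ∈ Ω ∧ b ∈ Ω ∧ ∀ j < m, ξ (f^[j + 1] a) = ξ (f^[j] b)

theorem St.congr {a b a' b' : X} (h : St f Ω ξ m a b) (ha : a' ∈ Ω) (hb : b' ∈ Ω)
    (h1 : itin f ξ (m + 1) a' = itin f ξ (m + 1) a) (h2 : itin f ξ (m + 1) b' = itin f ξ (m + 1) b) :
    St f Ω ξ m a' b' := ⟨ha, hb, fun j hj => (congrFun h1 ⟨j + 1, by omega⟩).trans
      ((h.2.2 j hj).trans (congrFun h2 ⟨j, by omega⟩).symm)⟩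

theorem qe_mem {x y : X} (hx : x ∈ Ω) (h : ReflTransGen (St f Ω ξ m) x y) : y ∈ Ω := by
  induction h with
  | refl => exact hx
  | tail _ h _ => exact h.2.1

theorem qe_step (hf : ∀ x ∈ Ω, f x ∈ Ω) {x : X} (hx : x ∈ Ω) (i : ℕ) :
    St f Ω ξ m (f^[i] x) (f^[i + 1] x) :=
  ⟨tj_fwd hf i x hx, tj_fwd hf _ x hx, fun j _ => by
    rw [Function.iterate_succ_apply' f i, Function.iterate_succ_apply]⟩

theorem qe_orb (hf : ∀ x ∈ Ω, f x ∈ Ω) {x : X} (hx : x ∈ Ω) (i : ℕ) :
    ReflTransGen (St f Ω ξ m) x (f^[i] x) :=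
  qe_ofPath (c := fun i => f^[i] x) fun j _ => qe_step hf hx j

theorem qe_rep (f : X → X) (S : Set X) (ξ : X → Fin k) (l : ℕ) [Nonempty X] :
    ∃ rep : (Fin l → Fin k) → X, ∀ w ∈ words f S ξ l, rep w ∈ S ∧ itin f ξ l (rep w) = w := by
  have : ∀ w, ∃ y, w ∈ words f S ξ l → y ∈ S ∧ itin f ξ l y = w := fun w => by
    by_cases h : w ∈ words f S ξ l
    · obtain ⟨y, a⟩ := mem_words.1 h
      exact ⟨y, fun _ => a⟩
    · exact ⟨Classical.arbitrary X, fun c => absurd c h⟩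
  choose rep h using this
  exact ⟨rep, h⟩

theorem qe_short {x y : X} (hx : x ∈ Ω) (h : ReflTransGen (St f Ω ξ m) x y) :
    ∃ (n : ℕ) (c : ℕ → X), n ≤ (words f Ω ξ (m + 1)).card + 1 ∧ c 0 = x ∧ c n = y ∧
      ∀ j < n, St f Ω ξ m (c j) (c (j + 1)) := by
  classical
  have : Nonempty X := ⟨x⟩
  obtain ⟨n, c, rfl, rfl, h3⟩ := qe_toPath h
  obtain ⟨rep, hrep⟩ := qe_rep f Ω ξ (m + 1)
  have hc : ∀ j ≤ n, c j ∈ Ω := fun j hj => qe_mem hx (qe_ofPath fun i hi => h3 i (by omega))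
  let c' : ℕ → X := fun j => if j = 0 ∨ j = n then c j else rep (itin f ξ (m + 1) (c j))
  have hc' : ∀ j ≤ n, c' j ∈ Ω ∧ itin f ξ (m + 1) (c' j) = itin f ξ (m + 1) (c j) := fun j hj => by
    simp only [c']
    split_ifs
    · exact ⟨hc j hj, rfl⟩
    · exact hrep _ (mem_words.2 ⟨_, hc j hj, rfl⟩)
  obtain ⟨n', a1, d, -, a2, a3, a4⟩ := sShort X (St f Ω ξ m)
    (insert (c 0) (insert (c n) ((words f Ω ξ (m + 1)).image rep))) n c' (fun j hj => by
      simp only [c', Finset.mem_insert]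
      split_ifs with b
      · rcases b with rfl | rfl
        · exact .inl rfl
        · exact .inr (.inl rfl)
      · exact .inr (.inr (Finset.mem_image_of_mem _ (mem_words.2 ⟨_, hc j hj, rfl⟩))))
    fun j hj => (h3 j hj).congr (hc' j hj.le).1 (hc' _ hj).1 (hc' j hj.le).2 (hc' _ hj).2
  refine ⟨n', d, ?_, by simpa [c'] using a3, by simpa [c'] using a4, a2⟩
  have b1 := Finset.card_insert_le (c 0) (insert (c n) ((words f Ω ξ (m + 1)).image rep))
  have b2 := Finset.card_insert_le (c n) ((words f Ω ξ (m + 1)).image rep)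
  have b3 := Finset.card_image_le (s := words f Ω ξ (m + 1)) (f := rep)
  omega

/-- a path from the component of `x₀` whose labels are not an itinerary -/
def Ill (f : X → X) (Ω : Set X) (ξ : X → Fin k) (m : ℕ) (x₀ : X) (n : ℕ) : Prop :=
  ∃ c : ℕ → X, ReflTransGen (St f Ω ξ m) x₀ (c 0) ∧ (∀ j < n, St f Ω ξ m (c j) (c (j + 1))) ∧
    ∀ y ∈ Ω, ∃ i < n, ξ (f^[i] y) ≠ ξ (c i)

theorem qe_key {n : ℕ} {c : ℕ → X} (h2 : ∀ j < n, St f Ω ξ m (c j) (c (j + 1))) :
    ∀ i ≤ n, ∀ j, i + j ≤ m → ξ (f^[i + j] (c 0)) = ξ (f^[j] (c i)) := by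
  intro i
  induction i with
  | zero => intro _ j _; rw [zero_add]
  | succ i ih =>
    intro hi j hj
    rw [← (h2 i hi).2.2 j (by omega), ← ih (by omega) (j + 1) (by omega)]
    congr 2
    omega

theorem qe_ill {x₀ : X} (hx : x₀ ∈ Ω) {n : ℕ} (h : Ill f Ω ξ m x₀ n) : m + 2 ≤ n := by
  obtain ⟨c, h1, h2, h3⟩ := h
  obtain ⟨i, a1, a2⟩ := h3 _ (qe_mem hx h1)
  by_contra hc
  exact a2 (qe_key h2 i a1.le 0 (by omega))

theorem qe_loop (hf : ∀ x ∈ Ω, f x ∈ Ω)
    (hs : ∀ x y, ReflTransGen (St f Ω ξ m) x y → ReflTransGen (St f Ω ξ m) y x) {v : X}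
    (hv : v ∈ Ω) {n : ℕ} {w : ℕ → X} (h1 : ReflTransGen (St f Ω ξ m) v (w 0))
    (h2 : ∀ j < n, St f Ω ξ m (w j) (w (j + 1))) (l : ℕ) :
    ∃ (q α : ℕ) (Y : ℕ → X), q ≤ l + n + 2 * ((words f Ω ξ (m + 1)).card + 1) ∧ l ≤ α ∧
      α + n ≤ q ∧ (∀ j, St f Ω ξ m (Y j) (Y (j + 1))) ∧ (∀ i ≤ l, Y i = f^[i] v) ∧
      (∀ i, Y (q + i) = f^[i] v) ∧ ∀ i ≤ n, Y (α + i) = w i := by
  obtain ⟨s, c, a1, a2, a3, a4⟩ := qe_short (tj_fwd hf l v hv) ((hs _ _ (qe_orb hf hv l)).trans h1)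
  have h3 := h1.trans (qe_ofPath h2)
  obtain ⟨s', c', b1, b2, b3, b4⟩ := qe_short (qe_mem hv h3) (hs _ _ h3)
  have e1 : c 0 = (fun i => f^[i] v) l := a2
  have e2 : w 0 = cat (fun i => f^[i] v) l c (l + s) := by rw [cat_right, a3]
  have e3 : c' 0 = cat (cat (fun i => f^[i] v) l c) (l + s) w (l + s + n) := by rw [cat_right, b2]
  have e4 : (fun i => f^[i] v) 0 =
      cat (cat (cat (fun i => f^[i] v) l c) (l + s) w) (l + s + n) c' (l + s + n + s') := by
    rw [cat_right, b3]; rfl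
  refine ⟨l + s + n + s', l + s, cat _ _ fun i => f^[i] v, by omega, by omega, by omega,
    fun j => cat_rel (n' := j + 1) e4 (cat_rel e3 (cat_rel e2 (cat_rel e1
      (fun j _ => qe_step hf hv j) a4) h2) b4) (fun j _ => qe_step hf hv j) j (by omega),
    fun i hi => ?_, fun i => cat_right _ _ _ _, fun i hi => ?_⟩
  · rw [cat_left e4 (by omega), cat_left e3 (by omega), cat_left e2 (by omega), cat_left e1 hi]
  · rw [cat_left e4 (by omega), cat_left e3 (by omega), cat_right]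

theorem St.mono {m' : ℕ} {a b : X} (h : St f Ω ξ m' a b) (hm : m ≤ m') : St f Ω ξ m a b :=
  ⟨h.1, h.2.1, fun j hj => h.2.2 j (by omega)⟩

open Classical in
/-- the labels of paths -/
noncomputable def pw (f : X → X) (Ω : Set X) (ξ : X → Fin k) (m l : ℕ) : Finset (Fin l → Fin k) :=
  Finset.univ.filter fun w => ∃ c : ℕ → X, c 0 ∈ Ω ∧ (∀ j < l, St f Ω ξ m (c j) (c (j + 1))) ∧
    (fun i : Fin l => ξ (c i)) = w

theorem qe_dich [Nonempty X] {b : ℝ} (hb : 0 ≤ b)
    (hE : ∀ x ∈ Ω, ∀ y ∈ Ω, itin f ξ m x = itin f ξ m y → ReflTransGen (St f Ω ξ m) x y)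
    (hup : ∀ β > b, ∃ D : ℝ, ∀ l : ℕ, ((words f Ω ξ l).card : ℝ) ≤ D * Real.exp (β * l))
    (h : ∀ x ∈ Ω, (∀ l : ℕ, 1 ≤ l → Real.exp (b * l) ≤
      (words f {y | ReflTransGen (St f Ω ξ m) x y} ξ l).card) → ∀ n, ¬ Ill f Ω ξ m x n) :
    ∃ m', ∀ β > b, ∃ D : ℝ, ∀ l : ℕ, ((pw f Ω ξ m' l).card : ℝ) ≤ D * Real.exp (β * l) := by
  classical
  have key : ∀ x ∈ Ω, ∃ l₀ : ℕ, ∀ β > b, ∃ D : ℝ, ∀ l : ℕ, ∃ T : Finset (Fin l → Fin k),
      (T.card : ℝ) ≤ D * Real.exp (β * l) ∧ ∀ c : ℕ → X, ReflTransGen (St f Ω ξ m) x (c 0) →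
        (∀ j < l, St f Ω ξ (m + l₀) (c j) (c (j + 1))) → (fun i : Fin l => ξ (c i)) ∈ T := by
    intro x hx
    by_cases hH : ∀ l : ℕ, 1 ≤ l → Real.exp (b * l) ≤
      (words f {y | ReflTransGen (St f Ω ξ m) x y} ξ l).card
    · refine ⟨0, fun β hβ => (hup β hβ).imp fun D hD l => ⟨_, hD l, fun c h1 h2 => ?_⟩⟩
      have := h x hx hH l
      rw [Ill, not_exists] at this
      have a3 := this c
      push Not at a3
      obtain ⟨y, a4, a5⟩ := a3 h1 h2
      exact mem_words.2 ⟨y, a4, funext fun i => a5 i i.2⟩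
    · push Not at hH
      obtain ⟨l₀, h0, h1⟩ := hH
      refine ⟨l₀, fun β hβ => ⟨Real.exp (b * l₀), fun l => ⟨(Fintype.piFinset
        fun _ : Fin (l / l₀ + 1) => words f {y | ReflTransGen (St f Ω ξ m) x y} ξ l₀).image
          fun g (p : Fin l) => g ⟨p / l₀, Nat.lt_succ_of_le (Nat.div_le_div_right p.2.le)⟩
            ⟨p % l₀, Nat.mod_lt _ h0⟩, ?_, fun c h2 h3 => ?_⟩⟩⟩
      · refine (Nat.cast_le.2 Finset.card_image_le).trans ?_
        rw [Fintype.card_piFinset_const, Nat.cast_pow, ← Real.exp_add]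
        refine (pow_le_pow_left₀ (Nat.cast_nonneg _) h1.le _).trans ?_
        rw [← Real.exp_nat_mul]
        have a1 : ((l / l₀ : ℕ) : ℝ) * l₀ ≤ l := by exact_mod_cast Nat.div_mul_le_self l l₀
        refine Real.exp_le_exp.2 ?_
        rw [Nat.cast_succ]
        linarith only [mul_le_mul_of_nonneg_left a1 hb,
          mul_le_mul_of_nonneg_right hβ.le (Nat.cast_nonneg (α := ℝ) l)]
      · refine Finset.mem_image.2 ⟨fun i => itin f ξ l₀ (c (i * l₀)), Fintype.mem_piFinset.2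
          fun i => mem_words.2 ⟨_, h2.trans (qe_ofPath fun j hj => (h3 j (hj.trans_le
            ((Nat.le_div_iff_mul_le h0).1 (Nat.le_of_lt_succ i.2)))).mono (by omega)), rfl⟩,
          funext fun p => ?_⟩
        have a1 := Nat.div_add_mod' p l₀
        have a2 := Nat.mod_lt p h0
        have := qe_key (c := fun j => c (p / l₀ * l₀ + j)) (n := p % l₀)
          (fun j hj => h3 _ (by omega)) _ le_rfl 0 (by omega)
        rwa [a1] at this
  choose! l₀ h1 using key
  obtain ⟨rep, hrep⟩ := qe_rep f Ω ξ m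
  refine ⟨m + (words f Ω ξ m).sup fun u => l₀ (rep u), fun β hβ => ?_⟩
  choose! D h2 using fun x hx => h1 x hx β hβ
  refine ⟨∑ u ∈ words f Ω ξ m, D (rep u), fun l => ?_⟩
  choose! T h3 h4 using fun x hx => h2 x hx l
  have : (pw f Ω ξ (m + (words f Ω ξ m).sup fun u => l₀ (rep u)) l).card ≤
      ∑ u ∈ words f Ω ξ m, (T (rep u)).card :=
    (Finset.card_le_card fun w hw => by
      obtain ⟨c, a1, a2, rfl⟩ := (Finset.mem_filter.1 hw).2
      have a3 := mem_words.2 ⟨_, a1, rfl (a := itin f ξ m (c 0))⟩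
      exact Finset.mem_biUnion.2 ⟨_, a3, h4 _ (hrep _ a3).1 c (hE _ (hrep _ a3).1 _ a1
        (hrep _ a3).2) fun j hj => (a2 j hj).mono (Nat.add_le_add_left
          (Finset.le_sup (f := fun u => l₀ (rep u)) a3) m)⟩).trans Finset.card_biUnion_le
  rw [Finset.sum_mul]
  exact le_trans (by exact_mod_cast this) (Finset.sum_le_sum fun u hu => h3 _ (hrep u hu).1)

end

theorem qe_symm {X : Type} [MetricSpace X] {f : X → X} {L : ℝ} (hL : 1 ≤ L)
    (hlip : ∀ x y, dist (f x) (f y) ≤ L * dist x y) {Ω : Set X} (hf : ∀ x ∈ Ω, f x ∈ Ω)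
    (hrev : Rev f L Ω) {k : ℕ} {ξ : X → Fin k} {e r : ℝ} (hr : 0 < r) (hξ : Lab Ω ξ e r) (m : ℕ) :
    (∀ x ∈ Ω, ∀ y ∈ Ω, itin f ξ m x = itin f ξ m y → ReflTransGen (St f Ω ξ m) x y) ∧
      ∀ x y, ReflTransGen (St f Ω ξ m) x y → ReflTransGen (St f Ω ξ m) y x := by
  have hL0 : 0 < L := by linarith only [hL]
  have key : ∀ x ∈ Ω, ∀ y ∈ Ω, itin f ξ m x = itin f ξ m y → ReflTransGen (St f Ω ξ m) (f x) y := by
    intro x hx y hy h
    obtain ⟨n, a1, c, a2, a3, a4, a5⟩ := hrev (r / (L ^ m * (2 * L + 1))) (by positivity) 1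
      (fun i => f^[i] x) (fun j _ => tj_fwd hf j x hx) fun j _ => by
        simp only [Function.iterate_succ_apply', dist_self]
        positivity
    have hst : ∀ j < n, St f Ω ξ m (c j) (c (j + 1)) := fun j hj =>
      ⟨a2 j hj.le, a2 _ hj, fun i hi => (hξ _ (tj_fwd hf _ _ (a2 j hj.le)) _
        (tj_fwd hf _ _ (a2 _ hj))).2 (by
          refine (tv_iter_lip hL0.le hlip i _ _).trans ((mul_le_mul (pow_le_pow_right₀ hL hi.le)
            (a5 j hj) dist_nonneg (by positivity)).trans_eq ?_)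
          field_simp)⟩
    obtain ⟨n, rfl⟩ : ∃ n', n = n' + 1 := ⟨n - 1, by omega⟩
    have b1 := hst n (by omega)
    have b2 := qe_ofPath (n := n) fun j hj => hst j (by omega)
    rw [a3] at b2
    rw [a4] at b1
    exact b2.tail ⟨b1.1, hy, fun j hj => (b1.2.2 j hj).trans (congrFun h ⟨j, hj⟩)⟩
  have key2 : ∀ x ∈ Ω, ∀ y ∈ Ω, itin f ξ m x = itin f ξ m y → ReflTransGen (St f Ω ξ m) x y :=
    fun x hx y hy h => (qe_orb hf hx 1).trans (key x hx y hy h)
  refine ⟨key2, fun x y h => ?_⟩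
  induction h with
  | refl => exact .refl
  | tail _ h ih => exact ((key2 _ h.2.1 _ (hf _ h.1) (funext fun j => (h.2.2 j j.2).symm)).trans
      (key _ h.1 _ h.1 rfl)).trans ih

theorem qe_fin {X : Type} [MetricSpace X] [CompactSpace X] [Nonempty X] [MeasurableSpace X]
    [BorelSpace X] {f : X → X} {L : ℝ} {N : ℕ} {e : ℝ} (hS : Sys f L N e) {ψ : X → ℝ}
    {Ω : Set X} (hf : ∀ x ∈ Ω, f x ∈ Ω) (hpay : Pay f ψ Ω) {P : ℝ → ℝ} {b : ℝ}
    (hP : ∀ t > (0 : ℝ), ∀ z : ℝ,
      (∀ μ, Inv f μ → ksEntropy μ f ≤ ((z + t * ∫ x, ψ x ∂μ : ℝ) : EReal)) → P t ≤ z)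
    {k : ℕ} {ξ : X → Fin k} {r : ℝ} (hr : 0 < r) (hξ : Lab Ω ξ (e / 2) r) {m : ℕ}
    (hs : ∀ x y, ReflTransGen (St f Ω ξ m) x y → ReflTransGen (St f Ω ξ m) y x)
    (hlo : ∀ l : ℕ, 1 ≤ l → Real.exp (b * l) ≤ (words f Ω ξ l).card)
    (hup : ∀ β > b, ∃ D : ℝ, ∀ l : ℕ, ((pw f Ω ξ m l).card : ℝ) ≤ D * Real.exp (β * l)) :
    (∃ (n : ℕ) (M : Matrix (Fin n) (Fin n) ℕ),
      spectralRadius ℂ (M.map (Nat.cast : ℕ → ℂ)) = ENNReal.ofReal (Real.exp b)) ∧
    ∃ δ > (0 : ℝ), ∀ᶠ t : ℝ in atTop, P t - b ≤ Real.exp (-δ * t) := by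
  classical
  obtain ⟨ρ, hρ, R, -, c₀, hcm, hc, hk⟩ := qb_code hS hf hr hξ (m + 1)
  have hL0 : 0 < L := by linarith only [hS.one_le]
  obtain ⟨n, ⟨E⟩⟩ := Finite.exists_equiv_fin (words f Ω ξ (m + 1) ⊕ (Fin (m + 1) → Fin R))
  let c := fun x => E (c₀ x)
  have hcc : ∀ x ∈ Ω, ∀ y ∈ Ω, c x = c y ↔ itin f ξ (m + 1) x = itin f ξ (m + 1) y :=
    fun x hx y hy => by
      simp only [c, E.apply_eq_iff_eq, hk x x hx (by rwa [dist_self]),
        hk y y hy (by rwa [dist_self]), Sum.inl.injEq, Subtype.mk.injEq]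
  let G := fun i j => ∃ x y, St f Ω ξ m x y ∧ c x = i ∧ c y = j
  have hy : ∀ i, ∃ y ∈ Ω, ∀ x ∈ Ω, c x = i → c y = i := fun i => by
    by_cases h : ∃ x ∈ Ω, c x = i
    · exact h.imp fun _ h => ⟨h.1, fun _ _ _ => h.2⟩
    · have : 0 < (words f Ω ξ 1).card := by exact_mod_cast (Real.exp_pos _).trans_le (hlo 1 le_rfl)
      obtain ⟨w, hw⟩ := Finset.card_pos.1 this
      obtain ⟨y, hy, -⟩ := mem_words.1 hw
      exact ⟨y, hy, fun x a b => absurd ⟨x, a, b⟩ h⟩
  choose y hy hy' using hy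
  have hG : ∀ i j, G i j → St f Ω ξ m (y i) (y j) ∧ c (y i) = i := by
    rintro _ _ ⟨x, x', h, rfl, rfl⟩
    exact ⟨h.congr (hy _) (hy _) ((hcc _ (hy _) _ h.1).1 (hy' _ x h.1 rfl))
      ((hcc _ (hy _) _ h.2.1).1 (hy' _ x' h.2.1 rfl)), hy' _ x h.1 rfl⟩
  have h1 : ∀ β > b, ∃ D : ℝ, ∀ l : ℕ, (tot (adj G) l : ℝ) ≤ D * Real.exp (β * l) := fun β hβ => by
    obtain ⟨D, hD⟩ := hup β hβ
    refine ⟨_, fun l => le_trans ?_ ((mul_le_mul_of_nonneg_left (hD l) (Nat.cast_nonneg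
      (Finset.univ : Finset (Fin n)).card)).trans_eq (mul_assoc _ _ _).symm)⟩
    rw [← qd_card, ← Nat.cast_mul, ← Finset.card_product]
    refine Nat.cast_le.2 (Finset.card_le_card_of_injOn
      (fun s => (s (Fin.last l), fun i : Fin l => ξ (y (s i.castSucc)))) (fun s hs => ?_)
      fun s hs s' hs' h => ?_)
    · have a1 := (Finset.mem_filter.1 (Finset.mem_coe.1 hs)).2
      refine Finset.mem_coe.2 (Finset.mem_product.2 ⟨Finset.mem_univ _, Finset.mem_filter.2
        ⟨Finset.mem_univ _, fun j => y (s ⟨min j l, by omega⟩), hy _, fun j hj => ?_,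
          funext fun i => ?_⟩⟩)
      · simp only [min_eq_left hj.le, min_eq_left (show j + 1 ≤ l from hj)]
        exact (hG _ _ (a1 ⟨j, hj⟩)).1
      · simp only [min_eq_left i.2.le]
        rfl
    · have a1 := (Finset.mem_filter.1 (Finset.mem_coe.1 hs)).2
      have a2 := (Finset.mem_filter.1 (Finset.mem_coe.1 hs')).2
      obtain ⟨a3, a4⟩ := Prod.mk.inj h
      funext i
      induction i using Fin.reverseInduction with
      | last => exact a3
      | cast i ih =>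
        rw [← (hG _ _ (a1 i)).2, ← (hG _ _ (a2 i)).2, hcc _ (hy _) _ (hy _)]
        funext j
        cases j using Fin.cases with
        | zero => exact congrFun a4 i
        | succ j =>
          exact ((hG _ _ (a1 i)).1.2.2 j j.2).trans (ih ▸ ((hG _ _ (a2 i)).1.2.2 j j.2).symm)
  obtain ⟨D, hD⟩ := qd_sharp (fun _ _ ⟨x, x', h, a, b⟩ => a ▸ b ▸ ReflTransGen.lift (p := G) c
    (fun x x' h => ⟨x, x', h, rfl, rfl⟩) _ _ (hs _ _ (.single h))) h1
  refine ⟨⟨_, _, qd_spec _ h1 fun l hl => (hlo l hl).trans ?_⟩, qd_exp hS hpay hP (c := c)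
    (fun s => ?_) (fun x x' h => hc x x' (E.injective h) 0 (by omega)) (div_pos hρ hL0)
    (fun x hx => ?_) hD⟩
  · obtain ⟨rep, hrep⟩ := qe_rep f Ω ξ l
    rw [← qd_card]
    refine Nat.cast_le.2 (Finset.card_le_card_of_injOn
      (fun w (i : Fin (l + 1)) => c (f^[i] (rep w))) (fun w hw => Finset.mem_coe.2
        (Finset.mem_filter.2 ⟨Finset.mem_univ _, fun i =>
          ⟨_, _, qe_step hf (hrep w hw).1 i, rfl, rfl⟩⟩)) fun w hw w' hw' h => ?_)
    rw [← (hrep w hw).2, ← (hrep w' hw').2]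
    exact funext fun i => congrFun ((hcc _ (tj_fwd hf _ _ (hrep w hw).1) _
      (tj_fwd hf _ _ (hrep w' hw').1)).1 (congrFun h i.castSucc)) 0
  · convert hcm (E.symm s) using 1
    exact Set.ext fun x => E.eq_symm_apply.symm
  · obtain ⟨z, a1, a2⟩ := Metric.mem_thickening_iff.1 hx
    have a3 : dist (f x) (f z) < ρ := (hS.lip x z).trans_lt ((lt_div_iff₀' hL0).1 a2)
    have : G (c x) (c (f x)) := ⟨z, f z, qe_step hf a1 0, by
      simp only [c, hk x z a1 (a2.trans_le (div_le_self hρ.le hS.one_le)),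
        hk z z a1 (by rwa [dist_self])], by
      simp only [c, hk _ _ (hf z a1) a3, hk _ _ (hf z a1) (by rwa [dist_self])]⟩
    simp [adj, this]

end Pool.Agent.MP_80da8f_an

end

section

open MeasureTheory Filter Topology Relation

namespace Pool.Agent.MP_80da8f_an

theorem qf_num {β D b C₁ C₂ κ θ : ℝ} (hβ : 0 < β) (hθ : β < θ * κ) (hD : 0 ≤ D) (hb : 0 ≤ b)
    (h1 : 0 ≤ C₁) (h2 : 0 ≤ C₂) : ∀ᶠ m : ℕ in atTop, ∀ p q N E : ℝ, 0 ≤ q → 0 ≤ E →
      p ≤ D * Real.exp (β * (m + 1)) → q ≤ 4 * m + 4 + 2 * p → N ≤ D * Real.exp (β * (2 * m + 1)) →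
      E ≤ ((q + 2 * m) * C₁ + C₂) * Real.exp (-κ * m) → ∀ t > (0 : ℝ),
      N * Real.exp (1 + 2 * q * Real.log 2 + q * b + t * E) + (N + 1 + q) ≤
        Real.exp (Real.exp (κ * m) ^ θ * (1 + t / Real.exp (κ * m))) := by
  set D' := D * Real.exp β with hD'
  have hD0 : 0 ≤ D' := by positivity
  set A₁ := 6 / β + 4 + 2 * D' with hA₁
  have hA0 : 0 ≤ A₁ := by positivity
  have hl2 : 0 ≤ Real.log 2 := Real.log_nonneg one_le_two
  filter_upwards [qb_small hθ (D' + 6 + (2 * Real.log 2 + b + 1) * A₁) one_pos,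
    qb_small hθ (A₁ * C₁ + C₂) one_pos] with m a1 a2 p q N E hq hE hp hq' hN hE' t ht
  rw [neg_mul, Real.exp_neg, mul_inv_le_iff₀ (Real.exp_pos _), one_mul] at a1 a2
  set G := Real.exp (β * m) with hG
  have hG1 : 1 ≤ G := Real.one_le_exp (by positivity)
  have hG2 : β * m ≤ G := by linarith only [Real.add_one_le_exp (β * m)]
  have hT : Real.exp (κ * m) ^ θ = Real.exp (θ * κ * m) := by
    rw [← Real.exp_mul]; congr 1; ring
  rw [hT]
  set S := Real.exp (θ * κ * m) with hS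
  have b1 : q + 2 * m ≤ A₁ * G := by
    have c1 : (m : ℝ) ≤ G / β := by rw [le_div_iff₀ hβ]; linarith only [hG2]
    have c2 : A₁ * G = 6 * (G / β) + 4 * G + 2 * (D' * G) := by rw [hA₁]; ring
    rw [mul_add, mul_one, Real.exp_add] at hp
    have c3 : D * (G * Real.exp β) = D' * G := by rw [hD']; ring
    linarith only [c1, c2, c3, hp, hq', hG1]
  have b2 : q ≤ A₁ * G := by linarith only [b1, Nat.cast_nonneg (α := ℝ) m]
  have b3 : N ≤ Real.exp (D' * G + 2 * G) := by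
    have c1 : Real.exp (β * (2 * m + 1)) = Real.exp β * Real.exp (2 * (β * m)) := by
      rw [← Real.exp_add]; congr 1; ring
    rw [c1, ← mul_assoc, ← hD'] at hN
    rw [Real.exp_add]
    refine hN.trans (mul_le_mul ?_ (Real.exp_le_exp.2 (by linarith only [hG2])) (by positivity)
      (by positivity))
    linarith only [Real.add_one_le_exp (D' * G), le_mul_of_one_le_right hD0 hG1]
  have b4 : t * E ≤ S * (t / Real.exp (κ * m)) := by
    have c1 : (q + 2 * m) * C₁ + C₂ ≤ S := by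
      linarith only [mul_le_mul_of_nonneg_right b1 h1, le_mul_of_one_le_right h2 hG1, a2]
    rw [neg_mul, Real.exp_neg] at hE'
    have c2 := hE'.trans (mul_le_mul_of_nonneg_right c1 (by positivity))
    rw [div_eq_mul_inv]
    linarith only [mul_le_mul_of_nonneg_left c2 ht.le]
  set Z := Real.exp (S - 3 + S * (t / Real.exp (κ * m))) with hZ
  have c0 := mul_nonneg ht.le hE
  have c1 := mul_le_mul_of_nonneg_left b2 hl2
  have c2 := mul_le_mul_of_nonneg_left b2 hb
  have c3 := mul_nonneg hq hl2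
  have c4 := mul_nonneg hq hb
  have c5 : 0 ≤ D' * G := by positivity
  have d1 : N * Real.exp (1 + 2 * q * Real.log 2 + q * b + t * E) ≤ Z := by
    refine (mul_le_mul_of_nonneg_right b3 (by positivity)).trans ?_
    rw [← Real.exp_add]
    exact Real.exp_le_exp.2 (by linarith only [a1, b4, c1, c2, hG1, b2, hq])
  have d2 : N ≤ Z := b3.trans (Real.exp_le_exp.2 (by
    linarith only [a1, b4, c0, c1, c2, c3, c4, hG1, b2, hq]))
  have d3 : 1 + q ≤ Z := le_trans (by linarith only [Real.add_one_le_exp q])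
    (Real.exp_le_exp.2 (by linarith only [a1, b4, c0, c1, c2, c3, c4, c5, hG1, b2]))
  have d4 : Real.exp (S * (1 + t / Real.exp (κ * m))) = Real.exp 3 * Z := by
    rw [hZ, ← Real.exp_add]; congr 1; ring
  have d5 : 4 * Z ≤ Real.exp 3 * Z :=
    mul_le_mul_of_nonneg_right (by linarith only [Real.add_one_le_exp 3]) (Real.exp_pos _).le
  have d6 : 0 < Z := Real.exp_pos _
  linarith only [d1, d2, d3, d4, d5, d6]

theorem qf_abs {X : Type} [MetricSpace X] [CompactSpace X] [Nonempty X] [MeasurableSpace X]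
    [BorelSpace X] {f : X → X} {L : ℝ} {N : ℕ} {e : ℝ} (hS : Sys f L N e)
    (hbij : Function.Bijective f) {ψ : X → ℝ} {K : ℝ} (hK : 0 ≤ K) (hlip : Lip K ψ)
    (hpos : ∀ x, 0 ≤ ψ x) {Ω : Set X} (hΩ : AubLike f ψ L Ω) {P : ℝ → ℝ} {b : ℝ}
    (hP : ∀ t > (0 : ℝ), ∀ μ, Inv f μ → ksEntropy μ f ≤ ((P t + t * ∫ x, ψ x ∂μ : ℝ) : EReal))
    (hP' : ∀ t > (0 : ℝ), ∀ z : ℝ,
      (∀ μ, Inv f μ → ksEntropy μ f ≤ ((z + t * ∫ x, ψ x ∂μ : ℝ) : EReal)) → P t ≤ z)
    (hb : Tendsto P atTop (𝓝 b)) : 0 ≤ b ∧ ∀ e₁ C κ C' κ' θ : ℝ, 0 < e₁ → 0 ≤ C →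
      RateNear f Ω e₁ C κ → 0 ≤ C' → Jump f ψ Ω e₁ C' κ' → 0 < κ' → κ' ≤ κ → b < κ → b < θ * κ' →
      ((∃ (n : ℕ) (M : Matrix (Fin n) (Fin n) ℕ),
        spectralRadius ℂ (M.map (Nat.cast : ℕ → ℂ)) = ENNReal.ofReal (Real.exp b)) ∧
        ∃ δ > (0 : ℝ), ∀ᶠ t : ℝ in atTop, P t - b ≤ Real.exp (-δ * t)) ∨
      ∃ᶠ T : ℝ in atTop, ∀ t > (0 : ℝ), Real.exp (-(T ^ θ * (1 + t / T))) ≤ P t - b := by
  classical
  obtain ⟨hz, hf, hw, hrev, hpay⟩ := hΩ
  have hC := fun r (hr : r > 0) => qa_close hS hK hlip hpos hP hr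
  have hsep := qa_sep hC hb hz hf
  have hb0 : 0 ≤ b := by
    obtain ⟨x, hx⟩ : Ω.Nonempty := by
      by_contra h
      have h1 := qb_words hS hf hpay hP' hb (ξ := fun _ => (0 : Fin 1)) one_pos
        (fun x hx => absurd ⟨x, hx⟩ h) le_rfl
      have : 0 < (words f Ω (fun _ => (0 : Fin 1)) 1).card := by
        exact_mod_cast (Real.exp_pos _).trans_le h1
      obtain ⟨w, hw⟩ := Finset.card_pos.1 this
      obtain ⟨y, hy, -⟩ := mem_words.1 hw
      exact h ⟨y, hy⟩
    by_contra h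
    obtain ⟨D, -, hD⟩ := hsep 1 one_pos (b / 2) (by linarith only [h])
    obtain ⟨n, hn⟩ := (qb_small (show b / 2 < 0 by linarith only [h]) D one_half_pos).exists
    have := hD n {x} (by simpa using hx) (by simp)
    rw [neg_zero, zero_mul, Real.exp_zero, mul_one] at hn
    rw [Finset.card_singleton, Nat.cast_one] at this
    linarith only [this, hn]
  refine ⟨hb0, fun e₁ C κ C' κ' θ he₁ hC0 hR hC' hJ hκ' hκ hbκ hθ => ?_⟩
  have hκ0 := hκ'.trans_le hκ
  obtain ⟨o, ho⟩ := qb_flow (continuous_of_lip hS.one_le hS.lip) hbij hf hw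
  obtain ⟨k, ξ, r, hr, hξ⟩ := qb_part hS.one_le hS.lip ho he₁ hC0 hR hsep hbκ hκ0 hS.shad
    (lt_min (half_pos hS.epos) (half_pos he₁))
  have hξ₀ : Lab Ω ξ (e / 2) r := fun x hx y hy =>
    ⟨fun h => ((hξ x hx y hy).1 h).trans (min_le_left _ _), (hξ x hx y hy).2⟩
  have hlo := fun l (hl : 1 ≤ l) => qb_words hS hf hpay hP' hb hr hξ₀ hl
  have hξ' : ∀ x ∈ Ω, ∀ y ∈ Ω, ξ x = ξ y → dist x y ≤ e₁ / 2 := fun x hx y hy h =>
    ((hξ x hx y hy).1 h).trans (min_le_right _ _)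
  have hup : ∀ β > b, ∃ D : ℝ, 0 < D ∧ ∀ l : ℕ,
      ((words f Ω ξ l).card : ℝ) ≤ D * Real.exp (β * l) := fun β hβ => by
    obtain ⟨D, h0, hD⟩ := hsep r hr β hβ
    refine ⟨D, h0, fun l => ?_⟩
    obtain ⟨rep, hrep⟩ := qe_rep f Ω ξ l
    rw [← Finset.card_image_of_injOn (f := rep) fun w a w' a' c => by
      rw [← (hrep w a).2, ← (hrep w' a').2, c]]
    refine hD l _ (fun z hz => ?_) fun z hz z' hz' hne => ?_
    · obtain ⟨w, a, rfl⟩ := Finset.mem_image.1 hz
      exact (hrep w a).1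
    · obtain ⟨w, a, rfl⟩ := Finset.mem_image.1 hz
      obtain ⟨w', a', rfl⟩ := Finset.mem_image.1 hz'
      obtain ⟨j, hj⟩ := Function.ne_iff.1 (show itin f ξ l (rep w) ≠ itin f ξ l (rep w') by
        rw [(hrep w a).2, (hrep w' a').2]; exact fun c => hne (by rw [c]))
      exact ⟨j, j.2, not_le.1 fun c => hj ((hξ _ (tj_fwd hf j _ (hrep w a).1) _
        (tj_fwd hf j _ (hrep w' a').1)).2 c)⟩
  refine or_iff_not_imp_left.2 fun hno => frequently_atTop.2 fun T₀ => ?_
  obtain ⟨ηc, hηc, Kc, hKc, hCl⟩ := hC (r / 2) (half_pos hr)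
  obtain ⟨η, hη, hsh⟩ := hS.shad (e₁ / 4) (by positivity)
  obtain ⟨D, hD0, hD⟩ := hup ((b + θ * κ') / 2) (by linarith only [hθ])
  obtain ⟨n₀, hn₀⟩ := eventually_atTop.1 (qb_small hκ0 C
    (lt_min (lt_min hη hηc) (lt_min (half_pos he₁) (show 0 < r / 4 by positivity))))
  simp only [zero_mul, Real.exp_zero, mul_one, le_min_iff] at hn₀
  obtain ⟨m₀, hm₀⟩ := eventually_atTop.1 ((qf_num (β := (b + θ * κ') / 2) (by linarith only [hθ, hb0])
    (show _ < θ * κ' by linarith only [hθ]) hD0.le hb0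
    (show 0 ≤ C' * Real.exp (2 * κ') by positivity) (show 0 ≤ 2 * (Kc * C) by positivity)).and
    ((Real.tendsto_exp_atTop.comp (tendsto_natCast_atTop_atTop.const_mul_atTop hκ')).eventually_ge_atTop
      T₀))
  set m := m₀ + 2 * n₀ + 2 with hm
  obtain ⟨hE, hs⟩ := qe_symm hS.one_le hS.lip hf hrev hr hξ m
  obtain ⟨x₀, hx₀, hH, hill⟩ : ∃ x₀ ∈ Ω, (∀ l : ℕ, 1 ≤ l → Real.exp (b * l) ≤
      (words f {y | ReflTransGen (St f Ω ξ m) x₀ y} ξ l).card) ∧ ∃ n, Ill f Ω ξ m x₀ n := by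
    by_contra h
    obtain ⟨m', h'⟩ := qe_dich hb0 hE (fun β hβ => (hup β hβ).imp fun _ h => h.2)
      fun x hx a n c => h ⟨x, hx, a, n, c⟩
    exact hno (qe_fin hS hf hpay hP' hr hξ₀ (qe_symm hS.one_le hS.lip hf hrev hr hξ m').2 hlo h')
  have hF' : ∃ᶠ l : ℕ in atTop, ∃ F : Finset X, (∀ x ∈ F, ReflTransGen (St f Ω ξ m) x₀ x) ∧
      Set.InjOn (itin f ξ l) F ∧ Real.exp (b * l) ≤ F.card :=
    ((eventually_ge_atTop 1).mono fun l hl => by
      obtain ⟨rep, hrep⟩ := qe_rep f {y | ReflTransGen (St f Ω ξ m) x₀ y} ξ l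
      refine ⟨(words f {y | ReflTransGen (St f Ω ξ m) x₀ y} ξ l).image rep, fun x hx => ?_,
        fun x hx y hy c => ?_, (hH l hl).trans_eq ?_⟩
      · obtain ⟨w, a, rfl⟩ := Finset.mem_image.1 hx
        exact (hrep w a).1
      · obtain ⟨w, a, rfl⟩ := Finset.mem_image.1 hx
        obtain ⟨w', a', rfl⟩ := Finset.mem_image.1 hy
        rw [(hrep w a).2, (hrep w' a').2] at c
        rw [c]
      · rw [Finset.card_image_of_injOn fun w a w' a' c => by
          rw [← (hrep w a).2, ← (hrep w' a').2, c]]).frequently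
  obtain ⟨m', hm'⟩ : ∃ m', Nat.find hill = m' + 2 :=
    ⟨Nat.find hill - 2, by have := qe_ill hx₀ (Nat.find_spec hill); omega⟩
  have hmm : m ≤ m' := by have := qe_ill hx₀ (Nat.find_spec hill); omega
  obtain ⟨w, w1, w2, w3⟩ := hm' ▸ Nat.find_spec hill
  have hleg : ¬ Ill f Ω ξ m x₀ (m' + 1) := Nat.find_min hill (by omega)
  obtain ⟨n, hn1, hn2⟩ : ∃ n, 2 * (n + 1) ≤ m' ∧ m' ≤ 2 * n + 3 := ⟨m' / 2 - 1, by omega, by omega⟩
  obtain ⟨⟨n1, -⟩, n3, n4⟩ := hn₀ n (by omega)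
  obtain ⟨⟨-, n2⟩, -⟩ := hn₀ m' (by omega)
  obtain ⟨hnum, hT₀⟩ := hm₀ m' (by omega)
  refine ⟨_, hT₀, fun t ht => ?_⟩
  set W := words f Ω ξ (2 * m' + 1) with hW
  have hW0 : 0 < W.card := by exact_mod_cast (Real.exp_pos _).trans_le (hlo _ (by omega))
  have hback : ∀ x ∈ Ω, ∀ i j : ℕ, f^[j + i] (o x (-i)) = f^[j] x := fun x _ i j => by
    rw [Function.iterate_add_apply, (ho.orb x).iter, neg_add_cancel, ho.zero]
  have hback' : ∀ x, ReflTransGen (St f Ω ξ m) x₀ x → ∀ i : ℕ,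
      ReflTransGen (St f Ω ξ m) x₀ (o x (-i)) := fun x hx i => by
    have := qe_orb (ξ := ξ) (m := m) hf (ho.mem x (qe_mem hx₀ hx) (-i)) (0 + i)
    rw [hback x (qe_mem hx₀ hx)] at this
    exact hx.trans (hs _ _ this)
  obtain ⟨u, -, hu⟩ := qe_freq (W := W) (p := fun l u => ∃ F : Finset X,
      (∀ x ∈ F, ReflTransGen (St f Ω ξ m) x₀ x) ∧ Set.InjOn (itin f ξ l) F ∧
      Real.exp (b * l) ≤ W.card * F.card ∧ ∀ x ∈ F, (l : ℝ) ≤ W.card *
        ((Finset.range l).filter fun j => itin f ξ (2 * m' + 1) (f^[j] (o x (-m'))) = u).card)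
    (hF'.mono fun l ⟨F, a1, a2, a3⟩ => by
      have : ∀ x, ∃ u, x ∈ F → u ∈ W ∧ (l : ℝ) ≤ W.card * ((Finset.range l).filter fun j =>
          itin f ξ (2 * m' + 1) (f^[j] (o x (-m'))) = u).card := fun x => by
        by_cases hx : x ∈ F
        · obtain ⟨u, b1, b2⟩ := qe_pigeon (Finset.range l) (Finset.card_pos.1 hW0)
            (fun j => itin f ξ (2 * m' + 1) (f^[j] (o x (-m')))) fun j _ => mem_words.2
              ⟨_, tj_fwd hf j _ (ho.mem x (qe_mem hx₀ (a1 x hx)) _), rfl⟩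
          rw [Finset.card_range] at b2
          exact ⟨u, fun _ => ⟨b1, b2⟩⟩
        · exact ⟨itin f ξ _ x, fun c => absurd c hx⟩
      choose U hU using this
      obtain ⟨u, b1, b2⟩ := qe_pigeon F (Finset.card_pos.1 hW0) U fun x hx => (hU x hx).1
      refine ⟨u, b1, F.filter fun x => U x = u, fun x hx => a1 x (Finset.mem_filter.1 hx).1,
        a2.mono (Finset.coe_subset.2 (Finset.filter_subset _ _)), a3.trans b2, fun x hx => ?_⟩
      rw [← (Finset.mem_filter.1 hx).2]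
      exact (hU x (Finset.mem_filter.1 hx).1).2)
  obtain ⟨v, hv, hvu⟩ : ∃ v, ReflTransGen (St f Ω ξ m) x₀ v ∧ itin f ξ (2 * m' + 1) v = u := by
    obtain ⟨l, ⟨F, a1, -, a3, a4⟩, hl⟩ := (hu.and_eventually (eventually_gt_atTop 0)).exists
    obtain ⟨x, hx⟩ : F.Nonempty := by
      rw [Finset.nonempty_iff_ne_empty]
      rintro rfl
      simpa using (Real.exp_pos _).trans_le a3
    obtain ⟨j, hj⟩ : ((Finset.range l).filter fun j =>
        itin f ξ (2 * m' + 1) (f^[j] (o x (-m'))) = u).Nonempty := by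
      rw [Finset.nonempty_iff_ne_empty]
      intro c
      have := a4 x hx
      rw [c, Finset.card_empty, Nat.cast_zero, mul_zero] at this
      exact absurd (by exact_mod_cast this) hl.not_ge
    have := hback' x (a1 x hx) m'
    exact ⟨_, this.trans (qe_orb hf (qe_mem hx₀ this) j), (Finset.mem_filter.1 hj).2⟩
  have hv' := hback' v hv (n + 1)
  obtain ⟨q, α, Y, y1, y2, y3, y4, y5, y6, y7⟩ := qe_loop hf hs (qe_mem hx₀ hv')
    ((hs _ _ hv').trans w1) w2 (2 * m' + (n + 1))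
  have hy : ∀ i, ∃ y ∈ Ω, ∀ j < m' + 1, ξ (f^[j] y) = ξ (Y (i + j)) := fun i => by
    by_contra h
    push Not at h
    refine hleg ⟨fun j => Y (i + j), ?_, fun j _ => y4 _, h⟩
    have := qe_ofPath (n := i) fun j _ => y4 j
    rw [y5 0 (Nat.zero_le _)] at this
    exact hv'.trans this
  choose y hy hy' using hy
  obtain ⟨z, z1, z2, z3⟩ := qd_cheap hz ho (by positivity) (by linarith only []) hη.le hR hJ hsh n1
    hy (fun i i' j j' a b c => hξ' _ (tj_fwd hf _ _ (hy i)) _ (tj_fwd hf _ _ (hy i'))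
      (by rw [hy' i j (by omega), hy' i' j' (by omega), c])) (m' + q + m')
  have z4 : ∀ a i, f^[i] (z a) = z (a + i) := fun a i => by
    induction i with
    | zero => rfl
    | succ i ih => rw [Function.iterate_succ_apply', ih, ← z1, add_assoc]
  have hM : Mark f ψ Ω ξ r _ q (fun a => z (m' + a)) fun a => ξ (Y (m' + a + (n + 1))) :=
    ⟨fun j => z1 _, le_trans (by
      rw [Finset.sum_range_add, Finset.sum_range_add]
      linarith only [Finset.sum_nonneg fun a (_ : a ∈ Finset.range m') => hpos (z a),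
        Finset.sum_nonneg fun a (_ : a ∈ Finset.range m') => hpos (z (m' + q + a))]) z2,
      fun a ha => ⟨_, tj_fwd hf _ _ (hy _), hy' _ _ (by omega), (z3 _ (by omega)).trans n4⟩,
      fun p hp => by
        obtain ⟨i, a1, a2⟩ := w3 _ (tj_fwd hf (α - (m' + (n + 1))) p hp)
        refine ⟨i + (α - (m' + (n + 1))), by omega, ?_⟩
        rwa [Function.iterate_add_apply, show m' + (i + (α - (m' + (n + 1)))) + (n + 1) = α + i by
          omega, y7 i a1.le]⟩
  have hsite : ∀ p ∈ Ω, itin f ξ (2 * m' + 1) p = u → ∀ a ≤ q, (∀ i ≤ 2 * m',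
      Y (a + (i + (n + 1))) = f^[i + (n + 1)] (o v (-(n + 1 : ℕ)))) →
      dist (f^[m'] p) (z (m' + a)) ≤ C * Real.exp (-κ * m') := fun p hp h a ha hY => by
    rw [add_comm, ← z4]
    refine hR m' p _ (fun j _ => ⟨_, tj_fwd hf j p hp, by rw [dist_self]; exact he₁.le⟩)
      fun j hj => ?_
    have b1 := hξ' _ (tj_fwd hf j p hp) _ (tj_fwd hf (n + 1) _ (hy (a + j))) (by
      rw [hy' _ _ (by omega), add_assoc, hY j hj, hback v (qe_mem hx₀ hv)]
      exact congrFun (h.trans hvu.symm) ⟨j, by omega⟩)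
    rw [z4]
    linarith only [dist_triangle_right (f^[j] p) (z (a + j)) (f^[n + 1] (y (a + j))), b1,
      z3 (a + j) (by omega), n3]
  have hW1 : (0 : ℝ) < W.card := by exact_mod_cast hW0
  have hg := qc_gain hpos hz hf hr hξ hM (ρ := C * Real.exp (-κ * m')) (by positivity) n2 hKc hCl
    (b := b) hW1 hW1
    (hu.mono fun l ⟨F, a1, a2, a3, a4⟩ => ⟨F, fun x hx => qe_mem hx₀ (a1 x hx), a2, a3,
      fun x hx => (a4 x hx).trans (mul_le_mul_of_nonneg_left (Nat.cast_le.2 (Finset.card_le_card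
        fun j hj => by
          obtain ⟨b1, b2⟩ := Finset.mem_filter.1 hj
          have b3 := hsite _ (tj_fwd hf j _ (ho.mem x (qe_mem hx₀ (a1 x hx)) _)) b2
          rw [← Function.iterate_add_apply, add_comm m', hback x (qe_mem hx₀ (a1 x hx))] at b3
          refine Finset.mem_filter.2 ⟨b1, b3 0 (Nat.zero_le _) fun i hi => ?_, ?_⟩
          · rw [zero_add, y5 _ (by omega)]
          · rw [dist_comm]; exact b3 q le_rfl fun i _ => y6 _)) hW1.le)⟩) t ht
  have hfin := hnum (words f Ω ξ (m + 1)).card q W.card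
    (((m' + q + m' : ℕ) : ℝ) * (C' * Real.exp (-κ' * (2 * n + 1 : ℕ))) +
      2 * (Kc * (C * Real.exp (-κ * m')))) (Nat.cast_nonneg _) (by positivity)
    ((hD _).trans (mul_le_mul_of_nonneg_left (Real.exp_le_exp.2 (mul_le_mul_of_nonneg_left
      (by exact_mod_cast (by omega)) (by linarith only [hθ, hb0]))) hD0.le))
    (by exact_mod_cast (by omega)) ((hD _).trans_eq (by push_cast; rfl)) (by
      have c1 : Real.exp (-κ' * (2 * n + 1 : ℕ)) ≤ Real.exp (2 * κ') * Real.exp (-κ' * m') := by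
        rw [← Real.exp_add]
        have : (m' : ℝ) ≤ 2 * n + 3 := by exact_mod_cast hn2
        refine Real.exp_le_exp.2 ?_
        push_cast
        linarith only [mul_le_mul_of_nonneg_left this hκ'.le]
      have c2 : Real.exp (-κ * m') ≤ Real.exp (-κ' * m') := Real.exp_le_exp.2 (by
        linarith only [mul_le_mul_of_nonneg_right hκ (Nat.cast_nonneg (α := ℝ) m')])
      have c3 := mul_le_mul_of_nonneg_left c1 (show 0 ≤ ((q : ℝ) + 2 * m') * C' by positivity)
      have c4 := mul_le_mul_of_nonneg_left c2 (show 0 ≤ 2 * (Kc * C) by positivity)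
      push_cast at c3 ⊢
      linarith only [c3, c4]) t ht
  have hg0 : 0 ≤ P t - b := by
    by_contra h
    linarith only [hg, mul_nonpos_of_nonneg_of_nonpos (show 0 ≤ W.card * Real.exp (1 + 2 * q *
      Real.log 2 + q * b + t * (((m' + q + m' : ℕ) : ℝ) * (C' * Real.exp (-κ' * (2 * n + 1 : ℕ))) +
      2 * (Kc * (C * Real.exp (-κ * m'))))) + ((W.card : ℝ) + 1 + q) by positivity)
      (not_le.1 h).le]
  rw [Real.exp_neg, inv_le_iff_one_le_mul₀' (Real.exp_pos _)]
  exact hg.trans (mul_le_mul_of_nonneg_right hfin hg0)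

end Pool.Agent.MP_80da8f_an

end

section

open MeasureTheory Filter Topology

namespace Pool.Agent.MP_80da8f_an

/-- reduction to a non-negative potential and its Aubry set -/
theorem qm_red {X : Type} [MetricSpace X] [CompactSpace X] [Nonempty X] [MeasurableSpace X]
    [BorelSpace X] {f : X → X} {L : ℝ} {N : ℕ} {e : ℝ} (hS : Sys f L N e) {φ : X → ℝ} {K : ℝ}
    (hK : 0 ≤ K) (hφ : Lip K φ) {P : ℝ → ℝ} {a b : ℝ}
    (hP : ∀ t > (0 : ℝ), pressure f (fun x => t * φ x) = (P t : EReal))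
    (ha : Tendsto (fun t => P t - a * t) atTop (𝓝 b)) :
    ∃ (u ψ : X → ℝ) (Ku Kψ : ℝ) (Ω : Set X), 0 ≤ Ku ∧ Lip Ku u ∧ 0 ≤ Kψ ∧ Lip Kψ ψ ∧
      (∀ x, ψ x = a - φ x + u x - u (f x)) ∧ (∀ x, 0 ≤ ψ x) ∧ AubLike f ψ L Ω ∧
      (∀ t > (0 : ℝ), ∀ μ, Inv f μ →
        ksEntropy μ f ≤ ((P t - a * t + t * ∫ x, ψ x ∂μ : ℝ) : EReal)) ∧
      ∀ t > (0 : ℝ), ∀ z : ℝ, (∀ μ, Inv f μ →
        ksEntropy μ f ≤ ((z + t * ∫ x, ψ x ∂μ : ℝ) : EReal)) → P t - a * t ≤ z := by
  have hfc : Continuous f := continuous_of_lip hS.one_le hS.lip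
  have hφc : Continuous φ := hφ.continuous hK
  obtain ⟨η0, hη0, C2, hC2, hH⟩ := sHorse sRate sWin sPart sEntLB sGlue sCode sMeas X f L N e hS
  have hbasic : ∀ μ, Inv f μ → ∀ t > (0 : ℝ),
      ksEntropy μ f ≤ ((P t - t * ∫ x, φ x ∂μ : ℝ) : EReal) := by
    intro μ hμ t ht
    have := tm_le_pressure (fun x => t * φ x) hμ
    rw [hP t ht, integral_const_mul] at this
    exact tm_add_le_iff.1 this
  have hle : ∀ μ, Inv f μ → ∫ x, φ x ∂μ ≤ a := by
    intro μ hμ
    by_contra hcon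
    have hd0 : 0 < ∫ x, φ x ∂μ - a := sub_pos.2 (not_le.1 hcon)
    obtain ⟨t, ⟨ht1, ht2⟩, ht3⟩ := (((ha.eventually (gt_mem_nhds (lt_add_one b))).and
      (eventually_ge_atTop ((b + 1) / (∫ x, φ x ∂μ - a)))).and (eventually_gt_atTop 0)).exists
    have e3 : (0 : ℝ) ≤ P t - t * ∫ x, φ x ∂μ := by
      exact_mod_cast (sEntNonneg X f μ hμ.1).trans (hbasic μ hμ t ht3)
    rw [div_le_iff₀ hd0] at ht2
    linarith only [ht1, ht2, e3]
  have hψ0L : Lip K fun x => a - φ x := fun x y => by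
    rw [show a - φ x - (a - φ y) = -(φ x - φ y) by ring, abs_neg]
    exact hφ x y
  have hint0 : ∀ μ, Inv f μ → ∫ x, (a - φ x) ∂μ = a - ∫ x, φ x ∂μ := by
    intro μ hμ
    have := hμ.1
    rw [integral_sub (integrable_const a) (tm_integrable hφc μ)]
    simp
  obtain ⟨u, K', hK', hu, hpos⟩ := sMane X f e η0 C2 hS.trans hη0 hC2 hH _ K hK hψ0L
    (fun μ hμ => by rw [hint0 μ hμ]; linarith only [hle μ hμ])
  have hL0 : 0 ≤ L := by linarith only [hS.one_le]
  have hKψ : 0 ≤ K + K' + K' * L := by positivity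
  have hψL : Lip (K + K' + K' * L) fun x => a - φ x + u x - u (f x) := by
    intro x y
    have e1 := hψ0L x y
    have e2 := hu x y
    have e3 := hu (f x) (f y)
    have e4 := mul_le_mul_of_nonneg_left (hS.lip x y) hK'
    rw [abs_le] at e1 e2 e3 ⊢
    constructor <;> linarith only [e1.1, e1.2, e2.1, e2.2, e3.1, e3.2, e4]
  have huc : Continuous u := hu.continuous hK'
  have hint : ∀ μ, Inv f μ → ∫ x, (a - φ x + u x - u (f x)) ∂μ = a - ∫ x, φ x ∂μ := by
    intro μ hμ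
    have := hμ.1
    have e1 : ∫ x, u (f x) ∂μ = ∫ x, u x ∂μ := by
      have := integral_map (μ := μ) (φ := f) hfc.measurable.aemeasurable (f := u)
        huc.aestronglyMeasurable
      rw [hμ.2.map_eq] at this
      exact this.symm
    have i1 : Integrable (fun x => a - φ x) μ := tm_integrable (hψ0L.continuous hK) μ
    have i2 : Integrable u μ := tm_integrable huc μ
    have i3 : Integrable (fun x => u (f x)) μ := tm_integrable (huc.comp hfc) μ
    have i4 : Integrable (fun x => a - φ x + u x) μ := i1.add i2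
    rw [integral_sub i4 i3, integral_add i1 i2, e1, hint0 μ hμ]
    ring
  obtain ⟨hz, hfw, hbw, hnear⟩ := sAub1 X f L hS.one_le hS.lip _ _ hKψ hψL hpos
  refine ⟨u, _, K', _, _, hK', hu, hKψ, hψL, fun _ => rfl, hpos, ⟨hz, hfw, hbw,
    sAub2 X f L hS.one_le hS.lip _ hnear,
    sAub3 X f hfc (sPart X) _ (hψL.continuous hKψ) hpos hnear⟩,
    fun t ht μ hμ => (hbasic μ hμ t ht).trans_eq (by rw [hint μ hμ]; congr 1; ring),
    fun t ht z hz => ?_⟩
  have e1 : pressure f (fun x => t * φ x) ≤ ((z + a * t : ℝ) : EReal) := by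
    refine tm_pressure_le _ fun μ hμ => tm_add_le_iff.2 ((hz μ hμ).trans_eq ?_)
    rw [hint μ hμ, integral_const_mul]
    congr 1
    ring
  rw [hP t ht, EReal.coe_le_coe_iff] at e1
  linarith only [e1]

theorem qm_lip {f : T2 → T2} {F : E2 ≃ E2} {Eu Es : T2 → Submodule ℝ E2} (hA : IsAnosov f F Eu Es) :
    ∃ K, 0 ≤ K ∧ Lip K (geomPot F Eu) := by
  obtain ⟨⟨C, lam, M, hH⟩, hper⟩ := sHypD sTor f F Eu Es hA
  obtain ⟨Γ, hΓ, hang⟩ := sAngle _ _ _ _ _ _ _ hH (sIter _ _ _ _ _ _ _ hH)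
  obtain ⟨C', hC', hhol⟩ := lipU _ _ _ _ _ _ _ _ hH hΓ hang
  obtain ⟨K, hK, h⟩ := sPot sTor F F.symm Eu Es C lam M C' 1 hH hper hC' one_pos le_rfl hhol
  exact ⟨K, hK, fun p q => by simpa only [Real.rpow_one] using h p q⟩

/-- the data that the abstract theorems need -/
theorem qm_geo {f : T2 → T2} {F : E2 ≃ E2} {Eu Es : T2 → Submodule ℝ E2} (hA : IsAnosov f F Eu Es)
    (h3 : ContDiff ℝ 3 F) (hvol : MeasurePreserving f volume volume) {σ : ℝ} (hσ : σ = 1 ∨ σ = -1)
    {a Ku : ℝ} {u ψ : T2 → ℝ} (hKu : 0 ≤ Ku) (hu : Lip Ku u)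
    (hψ : ∀ x, ψ x = a * σ - σ * geomPot F Eu x + u x - u (f x)) (hpos : ∀ x, 0 ≤ ψ x)
    {Ω : Set T2} (hz : ∀ x ∈ Ω, ψ x = 0) (hf : ∀ x ∈ Ω, f x ∈ Ω) {κ κ' : ℝ} (h0 : 0 < κ')
    (h1 : κ' < κ) (h2 : κ < -a) : ∃ e C C' : ℝ, 0 < e ∧ 0 ≤ C ∧ RateNear f Ω e C κ ∧ 0 ≤ C' ∧
      Jump f ψ Ω e C' κ' := by
  obtain ⟨K, hK, hlip⟩ := qm_lip hA
  obtain ⟨e, he, C, hR⟩ := rate f F Eu Es hA (det f F Eu Es hA hvol) K hK hlip Ω (-a) Ku κ
    (fun p hp n => by
      have a1 : ∑ j ∈ Finset.range n, geomPot F Eu (f^[j] p) =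
          n * a + σ * (u p - u (f^[n] p)) := by
        induction n with
        | zero => simp
        | succ n ih =>
          have := (hψ _).symm.trans (hz _ (tj_fwd hf n p hp))
          rw [Finset.sum_range_succ, ih, Function.iterate_succ_apply']
          push_cast
          rcases hσ with rfl | rfl <;> linarith only [this]
      have a2 := abs_le.1 ((hu p (f^[n] p)).trans (mul_le_mul_of_nonneg_left (sTor.diam _ _) hKu))
      rcases hσ with rfl | rfl <;> linarith only [a1, a2.1, a2.2, hKu]) h2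
  obtain ⟨e', he', CM, hCM, hM⟩ := mix lipU f F Eu Es hA h3
  have hR' : RateNear f Ω (min e e') (max C 1) κ := fun n x y a b =>
    (hR n x y (fun j hj => (a j hj).imp fun _ h => ⟨h.1, h.2.trans (min_le_left _ _)⟩)
      fun j hj => (b j hj).trans (min_le_left _ _)).trans
      (mul_le_mul_of_nonneg_right (le_max_left _ _) (Real.exp_pos _).le)
  have hM' : Mix f (fun x => σ * geomPot F Eu x) (min e e') CM :=
    fun α β γ δ a1 a2 a3 a4 n₁ n₂ a5 H K R b1 b2 b3 b4 b5 s => by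
      refine le_trans (le_of_eq (Finset.sum_congr rfl fun j _ => ?_)) (hM α β γ δ a1 a2 a3 a4
        n₁ n₂ a5 H K R (fun j hj => (b1 j hj).trans (min_le_min_right _ (min_le_right _ _)))
        (fun j hj => (b2 j hj).trans (min_le_min_right _ (min_le_right _ _))) b3 b4 b5 s)
      rw [← mul_add, ← mul_sub, ← mul_sub, abs_mul]
      rcases hσ with rfl | rfl <;> simp
  obtain ⟨C', hC', hJ⟩ := qd_jump hKu hu hψ hpos hz (le_max_right C 1) hCM hR' hM' h0 h1
  exact ⟨_, _, C', lt_min he he', le_max_of_le_right zero_le_one, hR', hC', hJ⟩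

theorem perron_main {f : T2 → T2} {F : E2 ≃ E2} {Eu Es : T2 → Submodule ℝ E2}
    (hA : IsAnosov f F Eu Es) (h3 : ContDiff ℝ 3 F) (hvol : MeasurePreserving f volume volume)
    (P : ℝ → ℝ) (hP : ∀ t, pressure f (fun p => t * geomPot F Eu p) = (P t : EReal))
    (σ : ℝ) (hσ : σ = 1 ∨ σ = -1) (a b : ℝ)
    (ha : Tendsto (fun t => P (σ * t) - a * (σ * t)) atTop (𝓝 b)) (hb : b < -a) :
    ((∃ (n : ℕ) (M : Matrix (Fin n) (Fin n) ℕ),
      spectralRadius ℂ (M.map (Nat.cast : ℕ → ℂ)) = ENNReal.ofReal (Real.exp b)) ∧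
      ∃ δ > (0 : ℝ), ∀ᶠ t : ℝ in atTop, P (σ * t) - a * (σ * t) - b ≤ Real.exp (-δ * t)) ∨
    ∀ θ : ℝ, b < θ * -a → ∃ᶠ T : ℝ in atTop, ∀ t > (0 : ℝ),
      Real.exp (-(T ^ θ * (1 + t / T))) ≤ P (σ * t) - a * (σ * t) - b := by
  obtain ⟨hH, -⟩ :=
    asm_anosov sTor sHypD sIter sAngle sHol sExpE (sShadE sCross) sTrans sPot sDesc hA hvol
  obtain ⟨L, hL, hlip⟩ := hH.lip
  obtain ⟨N, e, hN, he, hE⟩ := hH.expa (1 / 4) (by norm_num)
  have hS : Sys f L N e := ⟨hL, hlip, hN, he, hE, hH.shad, hH.trans⟩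
  obtain ⟨K, hK, hφ⟩ := qm_lip hA
  simp only [← mul_assoc] at ha ⊢
  obtain ⟨u, ψ, Ku, Kψ, Ω, h1, h2, h4, h5, h6, h7, h8, h9, h10⟩ := qm_red hS
    (φ := fun x => σ * geomPot F Eu x) hK (fun p q => by
      rw [← mul_sub, abs_mul]
      rcases hσ with rfl | rfl <;> simpa only [abs_one, one_mul, abs_neg] using hφ p q)
    (P := fun t => P (σ * t)) (fun t _ => by
      rw [← hP (σ * t)]
      congr 1
      funext p
      ring) ha
  obtain ⟨hb0, H⟩ := qf_abs hS hA.bij h4 h5 h7 h8 h9 h10 ha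
  refine or_iff_not_imp_left.2 fun hno θ hθ => ?_
  have hθ0 : 0 < θ := (pos_iff_pos_of_mul_pos (hb0.trans_lt hθ)).2 (by linarith only [hb, hb0])
  have hlo : max b (b / θ) < -a := max_lt hb (by rw [div_lt_iff₀ hθ0]; linarith only [hθ])
  have a1 := le_max_left b (b / θ)
  have a2 := le_max_right b (b / θ)
  obtain ⟨e₁, C, C', b1, b2, b3, b4, b5⟩ := qm_geo hA h3 hvol hσ h1 h2 h6 h7 h8.zero h8.fwd
    (κ' := (max b (b / θ) + -a) / 2) (κ := (max b (b / θ) + 3 * -a) / 4)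
    (by linarith only [a1, hb0, hlo]) (by linarith only [hlo]) (by linarith only [hlo])
  refine (H e₁ C _ C' _ θ b1 b2 b3 b4 b5 (by linarith only [a1, hb0, hlo])
    (by linarith only [hlo]) (by linarith only [a1, hlo]) ?_).resolve_left hno
  rw [mul_comm, ← div_lt_iff₀ hθ0]
  linarith only [a2, hlo]

end Pool.Agent.MP_80da8f_an

end
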