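import Pool.Agent.MP_80da8f_an.Defs

/-!
Auxiliary notions and the statements of the steps of the proof (each is proved in its own file).
-/

open MeasureTheory Filter Topology

namespace Pool.Agent.MP_80da8f_an

section abstractdefs
variable {X : Type}

/-- invariant probability measure -/
def Inv [MeasurableSpace X] (f : X → X) (μ : Measure X) : Prop :=
  IsProbabilityMeasure μ ∧ MeasurePreserving f μ μ

variable [MetricSpace X]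

def Lip (K : ℝ) (ψ : X → ℝ) : Prop := ∀ x y, |ψ x - ψ y| ≤ K * dist x y

def IsChain (f : X → X) (η : ℝ) (c : ℕ → X) (n : ℕ) : Prop :=
  ∀ j < n, dist (f (c j)) (c (j + 1)) ≤ η

noncomputable def cost (f : X → X) (ψ : X → ℝ) (K : ℝ) (c : ℕ → X) (n : ℕ) : ℝ :=
  ∑ j ∈ Finset.range n, (ψ (c j) + K * dist (f (c j)) (c (j + 1)))

def Shad (f : X → X) (η ε : ℝ) : Prop :=
  ∀ x : ℤ → X, (∀ i, dist (f (x i)) (x (i + 1)) ≤ η) →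
    ∃ y : ℤ → X, (∀ i, y (i + 1) = f (y i)) ∧ ∀ i, dist (x i) (y i) ≤ ε

def Trans (f : X → X) : Prop :=
  ∀ η > (0 : ℝ), ∃ M : ℕ, ∀ x y : X, ∃ n, 1 ≤ n ∧ n ≤ M ∧ ∃ c : ℕ → X, c 0 = x ∧ c n = y ∧ IsChain f η c n

def Expa (f : X → X) (N : ℕ) (e lam : ℝ) : Prop :=
  ∀ x y, dist (f^[N] x) (f^[N] y) ≤ e →
    dist (f^[N] x) (f^[N] y) ≤ lam * max (dist x y) (dist (f^[2 * N] x) (f^[2 * N] y))

/-- hyperbolic system, normalised form -/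
structure Sys (f : X → X) (L : ℝ) (N : ℕ) (e : ℝ) : Prop where
  one_le : 1 ≤ L
  lip : ∀ x y, dist (f x) (f y) ≤ L * dist x y
  Npos : 1 ≤ N
  epos : 0 < e
  expa : Expa f N e (1 / 4)
  shad : ∀ ε > (0 : ℝ), ∃ η > (0 : ℝ), Shad f η ε
  trans : Trans f

/-- hyperbolic system, form with all contraction rates -/
structure HSys (f : X → X) : Prop where
  lip : ∃ L, 1 ≤ L ∧ ∀ x y, dist (f x) (f y) ≤ L * dist x y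
  expa : ∀ lam > (0 : ℝ), ∃ N e, 1 ≤ N ∧ 0 < e ∧ Expa f N e lam
  shad : ∀ ε > (0 : ℝ), ∃ η > (0 : ℝ), Shad f η ε
  trans : Trans f

/-- expansivity with a rate -/
def Rate (f : X → X) (N : ℕ) (e : ℝ) : Prop :=
  ∀ e' : ℝ, e' ≤ e → ∀ (k : ℕ) (x y : X), (∀ j ≤ 2 * (k * N), dist (f^[j] x) (f^[j] y) ≤ e') →
    dist (f^[k * N] x) (f^[k * N] y) ≤ e' / 4 ^ k

/-- window estimate -/
def Win (f : X → X) (e η C2 C3 : ℝ) : Prop :=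
  ∀ x y : ℤ → X, (∀ i, dist (f (x i)) (x (i + 1)) ≤ η) → (∀ i, y (i + 1) = f (y i)) →
    (∀ i, dist (x i) (y i) ≤ e / 8) → ∀ n : ℕ,
      ∑ l ∈ Finset.range n, dist (x l) (y l) ≤
        C2 * ∑ l ∈ Finset.range n, dist (f (x l)) (x ((l : ℤ) + 1)) + C3

/-- the bi-infinite pseudo-orbit obtained by concatenating loops of length `m` -/
def glue {q : ℕ} (c : Fin q → ℕ → X) (m : ℕ) (ω : ℤ → Fin q) (l : ℤ) : X :=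
  c (ω (l / m)) (l % m).toNat

/-- conclusion of the horseshoe lemma -/
def Horse [MeasurableSpace X] (f : X → X) (e η0 C2 : ℝ) : Prop :=
  ∀ (ψ : X → ℝ) (K : ℝ), 0 ≤ K → Lip K ψ → ∀ (q m : ℕ), 1 ≤ q → 1 ≤ m →
    ∀ (z : X) (c : Fin q → ℕ → X) (E : ℝ),
      (∀ i, c i 0 = z ∧ c i m = z ∧ IsChain f η0 (c i) m ∧ cost f ψ (K * C2) (c i) m ≤ E) →
      (∀ i i', i ≠ i' → ∃ j < m, e / 2 < dist (c i j) (c i' j)) →
      ∃ μ, Inv f μ ∧ ((Real.log q / m : ℝ) : EReal) ≤ ksEntropy μ f ∧ ∫ x, ψ x ∂μ ≤ E / m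

/-- points on a closed `ε`-chain of cost at most `ε` -/
def Om (f : X → X) (ψ : X → ℝ) (ε : ℝ) : Set X :=
  {x | ∃ n, 1 ≤ n ∧ ∃ c : ℕ → X, c 0 = x ∧ c n = x ∧ IsChain f ε c n ∧
    ∑ j ∈ Finset.range n, ψ (c j) ≤ ε}

/-- Aubry set -/
def Aub (f : X → X) (ψ : X → ℝ) : Set X := {x | ∀ ε > (0 : ℝ), x ∈ Om f ψ ε}

def Near (f : X → X) (ψ : X → ℝ) : Prop :=
  ∀ r > (0 : ℝ), ∃ ε > (0 : ℝ), ∀ x ∈ Om f ψ ε, ∃ w ∈ Aub f ψ, dist x w < r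

/-- chains inside `Ω` can be reversed -/
def Rev (f : X → X) (L : ℝ) (Ω : Set X) : Prop :=
  ∀ η > (0 : ℝ), ∀ (n : ℕ) (c : ℕ → X), (∀ j ≤ n, c j ∈ Ω) → IsChain f η c n →
    ∃ n', 1 ≤ n' ∧ ∃ c' : ℕ → X, (∀ j ≤ n', c' j ∈ Ω) ∧ c' 0 = c n ∧ c' n' = c 0 ∧
      IsChain f ((2 * L + 1) * η) c' n'

/-- time spent away from `Ω` is paid for -/
def Pay [MeasurableSpace X] (f : X → X) (ψ : X → ℝ) (Ω : Set X) : Prop :=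
  ∀ r > (0 : ℝ), ∃ c > (0 : ℝ), ∀ μ, Inv f μ → c * μ.real (Metric.thickening r Ω)ᶜ ≤ ∫ x, ψ x ∂μ

structure AubLike [MeasurableSpace X] (f : X → X) (ψ : X → ℝ) (L : ℝ) (Ω : Set X) : Prop where
  zero : ∀ x ∈ Ω, ψ x = 0
  fwd : ∀ x ∈ Ω, f x ∈ Ω
  bwd : ∀ x ∈ Ω, ∃ w ∈ Ω, f w = x
  rev : Rev f L Ω
  pay : Pay f ψ Ω

def Branch (f : X → X) (Ω : Set X) (e η : ℝ) : Prop :=
  ∃ (m : ℕ) (c c' : ℕ → X), (∀ j ≤ m, c j ∈ Ω ∧ c' j ∈ Ω) ∧ c' 0 = c 0 ∧ c m = c 0 ∧ c' m = c 0 ∧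
    IsChain f η c m ∧ IsChain f η c' m ∧ ∃ j < m, 3 * e / 4 < dist (c j) (c' j)

/-- subexponential number of separated points -/
def Dim0 (Ω : Set X) (e : ℝ) : Prop :=
  ∀ β > (0 : ℝ), ∃ C : ℝ, ∀ (k : ℕ) (Z : Finset X), (∀ z ∈ Z, z ∈ Ω) →
    (∀ z ∈ Z, ∀ z' ∈ Z, z ≠ z' → e / 2 / 4 ^ k < dist z z') → (Z.card : ℝ) ≤ C * Real.exp (β * k)

/-- finite measurable partitions with small cells exist -/
def Part (X : Type) [MetricSpace X] [MeasurableSpace X] : Prop :=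
  ∀ ρ > (0 : ℝ), ∃ (r : ℕ) (ξ : X → Fin r), 1 ≤ r ∧ Measurable ξ ∧ ∀ x y, ξ x = ξ y → dist x y ≤ ρ

/-- the coding bound for the entropy -/
def UB [MeasurableSpace X] (f : X → X) (e : ℝ) : Prop :=
  ∀ μ, Inv f μ → ∀ (r : ℕ) (ξ : X → Fin r) (G : Set X), 1 ≤ r → Measurable ξ → MeasurableSet G →
    (∀ (n : ℕ) (x y : X), ξ x = ξ y →
      (∀ j < n, (f^[j] x ∈ G ↔ f^[j] y ∈ G) ∧ (f^[j] x ∉ G → ξ (f^[j + 1] x) = ξ (f^[j + 1] y))) →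
      dist (f^[n] x) (f^[n] y) ≤ e) →
    ∀ s : ℝ, 0 < s → s < 1 →
      ksEntropy μ f ≤ ((-Real.log (1 - s) + μ.real Gᶜ * Real.log (r / s) : ℝ) : EReal)

/-- first alternative, in terms of measures -/
def AltI [MeasurableSpace X] (f : X → X) (ψ : X → ℝ) : Prop :=
  ∃ δ > (0 : ℝ), ∀ᶠ t : ℝ in atTop, ∀ μ, Inv f μ →
    ksEntropy μ f ≤ ((Real.exp (-δ * t) + t * ∫ x, ψ x ∂μ : ℝ) : EReal)

/-- second alternative, in terms of measures -/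
def AltII [MeasurableSpace X] (f : X → X) (ψ : X → ℝ) : Prop :=
  ∀ ε > (0 : ℝ), ∀ᶠ t : ℝ in atTop, ∃ μ, Inv f μ ∧
    ((t ^ (-ε) + t * ∫ x, ψ x ∂μ : ℝ) : EReal) ≤ ksEntropy μ f

/-- zero intercept, in terms of measures -/
def Zero [MeasurableSpace X] (f : X → X) (ψ : X → ℝ) : Prop :=
  ∀ ε > (0 : ℝ), ∃ t > (0 : ℝ), ∀ μ, Inv f μ → ksEntropy μ f ≤ ((ε + t * ∫ x, ψ x ∂μ : ℝ) : EReal)

/-- the dichotomy for a pressure function -/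
def GapFor [MeasurableSpace X] (f : X → X) (φ : X → ℝ) : Prop :=
  ∀ (P : ℝ → ℝ) (a : ℝ), (∀ t > (0 : ℝ), pressure f (fun x => t * φ x) = (P t : EReal)) →
    Tendsto (fun t => P t - a * t) atTop (𝓝 0) →
    (∃ δ > (0 : ℝ), ∀ᶠ t : ℝ in atTop, P t - a * t ≤ Real.exp (-δ * t)) ∨
      (∀ ε > (0 : ℝ), ∀ᶠ t : ℝ in atTop, t ^ (-ε) ≤ P t - a * t)

end abstractdefs

section catsec
variable {A : Type}

/-- concatenation of a path of length `n` with a second path -/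
def cat (c : ℕ → A) (n : ℕ) (c' : ℕ → A) (j : ℕ) : A := if j < n then c j else c' (j - n)

theorem cat_right (c : ℕ → A) (n : ℕ) (c' : ℕ → A) (j : ℕ) : cat c n c' (n + j) = c' j := by
  simp [cat]

theorem cat_left {c c' : ℕ → A} {n : ℕ} (h : c' 0 = c n) {j : ℕ} (hj : j ≤ n) :
    cat c n c' j = c j := by
  unfold cat
  split_ifs with h1
  · rfl
  · have : j = n := by omega
    subst this
    simpa using h

theorem cat_mem {c c' : ℕ → A} {n n' : ℕ} {p : A → Prop} (hc : ∀ j ≤ n, p (c j))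
    (hc' : ∀ j ≤ n', p (c' j)) : ∀ j ≤ n + n', p (cat c n c' j) := by
  intro j hj
  unfold cat
  split_ifs with h1
  · exact hc j h1.le
  · exact hc' _ (by omega)

theorem cat_rel {c c' : ℕ → A} {n n' : ℕ} {R : A → A → Prop} (h : c' 0 = c n)
    (hc : ∀ j < n, R (c j) (c (j + 1))) (hc' : ∀ j < n', R (c' j) (c' (j + 1))) :
    ∀ j < n + n', R (cat c n c' j) (cat c n c' (j + 1)) := by
  intro j hj
  by_cases h1 : j < n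
  · rw [cat_left h h1.le, cat_left h (Nat.succ_le_of_lt h1)]
    exact hc j h1
  · obtain ⟨i, rfl⟩ : ∃ i, j = n + i := ⟨j - n, by omega⟩
    rw [cat_right, add_assoc, cat_right]
    exact hc' i (by omega)

theorem cat_sum {c c' : ℕ → A} {n : ℕ} (h : c' 0 = c n) (n' : ℕ) (g : A → A → ℝ) :
    ∑ j ∈ Finset.range (n + n'), g (cat c n c' j) (cat c n c' (j + 1)) =
      ∑ j ∈ Finset.range n, g (c j) (c (j + 1)) + ∑ j ∈ Finset.range n', g (c' j) (c' (j + 1)) := by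
  rw [Finset.sum_range_add]
  congr 1
  · refine Finset.sum_congr rfl fun j hj => ?_
    have h1 := Finset.mem_range.1 hj
    rw [cat_left h h1.le, cat_left h (Nat.succ_le_of_lt h1)]
  · refine Finset.sum_congr rfl fun j _ => ?_
    rw [cat_right, add_assoc, cat_right]

end catsec

theorem IsChain.cat {X : Type} [MetricSpace X] {f : X → X} {η : ℝ} {c c' : ℕ → X} {n n' : ℕ}
    (h : c' 0 = c n) (hc : IsChain f η c n) (hc' : IsChain f η c' n') :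
    IsChain f η (cat c n c') (n + n') :=
  cat_rel (R := fun a b => dist (f a) b ≤ η) h hc hc'

theorem IsChain.mono {X : Type} [MetricSpace X] {f : X → X} {η η' : ℝ} {c : ℕ → X} {n : ℕ}
    (hc : IsChain f η c n) (h : η ≤ η') : IsChain f η' c n := fun j hj => (hc j hj).trans h

theorem cost_cat {X : Type} [MetricSpace X] (f : X → X) (ψ : X → ℝ) (K : ℝ) {c c' : ℕ → X} {n : ℕ}
    (h : c' 0 = c n) (n' : ℕ) :
    cost f ψ K (cat c n c') (n + n') = cost f ψ K c n + cost f ψ K c' n' :=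
  cat_sum h n' (fun a b => ψ a + K * dist (f a) b)

theorem Lip.continuous {X : Type} [MetricSpace X] {K : ℝ} {ψ : X → ℝ} (hK : 0 ≤ K) (h : Lip K ψ) :
    Continuous ψ :=
  (LipschitzWith.of_dist_le_mul (K := ⟨K, hK⟩) fun x y => h x y).continuous

theorem continuous_of_lip {X : Type} [MetricSpace X] {f : X → X} {L : ℝ} (hL : 1 ≤ L)
    (h : ∀ x y, dist (f x) (f y) ≤ L * dist x y) : Continuous f :=
  (LipschitzWith.of_dist_le_mul (K := ⟨L, by linarith⟩) fun x y => h x y).continuous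

/-! ### Part A -/

def SRate : Prop := ∀ (X : Type) [MetricSpace X] (f : X → X) (L : ℝ) (N : ℕ) (e : ℝ),
  Sys f L N e → Rate f N e

def SWin : Prop := ∀ (X : Type) [MetricSpace X] (f : X → X) (L : ℝ) (N : ℕ) (e : ℝ),
  Sys f L N e → ∃ η > (0 : ℝ), ∃ C2 C3 : ℝ, 0 ≤ C2 ∧ Win f e η C2 C3

def SPart : Prop := ∀ (X : Type) [MetricSpace X] [CompactSpace X] [Nonempty X] [MeasurableSpace X]
  [BorelSpace X], Part X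

def SEntLB : Prop := ∀ (X : Type) [MeasurableSpace X] (f : X → X) (μ : Measure X),
  IsProbabilityMeasure μ → Measurable f → ∀ (r : ℕ) (ξ : X → Fin r), Measurable ξ → ∀ a b : ℝ,
    (∀ (n : ℕ) (w : Fin n → Fin r), μ.real (itin f ξ n ⁻¹' {w}) ≤ Real.exp (b - a * n)) →
    (a : EReal) ≤ ksEntropy μ f

def SEntNonneg : Prop := ∀ (X : Type) [MeasurableSpace X] (f : X → X) (μ : Measure X),
  IsProbabilityMeasure μ → (0 : EReal) ≤ ksEntropy μ f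

def SGlue : Prop := ∀ (X : Type) [MetricSpace X] (f : X → X) (q m : ℕ), 1 ≤ m →
  ∀ (z : X) (c : Fin q → ℕ → X), (∀ i, c i 0 = z ∧ c i m = z) →
    (∀ η, (∀ i, IsChain f η (c i) m) →
      ∀ ω l, dist (f (glue c m ω l)) (glue c m ω (l + 1)) ≤ η) ∧
    (∀ (ψ : X → ℝ) (K E : ℝ), (∀ i, cost f ψ K (c i) m ≤ E) → ∀ ω (k : ℕ),
      ∑ l ∈ Finset.range (k * m),
        (ψ (glue c m ω l) + K * dist (f (glue c m ω l)) (glue c m ω ((l : ℤ) + 1))) ≤ k * E) ∧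
    (∀ ω l, glue c m (fun b => ω (b + 1)) l = glue c m ω (l + m)) ∧
    (∀ ω (b : ℤ) (j : ℕ), j < m → glue c m ω (b * m + j) = c (ω b) j)

def SCode : Prop := ∀ (X : Type) [MetricSpace X] [CompactSpace X] [MeasurableSpace X]
  [BorelSpace X] (f : X → X) (N : ℕ) (e η : ℝ), 1 ≤ N → 0 < e → Rate f N e → Shad f η (e / 8) →
  ∀ (q m : ℕ), 1 ≤ m → ∀ (c : Fin q → ℕ → X),
    (∀ ω l, dist (f (glue c m ω l)) (glue c m ω (l + 1)) ≤ η) →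
    (∀ ω l, glue c m (fun b => ω (b + 1)) l = glue c m ω (l + m)) →
    ∃ Y : (ℤ → Fin q) → ℤ → X, (∀ ω l, Y ω (l + 1) = f (Y ω l)) ∧
      (∀ ω l, dist (glue c m ω l) (Y ω l) ≤ e / 8) ∧
      (∀ ω l, Y (fun b => ω (b + 1)) l = Y ω (l + m)) ∧ (∀ l, Measurable fun ω => Y ω l)

def SMeas : Prop := ∀ (X : Type) [MeasurableSpace X] (f : X → X), Measurable f →
  ∀ (q m : ℕ), 1 ≤ q → 1 ≤ m → ∀ Y : (ℤ → Fin q) → ℤ → X, (∀ ω l, Y ω (l + 1) = f (Y ω l)) →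
    (∀ ω l, Y (fun b => ω (b + 1)) l = Y ω (l + m)) → (∀ l, Measurable fun ω => Y ω l) →
    ∃ μ, Inv f μ ∧
      (∀ A : Set X, MeasurableSet A → ∀ s : ℕ,
        (∀ j < m, ∃ T : Finset ℤ, s ≤ T.card ∧
          ∀ ω ω', Y ω (j : ℕ) ∈ A → Y ω' (j : ℕ) ∈ A → ∀ b ∈ T, ω b = ω' b) →
        μ.real A ≤ (1 / q : ℝ) ^ s) ∧
      (∀ ψ : X → ℝ, Measurable ψ → (∃ B, ∀ x, |ψ x| ≤ B) → ∀ E C : ℝ,
        (∀ ω (k : ℕ), ∑ l ∈ Finset.range (k * m), ψ (Y ω l) ≤ k * E + C) →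
        ∫ x, ψ x ∂μ ≤ E / m)

def SHorse : Prop := ∀ (X : Type) [MetricSpace X] [CompactSpace X] [Nonempty X] [MeasurableSpace X]
  [BorelSpace X] (f : X → X) (L : ℝ) (N : ℕ) (e : ℝ), Sys f L N e →
  ∃ η0 > (0 : ℝ), ∃ C2, 0 ≤ C2 ∧ Horse f e η0 C2

def SGibbs : Prop := ∀ (X S T : Type) [MeasurableSpace X] [Fintype S] [Fintype T] (μ : Measure X),
  IsProbabilityMeasure μ → ∀ (W : X → S) (V : X → T), (∀ s, MeasurableSet (W ⁻¹' {s})) →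
  (∀ t, MeasurableSet (V ⁻¹' {t})) → ∀ Q : S → T → ℝ, (∀ s t, 0 < Q s t) →
  ∑ s, ∑ t, Q s t ≤ 1 → shannon μ W ≤ ∫ x, -Real.log (Q (W x) (V x)) ∂μ

def SUB : Prop := ∀ (X : Type) [MetricSpace X] [CompactSpace X] [MeasurableSpace X]
  [BorelSpace X] (f : X → X) (N : ℕ) (e : ℝ), Measurable f → 0 < e → Rate f N e → UB f e

def SMane : Prop := ∀ (X : Type) [MetricSpace X] [CompactSpace X] [Nonempty X] [MeasurableSpace X]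
  [BorelSpace X] (f : X → X) (e η0 C2 : ℝ), Trans f → 0 < η0 → 0 ≤ C2 → Horse f e η0 C2 →
  ∀ (ψ : X → ℝ) (K : ℝ), 0 ≤ K → Lip K ψ → (∀ μ, Inv f μ → 0 ≤ ∫ x, ψ x ∂μ) →
  ∃ (u : X → ℝ) (K' : ℝ), 0 ≤ K' ∧ Lip K' u ∧ ∀ x, 0 ≤ ψ x + u x - u (f x)

def SAub1 : Prop := ∀ (X : Type) [MetricSpace X] [CompactSpace X] (f : X → X) (L : ℝ), 1 ≤ L →
  (∀ x y, dist (f x) (f y) ≤ L * dist x y) → ∀ (ψ : X → ℝ) (K : ℝ), 0 ≤ K → Lip K ψ →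
  (∀ x, 0 ≤ ψ x) →
  (∀ x ∈ Aub f ψ, ψ x = 0) ∧ (∀ x ∈ Aub f ψ, f x ∈ Aub f ψ) ∧
    (∀ x ∈ Aub f ψ, ∃ w ∈ Aub f ψ, f w = x) ∧ Near f ψ

def SAub2 : Prop := ∀ (X : Type) [MetricSpace X] (f : X → X) (L : ℝ), 1 ≤ L →
  (∀ x y, dist (f x) (f y) ≤ L * dist x y) → ∀ (ψ : X → ℝ), Near f ψ → Rev f L (Aub f ψ)

def SAub3 : Prop := ∀ (X : Type) [MetricSpace X] [CompactSpace X] [MeasurableSpace X]
  [BorelSpace X] (f : X → X), Continuous f → Part X → ∀ (ψ : X → ℝ), Continuous ψ →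
  (∀ x, 0 ≤ ψ x) → Near f ψ → Pay f ψ (Aub f ψ)

def SDim : Prop := ∀ (X : Type) [MetricSpace X] [CompactSpace X] [Nonempty X] [MeasurableSpace X]
  [BorelSpace X] (f : X → X) (N : ℕ) (e η0 C2 : ℝ), 0 < e → Rate f N e → Trans f → 0 < η0 →
  0 ≤ C2 → Horse f e η0 C2 → ∀ (ψ : X → ℝ) (K : ℝ), 0 ≤ K → Lip K ψ → (∀ x, 0 ≤ ψ x) →
  ∀ Ω : Set X, (∀ x ∈ Ω, ψ x = 0) → (∀ x ∈ Ω, f x ∈ Ω) → (∀ x ∈ Ω, ∃ w ∈ Ω, f w = x) →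
  Zero f ψ → Dim0 Ω e

def SShort : Prop := ∀ (A : Type) (R : A → A → Prop) (Z : Finset A) (n : ℕ) (c : ℕ → A),
  (∀ j ≤ n, c j ∈ Z) → (∀ j < n, R (c j) (c (j + 1))) →
  ∃ n' < Z.card, ∃ c' : ℕ → A, (∀ j ≤ n', c' j ∈ Z) ∧ (∀ j < n', R (c' j) (c' (j + 1))) ∧
    c' 0 = c 0 ∧ c' n' = c n

def SII : Prop := ∀ (X : Type) [MetricSpace X] [CompactSpace X] [MeasurableSpace X]
  [BorelSpace X] (f : X → X) (L e η0 C2 : ℝ), 1 ≤ L → (∀ x y, dist (f x) (f y) ≤ L * dist x y) →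
  0 < e → 0 < η0 → 0 ≤ C2 → Horse f e η0 C2 → ∀ (ψ : X → ℝ) (K : ℝ), 0 ≤ K → Lip K ψ →
  ∀ Ω : Set X, (∀ x ∈ Ω, ψ x = 0) → Dim0 Ω e → (∀ η > (0 : ℝ), Branch f Ω e η) → AltII f ψ

def SI : Prop := ∀ (X : Type) [MetricSpace X] [CompactSpace X] [MeasurableSpace X]
  [BorelSpace X] (f : X → X) (L e : ℝ), 1 ≤ L → (∀ x y, dist (f x) (f y) ≤ L * dist x y) →
  0 < e → Part X → UB f e → ∀ (ψ : X → ℝ) (Ω : Set X), Rev f L Ω → Pay f ψ Ω →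
  (∀ μ, Inv f μ → 0 ≤ ∫ x, ψ x ∂μ) → ∀ η > (0 : ℝ), ¬ Branch f Ω e η → AltI f ψ

def SGapA : Prop := ∀ (X : Type) [MetricSpace X] [CompactSpace X] [Nonempty X] [MeasurableSpace X]
  [BorelSpace X] (f : X → X) (L : ℝ) (N : ℕ) (e : ℝ), Sys f L N e →
  ∀ (φ : X → ℝ) (K : ℝ), 0 ≤ K → Lip K φ → GapFor f φ

def SGapH : Prop := ∀ (X : Type) [MetricSpace X] [CompactSpace X] [Nonempty X] [MeasurableSpace X]
  [BorelSpace X] (f : X → X), HSys f → ∀ (φ : X → ℝ) (K α : ℝ), 0 ≤ K → 0 < α → α ≤ 1 →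
  (∀ x y, |φ x - φ y| ≤ K * dist x y ^ α) → GapFor f φ

/-! ### Part B -/

/-- hyperbolic data on the plane; symmetric under `(F, G, U, S) ↦ (G, F, S, U)` -/
structure HypD (F G : E2 → E2) (U S : E2 → Submodule ℝ E2) (C lam M : ℝ) : Prop where
  FG : ∀ x, F (G x) = x
  GF : ∀ x, G (F x) = x
  dF : Differentiable ℝ F
  dG : Differentiable ℝ G
  M1 : 1 ≤ M
  bF : ∀ x, ‖fderiv ℝ F x‖ ≤ M
  bG : ∀ x, ‖fderiv ℝ G x‖ ≤ M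
  lF : ∀ x y, ‖fderiv ℝ F x - fderiv ℝ F y‖ ≤ M * ‖x - y‖
  lG : ∀ x y, ‖fderiv ℝ G x - fderiv ℝ G y‖ ≤ M * ‖x - y‖
  rU : ∀ x, Module.finrank ℝ (U x) = 1
  rS : ∀ x, Module.finrank ℝ (S x) = 1
  compl : ∀ x, IsCompl (S x) (U x)
  UF : ∀ x, ∀ v ∈ U x, fderiv ℝ F x v ∈ U (F x)
  SF : ∀ x, ∀ v ∈ S x, fderiv ℝ F x v ∈ S (F x)
  UG : ∀ x, ∀ v ∈ U x, fderiv ℝ G x v ∈ U (G x)
  SG : ∀ x, ∀ v ∈ S x, fderiv ℝ G x v ∈ S (G x)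
  Cpos : 0 < C
  lpos : 0 < lam
  l1 : lam < 1
  cS : ∀ (x : E2) (n : ℕ), ∀ v ∈ S x, ‖fderiv ℝ (F^[n]) x v‖ ≤ C * lam ^ n * ‖v‖
  cU : ∀ (x : E2) (n : ℕ), ∀ v ∈ U x, ‖fderiv ℝ (G^[n]) x v‖ ≤ C * lam ^ n * ‖v‖

theorem HypD.symm {F G : E2 → E2} {U S : E2 → Submodule ℝ E2} {C lam M : ℝ}
    (h : HypD F G U S C lam M) : HypD G F S U C lam M :=
  ⟨h.GF, h.FG, h.dG, h.dF, h.M1, h.bG, h.bF, h.lG, h.lF, h.rS, h.rU, fun x => (h.compl x).symm,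
    h.SG, h.UG, h.SF, h.UF, h.Cpos, h.lpos, h.l1, h.cU, h.cS⟩

/-- facts on the iterates of `F` -/
structure Iter (F : E2 → E2) (U S : E2 → Submodule ℝ E2) (C lam M : ℝ) : Prop where
  diff : ∀ n, Differentiable ℝ (F^[n])
  bnd : ∀ n x, ‖fderiv ℝ (F^[n]) x‖ ≤ M ^ n
  lipD : ∀ n x y, ‖fderiv ℝ (F^[n]) x - fderiv ℝ (F^[n]) y‖ ≤ (2 * M ^ 2) ^ n * ‖x - y‖
  lip : ∀ n x y, ‖F^[n] x - F^[n] y‖ ≤ M ^ n * ‖x - y‖
  taylor : ∀ n x y, ‖F^[n] y - F^[n] x - fderiv ℝ (F^[n]) x (y - x)‖ ≤ (2 * M ^ 2) ^ n * ‖y - x‖ ^ 2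
  memU : ∀ n x, ∀ v ∈ U x, fderiv ℝ (F^[n]) x v ∈ U (F^[n] x)
  memS : ∀ n x, ∀ v ∈ S x, fderiv ℝ (F^[n]) x v ∈ S (F^[n] x)
  expU : ∀ n x, ∀ v ∈ U x, ‖v‖ ≤ C * lam ^ n * ‖fderiv ℝ (F^[n]) x v‖
  conS : ∀ n x, ∀ v ∈ S x, ‖fderiv ℝ (F^[n]) x v‖ ≤ C * lam ^ n * ‖v‖

def Angle (U S : E2 → Submodule ℝ E2) (Γ : ℝ) : Prop :=
  ∀ x, ∀ u ∈ U x, ∀ s ∈ S x, ‖u‖ ≤ Γ * ‖u + s‖ ∧ ‖s‖ ≤ Γ * ‖u + s‖

/-- Hoelder continuity of `U`, measured by the `S`-component -/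
def HolU (U S : E2 → Submodule ℝ E2) (C' α : ℝ) : Prop :=
  ∀ x y : E2, ‖x - y‖ ≤ 1 → ∀ u ∈ U y, ∀ s ∈ S y, u + s ∈ U x → ‖s‖ ≤ C' * ‖x - y‖ ^ α * ‖u + s‖

/-- facts on the covering map -/
structure TorF : Prop where
  add : ∀ x y, proj (x + y) = proj x + proj y
  sub : ∀ x y, proj (x - y) = proj x - proj y
  sec : ∀ p, proj (sec p) = p
  le : ∀ x y, dist (proj x) (proj y) ≤ ‖x - y‖
  lift : ∀ x q, ∃ y, proj y = q ∧ ‖x - y‖ ≤ 2 * dist (proj x) q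
  loc : ∀ x y, ‖x - y‖ ≤ 1 / 2 → ‖x - y‖ ≤ 2 * dist (proj x) (proj y)
  diam : ∀ p q : T2, dist p q ≤ 1 / 2
  const : ∀ H : E2 → E2, Continuous H → (∀ x, proj (H x) = 0) → ∀ x y, H x = H y
  bdd : ∀ x, ∃ y, proj y = proj x ∧ ‖y‖ ≤ 1

def STor : Prop := TorF

def SHypD : Prop := TorF → ∀ (f : T2 → T2) (F : E2 ≃ E2) (Eu Es : T2 → Submodule ℝ E2),
  IsAnosov f F Eu Es → (∃ C lam M, HypD F F.symm (fun x => Eu (proj x)) (fun x => Es (proj x)) C lam M) ∧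
    ∀ x y, proj x = proj y → fderiv ℝ F x = fderiv ℝ F y

def SIter : Prop := ∀ (F G : E2 → E2) (U S : E2 → Submodule ℝ E2) (C lam M : ℝ),
  HypD F G U S C lam M → Iter F U S C lam M

def SAngle : Prop := ∀ (F G : E2 → E2) (U S : E2 → Submodule ℝ E2) (C lam M : ℝ),
  HypD F G U S C lam M → Iter F U S C lam M → ∃ Γ, 1 ≤ Γ ∧ Angle U S Γ

def SHol : Prop := ∀ (F G : E2 → E2) (U S : E2 → Submodule ℝ E2) (C lam M Γ : ℝ),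
  HypD F G U S C lam M → Iter G S U C lam M → 1 ≤ Γ → Angle U S Γ →
  ∃ C' α, 0 ≤ C' ∧ 0 < α ∧ α ≤ 1 ∧ HolU U S C' α

def SExpE : Prop := ∀ (F G : E2 → E2) (U S : E2 → Submodule ℝ E2) (C lam M : ℝ),
  HypD F G U S C lam M → Iter F U S C lam M → Iter G S U C lam M →
  ∀ κ > (0 : ℝ), ∃ (N : ℕ) (e : ℝ), 1 ≤ N ∧ 0 < e ∧ ∀ x y : E2, ‖x - y‖ ≤ e →
    ‖x - y‖ ≤ κ * max ‖G^[N] x - G^[N] y‖ ‖F^[N] x - F^[N] y‖

def SCross : Prop := ∀ (T : ℤ → ℝ × ℝ → ℝ × ℝ) (σ : ℤ → ℝ) (ε : ℝ), 0 < ε → (∀ i, Continuous (T i)) →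
  (∀ i, σ i = 1 ∨ σ i = -1) →
  (∀ i v, |v.1| ≤ ε → |v.2| ≤ ε → |(T i v).2| ≤ ε ∧ (v.1 = ε → ε ≤ σ i * (T i v).1) ∧
    (v.1 = -ε → σ i * (T i v).1 ≤ -ε)) →
  ∃ v : ℤ → ℝ × ℝ, ∀ i, |(v i).1| ≤ ε ∧ |(v i).2| ≤ ε ∧ v (i + 1) = T i (v i)

def SShadE : Prop := ∀ (F G : E2 → E2) (U S : E2 → Submodule ℝ E2) (C lam M Γ C1 α1 : ℝ),
  HypD F G U S C lam M → Iter F U S C lam M → 1 ≤ Γ → Angle U S Γ →
  0 ≤ C1 → 0 < α1 → HolU U S C1 α1 →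
  ∃ N : ℕ, 1 ≤ N ∧ ∀ ε > (0 : ℝ), ∃ η > (0 : ℝ), ∀ x k : ℤ → E2,
    (∀ i y, U (y - k i) = U y ∧ S (y - k i) = S y) →
    (∀ i, ‖F^[N] (x i) - k i - x (i + 1)‖ ≤ η) →
    ∃ y : ℤ → E2, ∀ i, y (i + 1) = F^[N] (y i) - k i ∧ ‖y i - x i‖ ≤ ε

def STrans : Prop := ∀ (X : Type) [MetricSpace X] [CompactSpace X] [ConnectedSpace X]
  [MeasurableSpace X] [BorelSpace X] (f : X → X) (μ : Measure X) [IsFiniteMeasure μ]
  [μ.IsOpenPosMeasure], Continuous f → Function.Surjective f → MeasurePreserving f μ μ → Trans f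

def SPot : Prop := TorF → ∀ (F G : E2 → E2) (Eu Es : T2 → Submodule ℝ E2) (C lam M C' α : ℝ),
  HypD F G (fun x => Eu (proj x)) (fun x => Es (proj x)) C lam M →
  (∀ x y, proj x = proj y → fderiv ℝ F x = fderiv ℝ F y) → 0 ≤ C' → 0 < α → α ≤ 1 →
  HolU (fun x => Eu (proj x)) (fun x => Es (proj x)) C' α →
  ∃ K, 0 ≤ K ∧ ∀ p q, |geomPot F Eu p - geomPot F Eu q| ≤ K * dist p q ^ α

/-- descent of the plane estimates to the torus -/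
def SDesc : Prop := TorF → ∀ (f : T2 → T2) (F G : E2 → E2) (Eu Es : T2 → Submodule ℝ E2) (M : ℝ),
  1 ≤ M → (∀ x, proj (F x) = f (proj x)) → (∀ x, F (G x) = x) →
  (∀ n x y, ‖F^[n] x - F^[n] y‖ ≤ M ^ n * ‖x - y‖) →
  (∀ n x y, ‖G^[n] x - G^[n] y‖ ≤ M ^ n * ‖x - y‖) → Function.Injective f →
  (∀ κ > (0 : ℝ), ∃ (N : ℕ) (e : ℝ), 1 ≤ N ∧ 0 < e ∧ ∀ x y : E2, ‖x - y‖ ≤ e →
    ‖x - y‖ ≤ κ * max ‖G^[N] x - G^[N] y‖ ‖F^[N] x - F^[N] y‖) →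
  (∃ N : ℕ, 1 ≤ N ∧ ∀ ε > (0 : ℝ), ∃ η > (0 : ℝ), ∀ x k : ℤ → E2,
    (∀ i y, Eu (proj (y - k i)) = Eu (proj y) ∧ Es (proj (y - k i)) = Es (proj y)) →
    (∀ i, ‖F^[N] (x i) - k i - x (i + 1)‖ ≤ η) →
    ∃ y : ℤ → E2, ∀ i, y (i + 1) = F^[N] (y i) - k i ∧ ‖y i - x i‖ ≤ ε) →
  (∀ p q, dist (f p) (f q) ≤ (2 * M) * dist p q) ∧
  (∀ lam > (0 : ℝ), ∃ N e, 1 ≤ N ∧ 0 < e ∧ Expa f N e lam) ∧ (∀ ε > (0 : ℝ), ∃ η > (0 : ℝ), Shad f η ε)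

/-! ### Part C -/

noncomputable def hyperb (h t : ℝ) : ℝ := h / 4 * (Real.sqrt (16 + 9 * t ^ 2) - 5 * t)

def SHyp : Prop := ∀ h : ℝ, 0 < h →
  StrictConvexOn ℝ Set.univ (hyperb h) ∧ AnalyticOnNhd ℝ (hyperb h) Set.univ ∧
  hyperb h 0 = h ∧ hyperb h 1 = 0 ∧ deriv (hyperb h) 0 < -h ∧ -h < deriv (hyperb h) 1 ∧
  deriv (hyperb h) 1 < 0 ∧
  Tendsto (fun t => hyperb h t - (-(h / 2)) * t) atTop (𝓝 0) ∧
  Tendsto (fun t => hyperb h t - (-(2 * h)) * t) atBot (𝓝 0) ∧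
  Tendsto (fun t => t * (hyperb h t - (-(h / 2)) * t)) atTop (𝓝 (2 * h / 3)) ∧
  Tendsto (fun t => t * (hyperb h t - (-(2 * h)) * t)) atBot (𝓝 (-(2 * h / 3)))

end Pool.Agent.MP_80da8f_an
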